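import Mathlib
import Pool.Agent.H17R2.LineFam

set_option autoImplicit false

/-!
# Chains in integral trees

Auxiliary lemmas on the integral trees of `Pool.Agent.H17R2.Tree`.
-/

namespace Pool.Agent.Helper477_holes

open Pool.Agent.H17R2

variable {V : Type*}

/-- A chain of unit steps which never arrives at `x` stays on one side of `x`. -/
lemma sep (T : ZTree V) {R : V → V → Prop} (hR : ∀ a b, R a b → T.d a b = 1) {p x : V}
    (hp : p ≠ x) (hx : ∀ b, ¬ R b x) {y : V} (h : Relation.ReflTransGen R p y) :
    T.d p y < T.d p x + T.d x y := by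
  induction h with
  | refl =>
    have h1 := T.d_nonneg p x
    have h2 : T.d p x ≠ 0 := fun h => hp (T.eq_of_zero _ _ h)
    have h3 := T.d_comm p x
    have h4 := T.d_self p
    omega
  | @tail y z hy hyz ih =>
    have hz : z ≠ x := fun h => hx y (h ▸ hyz)
    have h1 := T.four p z x y
    have h2 := hR _ _ hyz
    have h3 := T.d_comm z y
    have h4 := T.d_comm z x
    have h5 : T.d x z ≠ 0 := fun h => hz (T.eq_of_zero _ _ h).symm
    have h6 := T.d_nonneg x z
    have h7 := T.d_nonneg x y
    rcases le_max_iff.1 h1 with h | h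
    · by_cases h8 : T.d x y = 0
      · have : x = y := T.eq_of_zero _ _ h8
        subst this
        rw [T.d_self] at ih
        omega
      · omega
    · omega

/-- A chain of unit steps between two adjacent points uses the edge. -/
lemma edge (T : ZTree V) {R : V → V → Prop} (hR : ∀ a b, R a b → T.d a b = 1) {x y : V}
    (hxy : T.d x y = 1) (h : Relation.ReflTransGen R x y) : R x y := by
  by_contra hn
  have key : ∀ z, Relation.ReflTransGen R x z → T.d z x < T.d z y := by
    intro z hz
    induction hz with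
    | refl => rw [T.d_self, hxy]; norm_num
    | @tail z w hz hzw ih =>
      have h1 := T.par w x y
      by_contra hcon
      have h2 := T.tri z w y
      have h3 := T.tri w z x
      have h4 := hR _ _ hzw
      have h5 := T.d_comm w z
      have h6 := T.tri z x y
      have h7 := T.tri w y x
      have h8 := T.d_comm x y
      have h9 := T.four z y w x
      have h10 := T.d_comm y w
      have h11 : T.d w x = T.d w y + 1 := by omega
      have h12 : T.d z y = T.d z x + 1 := by omega
      have h13 : T.d z x = T.d w y := by omega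
      have h14 : T.d z x = 0 := by
        have := T.d_nonneg z x
        rcases le_max_iff.1 h9 with h | h <;> omega
      have h15 : z = x := T.eq_of_zero _ _ h14
      have h16 : w = y := T.eq_of_zero _ _ (h13 ▸ h14)
      rw [h15, h16] at hzw
      exact hn hzw
  have := key y h
  rw [T.d_self] at this
  have h2 := T.d_nonneg y x
  omega

variable {T : ZTree V}

/-- A point between two points of a line is on the line, between them. -/
lemma on_line' {φ : ℤ → V} (h : T.IsLine φ) {s t : ℤ} (hst : s ≤ t) {x : V}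
    (hx : T.d (φ s) x + T.d x (φ t) = T.d (φ s) (φ t)) : ∃ u, s ≤ u ∧ u ≤ t ∧ x = φ u := by
  rw [h s t] at hx
  obtain ⟨u, hu, h1, h2⟩ := h.on_line s t x hx
  refine ⟨u, ?_, ?_, hu⟩
  · rcases abs_cases (s - u) with h3 | h3 <;> rcases abs_cases (u - t) with h4 | h4 <;>
    rcases abs_cases (s - t) with h5 | h5 <;> omega
  · rcases abs_cases (s - u) with h3 | h3 <;> rcases abs_cases (u - t) with h4 | h4 <;>
    rcases abs_cases (s - t) with h5 | h5 <;> omega

lemma line_btw {φ : ℤ → V} (h : T.IsLine φ) {s u t : ℤ} (h1 : s ≤ u) (h2 : u ≤ t) :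
    T.d (φ s) (φ u) + T.d (φ u) (φ t) = T.d (φ s) (φ t) := by
  rw [h, h, h, abs_of_nonpos (by omega), abs_of_nonpos (by omega), abs_of_nonpos (by omega)]
  ring

lemma range_conv {φ : ℤ → V} (h : T.IsLine φ) {x y z : V} (hx : x ∈ Set.range φ)
    (hy : y ∈ Set.range φ) (hz : T.d x z + T.d z y = T.d x y) : z ∈ Set.range φ := by
  obtain ⟨s, rfl⟩ := hx
  obtain ⟨t, rfl⟩ := hy
  rcases le_total s t with hst | hst
  · obtain ⟨u, -, -, hu⟩ := on_line' h hst hz
    exact ⟨u, hu.symm⟩
  · rw [T.d_comm (φ s) z, T.d_comm z (φ t), T.d_comm (φ s) (φ t), add_comm] at hz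
    obtain ⟨u, -, -, hu⟩ := on_line' h hst hz
    exact ⟨u, hu.symm⟩

lemma line_inj {φ : ℤ → V} (h : T.IsLine φ) {s t : ℤ} (hst : φ s = φ t) : s = t := by
  have := h s t
  rw [hst, T.d_self] at this
  have := abs_eq_zero.1 this.symm
  omega

/-- The projection of a point in the range. -/
lemma pr_range {φ : ℤ → V} (h : T.IsLine φ) {x : V} (hx : x ∈ Set.range φ) :
    φ (T.pr φ x) = x := by
  obtain ⟨k, rfl⟩ := hx
  rw [h.pr_self]

/-- Points which project to both ends of a segment of the line have the segment between them. -/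
lemma seg_btw {φ : ℤ → V} (h : T.IsLine φ) {p q : V} (hlt : T.pr φ p < T.pr φ q) {s : ℤ}
    (h1 : T.pr φ p ≤ s) (h2 : s ≤ T.pr φ q) : T.d p (φ s) + T.d (φ s) q = T.d p q := by
  have e1 := h.pr_spec p s
  have e2 := h.pr_spec q s
  have e3 := h.d_eq p q (by omega)
  have e4 := T.d_comm (φ s) q
  have e5 := T.d_comm q (φ (T.pr φ q))
  rw [abs_of_nonneg (by omega : 0 ≤ s - T.pr φ p)] at e1
  rw [abs_of_nonpos (by omega : s - T.pr φ q ≤ 0)] at e2
  rw [abs_of_nonpos (by omega : T.pr φ p - T.pr φ q ≤ 0)] at e3
  omega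

/-- Equivariance of the projection under a translation of the line. -/
lemma pr_trans {G : Type*} [Group G] [MulAction G V] {φ : ℤ → V} (h : T.IsLine φ)
    (hd : ∀ (g : G) p q, T.d (g • p) (g • q) = T.d p q) (g : G) (τ : ℤ)
    (hg : ∀ k, g • φ k = φ (k + τ)) (p : V) : T.pr φ (g • p) = T.pr φ p + τ := by
  apply h.pr_eq
  intro k
  rw [← hg, hd]
  have e : φ k = g • φ (k - τ) := by rw [hg]; congr 1; ring
  rw [e, hd, h.pr_spec p (k - τ)]
  have := abs_nonneg (k - τ - T.pr φ p)
  omega

end Pool.Agent.Helper477_holes
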