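import Mathlib

set_option autoImplicit false

/-!
# The groups `Γ{p,q | h_2,…,h_k}_{r_1,…,r_k}`

An entry `0` of `h` or `r` means that there is no prescription.
-/

namespace Pool.Agent.Helper477_holes

/-- The word `ρ₀ρ₁(ρ₂ρ₁)^(j-1)` of the `j`-holes. -/
def holeWord (j : ℕ) : FreeGroup (Fin 3) :=
  FreeGroup.of 0 * FreeGroup.of 1 * (FreeGroup.of 2 * FreeGroup.of 1) ^ (j - 1)

/-- The word `ρ₀(ρ₁ρ₂)^j` of the `j`-zigzags. -/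
def zigzagWord (j : ℕ) : FreeGroup (Fin 3) :=
  FreeGroup.of 0 * (FreeGroup.of 1 * FreeGroup.of 2) ^ j

/-- The relators of `Γ{p,q | h_2,…,h_k}_{r_1,…,r_k}`, `k = ⌊q/2⌋`; the entry `0` of `h` or `r`
stands for `·` (no prescription). -/
def relators (p q : ℕ) (h r : ℕ → ℕ) : Set (FreeGroup (Fin 3)) :=
  {FreeGroup.of 0 ^ 2, FreeGroup.of 1 ^ 2, FreeGroup.of 2 ^ 2,
    (FreeGroup.of 0 * FreeGroup.of 1) ^ p, (FreeGroup.of 1 * FreeGroup.of 2) ^ q,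
    (FreeGroup.of 0 * FreeGroup.of 2) ^ 2} ∪
  {w | ∃ j, 2 ≤ j ∧ 2 * j ≤ q ∧ w = holeWord j ^ h j} ∪
  {w | ∃ j, 1 ≤ j ∧ 2 * j ≤ q ∧ w = zigzagWord j ^ r j}

/-- The group `Γ{p,q | h_2,…,h_k}_{r_1,…,r_k}`. -/
abbrev Gam (p q : ℕ) (h r : ℕ → ℕ) : Type := PresentedGroup (relators p q h r)

/-- The length of the `j`-holes; the `1`-holes are the faces. -/
def hol (p : ℕ) (h : ℕ → ℕ) (j : ℕ) : ℕ := if j = 1 then p else h j

/-- The residues `±j` modulo `q`, `1 ≤ j ≤ q/2`, for which the length of the `j`-holes or the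
length of the `j`-zigzags is prescribed. -/
def Used (p q : ℕ) (h r : ℕ → ℕ) : Set (ZMod q) :=
  {x | ∃ j : ℕ, 1 ≤ j ∧ 2 * j ≤ q ∧ (hol p h j ≠ 0 ∨ r j ≠ 0) ∧ (x = j ∨ x = -j)}

/-- `j` is, modulo `q`, a sum of two elements of `Used`. -/
def Sum2 (p q : ℕ) (h r : ℕ → ℕ) (j : ℕ) : Prop :=
  ∃ a ∈ Used p q h r, ∃ b ∈ Used p q h r, a + b = (j : ZMod q)

/-- The prescribed lengths are large. -/
structure Large (p q : ℕ) (h r : ℕ → ℕ) : Prop where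
  hq : 3 ≤ q
  hp : p ≠ 0
  /-- both the `j`-holes and the `j`-zigzags are prescribed -/
  both : ∀ j, 1 ≤ j → 2 * j < q → hol p h j ≠ 0 → r j ≠ 0 →
    7 ≤ hol p h j ∧ 7 ≤ r j ∧
    (2 * (j : ZMod q) ∈ Used p q h r → 9 ≤ hol p h j ∧ 9 ≤ r j) ∧
    (3 * j = q → 11 ≤ hol p h j ∧ 11 ≤ r j)
  /-- only the `j`-holes are prescribed -/
  hole : ∀ j, 1 ≤ j → 2 * j < q → hol p h j ≠ 0 → r j = 0 →
    4 ≤ hol p h j ∧ (Sum2 p q h r j → 6 ≤ hol p h j)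
  /-- only the `j`-zigzags are prescribed -/
  zigzag : ∀ j, 1 ≤ j → 2 * j < q → hol p h j = 0 → r j ≠ 0 →
    4 ≤ r j ∧ (Sum2 p q h r j → 6 ≤ r j)
  /-- the straight paths, `j = q/2`; for these, prescribing `h_j` and `r_j` comes to almost the
  same -/
  straight : ∀ j, 2 * j = q → (hol p h j ≠ 0 ∨ r j ≠ 0) →
    (Even (hol p h j) ∨ Even (r j)) ∧ 4 ≤ Nat.gcd (hol p h j) (r j) ∧
    (Sum2 p q h r j → 6 ≤ Nat.gcd (hol p h j) (r j))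

end Pool.Agent.Helper477_holes
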