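import Mathlib
import Pool.Agent.Helper477_holes.Basic

set_option autoImplicit false

/-!
# The regular tree with its rotations and reflections

The vertices of the `q`-regular tree are the words over `ZMod q` all of whose letters, except
possibly the first one, are nonzero.  The neighbours of a vertex are numbered by `ZMod q`
(`dir`), `0` leading back to the parent if there is one.
-/

namespace Pool.Agent.Helper477_holes

open Pool.Agent.H17R2

section lists

variable {β : Type*} [DecidableEq β]

lemma lcp_self (l : List β) : lcp l l = l.length := by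
  induction l with
  | nil => rfl
  | cons a l ih => simp [lcp, ih]

lemma eq_of_lcp (l m : List β) (h : lcp l m = l.length) (h' : lcp l m = m.length) : l = m := by
  induction l generalizing m with
  | nil =>
    cases m with
    | nil => rfl
    | cons b m => simp [lcp] at h'
  | cons a l ih =>
    cases m with
    | nil => simp [lcp] at h
    | cons b m =>
      simp only [lcp] at h h'
      by_cases hab : a = b
      · subst hab
        rw [ih m (by simpa using h) (by simpa using h')]
      · simp [hab] at h

lemma lcp_append (l u : List β) : lcp l (l ++ u) = l.length := by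
  induction l with
  | nil => simp [lcp]
  | cons a l ih => simp [lcp, ih]

lemma prefix_of_lcp (l m : List β) (h : lcp l m = l.length) : ∃ u, m = l ++ u := by
  induction l generalizing m with
  | nil => exact ⟨m, rfl⟩
  | cons a l ih =>
    cases m with
    | nil => simp [lcp] at h
    | cons b m =>
      simp only [lcp] at h
      by_cases hab : a = b
      · subst hab
        obtain ⟨u, hu⟩ := ih m (by simpa using h)
        exact ⟨u, by rw [hu]; rfl⟩
      · simp [hab] at h

/-- The tree of words. -/
def lTree (β : Type*) [DecidableEq β] : ZTree (List β) where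
  d l m := (l.length : ℤ) + m.length - 2 * lcp l m
  d_self l := by rw [lcp_self]; ring
  d_comm l m := by rw [lcp_comm]; ring
  d_nonneg l m := by
    have := lcp_le_left l m
    have := lcp_le_right l m
    omega
  tri p q r := by
    have h1 := lcp_ultra p q r
    have h2 := lcp_le_left p q
    have h3 := lcp_le_right p q
    have h4 := lcp_le_left q r
    have h5 := lcp_le_right q r
    rcases min_le_iff.1 h1 with h | h <;> omega
  eq_of_zero l m h := by
    have := lcp_le_left l m
    have := lcp_le_right l m
    exact eq_of_lcp l m (by omega) (by omega)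
  par p q r := ⟨p.length + q.length + r.length - lcp p q - lcp q r - lcp p r, by ring⟩
  four p q r s := by
    have a1 := lcp_ultra p r q
    have a2 := lcp_ultra p s q
    have a3 := lcp_ultra r p s
    have a4 := lcp_ultra r q s
    have a5 := lcp_ultra p q r
    have a6 := lcp_ultra p q s
    have a7 := lcp_ultra q p r
    have a8 := lcp_ultra q p s
    have a9 := lcp_ultra p r s
    have a10 := lcp_ultra p s r
    have a11 := lcp_ultra q r s
    have a12 := lcp_ultra q s r
    have e1 := lcp_comm r p
    have e2 := lcp_comm r q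
    have e3 := lcp_comm s p
    have e4 := lcp_comm s q
    have e5 := lcp_comm s r
    have e6 := lcp_comm q p
    rcases min_le_iff.1 a1 with a1 | a1 <;> rcases min_le_iff.1 a2 with a2 | a2 <;>
    rcases min_le_iff.1 a3 with a3 | a3 <;> rcases min_le_iff.1 a4 with a4 | a4 <;>
    rw [le_max_iff] <;>
    rcases min_le_iff.1 a5 with a5 | a5 <;> rcases min_le_iff.1 a6 with a6 | a6 <;>
    rcases min_le_iff.1 a7 with a7 | a7 <;> rcases min_le_iff.1 a8 with a8 | a8 <;>
    omega

end lists

/-- The vertices of the `q`-regular tree. -/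
@[ext] structure Vt (q : ℕ) where
  /-- the word -/
  l : List (ZMod q)
  /-- all letters but the first one are nonzero -/
  ne : ∀ a ∈ l.tail, a ≠ 0

variable {q : ℕ}

namespace Vt

/-- The tree metric. -/
def T (q : ℕ) : ZTree (Vt q) where
  d x y := (lTree (ZMod q)).d x.1 y.1
  d_self x := (lTree (ZMod q)).d_self x.1
  d_comm x y := (lTree (ZMod q)).d_comm x.1 y.1
  d_nonneg x y := (lTree (ZMod q)).d_nonneg x.1 y.1
  tri x y z := (lTree (ZMod q)).tri x.1 y.1 z.1
  eq_of_zero x y h := Vt.ext ((lTree (ZMod q)).eq_of_zero x.1 y.1 h)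
  par x y z := (lTree (ZMod q)).par x.1 y.1 z.1
  four x y z w := (lTree (ZMod q)).four x.1 y.1 z.1 w.1

lemma d_def (x y : Vt q) :
    (T q).d x y = (x.1.length : ℤ) + y.1.length - 2 * lcp x.1 y.1 := rfl

/-- Adjacent vertices. -/
lemma adj {x y : Vt q} (h : (T q).d x y = 1) :
    (∃ a, y.1 = x.1 ++ [a]) ∨ ∃ a, x.1 = y.1 ++ [a] := by
  rw [d_def] at h
  have h1 := lcp_le_left x.1 y.1
  have h2 := lcp_le_right x.1 y.1
  rcases le_total x.1.length y.1.length with h3 | h3
  · left
    obtain ⟨u, hu⟩ := prefix_of_lcp x.1 y.1 (by omega)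
    have : u.length = 1 := by
      have := congrArg List.length hu
      rw [List.length_append] at this
      omega
    obtain ⟨a, rfl⟩ := List.length_eq_one_iff.1 this
    exact ⟨a, hu⟩
  · right
    obtain ⟨u, hu⟩ := prefix_of_lcp y.1 x.1 (by rw [lcp_comm]; omega)
    have : u.length = 1 := by
      have := congrArg List.length hu
      rw [List.length_append] at this
      omega
    obtain ⟨a, rfl⟩ := List.length_eq_one_iff.1 this
    exact ⟨a, hu⟩

lemma adj_of {x y : Vt q} {a : ZMod q} (h : y.1 = x.1 ++ [a]) : (T q).d x y = 1 := by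
  rw [d_def, h, lcp_append, List.length_append]
  simp
  ring

lemma adj_of' {x y : Vt q} {a : ZMod q} (h : x.1 = y.1 ++ [a]) : (T q).d x y = 1 := by
  rw [(T q).d_comm]; exact adj_of h

/-- The number of the edge from `y` to `x`. -/
def dir (y x : Vt q) : ZMod q := if y.1.length < x.1.length then x.1.getLastD 0 else 0

lemma dir_child {x y : Vt q} {a : ZMod q} (h : y.1 = x.1 ++ [a]) : dir x y = a := by
  unfold dir
  rw [h]
  simp

lemma dir_parent {x y : Vt q} {a : ZMod q} (h : y.1 = x.1 ++ [a]) : dir y x = 0 := by
  unfold dir
  rw [h]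
  simp

lemma ne_zero_of {x y : Vt q} {a : ZMod q} (h : y.1 = x.1 ++ [a]) (hx : x.1 ≠ []) : a ≠ 0 := by
  apply y.2
  rw [h]
  cases h' : x.1 with
  | nil => exact absurd h' hx
  | cons b l => simp

lemma dir_inj {y x w : Vt q} (h1 : (T q).d y x = 1) (h2 : (T q).d y w = 1)
    (h : dir y x = dir y w) : x = w := by
  rcases adj h1 with ⟨a, ha⟩ | ⟨a, ha⟩ <;> rcases adj h2 with ⟨b, hb⟩ | ⟨b, hb⟩
  · rw [dir_child ha, dir_child hb] at h
    apply Vt.ext
    rw [ha, hb, h]
  · exfalso
    rw [dir_child ha, dir_parent hb] at h
    exact ne_zero_of ha (by rw [hb]; simp) h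
  · exfalso
    rw [dir_parent ha, dir_child hb] at h
    exact ne_zero_of hb (by rw [ha]; simp) h.symm
  · apply Vt.ext
    rw [ha] at hb
    exact (List.append_inj' hb rfl).1

lemma exists_nb (y : Vt q) (a : ZMod q) : ∃ x, (T q).d y x = 1 ∧ dir y x = a := by
  by_cases h : y.1 = [] ∨ a ≠ 0
  · refine ⟨⟨y.1 ++ [a], ?_⟩, ?_, ?_⟩
    · intro b hb
      rcases h with h | h
      · rw [h] at hb; simp at hb
      · cases h' : y.1 with
        | nil => rw [h'] at hb; simp at hb
        | cons c l =>
          rw [h'] at hb
          simp only [List.cons_append, List.tail_cons, List.mem_append, List.mem_singleton] at hb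
          rcases hb with hb | hb
          · apply y.2; rw [h']; exact hb
          · rw [hb]; exact h
    · exact adj_of rfl
    · exact dir_child rfl
  · push Not at h
    obtain ⟨h1, h2⟩ := h
    have h3 : y.1 = y.1.dropLast ++ [y.1.getLast h1] := (List.dropLast_append_getLast h1).symm
    refine ⟨⟨y.1.dropLast, ?_⟩, ?_, ?_⟩
    · intro b hb
      apply y.2
      rw [List.tail_dropLast] at hb
      exact List.mem_of_mem_dropLast hb
    · exact adj_of' h3
    · rw [h2]; exact dir_parent h3

lemma step (p r : Vt q) (h : p ≠ r) : ∃ s, (T q).d p s = 1 ∧ (T q).d s r = (T q).d p r - 1 := by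
  have h1 := lcp_le_left p.1 r.1
  have h2 := lcp_le_right p.1 r.1
  by_cases h3 : lcp p.1 r.1 = p.1.length
  · obtain ⟨u, hu⟩ := prefix_of_lcp p.1 r.1 h3
    cases u with
    | nil => exact absurd (Vt.ext (by rw [hu]; simp)) h
    | cons a u =>
      have h4 : r.1 = (p.1 ++ [a]) ++ u := by rw [hu]; simp
      refine ⟨⟨p.1 ++ [a], ?_⟩, adj_of rfl, ?_⟩
      · intro b hb
        apply r.2
        rw [h4]
        cases h5 : p.1 ++ [a] with
        | nil => simp at h5
        | cons c l =>
          rw [h5] at hb
          simp only [List.cons_append, List.tail_cons, List.mem_append]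
          left; exact hb
      · rw [d_def, d_def]
        change ((p.1 ++ [a]).length : ℤ) + r.1.length - 2 * lcp (p.1 ++ [a]) r.1 = _
        have h6 : lcp (p.1 ++ [a]) r.1 = (p.1 ++ [a]).length := by rw [h4, lcp_append]
        rw [h6, h3, List.length_append]
        simp
        ring
  · have h4 : p.1 ≠ [] := by
      intro h; apply h3; rw [h]; simp [lcp]
    have h5 : p.1 = p.1.dropLast ++ [p.1.getLast h4] := (List.dropLast_append_getLast h4).symm
    have h6 : ∀ b ∈ p.1.dropLast.tail, b ≠ 0 := by
      intro b hb
      apply p.2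
      rw [List.tail_dropLast] at hb
      exact List.mem_of_mem_dropLast hb
    refine ⟨⟨p.1.dropLast, h6⟩, adj_of' h5, ?_⟩
    obtain ⟨c, u, v, h7, h8, h9, h10⟩ := lcp_spec p.1 r.1
    have h11 : lcp p.1.dropLast r.1 = lcp p.1 r.1 := by
      -- the common prefix is a proper prefix of `p`
      have hu : u ≠ [] := by
        rintro rfl
        apply h3
        rw [← h9, h7]; simp
      have h12 : p.1.dropLast = c ++ u.dropLast := by
        rw [h7, List.dropLast_append_of_ne_nil hu]
      have h13 := lcp_le_left p.1.dropLast p.1
      have h14 : lcp p.1.dropLast p.1 = p.1.dropLast.length := by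
        conv_lhs => rw [h5]
        simp [lcp_append]
      have h15 := lcp_ultra p.1.dropLast p.1 r.1
      have h16 := lcp_ultra p.1 p.1.dropLast r.1
      rw [lcp_comm p.1 p.1.dropLast] at h16
      have h17 : c.length ≤ p.1.dropLast.length := by rw [h12]; simp
      have h18 := lcp_le_left p.1.dropLast r.1
      rcases min_le_iff.1 h15 with h | h <;> rcases min_le_iff.1 h16 with h' | h' <;> omega
    rw [d_def, d_def]
    change ((p.1.dropLast).length : ℤ) + r.1.length - 2 * lcp (p.1.dropLast) r.1 = _
    rw [h11]
    have h12 : p.1.length = p.1.dropLast.length + 1 := by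
      have := congrArg List.length h5
      rwa [List.length_append] at this
    rw [h12]
    push_cast
    ring

/-- The turn at `y` of the path `x, y, w`. -/
def turn (x y w : Vt q) : ZMod q := dir y w - dir y x

lemma turn_rev (x y w : Vt q) : turn w y x = - turn x y w := by
  unfold turn; ring

lemma turn_add (x y w u : Vt q) : turn x y w + turn w y u = turn x y u := by
  unfold turn; ring

lemma turn_inj {x y w w' : Vt q} (h1 : (T q).d y w = 1) (h2 : (T q).d y w' = 1)
    (h : turn x y w = turn x y w') : w = w' := by
  apply dir_inj h1 h2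
  unfold turn at h
  exact sub_left_injective h

end Vt

end Pool.Agent.Helper477_holes
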