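import Mathlib
import Pool.Agent.Helper477_holes.Model

set_option autoImplicit false

/-!
# The group of rotations and reflections of the regular tree

`G q` is the group of all pairs of an isometry of the tree and a sign, such that the isometry
multiplies all turns by the sign.
-/

namespace Pool.Agent.Helper477_holes

open Pool.Agent.H17R2 Vt

variable {q : ℕ}

lemma usq (s : ℤˣ) : ((s : ℤ) : ZMod q) * ((s : ℤ) : ZMod q) = 1 := by
  rw [← Int.cast_mul, ← Units.val_mul, Int.units_mul_self]; simp

/-- Isometries of the tree, with a sign, multiplying all turns by the sign. -/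
def G (q : ℕ) : Subgroup (Equiv.Perm (Vt q) × ℤˣ) where
  carrier := {g | (∀ x y, (T q).d (g.1 x) (g.1 y) = (T q).d x y) ∧
    ∀ x y w, (T q).d y x = 1 → (T q).d y w = 1 →
      turn (g.1 x) (g.1 y) (g.1 w) = ((g.2 : ℤ) : ZMod q) * turn x y w}
  one_mem' := by
    refine ⟨fun x y => rfl, fun x y w _ _ => ?_⟩
    simp
  mul_mem' := by
    rintro a b ⟨ha, ha'⟩ ⟨hb, hb'⟩
    refine ⟨fun x y => ?_, fun x y w h1 h2 => ?_⟩
    · simp only [Prod.fst_mul, Equiv.Perm.coe_mul, Function.comp_apply]
      rw [ha, hb]
    · simp only [Prod.fst_mul, Equiv.Perm.coe_mul, Function.comp_apply, Prod.snd_mul,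
        Units.val_mul, Int.cast_mul]
      rw [ha' _ _ _ (by rw [hb]; exact h1) (by rw [hb]; exact h2), hb' _ _ _ h1 h2, mul_assoc]
  inv_mem' := by
    rintro a ⟨ha, ha'⟩
    have e : ∀ x, a.1 (a.1⁻¹ x) = x := fun x => Equiv.apply_symm_apply a.1 x
    have hd : ∀ x y, (T q).d (a.1⁻¹ x) (a.1⁻¹ y) = (T q).d x y := by
      intro x y
      have := ha (a.1⁻¹ x) (a.1⁻¹ y)
      rw [e, e] at this
      exact this.symm
    refine ⟨fun x y => hd x y, fun x y w h1 h2 => ?_⟩
    have h3 := ha' (a.1⁻¹ x) (a.1⁻¹ y) (a.1⁻¹ w) (by rw [hd]; exact h1) (by rw [hd]; exact h2)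
    rw [e, e, e] at h3
    simp only [Prod.fst_inv, Prod.snd_inv, Int.units_inv_eq_self]
    rw [h3, ← mul_assoc, usq, one_mul]

instance : MulAction (G q) (Vt q) where
  smul g x := g.1.1 x
  one_smul x := rfl
  mul_smul g h x := rfl

lemma smul_def (g : G q) (x : Vt q) : g • x = g.1.1 x := rfl

/-- The sign. -/
def sgn : G q →* ℤˣ := (MonoidHom.snd _ _).comp (G q).subtype

lemma smul_d (g : G q) (x y : Vt q) : (T q).d (g • x) (g • y) = (T q).d x y := g.2.1 x y

lemma smul_turn (g : G q) {x y w : Vt q} (h1 : (T q).d y x = 1) (h2 : (T q).d y w = 1) :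
    turn (g • x) (g • y) (g • w) = ((sgn g : ℤ) : ZMod q) * turn x y w := g.2.2 x y w h1 h2

lemma G_ext {g h : G q} (h1 : ∀ x : Vt q, g • x = h • x) (h2 : sgn g = sgn h) : g = h :=
  Subtype.ext (Prod.ext (Equiv.ext h1) h2)

/-! ### The half turn about the edge `0` -/

/-- the action on words -/
def zf : List (ZMod q) → List (ZMod q)
  | [] => [0]
  | a :: t => if a = 0 then t else 0 :: a :: t

lemma zf_append {l : List (ZMod q)} (h : l ≠ []) (a : ZMod q) : zf (l ++ [a]) = zf l ++ [a] := by
  cases l with
  | nil => exact absurd rfl h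
  | cons b l =>
    simp only [List.cons_append, zf]
    split_ifs <;> simp

/-- the half turn about the edge between the root and its neighbour `0` -/
def zv (x : Vt q) : Vt q := ⟨zf x.l, by
  obtain ⟨l, hl⟩ := x
  cases l with
  | nil => simp [zf]
  | cons a t =>
    simp only [List.tail_cons] at hl
    simp only [zf]
    split_ifs with h
    · intro b hb
      exact hl b (List.mem_of_mem_tail hb)
    · intro b hb
      simp only [List.tail_cons, List.mem_cons] at hb
      rcases hb with rfl | hb
      · exact h
      · exact hl b hb⟩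

lemma zv_zv (x : Vt q) : zv (zv x) = x := by
  apply Vt.ext
  obtain ⟨l, hl⟩ := x
  change zf (zf l) = l
  cases l with
  | nil => simp [zf]
  | cons a t =>
    simp only [List.tail_cons] at hl
    by_cases h : a = 0
    · subst h
      simp only [zf, if_true]
      cases t with
      | nil => simp
      | cons b t =>
        simp only
        rw [if_neg (hl b (by simp))]
    · simp [zf, h]

lemma zv_d (x y : Vt q) : (T q).d (zv x) (zv y) = (T q).d x y := by
  obtain ⟨l, hl⟩ := x
  obtain ⟨m, hm⟩ := y
  rw [d_def, d_def]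
  change ((zf l).length : ℤ) + (zf m).length - 2 * lcp (zf l) (zf m) =
    (l.length : ℤ) + m.length - 2 * lcp l m
  have key : ∀ t : List (ZMod q), (∀ a ∈ t, a ≠ 0) → ∀ u, lcp t (0 :: u) = 0 := by
    intro t ht u
    cases t with
    | nil => simp [lcp]
    | cons b t => simp [lcp, ht b (by simp)]
  have key' : ∀ t : List (ZMod q), (∀ a ∈ t, a ≠ 0) → ∀ u, lcp (0 :: u) t = 0 := by
    intro t ht u
    rw [lcp_comm]; exact key t ht u
  cases l with
  | nil =>
    cases m with
    | nil => simp [zf, lcp]
    | cons b u =>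
      simp only [List.tail_cons] at hm
      by_cases hb : b = 0
      · subst hb
        simp only [zf, if_true, key' u hm]
        simp [lcp]
        ring
      · simp [zf, hb, lcp]; ring
  | cons a t =>
    simp only [List.tail_cons] at hl
    cases m with
    | nil =>
      by_cases ha : a = 0
      · subst ha
        simp only [zf, if_true, key t hl]
        simp [lcp]
      · simp [zf, ha, lcp]; ring
    | cons b u =>
      simp only [List.tail_cons] at hm
      by_cases ha : a = 0
      · subst ha
        by_cases hb : b = 0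
        · subst hb
          simp only [zf, if_true, lcp]
          push_cast [List.length_cons]
          ring
        · simp only [zf, if_true, if_neg hb, key t hl, lcp, if_neg (Ne.symm hb)]
          push_cast [List.length_cons]
          ring
      · by_cases hb : b = 0
        · subst hb
          simp only [zf, if_true, if_neg ha, key' u hm, lcp]
          push_cast [List.length_cons]
          ring
        · simp only [zf, if_neg ha, if_neg hb, lcp, if_true]
          split_ifs <;> push_cast [List.length_cons] <;> ring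

lemma zv_dir {y x : Vt q} (h : (T q).d y x = 1) : dir (zv y) (zv x) = dir y x := by
  rcases adj h with ⟨a, ha⟩ | ⟨a, ha⟩
  · rw [dir_child ha]
    by_cases hy : y.l = []
    · rw [hy, List.nil_append] at ha
      by_cases h0 : a = 0
      · have h1 : (zv y).l = (zv x).l ++ [0] := by
          change zf y.l = zf x.l ++ [0]
          rw [hy, ha, h0]
          simp [zf]
        rw [dir_parent h1, h0]
      · have h1 : (zv x).l = (zv y).l ++ [a] := by
          change zf x.l = zf y.l ++ [a]
          rw [hy, ha]
          simp [zf, h0]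
        rw [dir_child h1]
    · have h1 : (zv x).l = (zv y).l ++ [a] := by
        change zf x.l = zf y.l ++ [a]
        rw [ha, zf_append hy]
      rw [dir_child h1]
  · rw [dir_parent ha]
    by_cases hx : x.l = []
    · rw [hx, List.nil_append] at ha
      by_cases h0 : a = 0
      · have h1 : (zv x).l = (zv y).l ++ [0] := by
          change zf x.l = zf y.l ++ [0]
          rw [hx, ha, h0]
          simp [zf]
        rw [dir_child h1]
      · have h1 : (zv y).l = (zv x).l ++ [a] := by
          change zf y.l = zf x.l ++ [a]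
          rw [hx, ha]
          simp [zf, h0]
        rw [dir_parent h1]
    · have h1 : (zv y).l = (zv x).l ++ [a] := by
        change zf y.l = zf x.l ++ [a]
        rw [ha, zf_append hx]
      rw [dir_parent h1]

/-- The half turn about the edge `0`. -/
def z : G q := ⟨(⟨zv, zv, zv_zv, zv_zv⟩, 1), by
  refine ⟨zv_d, ?_⟩
  intro x y w h1 h2
  simp only [Units.val_one, Int.cast_one, one_mul]
  change turn (zv x) (zv y) (zv w) = turn x y w
  unfold turn
  rw [zv_dir h1, zv_dir h2]⟩

/-! ### The rotations about the root -/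

/-- the action on words -/
def cf (b : ZMod q) : List (ZMod q) → List (ZMod q)
  | [] => []
  | a :: t => (a + b) :: t

lemma cf_append {l : List (ZMod q)} (h : l ≠ []) (a b : ZMod q) :
    cf b (l ++ [a]) = cf b l ++ [a] := by
  cases l with
  | nil => exact absurd rfl h
  | cons b l => simp [cf]

lemma cf_cf (b b' : ZMod q) (l : List (ZMod q)) : cf b (cf b' l) = cf (b + b') l := by
  cases l with
  | nil => rfl
  | cons a l => simp only [cf]; congr 1; ring

lemma cf_zero (l : List (ZMod q)) : cf 0 l = l := by
  cases l with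
  | nil => rfl
  | cons a l => simp [cf]

lemma cf_length (b : ZMod q) (l : List (ZMod q)) : (cf b l).length = l.length := by
  cases l <;> rfl

/-- the rotation about the root -/
def cv (b : ZMod q) (x : Vt q) : Vt q := ⟨cf b x.l, by
  obtain ⟨l, hl⟩ := x
  cases l with
  | nil => simp [cf]
  | cons a t => exact hl⟩

lemma cv_cv (b b' : ZMod q) (x : Vt q) : cv b (cv b' x) = cv (b + b') x :=
  Vt.ext (cf_cf b b' x.l)

lemma cv_zero (x : Vt q) : cv 0 x = x := Vt.ext (cf_zero x.l)

lemma cv_d (b : ZMod q) (x y : Vt q) : (T q).d (cv b x) (cv b y) = (T q).d x y := by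
  obtain ⟨l, hl⟩ := x
  obtain ⟨m, hm⟩ := y
  rw [d_def, d_def]
  change ((cf b l).length : ℤ) + (cf b m).length - 2 * lcp (cf b l) (cf b m) =
    (l.length : ℤ) + m.length - 2 * lcp l m
  rw [cf_length, cf_length]
  cases l with
  | nil => simp [cf, lcp]
  | cons a l =>
    cases m with
    | nil => simp [cf, lcp]
    | cons a' m => simp [cf, lcp]

lemma cv_turn (b : ZMod q) {x y w : Vt q} (h1 : (T q).d y x = 1) (h2 : (T q).d y w = 1) :
    turn (cv b x) (cv b y) (cv b w) = turn x y w := by
  have key : ∀ u, (T q).d y u = 1 →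
      dir (cv b y) (cv b u) = dir y u + if y.l = [] then b else 0 := by
    intro u hu
    rcases adj hu with ⟨a, ha⟩ | ⟨a, ha⟩
    · rw [dir_child ha]
      by_cases hy : y.l = []
      · rw [if_pos hy]
        have h3 : (cv b u).l = (cv b y).l ++ [a + b] := by
          change cf b u.l = cf b y.l ++ [a + b]
          rw [ha, hy]; simp [cf]
        rw [dir_child h3]
      · rw [if_neg hy]
        have h3 : (cv b u).l = (cv b y).l ++ [a] := by
          change cf b u.l = cf b y.l ++ [a]
          rw [ha, cf_append hy]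
        rw [dir_child h3, add_zero]
    · rw [dir_parent ha]
      have hy : y.l ≠ [] := by rw [ha]; simp
      rw [if_neg hy]
      by_cases hu' : u.l = []
      · have h3 : (cv b y).l = (cv b u).l ++ [a + b] := by
          change cf b y.l = cf b u.l ++ [a + b]
          rw [ha, hu']; simp [cf]
        rw [dir_parent h3, add_zero]
      · have h3 : (cv b y).l = (cv b u).l ++ [a] := by
          change cf b y.l = cf b u.l ++ [a]
          rw [ha, cf_append hu']
        rw [dir_parent h3, add_zero]
  unfold turn
  rw [key x h1, key w h2]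
  ring

/-- The rotation by `b` about the root. -/
def rot (b : ZMod q) : G q := ⟨(⟨cv b, cv (-b), by
    intro x; rw [cv_cv, neg_add_cancel, cv_zero], by
    intro x; rw [cv_cv, add_neg_cancel, cv_zero]⟩, 1), by
  refine ⟨cv_d b, ?_⟩
  intro x y w h1 h2
  simp only [Units.val_one, Int.cast_one, one_mul]
  exact cv_turn b h1 h2⟩

/-! ### The reflection -/

lemma lcp_map {β : Type*} [DecidableEq β] {f : β → β} (hf : Function.Injective f)
    (l m : List β) : lcp (l.map f) (m.map f) = lcp l m := by
  induction l generalizing m with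
  | nil => simp [lcp]
  | cons a l ih =>
    cases m with
    | nil => simp [lcp]
    | cons b m => simp only [List.map_cons, lcp, hf.eq_iff, ih]

/-- the reflection which fixes the root and the edge `0` -/
def rv (x : Vt q) : Vt q := ⟨x.l.map (fun a => -a), by
  intro b hb
  rw [← List.map_tail, List.mem_map] at hb
  obtain ⟨a, ha, rfl⟩ := hb
  exact neg_ne_zero.2 (x.ne a ha)⟩

lemma rv_rv (x : Vt q) : rv (rv x) = x := by
  apply Vt.ext
  change (x.l.map (fun a => -a)).map (fun a => -a) = x.l
  simp

lemma rv_d (x y : Vt q) : (T q).d (rv x) (rv y) = (T q).d x y := by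
  rw [d_def, d_def]
  change ((x.l.map (fun a => -a)).length : ℤ) + (y.l.map (fun a => -a)).length -
    2 * lcp (x.l.map (fun a => -a)) (y.l.map (fun a => -a)) = _
  rw [lcp_map neg_injective, List.length_map, List.length_map]

lemma rv_dir {y x : Vt q} (h : (T q).d y x = 1) : dir (rv y) (rv x) = - dir y x := by
  rcases adj h with ⟨a, ha⟩ | ⟨a, ha⟩
  · have h1 : (rv x).l = (rv y).l ++ [-a] := by
      change x.l.map (fun a => -a) = y.l.map (fun a => -a) ++ [-a]
      rw [ha]; simp
    rw [dir_child ha, dir_child h1]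
  · have h1 : (rv y).l = (rv x).l ++ [-a] := by
      change y.l.map (fun a => -a) = x.l.map (fun a => -a) ++ [-a]
      rw [ha]; simp
    rw [dir_parent ha, dir_parent h1, neg_zero]

/-- The reflection. -/
def ref : G q := ⟨(⟨rv, rv, rv_rv, rv_rv⟩, -1), by
  refine ⟨rv_d, ?_⟩
  intro x y w h1 h2
  simp only [Units.val_neg, Units.val_one, Int.cast_neg, Int.cast_one, neg_mul, one_mul]
  change turn (rv x) (rv y) (rv w) = -turn x y w
  unfold turn
  rw [rv_dir h1, rv_dir h2]
  ring⟩

lemma sgn_z : sgn (z : G q) = 1 := rfl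
lemma sgn_rot (b : ZMod q) : sgn (rot b : G q) = 1 := rfl
lemma sgn_ref : sgn (ref : G q) = -1 := rfl

lemma z_sq : (z : G q) * z = 1 := G_ext (fun x => zv_zv x) (by simp [sgn_z])
lemma ref_sq : (ref : G q) * ref = 1 := G_ext (fun x => rv_rv x) (by simp [sgn_ref])
lemma rot_mul (b b' : ZMod q) : (rot b : G q) * rot b' = rot (b + b') :=
  G_ext (fun x => cv_cv b b' x) (by simp [sgn_rot])
lemma rot_zero : (rot 0 : G q) = 1 := G_ext (fun x => cv_zero x) (by simp [sgn_rot])

lemma rot_inv (b : ZMod q) : (rot b : G q)⁻¹ = rot (-b) := by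
  rw [inv_eq_iff_mul_eq_one, rot_mul, add_neg_cancel, rot_zero]

lemma rot_pow (b : ZMod q) (n : ℕ) : (rot b : G q) ^ n = rot ((n : ZMod q) * b) := by
  induction n with
  | zero => rw [pow_zero, Nat.cast_zero, zero_mul, rot_zero]
  | succ n ih => rw [pow_succ, ih, rot_mul]; congr 1; push_cast; ring

lemma ref_z : (ref : G q) * z = z * ref := by
  apply G_ext
  · intro x
    apply Vt.ext
    change (zf x.l).map (fun a => -a) = zf (x.l.map (fun a => -a))
    cases h : x.l with
    | nil => simp [zf]
    | cons a t =>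
      by_cases ha : a = 0
      · simp [zf, ha]
      · simp [zf, ha]
  · simp [sgn_z, sgn_ref]

lemma ref_rot (b : ZMod q) : (ref : G q) * rot b = rot (-b) * ref := by
  apply G_ext
  · intro x
    apply Vt.ext
    change (cf b x.l).map (fun a => -a) = cf (-b) (x.l.map (fun a => -a))
    cases h : x.l with
    | nil => simp [cf]
    | cons a t => simp [cf]; ring
  · simp [sgn_rot, sgn_ref]

/-! ### The root, transitivity and rigidity -/

/-- the root -/
def root : Vt q := ⟨[], by simp⟩

/-- the neighbour `0` of the root -/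
def nb0 : Vt q := ⟨[0], by simp⟩

lemma z_root : (z : G q) • (root : Vt q) = nb0 := rfl

lemma z_nb0 : (z : G q) • (nb0 : Vt q) = root := by
  rw [← z_root, smul_smul, z_sq, one_smul]

lemma rot_root (b : ZMod q) : (rot b : G q) • (root : Vt q) = root := rfl

lemma ref_root : (ref : G q) • (root : Vt q) = root := rfl

lemma d_root_nb0 : (T q).d (root : Vt q) nb0 = 1 := adj_of (a := 0) rfl

lemma dir_root_rot (b : ZMod q) : dir (root : Vt q) ((rot b : G q) • nb0) = b := by
  apply dir_child
  change cf b [0] = [] ++ [b]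
  simp [cf]

lemma exists_root' {K : Subgroup (G q)} (hz : z ∈ K) (hr : ∀ b, rot b ∈ K) :
    ∀ (n : ℕ) (y : Vt q), y.l.length ≤ n →
    ∃ g ∈ K, sgn g = 1 ∧ g • (root : Vt q) = y := by
  intro n
  induction n with
  | zero =>
    intro y hy
    refine ⟨1, K.one_mem, map_one _, ?_⟩
    apply Vt.ext
    rw [one_smul]
    exact (List.eq_nil_of_length_eq_zero (Nat.le_zero.1 hy)).symm
  | succ n ih =>
    intro y hy
    obtain ⟨l, hl⟩ := y
    cases l with
    | nil => exact ⟨1, K.one_mem, map_one _, rfl⟩
    | cons b t =>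
      simp only [List.tail_cons] at hl
      obtain ⟨g, h0, h1, h2⟩ := ih ⟨t, fun a ha => hl a (List.mem_of_mem_tail ha)⟩
        (by simpa using hy)
      refine ⟨rot b * z * g, K.mul_mem (K.mul_mem (hr b) hz) h0, by simp [sgn_rot, sgn_z, h1], ?_⟩
      rw [mul_smul, mul_smul, h2]
      apply Vt.ext
      change cf b (zf t) = b :: t
      cases t with
      | nil => simp [zf, cf]
      | cons a t => simp [zf, cf, hl a (by simp)]

/-- The group acts transitively on oriented edges. -/
lemma trans_edge' {K : Subgroup (G q)} (hz : z ∈ K) (hr : ∀ b, rot b ∈ K)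
    (y x : Vt q) (h : (T q).d y x = 1) :
    ∃ g ∈ K, sgn g = 1 ∧ g • (root : Vt q) = y ∧ g • (nb0 : Vt q) = x := by
  obtain ⟨g, h0, h1, h2⟩ := exists_root' hz hr y.l.length y le_rfl
  have h3 : (T q).d (root : Vt q) (g⁻¹ • x) = 1 := by
    rw [← smul_d g, h2, smul_inv_smul]; exact h
  refine ⟨g * rot (dir (root : Vt q) (g⁻¹ • x)), K.mul_mem h0 (hr _), by simp [sgn_rot, h1],
    ?_, ?_⟩
  · rw [mul_smul, rot_root, h2]
  · have h4 : (rot (dir (root : Vt q) (g⁻¹ • x)) : G q) • (nb0 : Vt q) = g⁻¹ • x := by
      apply dir_inj (y := root) _ h3 (dir_root_rot _)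
      have := smul_d (rot (dir (root : Vt q) (g⁻¹ • x)) : G q) root nb0
      rw [rot_root] at this
      rw [this]; exact d_root_nb0
    rw [mul_smul, h4, smul_inv_smul]

lemma trans_edge (y x : Vt q) (h : (T q).d y x = 1) :
    ∃ g : G q, sgn g = 1 ∧ g • (root : Vt q) = y ∧ g • (nb0 : Vt q) = x := by
  obtain ⟨g, -, h1⟩ := trans_edge' (K := ⊤) (Subgroup.mem_top _) (fun _ => Subgroup.mem_top _)
    y x h
  exact ⟨g, h1⟩

/-- An orientation preserving element which fixes an edge is trivial. -/
lemma rigid {g : G q} (hg : sgn g = 1) {y x : Vt q} (h : (T q).d y x = 1) (hy : g • y = y)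
    (hx : g • x = x) : g = 1 := by
  have nbs : ∀ y x : Vt q, (T q).d y x = 1 → g • y = y → g • x = x →
      ∀ u, (T q).d y u = 1 → g • u = u := by
    intro y x h hy hx u hu
    have h1 := smul_turn g h hu
    rw [hy, hx, hg] at h1
    simp only [Units.val_one, Int.cast_one, one_mul] at h1
    refine turn_inj (x := x) (y := y) ?_ hu h1
    rw [← hu, ← smul_d g y u, hy]
  have key : ∀ (n : ℕ) (w : Vt q), (T q).d w y ≤ n → g • w = w ∧
      ∀ u, (T q).d w u = 1 → g • u = u := by
    intro n
    induction n with
    | zero =>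
      intro w hw
      have : w = y := (T q).eq_of_zero _ _ (le_antisymm (by simpa using hw) ((T q).d_nonneg _ _))
      subst this
      exact ⟨hy, nbs w x h hy hx⟩
    | succ n ih =>
      intro w hw
      by_cases hwy : w = y
      · subst hwy
        exact ⟨hy, nbs w x h hy hx⟩
      obtain ⟨s, h1, h2⟩ := Vt.step w y hwy
      obtain ⟨h3, h4⟩ := ih s (by push_cast at hw; omega)
      have h5 := h4 w (by rw [(T q).d_comm]; exact h1)
      exact ⟨h5, nbs w s h1 h5 h3⟩
  apply G_ext
  · intro w
    rw [one_smul]
    exact (key _ w (Int.self_le_toNat _)).1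
  · rw [hg, map_one]

/-- The group is generated by the half turn, the rotations and the reflection. -/
lemma gen {K : Subgroup (G q)} (hz : z ∈ K) (hr : ∀ b, rot b ∈ K) (href : ref ∈ K) : K = ⊤ := by
  rw [eq_top_iff]
  intro g _
  have h1 : (T q).d (g • (root : Vt q)) (g • nb0) = 1 := by rw [smul_d]; exact d_root_nb0
  obtain ⟨g', h2, h3, h4, h5⟩ := trans_edge' hz hr _ _ h1
  rcases Int.units_eq_one_or (sgn g) with h6 | h6
  · have h7 : g'⁻¹ * g = 1 := by
      apply rigid (by rw [map_mul, map_inv, h3, h6]; simp) d_root_nb0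
      · rw [mul_smul, ← h4, inv_smul_smul]
      · rw [mul_smul, ← h5, inv_smul_smul]
    have h8 : g = g' := (inv_mul_eq_one.1 h7).symm
    rw [h8]; exact h2
  · have h7 : g'⁻¹ * g * ref = 1 := by
      apply rigid (by rw [map_mul, map_mul, map_inv, h3, h6, sgn_ref]; simp) d_root_nb0
      · rw [mul_smul, mul_smul, ref_root, ← h4, inv_smul_smul]
      · have : (ref : G q) • (nb0 : Vt q) = nb0 := by
          rw [← z_root, smul_smul, ref_z, mul_smul, ref_root]
        rw [mul_smul, mul_smul, this, ← h5, inv_smul_smul]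
    have h8 : g = g' * ref := by
      have h9 : (ref : G q)⁻¹ = ref := by rw [inv_eq_iff_mul_eq_one]; exact ref_sq
      have := eq_inv_of_mul_eq_one_left h7
      rw [h9] at this
      rw [← this]; group
    rw [h8]; exact K.mul_mem h2 href

end Pool.Agent.Helper477_holes
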