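import Mathlib
import Pool.Agent.Helper477_holes.Grp

set_option autoImplicit false

/-!
# Holes and zigzags in the regular tree

A type is a pair `(j, b)`: `b = true` for `j`-holes and `b = false` for `j`-zigzags.  A line of type
`(j, b)` in the tree turns by `j` at every vertex, always in the same sense if `b = true` and in
alternating senses if `b = false`.
-/

namespace Pool.Agent.Helper477_holes

open Pool.Agent.H17R2 Vt

variable {q : ℕ}

/-- the sign of the turn number `k` -/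
def ut (b : Bool) (k : ℤ) : ℤˣ := if b then 1 else (-1) ^ k

lemma ut_add (b : Bool) (k l : ℤ) : ut b (k + l) = ut b k * ut b l := by
  unfold ut
  cases b
  · simp [zpow_add]
  · simp

lemma ut_neg (b : Bool) (k : ℤ) : ut b (-k) = ut b k := by
  unfold ut
  cases b
  · simp [zpow_neg]
  · simp

lemma ut_zero (b : Bool) : ut b 0 = 1 := by
  unfold ut; simp

lemma ut_one (b : Bool) : ut b 1 = if b then 1 else -1 := by
  unfold ut; simp

/-- the sign as an element of `ZMod q` -/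
def uz (q : ℕ) (s : ℤˣ) : ZMod q := ((s : ℤ) : ZMod q)

lemma uz_mul (s t : ℤˣ) : uz q (s * t) = uz q s * uz q t := by
  unfold uz; push_cast; ring

lemma uz_one : uz q 1 = 1 := by unfold uz; simp

lemma uz_neg (s : ℤˣ) : uz q (-s) = - uz q s := by unfold uz; simp

lemma uz_sq (s : ℤˣ) : uz q s * uz q s = 1 := usq s

lemma uz_cancel {s : ℤˣ} {a b : ZMod q} (h : uz q s * a = uz q s * b) : a = b := by
  have := congrArg (fun z => uz q s * z) h
  simpa [← mul_assoc, uz_sq] using this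

lemma uz_cases (s : ℤˣ) : uz q s = 1 ∨ uz q s = -1 := by
  rcases Int.units_eq_one_or s with rfl | rfl
  · left; exact uz_one
  · right; rw [uz_neg, uz_one]

/-- A line of type `τ`. -/
def IsTy (q : ℕ) (τ : ℕ × Bool) (φ : ℤ → Vt q) : Prop :=
  (∀ k, (T q).d (φ k) (φ (k + 1)) = 1) ∧
  ∃ s : ℤˣ, ∀ k, turn (φ (k - 1)) (φ k) (φ (k + 1)) = uz q (s * ut τ.2 k) * (τ.1 : ZMod q)

lemma IsTy.step' {τ : ℕ × Bool} {φ : ℤ → Vt q} (h : IsTy q τ φ) (k : ℤ) :
    (T q).d (φ k) (φ (k - 1)) = 1 := by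
  have := h.1 (k - 1)
  rw [sub_add_cancel] at this
  rw [(T q).d_comm]; exact this

lemma IsTy.smul {τ : ℕ × Bool} {φ : ℤ → Vt q} (h : IsTy q τ φ) (g : G q) :
    IsTy q τ (fun k => g • φ k) := by
  obtain ⟨h1, s, h2⟩ := h
  refine ⟨fun k => by rw [smul_d]; exact h1 k, sgn g * s, fun k => ?_⟩
  rw [smul_turn g (IsTy.step' ⟨h1, s, h2⟩ k) (h1 k), h2, mul_assoc, uz_mul _ (s * _), mul_assoc]
  rfl

lemma IsTy.reparam {τ : ℕ × Bool} {φ : ℤ → Vt q} (h : IsTy q τ φ) (b : ℤ) {ε : ℤ}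
    (hε : ε = 1 ∨ ε = -1) : IsTy q τ (fun k => φ (b + ε * k)) := by
  obtain ⟨h1, s, h2⟩ := h
  rcases hε with rfl | rfl
  · refine ⟨fun k => ?_, s * ut τ.2 b, fun k => ?_⟩
    · have := h1 (b + 1 * k)
      rwa [show b + 1 * k + 1 = b + 1 * (k + 1) by ring] at this
    · have := h2 (b + 1 * k)
      rw [show b + 1 * k + 1 = b + 1 * (k + 1) by ring,
        show b + 1 * k - 1 = b + 1 * (k - 1) by ring] at this
      rw [this, one_mul, ut_add, mul_assoc]
  · refine ⟨fun k => ?_, - (s * ut τ.2 b), fun k => ?_⟩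
    · have := h1 (b + -1 * (k + 1))
      rw [show b + -1 * (k + 1) + 1 = b + -1 * k by ring] at this
      rw [(T q).d_comm]; exact this
    · have := h2 (b + -1 * k)
      rw [show b + -1 * k + 1 = b + -1 * (k - 1) by ring,
        show b + -1 * k - 1 = b + -1 * (k + 1) by ring, ut_add] at this
      rw [turn_rev, this, show (-1 : ℤ) * k = -k by ring, ut_neg, neg_mul, uz_neg, neg_mul,
        mul_assoc s]

lemma natCast_ne {j : ℕ} (h1 : 1 ≤ j) (h2 : 2 * j ≤ q) : (j : ZMod q) ≠ 0 := by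
  intro h
  rw [ZMod.natCast_eq_zero_iff] at h
  have := Nat.le_of_dvd (by omega) h
  omega

lemma natCast_inj {j j' : ℕ} (h1 : 1 ≤ j) (h2 : 2 * j ≤ q) (h1' : 1 ≤ j') (h2' : 2 * j' ≤ q)
    (h : (j : ZMod q) = j' ∨ (j : ZMod q) = -j') : j = j' := by
  rcases h with h | h
  · rw [ZMod.natCast_eq_natCast_iff] at h
    have := Nat.ModEq.eq_of_lt_of_lt h (by omega) (by omega)
    exact this
  · have h3 : ((j + j' : ℕ) : ZMod q) = 0 := by
      push_cast
      rw [h]; ring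
    rw [ZMod.natCast_eq_zero_iff] at h3
    have := Nat.le_of_dvd (by omega) h3
    omega

lemma two_ne {j : ℕ} (h1 : 1 ≤ j) (h2 : 2 * j ≤ q) (h3 : 2 * j ≠ q) :
    2 * (j : ZMod q) ≠ 0 := by
  intro h
  have h4 : ((2 * j : ℕ) : ZMod q) = 0 := by push_cast; exact h
  rw [ZMod.natCast_eq_zero_iff] at h4
  have := Nat.le_of_dvd (by omega) h4
  omega

/-- A path without backtracking is a geodesic line. -/
lemma geo {φ : ℤ → Vt q} (h1 : ∀ k, (T q).d (φ k) (φ (k + 1)) = 1)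
    (h2 : ∀ k, φ (k - 1) ≠ φ (k + 1)) : (T q).IsLine φ := by
  have key : ∀ (n : ℕ) (a : ℤ), (T q).d (φ a) (φ (a + n)) = n ∧
      (T q).d (φ a) (φ (a + n + 1)) = n + 1 := by
    intro n
    induction n with
    | zero =>
      intro a
      refine ⟨?_, ?_⟩
      · rw [Nat.cast_zero, add_zero, (T q).d_self]
      · rw [Nat.cast_zero, add_zero, h1]; norm_num
    | succ n ih =>
      intro a
      obtain ⟨h3, h4⟩ := ih a
      have e : a + ((n + 1 : ℕ) : ℤ) = a + n + 1 := by push_cast; ring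
      rw [e]
      refine ⟨by rw [h4]; push_cast; ring, ?_⟩
      have h5 := (T q).four (φ a) (φ (a + n + 1)) (φ (a + n)) (φ (a + n + 1 + 1))
      have h6 := h1 (a + n)
      have h7 := h1 (a + n + 1)
      have h8 : φ (a + n) ≠ φ (a + n + 1 + 1) := by
        have := h2 (a + n + 1)
        rwa [show a + (n : ℤ) + 1 - 1 = a + n by ring] at this
      have h9 := (T q).par (φ (a + n)) (φ (a + n + 1)) (φ (a + n + 1 + 1))
      have h10 := (T q).d_nonneg (φ (a + n)) (φ (a + n + 1 + 1))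
      have h11 : (T q).d (φ (a + n)) (φ (a + n + 1 + 1)) ≠ 0 := fun h =>
        h8 ((T q).eq_of_zero _ _ h)
      have h12 := (T q).tri (φ a) (φ (a + n + 1)) (φ (a + n + 1 + 1))
      have h13 := (T q).d_comm (φ (a + n + 1)) (φ (a + n))
      have h14 := (T q).tri (φ (a + n)) (φ (a + n + 1)) (φ (a + n + 1 + 1))
      push_cast
      rcases le_max_iff.1 h5 with h | h <;> omega
  intro a b
  rcases le_total a b with h | h
  · have := (key (b - a).toNat a).1
    rw [Int.toNat_of_nonneg (by omega), add_sub_cancel] at this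
    rw [this, abs_of_nonpos (by omega)]; ring
  · have := (key (a - b).toNat b).1
    rw [Int.toNat_of_nonneg (by omega), add_sub_cancel] at this
    rw [(T q).d_comm, this, abs_of_nonneg (by omega)]

lemma turn_self (x y : Vt q) : turn x y x = 0 := by unfold turn; ring

lemma uz_mul_ne {s : ℤˣ} {a : ZMod q} (h : a ≠ 0) : uz q s * a ≠ 0 := by
  intro h1
  apply h
  rcases uz_cases (q := q) s with h2 | h2 <;> rw [h2] at h1 <;> simpa using h1

lemma IsTy.line {τ : ℕ × Bool} {φ : ℤ → Vt q} (h : IsTy q τ φ) (h1 : 1 ≤ τ.1)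
    (h2 : 2 * τ.1 ≤ q) : (T q).IsLine φ := by
  apply geo h.1
  intro k hk
  obtain ⟨s, h3⟩ := h.2
  have h4 := h3 k
  rw [hk, turn_self] at h4
  exact uz_mul_ne (natCast_ne h1 h2) h4.symm

/-- A line is determined by its type and three consecutive vertices. -/
lemma det {τ : ℕ × Bool} {φ ψ : ℤ → Vt q} (hφ : IsTy q τ φ) (hψ : IsTy q τ ψ)
    (h0 : φ 0 = ψ 0) (h1 : φ 1 = ψ 1) (h2 : φ 2 = ψ 2) : φ = ψ := by
  obtain ⟨hφ1, s, hs⟩ := hφ
  obtain ⟨hψ1, t, ht⟩ := hψ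
  have h3 := hs 1
  have h4 := ht 1
  rw [show (1 : ℤ) - 1 = 0 by norm_num, show (1 : ℤ) + 1 = 2 by norm_num] at h3 h4
  rw [h0, h1, h2, h4] at h3
  have h5 : uz q s * (τ.1 : ZMod q) = uz q t * τ.1 := by
    rw [uz_mul, uz_mul, mul_comm (uz q t), mul_comm (uz q s), mul_assoc, mul_assoc] at h3
    exact (uz_cancel h3).symm
  have h6 : ∀ k, turn (φ (k - 1)) (φ k) (φ (k + 1)) = turn (ψ (k - 1)) (ψ k) (ψ (k + 1)) := by
    intro k
    rw [hs, ht, uz_mul, uz_mul, mul_comm (uz q t), mul_comm (uz q s), mul_assoc, mul_assoc, h5]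
  have fwd : ∀ n : ℕ, φ n = ψ n ∧ φ (n + 1) = ψ (n + 1) := by
    intro n
    induction n with
    | zero => exact ⟨by simpa using h0, by simpa using h1⟩
    | succ n ih =>
      push_cast
      refine ⟨ih.2, ?_⟩
      have h7 := h6 (n + 1)
      rw [show (n : ℤ) + 1 - 1 = n by ring, ih.1, ih.2] at h7
      have h8 := hφ1 (n + 1)
      rw [ih.2] at h8
      exact turn_inj h8 (hψ1 (n + 1)) h7
  have bwd : ∀ n : ℕ, φ (-n) = ψ (-n) ∧ φ (-n + 1) = ψ (-n + 1) := by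
    intro n
    induction n with
    | zero => exact ⟨by simpa using h0, by simpa using h1⟩
    | succ n ih =>
      have e1 : (-((n + 1 : ℕ) : ℤ)) + 1 = -n := by push_cast; ring
      have e2 : (-((n + 1 : ℕ) : ℤ)) = -n - 1 := by push_cast; ring
      rw [e1, e2]
      refine ⟨?_, ih.1⟩
      have h7 := h6 (-n)
      rw [ih.1, ih.2] at h7
      have h8 := IsTy.step' (τ := τ) ⟨hφ1, s, hs⟩ (-n)
      rw [ih.1] at h8
      refine turn_inj (x := ψ (-n + 1)) h8 (IsTy.step' (τ := τ) ⟨hψ1, t, ht⟩ (-n)) ?_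
      rw [turn_rev (φ (-↑n - 1)), turn_rev (ψ (-↑n - 1)), h7]
  funext k
  rcases le_total 0 k with hk | hk
  · have := (fwd k.toNat).1
    rwa [Int.toNat_of_nonneg hk] at this
  · have := (bwd (-k).toNat).1
    rwa [Int.toNat_of_nonneg (by omega), neg_neg] at this

/-- The types in use, up to sign, as elements of `ZMod q`. -/
def PP (q : ℕ) (A : ℕ × Bool → Prop) : Set (ZMod q) :=
  {x | ∃ τ, A τ ∧ (x = (τ.1 : ZMod q) ∨ x = -(τ.1 : ZMod q))}

/-- Both the `j`-holes and the `j`-zigzags are in use. -/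
def Dbl (A : ℕ × Bool → Prop) (j : ℕ) : Prop := A (j, true) ∧ A (j, false)

/-- `j` is a sum of two elements of `PP`. -/
def Tri (q : ℕ) (A : ℕ × Bool → Prop) (j : ℕ) : Prop :=
  ∃ a ∈ PP q A, ∃ b ∈ PP q A, a + b = (j : ZMod q)

/-- The lengths in use, with the small cancellation assumptions. -/
structure Data (q : ℕ) where
  A : ℕ × Bool → Prop
  n : ℕ × Bool → ℕ
  σ : ℕ × Bool → ℤˣ
  hq : 3 ≤ q
  hA : ∀ τ, A τ → 1 ≤ τ.1 ∧ 2 * τ.1 ≤ q
  hA' : ∀ j, A (j, false) → 2 * j ≠ q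
  one : A (1, true)
  σ1 : σ (1, true) = 1
  s11 : ∀ τ, A τ → Dbl A τ.1 → 3 * (τ.1 : ZMod q) = 0 → 11 ≤ n τ
  s9 : ∀ τ, A τ → Dbl A τ.1 → 2 * (τ.1 : ZMod q) ∈ PP q A → 9 ≤ n τ
  s7 : ∀ τ, A τ → Dbl A τ.1 → 7 ≤ n τ
  s6 : ∀ τ, A τ → Tri q A τ.1 → 6 ≤ n τ
  s4 : ∀ τ, A τ → 4 ≤ n τ

variable {Dt : Data q}

/-- A line of a type in use. -/
@[ext] structure Ln (Dt : Data q) where
  ty : ℕ × Bool
  f : ℤ → Vt q
  hA : Dt.A ty
  ht : IsTy q ty f

namespace Ln

instance : MulAction (G q) (Ln Dt) where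
  smul g x := ⟨x.ty, fun k => g • x.f k, x.hA, x.ht.smul g⟩
  one_smul x := by
    apply Ln.ext
    · rfl
    · funext k; exact one_smul _ _
  mul_smul g h x := by
    apply Ln.ext
    · rfl
    · funext k; exact mul_smul _ _ _

lemma smul_f (g : G q) (x : Ln Dt) (k : ℤ) : (g • x).f k = g • x.f k := rfl
lemma smul_ty (g : G q) (x : Ln Dt) : (g • x).ty = x.ty := rfl

lemma line (x : Ln Dt) : (T q).IsLine x.f :=
  x.ht.line (Dt.hA _ x.hA).1 (Dt.hA _ x.hA).2

/-- The two lines are equal up to the parametrization. -/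
def Same (x y : Ln Dt) : Prop := x.ty = y.ty ∧ Set.range x.f = Set.range y.f

/-- The group of admissible translations of the line. -/
def H (x : Ln Dt) : Subgroup (G q) where
  carrier := {g | ∃ m : ℤ, (∀ k, g • x.f k = x.f (k + m * Dt.n x.ty)) ∧ sgn g = Dt.σ x.ty ^ m}
  one_mem' := ⟨0, fun k => by simp, by simp⟩
  mul_mem' := by
    rintro a b ⟨m, h1, h2⟩ ⟨m', h1', h2'⟩
    refine ⟨m' + m, fun k => ?_, ?_⟩
    · rw [mul_smul, h1', h1]; congr 1; ring
    · rw [map_mul, h2, h2', zpow_add, mul_comm]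
  inv_mem' := by
    rintro a ⟨m, h1, h2⟩
    refine ⟨-m, fun k => ?_, ?_⟩
    · rw [inv_smul_eq_iff, h1]; congr 1; ring
    · rw [map_inv, h2, zpow_neg]

lemma mem_H {x : Ln Dt} {g : G q} : g ∈ x.H ↔
    ∃ m : ℤ, (∀ k, g • x.f k = x.f (k + m * Dt.n x.ty)) ∧ sgn g = Dt.σ x.ty ^ m := Iff.rfl

lemma H_smul (g : G q) (x : Ln Dt) (h : G q) (hh : h ∈ x.H) : g * h * g⁻¹ ∈ (g • x).H := by
  obtain ⟨m, h1, h2⟩ := hh
  refine ⟨m, fun k => ?_, ?_⟩
  · rw [smul_f, smul_f, mul_smul, inv_smul_smul, mul_smul, h1]; rfl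
  · rw [map_mul, map_mul, map_inv, h2, mul_comm (sgn g), mul_inv_cancel_right]; rfl

lemma htau (x : Ln Dt) (h : G q) (hh : h ∈ x.H) :
    ∃ τ : ℤ, (h ≠ 1 → (Dt.n x.ty : ℤ) ≤ |τ|) ∧ ∀ k, h • x.f k = x.f (k + τ) := by
  obtain ⟨m, h1, h2⟩ := hh
  refine ⟨m * Dt.n x.ty, fun hne => ?_, h1⟩
  have hm : m ≠ 0 := by
    rintro rfl
    apply hne
    apply rigid (by rw [h2, zpow_zero]) (x.ht.1 0)
    · rw [h1]; simp
    · rw [h1]; simp
  rw [abs_mul, Nat.abs_cast]
  have := Int.one_le_abs hm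
  nlinarith [Nat.cast_nonneg (α := ℤ) (Dt.n x.ty)]

/-- Parametrizations of the same line. -/
lemma reparam_of_range {φ ψ : ℤ → Vt q} (hφ : (T q).IsLine φ) (hψ : (T q).IsLine ψ)
    (h : Set.range ψ ⊆ Set.range φ) :
    ∃ b ε : ℤ, (ε = 1 ∨ ε = -1) ∧ ∀ k, ψ k = φ (b + ε * k) := by
  choose g hg using fun k => h ⟨k, rfl⟩
  have h1 : ∀ a b, |g a - g b| = |a - b| := by
    intro a b
    rw [← hφ (g a) (g b), hg, hg, hψ]
  refine ⟨g 0, g 1 - g 0, ?_, fun k => ?_⟩
  · have := h1 1 0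
    rw [sub_zero, abs_one] at this
    rcases abs_cases (g 1 - g 0) with h2 | h2 <;> omega
  · rw [← hg k]
    congr 1
    have h2 := h1 1 0
    have h3 := h1 k 0
    have h4 := h1 k 1
    rw [sub_zero] at h2 h3
    rw [abs_one] at h2
    have h5 : g 1 - g 0 = 1 ∨ g 1 - g 0 = -1 := by
      rcases abs_cases (g 1 - g 0) with h2 | h2 <;> omega
    rcases h5 with h5 | h5 <;> rw [h5] <;>
    rcases abs_cases (g k - g 0) with h6 | h6 <;> rcases abs_cases (g k - g 1) with h7 | h7 <;>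
    rcases abs_cases k with h8 | h8 <;> rcases abs_cases (k - 1) with h9 | h9 <;> omega

lemma same_H (x y : Ln Dt) (h : x.Same y) : x.H = y.H := by
  have key : ∀ x y : Ln Dt, x.Same y → x.H ≤ y.H := by
    rintro x y ⟨h1, h2⟩ g ⟨m, h3, h4⟩
    obtain ⟨b, ε, hε, hb⟩ := reparam_of_range x.line y.line h2.ge
    refine ⟨ε * m, fun k => ?_, ?_⟩
    · rw [hb, h3, hb, ← h1]
      congr 1
      rcases hε with rfl | rfl <;> ring
    · rw [h4, ← h1]
      rcases hε with rfl | rfl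
      · rw [one_mul]
      · rw [neg_one_mul, zpow_neg, Int.units_inv_eq_self]
  exact le_antisymm (key x y h) (key y x ⟨h.1.symm, h.2.symm⟩)

end Ln

end Pool.Agent.Helper477_holes
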