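import Mathlib
import Pool.Agent.Helper477_holes.Basic

set_option autoImplicit false

/-!
# A sharp windmill for families of periodic lines in a tree

`Sys` is a family of lines in a tree together with groups of translations, with a group acting on
everything.  The lines are allowed to share short segments (`piece`, `cover`).  Adding the lines
layer by layer we show that the group generated by all the translations is not finitely generated.
-/

namespace Pool.Agent.Helper477_holes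

open Pool.Agent.H17R2

/-- The situation after a step of the windmill: `M` is the set of lines of the last layer and `U`
is the union of the translates of the previous region. -/
structure Cfg {V I : Type*} (L : I → ℤ → V) (Same : I → I → Prop) (n D : I → ℤ)
    (M : Set I) (U : Set V) : Prop where
  f1 : ∀ m ∈ M, ∀ m' ∈ M, ¬ Same m m' → ∀ x, x ∈ Set.range (L m) → x ∈ Set.range (L m') →
    x ∉ U → ∃ p ∈ U, p ∈ Set.range (L m) ∧ p ∈ Set.range (L m')
  f2 : ∀ m ∈ M, ∀ a b c : ℤ, a < b → b < c → L m a ∈ U → L m b ∉ U → L m c ∈ U →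
    n m - D m ≤ c - a

/-- A family of periodic lines in a tree. -/
structure Sys (G V I : Type*) [Group G] [MulAction G V] [MulAction G I] where
  T : ZTree V
  v0 : V
  smul_d : ∀ (g : G) p q, T.d (g • p) (g • q) = T.d p q
  step : ∀ p q, p ≠ q → ∃ r, T.d p r = 1 ∧ T.d r q = T.d p q - 1
  L : I → ℤ → V
  line : ∀ i, T.IsLine (L i)
  L_smul : ∀ (g : G) i k, L (g • i) k = g • L i k
  Same : I → I → Prop
  same_refl : ∀ i, Same i i
  same_symm : ∀ i j, Same i j → Same j i
  same_trans : ∀ i j k, Same i j → Same j k → Same i k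
  same_smul : ∀ (g : G) i j, Same i j → Same (g • i) (g • j)
  same_range : ∀ i j, Same i j → Set.range (L i) = Set.range (L j)
  H : I → Subgroup G
  H_smul : ∀ (g : G) i h, h ∈ H i → g * h * g⁻¹ ∈ H (g • i)
  same_H : ∀ i j, Same i j → H i = H j
  n : I → ℤ
  D : I → ℤ
  lam : I → ℤ
  n_smul : ∀ (g : G) i, n (g • i) = n i
  D_smul : ∀ (g : G) i, D (g • i) = D i
  htau : ∀ i, ∀ h ∈ H i, ∃ τ : ℤ, (h ≠ 1 → n i ≤ |τ|) ∧ ∀ k, h • L i k = L i (k + τ)
  big : ∀ i, D i + 2 * lam i < n i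
  D_nonneg : ∀ i, 0 ≤ D i
  lam_pos : ∀ i, 1 ≤ lam i
  piece : ∀ i j, ¬ Same i j → ∀ s t, |T.pr (L i) (L j s) - T.pr (L i) (L j t)| ≤ lam i
  thru : ∀ x y, T.d x y = 1 → ∃ i s, L i s = x ∧ L i (s + 1) = y ∧ ∃ h ∈ H i, h ≠ 1
  cover : ∀ (M : Set I) (U : Set V), Cfg L Same n D M U → ∀ k, (∀ m ∈ M, ¬ Same k m) →
    (∀ s, L k s ∉ U) → ∀ a b, a ≤ b →
    (∀ s, a ≤ s → s < b → ∃ m ∈ M, L k s ∈ Set.range (L m) ∧ L k (s + 1) ∈ Set.range (L m)) →
    b - a ≤ D k
  esc : ∀ (M : Set I) (U : Set V), Cfg L Same n D M U → (∃ x0 ∈ U, ∃ x, x ∉ U ∧ T.d x0 x = 1) →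
    (∀ i, (∃ s, L i s ∈ U) → (∃ s, L i s ∉ U) → i ∈ M) →
    ∃ x y, T.d x y = 1 ∧ x ∉ U ∧ ∀ m ∈ M, x ∈ Set.range (L m) → y ∉ Set.range (L m)

namespace Sys

variable {G V I : Type*} [Group G] [MulAction G V] [MulAction G I] (S : Sys G V I)

/-- The coordinate of a point on a line. -/
noncomputable def c (i : I) (p : V) : ℤ := S.T.pr (S.L i) p

lemma htau_c {i : I} {h : G} (hh : h ∈ S.H i) :
    ∃ τ : ℤ, (h ≠ 1 → S.n i ≤ |τ|) ∧ (∀ k, h • S.L i k = S.L i (k + τ)) ∧
      ∀ p, S.c i (h • p) = S.c i p + τ := by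
  obtain ⟨τ, h1, h2⟩ := S.htau i h hh
  exact ⟨τ, h1, h2, fun p => pr_trans (S.line i) S.smul_d h τ h2 p⟩

lemma range_smul (g : G) (i : I) (x : V) :
    g • x ∈ Set.range (S.L (g • i)) ↔ x ∈ Set.range (S.L i) := by
  constructor
  · rintro ⟨k, hk⟩
    rw [S.L_smul] at hk
    exact ⟨k, smul_left_cancel g hk⟩
  · rintro ⟨k, rfl⟩
    exact ⟨k, S.L_smul g i k⟩

lemma range_smul' (g : G) (i : I) (x : V) :
    x ∈ Set.range (S.L (g • i)) ↔ g⁻¹ • x ∈ Set.range (S.L i) := by
  rw [← S.range_smul g i, smul_inv_smul]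

lemma range_H {i : I} {h : G} (hh : h ∈ S.H i) {x : V} (hx : x ∈ Set.range (S.L i)) :
    h • x ∈ Set.range (S.L i) := by
  obtain ⟨τ, -, h2, -⟩ := S.htau_c hh
  obtain ⟨k, rfl⟩ := hx
  exact ⟨k + τ, (h2 k).symm⟩

/-- The state of the windmill. -/
structure Mill where
  W : Set V
  N : Subgroup G
  J : Set I
  w0 : S.v0 ∈ W
  conv : ∀ p ∈ W, ∀ q ∈ W, ∀ x, S.T.d p x + S.T.d x q = S.T.d p q → x ∈ W
  w1 : ∀ g ∈ N, ∀ p ∈ W, g • p ∈ W
  w2 : ∀ i ∈ J, S.H i ≤ N
  w3 : ∀ i ∈ J, ∀ k, S.L i k ∈ W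
  w4 : ∀ i, i ∉ J → ∀ p ∈ W, ∀ q ∈ W, |S.c i p - S.c i q| ≤ S.D i
  w5 : ∀ g ∈ N, ∀ i ∈ J, g • i ∈ J
  w6 : ∀ i ∈ J, ∀ j, S.Same i j → j ∈ J
  w7 : ∃ x, x ∉ W

namespace Mill

variable {S} (M : Mill S)

/-- The lines which are added at the next step. -/
def J1 : Set I := {i | i ∉ M.J ∧ ∃ k, S.L i k ∈ M.W}

lemma J1_smul {g : G} (hg : g ∈ M.N) {i : I} (hi : i ∈ M.J1) : g • i ∈ M.J1 := by
  refine ⟨fun h => hi.1 ?_, ?_⟩
  · have := M.w5 g⁻¹ (M.N.inv_mem hg) _ h
    rwa [inv_smul_smul] at this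
  · obtain ⟨k, hk⟩ := hi.2
    exact ⟨k, by rw [S.L_smul]; exact M.w1 g hg _ hk⟩

lemma J1_same {i j : I} (hi : i ∈ M.J1) (h : S.Same i j) : j ∈ M.J1 := by
  refine ⟨fun hj => hi.1 (M.w6 j hj i (S.same_symm _ _ h)), ?_⟩
  obtain ⟨k, hk⟩ := hi.2
  have : S.L i k ∈ Set.range (S.L j) := by rw [← S.same_range i j h]; exact ⟨k, rfl⟩
  obtain ⟨k', hk'⟩ := this
  exact ⟨k', hk' ▸ hk⟩

/-- The next group. -/
def N' : Subgroup G := Subgroup.closure ((M.N : Set G) ∪ ⋃ i ∈ M.J1, (S.H i : Set G))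

lemma le_N' : M.N ≤ M.N' := fun _ hx => Subgroup.subset_closure (Or.inl hx)

lemma H_le_N' {i : I} (hi : i ∈ M.J1) : S.H i ≤ M.N' := fun x hx =>
  Subgroup.subset_closure (Or.inr (Set.mem_iUnion₂.mpr ⟨i, hi, hx⟩))

/-- Reduced lists of elements of the groups of the new lines. -/
def Red : List (I × G) → Prop
  | [] => True
  | a :: l => (a.1 ∈ M.J1 ∧ a.2 ∈ S.H a.1 ∧ a.2 ≠ 1) ∧
      (∀ b ∈ l.head?, ¬ S.Same a.1 b.1) ∧ Red l

/-- The product of a list. -/
def prod (l : List (I × G)) : G := (l.map Prod.snd).prod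

lemma prod_cons (a : I × G) (l : List (I × G)) : prod (a :: l) = a.2 * prod l := by
  simp [prod]

lemma prod_append (l l' : List (I × G)) : prod (l ++ l') = prod l * prod l' := by
  simp [prod]

lemma red_smul {g : G} (hg : g ∈ M.N) : ∀ {l : List (I × G)}, M.Red l →
    M.Red (l.map fun a => (g • a.1, g * a.2 * g⁻¹)) := by
  intro l
  induction l with
  | nil => intro _; trivial
  | cons a l ih =>
    rintro ⟨⟨h1, h2, h3⟩, h4, h5⟩
    refine ⟨⟨M.J1_smul hg h1, S.H_smul _ _ _ h2, ?_⟩, ?_, ih h5⟩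
    · intro h
      apply h3
      have := congrArg (fun z => g⁻¹ * z * g) h
      simpa [mul_assoc] using this
    · intro b hb hs
      cases l with
      | nil => simp at hb
      | cons b' l =>
        simp only [List.map_cons, List.head?_cons, Option.mem_def, Option.some.injEq] at hb
        subst hb
        refine h4 b' (by simp) ?_
        have := S.same_smul g⁻¹ _ _ hs
        simpa using this

lemma prod_smul (g : G) (l : List (I × G)) :
    prod (l.map fun a => (g • a.1, g * a.2 * g⁻¹)) = g * prod l * g⁻¹ := by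
  induction l with
  | nil => simp [prod]
  | cons a l ih =>
    rw [List.map_cons, prod_cons, prod_cons, ih]
    group

lemma exists_red {x : G} (hx : x ∈ M.N') : ∃ l, M.Red l ∧ ∃ n ∈ M.N, x = prod l * n := by
  have hN : ∀ g ∈ M.N, ∀ l, M.Red l → ∀ n ∈ M.N, ∃ l', M.Red l' ∧ ∃ n' ∈ M.N,
      g * (prod l * n) = prod l' * n' := by
    intro g hg l hl n hn
    refine ⟨_, M.red_smul hg hl, g * n, M.N.mul_mem hg hn, ?_⟩
    rw [prod_smul]; group
  have hH : ∀ i ∈ M.J1, ∀ h ∈ S.H i, ∀ l, M.Red l → ∀ n ∈ M.N, ∃ l', M.Red l' ∧ ∃ n' ∈ M.N,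
      h * (prod l * n) = prod l' * n' := by
    intro i hi h hh l hl n hn
    by_cases h1 : h = 1
    · exact ⟨l, hl, n, hn, by rw [h1, one_mul]⟩
    cases l with
    | nil =>
      refine ⟨[(i, h)], ⟨⟨hi, hh, h1⟩, by simp, trivial⟩, n, hn, ?_⟩
      simp [prod]
    | cons a l =>
      by_cases hs : S.Same i a.1
      · obtain ⟨⟨h2, h3, h4⟩, h5, h6⟩ := hl
        have hh' : h ∈ S.H a.1 := S.same_H _ _ hs ▸ hh
        by_cases h7 : h * a.2 = 1
        · refine ⟨l, h6, n, hn, ?_⟩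
          rw [prod_cons, ← mul_assoc, ← mul_assoc, h7, one_mul]
        · refine ⟨(a.1, h * a.2) :: l, ⟨⟨h2, (S.H a.1).mul_mem hh' h3, h7⟩, h5, h6⟩, n, hn, ?_⟩
          rw [prod_cons, prod_cons]; group
      · refine ⟨(i, h) :: a :: l, ⟨⟨hi, hh, h1⟩, ?_, hl⟩, n, hn, ?_⟩
        · intro b hb
          simp only [List.head?_cons, Option.mem_def, Option.some.injEq] at hb
          subst hb
          exact hs
        · rw [prod_cons (i, h)]; group
  induction hx using Subgroup.closure_induction_left with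
  | one => exact ⟨[], trivial, 1, M.N.one_mem, by simp [prod]⟩
  | mul_left a ha y hy ih =>
    obtain ⟨l, hl, n, hn, rfl⟩ := ih
    rcases ha with ha | ha
    · exact hN a ha l hl n hn
    · obtain ⟨i, hi, ha⟩ := Set.mem_iUnion₂.mp ha
      exact hH i hi a ha l hl n hn
  | inv_mul_cancel a ha y hy ih =>
    obtain ⟨l, hl, n, hn, rfl⟩ := ih
    rcases ha with ha | ha
    · exact hN a⁻¹ (M.N.inv_mem ha) l hl n hn
    · obtain ⟨i, hi, ha⟩ := Set.mem_iUnion₂.mp ha
      exact hH i hi a⁻¹ ((S.H i).inv_mem ha) l hl n hn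

/-- `x` projects near the windmill on the line `i`. -/
def Near (i : I) (x : V) : Prop := ∃ p ∈ M.W, |S.c i x - S.c i p| ≤ S.lam i

/-- `x` projects far from the windmill on the line `i`. -/
def Far (i : I) (x : V) : Prop := ∀ p ∈ M.W, S.lam i < |S.c i x - S.c i p|

lemma near_far {i : I} (hi : i ∈ M.J1) {h : G} (hh : h ∈ S.H i) (h1 : h ≠ 1) {x : V}
    (hx : M.Near i x) : M.Far i (h • x) := by
  obtain ⟨p, hp, hpx⟩ := hx
  intro q hq
  obtain ⟨τ, h2, -, h3⟩ := S.htau_c hh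
  have h4 := M.w4 i hi.1 p hp q hq
  have h5 := S.big i
  have h6 := h2 h1
  rw [h3]
  rw [abs_le] at hpx h4
  rw [le_abs] at h6
  rw [lt_abs]
  rcases h6 with h6 | h6
  · left; linarith
  · right; linarith

lemma on_near {i m : I} (him : ¬ S.Same i m) (hm : m ∈ M.J1) {x : V}
    (hx : x ∈ Set.range (S.L m)) : M.Near i x := by
  obtain ⟨k, hk⟩ := hm.2
  obtain ⟨s, rfl⟩ := hx
  exact ⟨_, hk, S.piece i m him s k⟩

lemma on_not_far {i m : I} (him : ¬ S.Same i m) (hm : m ∈ M.J1) {x : V}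
    (hx : x ∈ Set.range (S.L m)) : ¬ M.Far i x := by
  obtain ⟨p, hp, h⟩ := M.on_near him hm hx
  intro hf
  have := hf p hp
  omega

lemma transfer {i j : I} (hi : i ∈ M.J1) (hj : j ∈ M.J1) (hs : ¬ S.Same i j) {y : V}
    (hy : M.Far j y) : M.Near i y := by
  rcases (S.line i).behrstock (S.line j) y with h | h
  · obtain ⟨k, hk⟩ := hj.2
    refine ⟨_, hk, ?_⟩
    unfold c
    rw [h]
    exact S.piece i j hs _ _
  · exfalso
    obtain ⟨k, hk⟩ := hi.2
    have h1 := hy _ hk
    unfold c at h1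
    rw [h] at h1
    have := S.piece j i (fun h => hs (S.same_symm _ _ h)) (S.T.pr (S.L i) y) k
    omega

lemma ping : ∀ (l : List (I × G)) (i : I) (h : G) (x : V), M.Red ((i, h) :: l) →
    (∀ y ∈ ((i, h) :: l).getLast?, M.Near y.1 x) → M.Near i (prod l • x) := by
  intro l
  induction l with
  | nil =>
    intro i h x _ hl
    have := hl (i, h) (by simp)
    simpa [prod] using this
  | cons a l ih =>
    intro i h x hr hl
    obtain ⟨⟨h1, h2, h3⟩, h4, h5⟩ := hr
    have hs : ¬ S.Same i a.1 := h4 a (by simp)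
    have h6 : M.Near a.1 (prod l • x) := by
      refine ih a.1 a.2 x h5 ?_
      intro y hy
      apply hl
      rw [List.getLast?_cons_cons]
      exact hy
    obtain ⟨⟨h7, h8, h9⟩, -, -⟩ := h5
    rw [prod_cons, mul_smul]
    exact M.transfer h1 h7 hs (M.near_far h7 h8 h9 h6)

/-- The image under a nontrivial reduced product is far away. -/
lemma pong {i : I} {h : G} {l : List (I × G)} {x : V} (hr : M.Red ((i, h) :: l))
    (hl : ∀ y ∈ ((i, h) :: l).getLast?, M.Near y.1 x) : M.Far i (prod ((i, h) :: l) • x) := by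
  have h1 := M.ping l i h x hr hl
  obtain ⟨⟨h7, h8, h9⟩, -, -⟩ := hr
  rw [prod_cons, mul_smul]
  exact M.near_far h7 h8 h9 h1

lemma red_tail {a : I × G} {l : List (I × G)} (h : M.Red (a :: l)) : M.Red l := h.2.2

lemma red_dropLast : ∀ {l : List (I × G)} {a : I × G}, M.Red (l ++ [a]) → M.Red l := by
  intro l a
  induction l with
  | nil => intro _; trivial
  | cons b l ih =>
    rintro ⟨h1, h2, h3⟩
    refine ⟨h1, ?_, ih h3⟩
    intro b' hb'
    apply h2
    cases l with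
    | nil => simp at hb'
    | cons c l => simpa using hb'

lemma red_mem : ∀ {l : List (I × G)}, M.Red l → ∀ a ∈ l, a.1 ∈ M.J1 ∧ a.2 ∈ S.H a.1 ∧ a.2 ≠ 1 := by
  intro l
  induction l with
  | nil => intro _ a ha; simp at ha
  | cons b l ih =>
    rintro ⟨h1, h2, h3⟩ a ha
    rcases List.mem_cons.1 ha with rfl | ha
    · exact h1
    · exact ih h3 a ha

/-- If the image of the region under a reduced product meets a new line, then the product is in
the group of that line. -/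
lemma F2 {m : I} (hm : m ∈ M.J1) : ∀ {l : List (I × G)}, M.Red l → ∀ {y : V}, y ∈ M.W →
    prod l • y ∈ Set.range (S.L m) → prod l ∈ S.H m := by
  intro l
  induction l with
  | nil => intro _ y _ _; simp [prod]
  | cons a l ih =>
    intro hr y hy hx
    obtain ⟨i, h⟩ := a
    by_cases hs : S.Same i m
    · have hh : h ∈ S.H m := S.same_H _ _ hs ▸ hr.1.2.1
      have h1 : prod l • y ∈ Set.range (S.L m) := by
        have := S.range_H ((S.H m).inv_mem hh) hx
        rwa [prod_cons, mul_smul, inv_smul_smul] at this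
      rw [prod_cons]
      exact (S.H m).mul_mem hh (ih hr.2.2 hy h1)
    · exfalso
      refine M.on_not_far hs hm hx (M.pong hr ?_)
      intro z hz
      exact ⟨y, hy, by
        have := S.lam_pos z.1
        rw [sub_self, abs_zero]; omega⟩

/-- If the image of a new line under a reduced product meets a new line, then the product is a
product of elements of the groups of the two lines. -/
lemma F1 (N : ℕ) : ∀ {l : List (I × G)}, l.length ≤ N → M.Red l → ∀ {m m' : I}, m ∈ M.J1 →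
    m' ∈ M.J1 → ∀ {y : V}, y ∈ Set.range (S.L m') →
    prod l • y ∈ Set.range (S.L m) → ∃ h ∈ S.H m, ∃ h' ∈ S.H m', prod l = h * h' := by
  induction N with
  | zero =>
    intro l hl _ m m' _ _ y _ _
    have : l = [] := List.eq_nil_of_length_eq_zero (Nat.le_zero.1 hl)
    subst this
    exact ⟨1, (S.H m).one_mem, 1, (S.H m').one_mem, by simp [prod]⟩
  | succ N ih =>
    intro l hl hr m m' hm hm' y hy hx
    rcases l with _ | ⟨⟨i, h⟩, l⟩
    · exact ⟨1, (S.H m).one_mem, 1, (S.H m').one_mem, by simp [prod]⟩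
    by_cases hs : S.Same i m
    · have hh : h ∈ S.H m := S.same_H _ _ hs ▸ hr.1.2.1
      have h1 : prod l • y ∈ Set.range (S.L m) := by
        have := S.range_H ((S.H m).inv_mem hh) hx
        rwa [prod_cons, mul_smul, inv_smul_smul] at this
      obtain ⟨h2, hh2, h3, hh3, he⟩ := ih (by simpa using hl) hr.2.2 hm hm' hy h1
      refine ⟨h * h2, (S.H m).mul_mem hh hh2, h3, hh3, ?_⟩
      rw [prod_cons, he]; group
    obtain ⟨l', a, hla⟩ : ∃ l' a, (i, h) :: l = l' ++ [a] :=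
      ⟨_, _, (List.dropLast_append_getLast (by simp)).symm⟩
    by_cases hs' : S.Same a.1 m'
    · rw [hla] at hr hx hl ⊢
      have hh : a.2 ∈ S.H m' := S.same_H _ _ hs' ▸ (M.red_mem hr a (by simp)).2.1
      rw [prod_append] at hx ⊢
      have e : prod [a] = a.2 := by simp [prod]
      rw [e] at hx ⊢
      rw [mul_smul] at hx
      obtain ⟨h2, hh2, h3, hh3, he⟩ := ih (by simp at hl; omega) (M.red_dropLast hr) hm hm'
        (S.range_H hh hy) hx
      exact ⟨h2, hh2, h3 * a.2, (S.H m').mul_mem hh3 hh, by rw [he]; group⟩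
    · exfalso
      refine M.on_not_far hs hm hx (M.pong hr ?_)
      intro z hz
      rw [hla] at hz
      simp only [List.getLast?_append, List.getLast?_singleton, Option.some_or, Option.mem_def,
        Option.some.injEq] at hz
      subst hz
      exact M.on_near hs' hm' hy

/-- The union of the translates of the region. -/
def U : Set V := {x | ∃ g ∈ M.N', g⁻¹ • x ∈ M.W}

/-- The lines of the last layer. -/
def M1 : Set I := {m | ∃ g ∈ M.N', ∃ i ∈ M.J1, m = g • i}

lemma F2' {m : I} (hm : m ∈ M.J1) {g : G} (hg : g ∈ M.N') {x : V} (hx : x ∈ Set.range (S.L m))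
    (hgx : g⁻¹ • x ∈ M.W) : ∃ h ∈ S.H m, h⁻¹ • x ∈ M.W := by
  obtain ⟨l, hl, n, hn, rfl⟩ := M.exists_red hg
  refine ⟨prod l, M.F2 hm hl (y := (prod l)⁻¹ • x) ?_ (by simpa using hx), ?_⟩ <;>
  · have := M.w1 n hn _ hgx
    rw [mul_inv_rev, mul_smul, smul_inv_smul] at this
    exact this

lemma btw_W {i : I} {a b c : ℤ} (hab : a ≤ b) (hbc : b ≤ c) (ha : S.L i a ∈ M.W)
    (hc : S.L i c ∈ M.W) : S.L i b ∈ M.W :=
  M.conv _ ha _ hc _ (line_btw (S.line i) hab hbc)

lemma cfg : Cfg S.L S.Same S.n S.D M.M1 M.U := by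
  constructor
  · rintro _ ⟨g, hg, m, hm, rfl⟩ _ ⟨g', hg', m', hm', rfl⟩ hns x hx hx' hxU
    rw [S.range_smul'] at hx hx'
    -- the relative position
    obtain ⟨l, hl, n, hn, hk⟩ := M.exists_red (M.N'.mul_mem (M.N'.inv_mem hg) hg')
    have hnm : n • m' ∈ M.J1 := M.J1_smul hn hm'
    set y := n • g'⁻¹ • x with hy
    have hy1 : y ∈ Set.range (S.L (n • m')) := (S.range_smul n m' _).2 hx'
    have hy2 : prod l • y = g⁻¹ • x := by
      have : prod l = g⁻¹ * g' * n⁻¹ := by rw [hk]; group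
      rw [this, hy]
      simp [mul_smul]
    obtain ⟨h, hh, h', hh', he⟩ := M.F1 l.length le_rfl hl hm hnm hy1 (by rw [hy2]; exact hx)
    -- after translation by `g * h` both lines are new lines
    set y' := h' • y with hy'
    have hy'1 : y' ∈ Set.range (S.L (n • m')) := S.range_H hh' hy1
    have hy'2 : h • y' = g⁻¹ • x := by rw [hy', smul_smul, ← he, hy2]
    have hy'3 : y' ∈ Set.range (S.L m) := by
      have := S.range_H ((S.H m).inv_mem hh) hx
      rwa [← hy'2, inv_smul_smul] at this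
    have hk2 : ∀ z, z ∈ Set.range (S.L (n • m')) →
        (g * h) • z ∈ Set.range (S.L (g' • m')) := by
      intro z hz
      have h1 := S.range_H ((S.H _).inv_mem hh') hz
      rw [S.range_smul'] at h1 ⊢
      have e : g'⁻¹ • (g * h) • z = n⁻¹ • h'⁻¹ • z := by
        have : g' = g * (prod l * n) := by rw [← hk]; group
        rw [smul_smul, smul_smul, this, he]
        congr 1
        group
      rw [e]
      exact h1
    have hk1 : ∀ z, z ∈ Set.range (S.L m) → (g * h) • z ∈ Set.range (S.L (g • m)) := by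
      intro z hz
      rw [mul_smul, S.range_smul]
      exact S.range_H hh hz
    -- a common point in the region
    obtain ⟨s, hs⟩ := hm.2
    obtain ⟨t, ht⟩ := hnm.2
    set p := S.L m (S.c m (S.L (n • m') t)) with hp
    have hxW : (g * h) • y' = x := by rw [mul_smul, hy'2, smul_inv_smul]
    have hyW : y' ∉ M.W := by
      intro h1
      apply hxU
      refine ⟨g * h, M.N'.mul_mem hg (M.H_le_N' hm hh), ?_⟩
      rw [← hxW, inv_smul_smul]
      exact h1
    have hc1 : S.c m (S.L m s) = s := (S.line m).pr_self s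
    have hpW : p ∈ M.W := by
      rcases lt_trichotomy (S.c m (S.L m s)) (S.c m (S.L (n • m') t)) with h1 | h1 | h1
      · exact M.conv _ hs _ ht _ (seg_btw (S.line m) h1 h1.le le_rfl)
      · rw [hp, ← h1, hc1]; exact hs
      · exact M.conv _ ht _ hs _ (seg_btw (S.line m) h1 le_rfl h1.le)
    have hpL : p ∈ Set.range (S.L (n • m')) := by
      have hcu : S.L m (S.c m y') = y' := pr_range (S.line m) hy'3
      rcases lt_trichotomy (S.c m y') (S.c m (S.L (n • m') t)) with h1 | h1 | h1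
      · exact range_conv (S.line _) hy'1 ⟨t, rfl⟩ (seg_btw (S.line m) h1 h1.le le_rfl)
      · rw [hp, ← h1, hcu]; exact hy'1
      · exact range_conv (S.line _) ⟨t, rfl⟩ hy'1 (seg_btw (S.line m) h1 le_rfl h1.le)
    refine ⟨(g * h) • p, ⟨g * h, M.N'.mul_mem hg (M.H_le_N' hm hh), ?_⟩, hk1 p ⟨_, rfl⟩,
      hk2 p hpL⟩
    rw [inv_smul_smul]; exact hpW
  · rintro _ ⟨g, hg, m, hm, rfl⟩ a b c hab hbc ⟨g1, hg1, ha⟩ hb ⟨g2, hg2, hc⟩
    rw [S.n_smul, S.D_smul]
    rw [S.L_smul] at ha hb hc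
    obtain ⟨h1, hh1, ha1⟩ := M.F2' hm (M.N'.mul_mem (M.N'.inv_mem hg) hg1) (x := S.L m a)
      ⟨a, rfl⟩ (by rw [mul_inv_rev, inv_inv, mul_smul]; exact ha)
    obtain ⟨h2, hh2, hc2⟩ := M.F2' hm (M.N'.mul_mem (M.N'.inv_mem hg) hg2) (x := S.L m c)
      ⟨c, rfl⟩ (by rw [mul_inv_rev, inv_inv, mul_smul]; exact hc)
    obtain ⟨τ1, -, h3, -⟩ := S.htau_c ((S.H m).inv_mem hh1)
    have hne : h1 ≠ h2 := by
      rintro rfl
      rw [h3] at ha1 hc2
      have := M.btw_W (i := m) (a := a + τ1) (b := b + τ1) (c := c + τ1) (by omega) (by omega)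
        ha1 hc2
      rw [← h3] at this
      apply hb
      refine ⟨g * h1, M.N'.mul_mem hg (M.H_le_N' hm hh1), ?_⟩
      rw [mul_inv_rev, mul_smul, inv_smul_smul]
      exact this
    obtain ⟨τ2, h4, h5, -⟩ := S.htau_c ((S.H m).mul_mem ((S.H m).inv_mem hh2) hh1)
    have h6 : h2⁻¹ • S.L m c = S.L m (c + τ1 + τ2) := by
      rw [← h5, ← h3, smul_smul]; group
    rw [h3] at ha1
    rw [h6] at hc2
    have h7 := M.w4 m hm.1 _ ha1 _ hc2
    unfold Sys.c at h7
    rw [(S.line m).pr_self, (S.line m).pr_self] at h7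
    have h8 : S.n m ≤ |τ2| := by
      apply h4
      intro h
      apply hne
      have := inv_mul_eq_one.1 h
      exact this.symm
    rw [abs_le] at h7
    rcases abs_cases τ2 with h9 | h9 <;> omega

end Mill

end Sys

end Pool.Agent.Helper477_holes
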