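import Mathlib
import Pool.Agent.Helper477_holes.Lines
import Pool.Agent.Helper477_holes.Mill

set_option autoImplicit false

/-!
# How holes and zigzags can meet

The local combinatorics of the lines of types in use: how many consecutive edges two lines can
share, and the proofs of the axioms `cover` and `esc` of `Sys`.
-/

namespace Pool.Agent.Helper477_holes

open Pool.Agent.H17R2 Vt

variable {q : ℕ} {Dt : Data q}

/-- `ψ` is a parametrization of the line `x`. -/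
def Par (x : Ln Dt) (ψ : ℤ → Vt q) : Prop := IsTy q x.ty ψ ∧ Set.range ψ = Set.range x.f

namespace Par

lemma line {x : Ln Dt} {ψ : ℤ → Vt q} (h : Par x ψ) : (T q).IsLine ψ :=
  h.1.line (Dt.hA _ x.hA).1 (Dt.hA _ x.hA).2

lemma mem {x : Ln Dt} {ψ : ℤ → Vt q} (h : Par x ψ) (k : ℤ) : ψ k ∈ Set.range x.f := by
  rw [← h.2]; exact ⟨k, rfl⟩

lemma get {x : Ln Dt} {ψ : ℤ → Vt q} (h : Par x ψ) {y : Vt q} (hy : y ∈ Set.range x.f) :
    ∃ k, ψ k = y := by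
  rw [← h.2] at hy; exact hy

lemma rev {x : Ln Dt} {ψ : ℤ → Vt q} (h : Par x ψ) (b : ℤ) {ε : ℤ} (hε : ε = 1 ∨ ε = -1) :
    Par x (fun k => ψ (b + ε * k)) := by
  refine ⟨h.1.reparam b hε, ?_⟩
  rw [← h.2]
  apply Set.eq_of_subset_of_subset
  · rintro _ ⟨k, rfl⟩; exact ⟨_, rfl⟩
  · rintro _ ⟨k, rfl⟩
    refine ⟨ε * (k - b), ?_⟩
    simp only
    congr 1
    rcases hε with rfl | rfl <;> ring

/-- The vertex after `ψ k`. -/
lemma next {x : Ln Dt} {ψ : ℤ → Vt q} (h : Par x ψ) {k : ℤ} {w : Vt q}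
    (hw : w ∈ Set.range x.f) (hd : (T q).d (ψ k) w = 1) (hne : w ≠ ψ (k - 1)) :
    ψ (k + 1) = w := by
  obtain ⟨j, rfl⟩ := h.get hw
  rw [h.line] at hd
  have : j = k + 1 ∨ j = k - 1 := by rcases abs_cases (k - j) with h1 | h1 <;> omega
  rcases this with rfl | rfl
  · rfl
  · exact absurd rfl hne

lemma prev {x : Ln Dt} {ψ : ℤ → Vt q} (h : Par x ψ) {k : ℤ} {w : Vt q}
    (hw : w ∈ Set.range x.f) (hd : (T q).d (ψ k) w = 1) (hne : w ≠ ψ (k + 1)) :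
    ψ (k - 1) = w := by
  obtain ⟨j, rfl⟩ := h.get hw
  rw [h.line] at hd
  have : j = k + 1 ∨ j = k - 1 := by rcases abs_cases (k - j) with h1 | h1 <;> omega
  rcases this with rfl | rfl
  · exact absurd rfl hne
  · rfl

lemma inj {x : Ln Dt} {ψ : ℤ → Vt q} (h : Par x ψ) {k l : ℤ} (hkl : ψ k = ψ l) : k = l :=
  line_inj h.line hkl

lemma d_succ {x : Ln Dt} {ψ : ℤ → Vt q} (h : Par x ψ) (k : ℤ) :
    (T q).d (ψ k) (ψ (k + 1)) = 1 := h.1.1 k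

lemma d_pred {x : Ln Dt} {ψ : ℤ → Vt q} (h : Par x ψ) (k : ℤ) :
    (T q).d (ψ k) (ψ (k - 1)) = 1 := h.1.step' k

lemma ne {x : Ln Dt} {ψ : ℤ → Vt q} (h : Par x ψ) {k l : ℤ} (hkl : k ≠ l) : ψ k ≠ ψ l :=
  fun e => hkl (h.inj e)

end Par

lemma self_par (x : Ln Dt) : Par x x.f := ⟨x.ht, rfl⟩

lemma exists_par (x : Ln Dt) {y y' : Vt q} (hy : y ∈ Set.range x.f) (hy' : y' ∈ Set.range x.f)
    (h : (T q).d y y' = 1) : ∃ ψ, Par x ψ ∧ ψ 0 = y ∧ ψ 1 = y' := by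
  obtain ⟨a, rfl⟩ := hy
  obtain ⟨b, rfl⟩ := hy'
  rw [x.line] at h
  refine ⟨fun k => x.f (a + (b - a) * k), (self_par x).rev a ?_, ?_, ?_⟩
  · rcases abs_cases (a - b) with h1 | h1 <;> omega
  · simp
  · simp

lemma exists_par' (x : Ln Dt) {y y' : Vt q} (hy : y ∈ Set.range x.f) (hy' : y' ∈ Set.range x.f)
    (h : (T q).d y y' = 1) : ∃ ψ, Par x ψ ∧ ψ 0 = y ∧ ψ (-1) = y' := by
  obtain ⟨ψ, h1, h2, h3⟩ := exists_par x hy hy' h
  refine ⟨_, h1.rev 0 (Or.inr rfl), ?_, ?_⟩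
  · simpa using h2
  · simpa using h3

lemma not_same {x y : Ln Dt} {v : Vt q} (h1 : v ∈ Set.range x.f) (h2 : v ∉ Set.range y.f) :
    ¬ x.Same y := fun h => h2 (h.2 ▸ h1)

lemma same_symm {x y : Ln Dt} (h : x.Same y) : y.Same x := ⟨h.1.symm, h.2.symm⟩

lemma uz_eq {s t : ℤˣ} {a b : ZMod q} (h : uz q s * a = uz q t * b) : a = b ∨ a = -b := by
  rcases uz_cases (q := q) s with h1 | h1 <;> rcases uz_cases (q := q) t with h2 | h2 <;>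
  rw [h1, h2] at h
  · left; simpa using h
  · right; simpa using h
  · right; rw [neg_one_mul, one_mul] at h; rw [← h, neg_neg]
  · left; simpa using h

/-- Two different lines which share three consecutive vertices are a hole and a zigzag of the same
kind. -/
lemma share3 {x y : Ln Dt} (hns : ¬ x.Same y) {v0 v1 v2 : Vt q} (h01 : (T q).d v0 v1 = 1)
    (h12 : (T q).d v1 v2 = 1) (h02 : v0 ≠ v2) (hx0 : v0 ∈ Set.range x.f)
    (hx1 : v1 ∈ Set.range x.f) (hx2 : v2 ∈ Set.range x.f) (hy0 : v0 ∈ Set.range y.f)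
    (hy1 : v1 ∈ Set.range y.f) (hy2 : v2 ∈ Set.range y.f) :
    x.ty.1 = y.ty.1 ∧ x.ty.2 ≠ y.ty.2 := by
  obtain ⟨φ, hφ, hφ0, hφ1⟩ := exists_par x hx0 hx1 h01
  obtain ⟨ψ, hψ, hψ0, hψ1⟩ := exists_par y hy0 hy1 h01
  have hφ2 : φ 2 = v2 := by
    have := hφ.next (k := 1) hx2 (by rw [hφ1]; exact h12) (by
      rw [show (1 : ℤ) - 1 = 0 by norm_num, hφ0]; exact h02.symm)
    exact this
  have hψ2 : ψ 2 = v2 := by
    have := hψ.next (k := 1) hy2 (by rw [hψ1]; exact h12) (by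
      rw [show (1 : ℤ) - 1 = 0 by norm_num, hψ0]; exact h02.symm)
    exact this
  obtain ⟨s, hs⟩ := hφ.1.2
  obtain ⟨t, ht⟩ := hψ.1.2
  have h1 := hs 1
  have h2 := ht 1
  rw [show (1 : ℤ) - 1 = 0 by norm_num, show (1 : ℤ) + 1 = 2 by norm_num] at h1 h2
  rw [hφ0, hφ1, hφ2] at h1
  rw [hψ0, hψ1, hψ2, h1] at h2
  have h3 := uz_eq h2
  have h4 := natCast_inj (Dt.hA _ x.hA).1 (Dt.hA _ x.hA).2 (Dt.hA _ y.hA).1 (Dt.hA _ y.hA).2 h3
  refine ⟨h4, fun h5 => hns ?_⟩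
  have h6 : x.ty = y.ty := Prod.ext h4 h5
  refine ⟨h6, ?_⟩
  have h7 : IsTy q x.ty ψ := by rw [h6]; exact hψ.1
  have h8 := det hφ.1 h7 (by rw [hφ0, hψ0]) (by rw [hφ1, hψ1]) (by rw [hφ2, hψ2])
  rw [← hφ.2, ← hψ.2, h8]

lemma dbl_of {x y : Ln Dt} (h1 : x.ty.1 = y.ty.1) (h2 : x.ty.2 ≠ y.ty.2) :
    Dbl Dt.A x.ty.1 := by
  have hx := x.hA
  have hy := y.hA
  have ex : x.ty = (x.ty.1, x.ty.2) := rfl
  have ey : y.ty = (x.ty.1, y.ty.2) := by rw [h1]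
  rw [ex] at hx
  rw [ey] at hy
  cases h3 : x.ty.2 <;> cases h4 : y.ty.2 <;> rw [h3] at hx <;> rw [h4] at hy
  · exact absurd (h3.trans h4.symm) h2
  · exact ⟨hy, hx⟩
  · exact ⟨hx, hy⟩
  · exact absurd (h3.trans h4.symm) h2

/-- Two different lines do not share four consecutive vertices. -/
lemma share4 {x y : Ln Dt} (hns : ¬ x.Same y) {v0 v1 v2 v3 : Vt q} (h01 : (T q).d v0 v1 = 1)
    (h12 : (T q).d v1 v2 = 1) (h23 : (T q).d v2 v3 = 1) (h02 : v0 ≠ v2) (h13 : v1 ≠ v3)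
    (hx0 : v0 ∈ Set.range x.f)
    (hx1 : v1 ∈ Set.range x.f) (hx2 : v2 ∈ Set.range x.f) (hx3 : v3 ∈ Set.range x.f)
    (hy0 : v0 ∈ Set.range y.f) (hy1 : v1 ∈ Set.range y.f) (hy2 : v2 ∈ Set.range y.f)
    (hy3 : v3 ∈ Set.range y.f) : False := by
  obtain ⟨hj, hk⟩ := share3 hns h01 h12 h02 hx0 hx1 hx2 hy0 hy1 hy2
  have hd := dbl_of hj hk
  have h2j := two_ne (Dt.hA _ x.hA).1 (Dt.hA _ x.hA).2 (Dt.hA' _ hd.2)
  obtain ⟨φ, hφ, hφ0, hφ1⟩ := exists_par x hx0 hx1 h01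
  obtain ⟨ψ, hψ, hψ0, hψ1⟩ := exists_par y hy0 hy1 h01
  have hφ2 : φ 2 = v2 := by
    have := hφ.next (k := 1) hx2 (by rw [hφ1]; exact h12) (by
      rw [show (1 : ℤ) - 1 = 0 by norm_num, hφ0]; exact h02.symm)
    exact this
  have hψ2 : ψ 2 = v2 := by
    have := hψ.next (k := 1) hy2 (by rw [hψ1]; exact h12) (by
      rw [show (1 : ℤ) - 1 = 0 by norm_num, hψ0]; exact h02.symm)
    exact this
  have hφ3 : φ 3 = v3 := by
    have := hφ.next (k := 2) hx3 (by rw [hφ2]; exact h23) (by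
      rw [show (2 : ℤ) - 1 = 1 by norm_num, hφ1]; exact h13.symm)
    exact this
  have hψ3 : ψ 3 = v3 := by
    have := hψ.next (k := 2) hy3 (by rw [hψ2]; exact h23) (by
      rw [show (2 : ℤ) - 1 = 1 by norm_num, hψ1]; exact h13.symm)
    exact this
  obtain ⟨s, hs⟩ := hφ.1.2
  obtain ⟨t, ht⟩ := hψ.1.2
  have h1 := hs 1
  have h2 := ht 1
  have h3 := hs 2
  have h4 := ht 2
  rw [show (1 : ℤ) - 1 = 0 by norm_num, show (1 : ℤ) + 1 = 2 by norm_num] at h1 h2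
  rw [show (2 : ℤ) - 1 = 1 by norm_num, show (2 : ℤ) + 1 = 3 by norm_num] at h3 h4
  rw [hφ0, hφ1, hφ2] at h1
  rw [hψ0, hψ1, hψ2, h1] at h2
  rw [hφ1, hφ2, hφ3] at h3
  rw [hψ1, hψ2, hψ3, h3] at h4
  have e2 : ∀ b, ut b 2 = 1 := by
    intro b
    rw [show (2 : ℤ) = 1 + 1 by norm_num, ut_add, Int.units_mul_self]
  rw [e2, e2, mul_one, mul_one, ← hj] at h4
  rw [uz_mul, uz_mul, ← hj, ut_one, ut_one] at h2
  have h5 : uz q s * (2 * (x.ty.1 : ZMod q)) = 0 := by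
    cases h6 : x.ty.2 <;> cases h7 : y.ty.2
    · exact absurd (h6.trans h7.symm) hk
    · rw [h6, h7] at h2
      simp only [if_true, uz_one, Bool.false_eq_true, if_false, uz_neg, mul_one, mul_neg,
        neg_mul] at h2
      linear_combination h4 - h2
    · rw [h6, h7] at h2
      simp only [if_true, uz_one, Bool.false_eq_true, if_false, uz_neg, mul_one, mul_neg,
        neg_mul] at h2
      linear_combination h4 + h2
    · exact absurd (h6.trans h7.symm) hk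
  exact uz_mul_ne h2j h5

/-- The turn of a line. -/
lemma turn_type (x : Ln Dt) {u v w : Vt q} (hu : u ∈ Set.range x.f) (hv : v ∈ Set.range x.f)
    (hw : w ∈ Set.range x.f) (h1 : (T q).d v u = 1) (h2 : (T q).d v w = 1) (hne : u ≠ w) :
    ∃ s : ℤˣ, turn u v w = uz q s * (x.ty.1 : ZMod q) := by
  obtain ⟨φ, hφ, hφ0, hφ1⟩ := exists_par x hv hw h2
  have h3 : φ (0 - 1) = u := hφ.prev hu (by rw [hφ0]; exact h1) (by
    rw [zero_add, hφ1]; exact hne)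
  obtain ⟨s, hs⟩ := hφ.1.2
  have h4 := hs 0
  rw [h3, zero_add, hφ0, hφ1] at h4
  exact ⟨_, h4⟩

lemma mem_PP (x : Ln Dt) (s : ℤˣ) : uz q s * (x.ty.1 : ZMod q) ∈ PP q Dt.A := by
  refine ⟨x.ty, x.hA, ?_⟩
  rcases uz_cases (q := q) s with h | h <;> rw [h]
  · left; ring
  · right; ring

lemma PP_uz {a : ZMod q} (h : a ∈ PP q Dt.A) (s : ℤˣ) : uz q s * a ∈ PP q Dt.A := by
  obtain ⟨τ, h1, h2⟩ := h
  refine ⟨τ, h1, ?_⟩
  rcases uz_cases (q := q) s with h | h <;> rw [h] <;> rcases h2 with h2 | h2 <;> rw [h2]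
  · left; ring
  · right; ring
  · right; ring
  · left; ring

/-- Three lines around a vertex. -/
lemma tri3 {k m1 m2 : Ln Dt} {x u1 u2 w : Vt q} (hk1 : u1 ∈ Set.range k.f)
    (hk : x ∈ Set.range k.f) (hk2 : u2 ∈ Set.range k.f) (h1 : u1 ∈ Set.range m1.f)
    (h1x : x ∈ Set.range m1.f) (h1w : w ∈ Set.range m1.f) (h2 : u2 ∈ Set.range m2.f)
    (h2x : x ∈ Set.range m2.f) (h2w : w ∈ Set.range m2.f) (d1 : (T q).d x u1 = 1)
    (d2 : (T q).d x u2 = 1) (dw : (T q).d x w = 1) (n12 : u1 ≠ u2) (n1w : u1 ≠ w)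
    (n2w : u2 ≠ w) : Tri q Dt.A k.ty.1 := by
  obtain ⟨s, hs⟩ := turn_type k hk1 hk hk2 d1 d2 n12
  obtain ⟨s1, hs1⟩ := turn_type m1 h1 h1x h1w d1 dw n1w
  obtain ⟨s2, hs2⟩ := turn_type m2 h2w h2x h2 dw d2 n2w.symm
  have h := turn_add u1 x w u2
  rw [hs, hs1, hs2] at h
  refine ⟨_, PP_uz (mem_PP m1 s1) s, _, PP_uz (mem_PP m2 s2) s, ?_⟩
  rw [← mul_add, h, ← mul_assoc, uz_sq, one_mul]

/-- The angle between two lines which separate after sharing two edges. -/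
lemma arc2 {x y : Ln Dt} (hns : ¬ x.Same y) {v w w' u1 u2 : Vt q} (h01 : (T q).d v w = 1)
    (h12 : (T q).d w w' = 1) (h02 : v ≠ w') (hx0 : v ∈ Set.range x.f)
    (hx1 : w ∈ Set.range x.f) (hx2 : w' ∈ Set.range x.f) (hy0 : v ∈ Set.range y.f)
    (hy1 : w ∈ Set.range y.f) (hy2 : w' ∈ Set.range y.f) (hu1 : u1 ∈ Set.range x.f)
    (hu2 : u2 ∈ Set.range y.f) (d1 : (T q).d v u1 = 1) (d2 : (T q).d v u2 = 1)
    (n1 : u1 ≠ w) (n2 : u2 ≠ w) :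
    ∃ s : ℤˣ, turn u1 v u2 = uz q s * (2 * (x.ty.1 : ZMod q)) := by
  obtain ⟨hj, hk⟩ := share3 hns h01 h12 h02 hx0 hx1 hx2 hy0 hy1 hy2
  obtain ⟨φ, hφ, hφ0, hφ1⟩ := exists_par x hx0 hx1 h01
  obtain ⟨ψ, hψ, hψ0, hψ1⟩ := exists_par y hy0 hy1 h01
  have hφ2 : φ 2 = w' := by
    have := hφ.next (k := 1) hx2 (by rw [hφ1]; exact h12) (by
      rw [show (1 : ℤ) - 1 = 0 by norm_num, hφ0]; exact h02.symm)
    exact this
  have hψ2 : ψ 2 = w' := by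
    have := hψ.next (k := 1) hy2 (by rw [hψ1]; exact h12) (by
      rw [show (1 : ℤ) - 1 = 0 by norm_num, hψ0]; exact h02.symm)
    exact this
  have hφm : φ (0 - 1) = u1 := hφ.prev hu1 (by rw [hφ0]; exact d1) (by
    rw [zero_add, hφ1]; exact n1)
  have hψm : ψ (0 - 1) = u2 := hψ.prev hu2 (by rw [hψ0]; exact d2) (by
    rw [zero_add, hψ1]; exact n2)
  obtain ⟨s, hs⟩ := hφ.1.2
  obtain ⟨t, ht⟩ := hψ.1.2
  have h1 := hs 1
  have h2 := ht 1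
  have h3 := hs 0
  have h4 := ht 0
  rw [show (1 : ℤ) - 1 = 0 by norm_num, show (1 : ℤ) + 1 = 2 by norm_num] at h1 h2
  rw [hφ0, hφ1, hφ2] at h1
  rw [hψ0, hψ1, hψ2, h1] at h2
  rw [hφm, zero_add, hφ0, hφ1, ut_zero, mul_one] at h3
  rw [hψm, zero_add, hψ0, hψ1, ut_zero, mul_one, ← hj] at h4
  rw [uz_mul, uz_mul, ← hj, ut_one, ut_one] at h2
  refine ⟨s, ?_⟩
  have h5 := turn_add u1 v w u2
  rw [h3, turn_rev u2 v w, h4] at h5
  rw [← h5]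
  cases h6 : x.ty.2 <;> cases h7 : y.ty.2
  · exact absurd (h6.trans h7.symm) hk
  · rw [h6, h7] at h2
    simp only [if_true, uz_one, Bool.false_eq_true, if_false, uz_neg, mul_one, mul_neg,
      neg_mul] at h2
    linear_combination h2
  · rw [h6, h7] at h2
    simp only [if_true, uz_one, Bool.false_eq_true, if_false, uz_neg, mul_one, mul_neg,
      neg_mul] at h2
    linear_combination - h2
  · exact absurd (h6.trans h7.symm) hk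

/-! ### The constants -/

open Classical in
/-- the maximal number of common edges with another line -/
noncomputable def lamv (Dt : Data q) (j : ℕ) : ℤ := if Dbl Dt.A j then 2 else 1

open Classical in
/-- the maximal number of common edges with the region -/
noncomputable def Dv (Dt : Data q) (j : ℕ) : ℤ :=
  if Dbl Dt.A j then (if 3 * (j : ZMod q) = 0 then 4 else
    if 2 * (j : ZMod q) ∈ PP q Dt.A then 3 else 2)
  else if Tri q Dt.A j then 2 else 1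

lemma PP_neg {A : ℕ × Bool → Prop} {a : ZMod q} (h : a ∈ PP q A) : -a ∈ PP q A := by
  obtain ⟨τ, h1, h2⟩ := h
  refine ⟨τ, h1, ?_⟩
  rcases h2 with h2 | h2 <;> rw [h2]
  · right; rfl
  · left; ring

lemma two_mem_of_three {τ : ℕ × Bool} (h : Dt.A τ) (h3 : 3 * (τ.1 : ZMod q) = 0) :
    2 * (τ.1 : ZMod q) ∈ PP q Dt.A := by
  refine ⟨τ, h, Or.inr ?_⟩
  linear_combination h3

section window

variable {M : Set (Ln Dt)} {U : Set (Vt q)}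

/-- The configuration. -/
abbrev CF (M : Set (Ln Dt)) (U : Set (Vt q)) : Prop :=
  Cfg (fun x : Ln Dt => x.f) Ln.Same (fun x => (Dt.n x.ty : ℤ)) (fun x => Dv Dt x.ty.1) M U

lemma f2' (hc : CF M U) {m : Ln Dt} (hm : m ∈ M) {χ : ℤ → Vt q} (hχ : Par m χ) {a b c : ℤ}
    (hab : a < b) (hbc : b < c) (ha : χ a ∈ U) (hb : χ b ∉ U) (hc' : χ c ∈ U) :
    (Dt.n m.ty : ℤ) - Dv Dt m.ty.1 ≤ c - a := by
  obtain ⟨b0, ε, hε, h⟩ := Ln.reparam_of_range m.line hχ.line hχ.2.le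
  rw [h] at ha hb hc'
  rcases hε with rfl | rfl
  · have := hc.f2 m hm _ _ _ (by omega : b0 + 1 * a < b0 + 1 * b)
      (by omega : b0 + 1 * b < b0 + 1 * c) ha hb hc'
    linarith
  · have := hc.f2 m hm _ _ _ (by omega : b0 + -1 * c < b0 + -1 * b)
      (by omega : b0 + -1 * b < b0 + -1 * a) hc' hb ha
    linarith

lemma btw_mem {m : Ln Dt} {χ : ℤ → Vt q} (hχ : (T q).IsLine χ) {a b c : ℤ} (hab : a ≤ b)
    (hbc : b ≤ c) (ha : χ a ∈ Set.range m.f) (hc : χ c ∈ Set.range m.f) :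
    χ b ∈ Set.range m.f :=
  range_conv m.line ha hc (line_btw hχ hab hbc)

/-- Two lines of the last layer which separate at `x`. -/
lemma junction (hc : CF M U) {m1 m2 : Ln Dt} (h1 : m1 ∈ M) (h2 : m2 ∈ M) {x u1 u2 : Vt q}
    (hx1 : x ∈ Set.range m1.f) (hx2 : x ∈ Set.range m2.f) (hu1 : u1 ∈ Set.range m1.f)
    (hu2 : u2 ∈ Set.range m2.f) (hn1 : u1 ∉ Set.range m2.f) (hn2 : u2 ∉ Set.range m1.f)
    (d1 : (T q).d x u1 = 1) (d2 : (T q).d x u2 = 1) (hxU : x ∉ U) :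
    ∃ (χ : ℤ → Vt q) (c : ℤ), Par m2 χ ∧ χ 0 = x ∧ χ (-1) = u2 ∧ 1 ≤ c ∧ c ≤ 2 ∧ χ c ∈ U ∧
      (∀ i, 0 ≤ i → i ≤ c → χ i ∈ Set.range m1.f) ∧ ¬ m1.Same m2 := by
  have hns : ¬ m1.Same m2 := not_same hu1 hn1
  obtain ⟨p, hpU, hp1, hp2⟩ := hc.f1 m1 h1 m2 h2 hns x hx1 hx2 hxU
  obtain ⟨χ, hχ, hχ0, hχ1⟩ := exists_par' m2 hx2 hu2 d2
  obtain ⟨c, hcp⟩ := hχ.get hp2
  have hc1 : 1 ≤ c := by
    by_contra hcon
    have hc0 : c ≠ 0 := by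
      rintro rfl
      rw [hχ0] at hcp
      exact hxU (hcp ▸ hpU)
    apply hn2
    rw [← hχ1]
    exact btw_mem hχ.line (by omega : c ≤ -1) (by norm_num : (-1 : ℤ) ≤ 0) (hcp ▸ hp1)
      (hχ0 ▸ hx1)
  have hall : ∀ i, 0 ≤ i → i ≤ c → χ i ∈ Set.range m1.f := fun i hi hic =>
    btw_mem hχ.line hi hic (hχ0 ▸ hx1) (hcp ▸ hp1)
  refine ⟨χ, c, hχ, hχ0, hχ1, hc1, ?_, hcp ▸ hpU, hall, hns⟩
  by_contra hcon
  exact share4 hns (hχ.d_succ 0) (hχ.d_succ 1) (hχ.d_succ 2) (hχ.ne (by norm_num))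
    (hχ.ne (by norm_num)) (hall 0 le_rfl (by omega)) (hall _ (by norm_num) (by omega))
    (hall _ (by norm_num) (by omega)) (hall _ (by norm_num) (by omega)) (hχ.mem _) (hχ.mem _)
    (hχ.mem _) (hχ.mem _)

/-- If the common arc has two edges, then the third line has the double type. -/
lemma junction2 {k m1 m2 : Ln Dt} (hns : ¬ m1.Same m2) {x u1 u2 : Vt q}
    {χ : ℤ → Vt q} (hχ : Par m2 χ) (hχ0 : χ 0 = x) (hχ1 : χ (-1) = u2)
    (hall : ∀ i, 0 ≤ i → i ≤ 2 → χ i ∈ Set.range m1.f) (hu1 : u1 ∈ Set.range m1.f)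
    (hn1 : u1 ∉ Set.range m2.f) (d1 : (T q).d x u1 = 1)
    (hk1 : u1 ∈ Set.range k.f) (hk : x ∈ Set.range k.f) (hk2 : u2 ∈ Set.range k.f) :
    Dbl Dt.A m2.ty.1 ∧ (∃ s, 2 * (m2.ty.1 : ZMod q) = uz q s * (k.ty.1 : ZMod q)) := by
  have h0 := hall 0 le_rfl (by norm_num)
  have h1 := hall 1 (by norm_num) (by norm_num)
  have h2 := hall 2 (by norm_num) le_rfl
  have e1 : (T q).d (χ 0) (χ 1) = 1 := hχ.d_succ 0
  have e2 : (T q).d (χ 1) (χ 2) = 1 := hχ.d_succ 1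
  have d2 : (T q).d x u2 = 1 := by rw [← hχ0, ← hχ1]; exact hχ.d_pred 0
  obtain ⟨hj, hkd⟩ := share3 hns e1 e2 (hχ.ne (by norm_num)) h0 h1 h2 (hχ.mem _) (hχ.mem _)
    (hχ.mem _)
  have hns' : ¬ m2.Same m1 := fun h => hns (same_symm h)
  refine ⟨dbl_of hj.symm (Ne.symm hkd), ?_⟩
  obtain ⟨s, hs⟩ := arc2 hns' e1 e2 (hχ.ne (by norm_num)) (hχ.mem _) (hχ.mem _)
    (hχ.mem _) h0 h1 h2 (u1 := u2) (u2 := u1) (hχ1 ▸ hχ.mem (-1)) hu1 (by rw [hχ0]; exact d2)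
    (by rw [hχ0]; exact d1) (by rw [← hχ1]; exact hχ.ne (by norm_num))
    (fun h => hn1 (h ▸ hχ.mem 1))
  rw [hχ0] at hs
  have hne : u2 ≠ u1 := fun h => hn1 (h ▸ hχ1 ▸ hχ.mem (-1))
  obtain ⟨t, ht⟩ := turn_type k hk2 hk hk1 d2 d1 hne
  rw [ht] at hs
  refine ⟨s * t, ?_⟩
  rw [uz_mul, mul_assoc, hs, ← mul_assoc, uz_sq, one_mul]

variable {k : Ln Dt} {ψ : ℤ → Vt q}

/-- An edge of `ψ` is in a line of `M`. -/
def EE (M : Set (Ln Dt)) (ψ : ℤ → Vt q) (i : ℤ) : Prop :=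
  ∃ m ∈ M, ψ i ∈ Set.range m.f ∧ ψ (i + 1) ∈ Set.range m.f

/-- Both edges of `ψ` at a vertex are in a line of `M`. -/
def NV (M : Set (Ln Dt)) (ψ : ℤ → Vt q) (i : ℤ) : Prop :=
  ∃ m ∈ M, ψ (i - 1) ∈ Set.range m.f ∧ ψ i ∈ Set.range m.f ∧ ψ (i + 1) ∈ Set.range m.f

lemma EE_rev {i : ℤ} (h : EE M ψ i) : EE M (fun k => ψ (0 + -1 * k)) (-i - 1) := by
  obtain ⟨m, hm, h1, h2⟩ := h
  refine ⟨m, hm, ?_, ?_⟩
  · simp only; rw [show 0 + -1 * (-i - 1) = i + 1 by ring]; exact h2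
  · simp only; rw [show 0 + -1 * (-i - 1 + 1) = i by ring]; exact h1

lemma NV_rev {i : ℤ} : NV M (fun k => ψ (0 + -1 * k)) (-i) ↔ NV M ψ i := by
  unfold NV
  simp only
  rw [show 0 + -1 * (-i - 1) = i + 1 by ring, show 0 + -1 * (-i) = i by ring,
    show 0 + -1 * (-i + 1) = i - 1 by ring]
  constructor
  · rintro ⟨m, hm, h1, h2, h3⟩; exact ⟨m, hm, h3, h2, h1⟩
  · rintro ⟨m, hm, h1, h2, h3⟩; exact ⟨m, hm, h3, h2, h1⟩

lemma NV_dbl (hk : ∀ m ∈ M, ¬ k.Same m) (hψ : Par k ψ) {i : ℤ} {m : Ln Dt} (hm : m ∈ M)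
    (h1 : ψ (i - 1) ∈ Set.range m.f) (h2 : ψ i ∈ Set.range m.f)
    (h3 : ψ (i + 1) ∈ Set.range m.f) : k.ty.1 = m.ty.1 ∧ k.ty.2 ≠ m.ty.2 :=
  share3 (hk m hm) (by have := hψ.d_succ (i - 1); rwa [sub_add_cancel] at this) (hψ.d_succ i)
    (hψ.ne (by omega)) (hψ.mem _) (hψ.mem _) (hψ.mem _) h1 h2 h3

lemma NN (hc : CF M U) (hk : ∀ m ∈ M, ¬ k.Same m) (hU : ∀ s, ψ s ∉ U) (hψ : Par k ψ) {i : ℤ}
    (h1 : NV M ψ i) (h2 : NV M ψ (i + 1)) : False := by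
  obtain ⟨m, hm, a1, a2, a3⟩ := h1
  obtain ⟨m', hm', b1, b2, b3⟩ := h2
  rw [add_sub_cancel_right] at b1
  obtain ⟨c1, c2⟩ := NV_dbl hk hψ hm a1 a2 a3
  obtain ⟨c3, c4⟩ := NV_dbl (i := i + 1) hk hψ hm' (by rw [add_sub_cancel_right]; exact b1) b2 b3
  have hty : m.ty.2 = m'.ty.2 := by
    cases h3 : k.ty.2 <;> cases h4 : m.ty.2 <;> cases h5 : m'.ty.2 <;> simp_all
  by_cases hs : m.Same m'
  · refine share4 (hk m hm) (v0 := ψ (i - 1)) (v1 := ψ i) (v2 := ψ (i + 1)) (v3 := ψ (i + 1 + 1))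
      (by have := hψ.d_succ (i - 1); rwa [sub_add_cancel] at this) (hψ.d_succ i)
      (hψ.d_succ (i + 1)) (hψ.ne (by omega)) (hψ.ne (by omega)) (hψ.mem _) (hψ.mem _) (hψ.mem _)
      (hψ.mem _) a1 a2 a3 (by rw [hs.2]; exact b3)
  · obtain ⟨p, hpU, hp1, hp2⟩ := hc.f1 m hm m' hm' hs (ψ i) a2 b1 (hU i)
    obtain ⟨χ, hχ, hχ0, hχ1⟩ := exists_par m a2 a3 (hψ.d_succ i)
    obtain ⟨c, hcp⟩ := hχ.get hp1
    have hc0 : c ≠ 0 := by
      rintro rfl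
      exact hU i (hχ0 ▸ hcp ▸ hpU)
    have hc1 : c ≠ 1 := by
      rintro rfl
      exact hU (i + 1) (hχ1 ▸ hcp ▸ hpU)
    have h0 : χ 0 ∈ Set.range m'.f := hχ0 ▸ b1
    have h1 : χ 1 ∈ Set.range m'.f := hχ1 ▸ b2
    have hp : χ c ∈ Set.range m'.f := hcp ▸ hp2
    rcases lt_or_ge c 0 with h | h
    · have h2 : χ (-1) ∈ Set.range m'.f :=
        btw_mem hχ.line (by omega : c ≤ -1) (by norm_num : (-1 : ℤ) ≤ 0) hp h0
      exact (share3 hs (v0 := χ (-1)) (v1 := χ 0) (v2 := χ 1) (hχ.d_succ (-1)) (hχ.d_succ 0)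
        (hχ.ne (by norm_num)) (hχ.mem _) (hχ.mem _) (hχ.mem _) h2 h0 h1).2 hty
    · have h2 : χ 2 ∈ Set.range m'.f :=
        btw_mem hχ.line (by norm_num : (0 : ℤ) ≤ 2) (by omega : 2 ≤ c) h0 hp
      exact (share3 hs (v0 := χ 0) (v1 := χ 1) (v2 := χ 2) (hχ.d_succ 0) (hχ.d_succ 1)
        (hχ.ne (by norm_num)) (hχ.mem _) (hχ.mem _) (hχ.mem _) h0 h1 h2).2 hty

/-- A junction on `ψ` at `ψ i`, seen from the line `m` which contains `ψ i` and `ψ (i + 1)`. -/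
lemma JV (hc : CF M U) (hU : ∀ s, ψ s ∉ U) (hψ : Par k ψ) {i : ℤ}
    (h0 : EE M ψ (i - 1)) (hn : ¬ NV M ψ i) {m : Ln Dt} (hm : m ∈ M)
    (h1 : ψ i ∈ Set.range m.f) (h2 : ψ (i + 1) ∈ Set.range m.f) :
    ∃ (χ : ℤ → Vt q) (c : ℤ), Par m χ ∧ χ 0 = ψ i ∧ χ (-1) = ψ (i + 1) ∧ 1 ≤ c ∧ c ≤ 2 ∧
      χ c ∈ U ∧ (c = 2 → Dbl Dt.A m.ty.1 ∧
        ∃ s, 2 * (m.ty.1 : ZMod q) = uz q s * (k.ty.1 : ZMod q)) ∧
      Tri q Dt.A m.ty.1 ∧ Tri q Dt.A k.ty.1 ∧ (∃ m1 ∈ M, ψ (i - 1) ∈ Set.range m1.f ∧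
        ψ i ∈ Set.range m1.f ∧ χ 1 ∈ Set.range m1.f) ∧ ψ (i - 1) ∉ Set.range m.f := by
  obtain ⟨m1, hm1, a1, a2⟩ := h0
  rw [sub_add_cancel] at a2
  have hn1 : ψ (i - 1) ∉ Set.range m.f := fun h => hn ⟨m, hm, h, h1, h2⟩
  have hn2 : ψ (i + 1) ∉ Set.range m1.f := fun h => hn ⟨m1, hm1, a1, a2, h⟩
  obtain ⟨χ, c, hχ, hχ0, hχ1, hc1, hc2, hcU, hall, hns⟩ := junction hc hm1 hm a2 h1 a1 h2 hn1
    hn2 (hψ.d_pred i) (hψ.d_succ i) (hU i)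
  have hw : χ 1 ∈ Set.range m1.f := hall 1 (by norm_num) hc1
  have dw : (T q).d (ψ i) (χ 1) = 1 := by rw [← hχ0]; exact hχ.d_succ 0
  have n1w : ψ (i - 1) ≠ χ 1 := fun h => hn1 (h ▸ hχ.mem 1)
  have n2w : ψ (i + 1) ≠ χ 1 := by rw [← hχ1]; exact hχ.ne (by norm_num)
  have n12 : ψ (i - 1) ≠ ψ (i + 1) := hψ.ne (by omega)
  refine ⟨χ, c, hχ, hχ0, hχ1, hc1, hc2, hcU, ?_, ?_, ?_, ⟨m1, hm1, a1, a2, hw⟩, hn1⟩
  · rintro rfl
    exact junction2 hns hχ hχ0 hχ1 hall a1 hn1 (hψ.d_pred i) (hψ.mem _) (hψ.mem _) (hψ.mem _)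
  · exact tri3 (k := m) (m1 := k) (m2 := m1) (x := ψ i) (u1 := ψ (i + 1)) (u2 := χ 1)
      (w := ψ (i - 1)) h2 h1 (hχ.mem _) (hψ.mem _) (hψ.mem _) (hψ.mem _) hw a2 a1
      (hψ.d_succ i) dw (hψ.d_pred i) n2w n12.symm n1w.symm
  · exact tri3 (k := k) (m1 := m1) (m2 := m) (x := ψ i) (u1 := ψ (i - 1)) (u2 := ψ (i + 1))
      (w := χ 1) (hψ.mem _) (hψ.mem _) (hψ.mem _) a1 a2 hw h2 h1 (hχ.mem _) (hψ.d_pred i)
      (hψ.d_succ i) dw n12 n1w n2w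

/-- The same, seen from the other side. -/
lemma JV' (hc : CF M U) (hU : ∀ s, ψ s ∉ U) (hψ : Par k ψ) {i : ℤ}
    (h0 : EE M ψ i) (hn : ¬ NV M ψ i) {m : Ln Dt} (hm : m ∈ M)
    (h1 : ψ i ∈ Set.range m.f) (h2 : ψ (i - 1) ∈ Set.range m.f) :
    ∃ (χ : ℤ → Vt q) (c : ℤ), Par m χ ∧ χ 0 = ψ i ∧ χ (-1) = ψ (i - 1) ∧ 1 ≤ c ∧ c ≤ 2 ∧
      χ c ∈ U ∧ (c = 2 → Dbl Dt.A m.ty.1 ∧
        ∃ s, 2 * (m.ty.1 : ZMod q) = uz q s * (k.ty.1 : ZMod q)) ∧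
      Tri q Dt.A m.ty.1 ∧ Tri q Dt.A k.ty.1 ∧ (∃ m1 ∈ M, ψ (i + 1) ∈ Set.range m1.f ∧
        ψ i ∈ Set.range m1.f ∧ χ 1 ∈ Set.range m1.f) ∧ ψ (i + 1) ∉ Set.range m.f := by
  have hψ' : Par k (fun k => ψ (0 + -1 * k)) := hψ.rev 0 (Or.inr rfl)
  have e0 : ψ (0 + -1 * -i) = ψ i := by congr 1; ring
  have e1 : ψ (0 + -1 * (-i + 1)) = ψ (i - 1) := by congr 1; ring
  have e2 : ψ (0 + -1 * (-i - 1)) = ψ (i + 1) := by congr 1; ring
  have := JV (ψ := fun k => ψ (0 + -1 * k)) (i := -i) hc (fun s => hU _) hψ' (EE_rev h0)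
    (by rwa [NV_rev]) hm (by rw [e0]; exact h1) (by rw [e1]; exact h2)
  simp only [e0, e1, e2] at this
  exact this

lemma uz_div {s : ℤˣ} {a b : ZMod q} (h : a = uz q s * b) : b = a ∨ b = -a := by
  rcases uz_cases (q := q) s with h1 | h1 <;> rw [h1] at h
  · left; rw [h]; ring
  · right; rw [h]; ring

lemma Dv_dbl3 {j : ℕ} (h : Dbl Dt.A j) (h3 : 3 * (j : ZMod q) = 0) : Dv Dt j = 4 := by
  unfold Dv; rw [if_pos h, if_pos h3]

lemma Dv_dbl2 {j : ℕ} (h : Dbl Dt.A j) (h3 : 3 * (j : ZMod q) ≠ 0)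
    (h2 : 2 * (j : ZMod q) ∈ PP q Dt.A) : Dv Dt j = 3 := by
  unfold Dv; rw [if_pos h, if_neg h3, if_pos h2]

lemma Dv_dbl {j : ℕ} (h : Dbl Dt.A j) (h3 : 3 * (j : ZMod q) ≠ 0)
    (h2 : 2 * (j : ZMod q) ∉ PP q Dt.A) : Dv Dt j = 2 := by
  unfold Dv; rw [if_pos h, if_neg h3, if_neg h2]

lemma Dv_tri {j : ℕ} (h : ¬ Dbl Dt.A j) (h3 : Tri q Dt.A j) : Dv Dt j = 2 := by
  unfold Dv; rw [if_neg h, if_pos h3]

lemma Dv_ntri {j : ℕ} (h : ¬ Dbl Dt.A j) (h3 : ¬ Tri q Dt.A j) : Dv Dt j = 1 := by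
  unfold Dv; rw [if_neg h, if_neg h3]

/-- No two adjacent junctions. -/
lemma JJ (hc : CF M U) (hU : ∀ s, ψ s ∉ U) (hψ : Par k ψ)
    {i : ℤ} (h0 : EE M ψ (i - 1)) (h1 : EE M ψ i) (h2 : EE M ψ (i + 1)) (hn : ¬ NV M ψ i)
    (hn' : ¬ NV M ψ (i + 1)) : False := by
  obtain ⟨m, hm, a1, a2⟩ := h1
  obtain ⟨χ, c, hχ, hχ0, hχ1, hc1, hc2, hcU, hd, ht, -, -, -⟩ := JV hc hU hψ h0 hn hm a1 a2
  obtain ⟨χ', c', hχ', hχ0', hχ1', hc1', hc2', hcU', hd', -, -, -, -⟩ :=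
    JV' (i := i + 1) hc hU hψ h2 hn' hm a2 (by rw [add_sub_cancel_right]; exact a1)
  rw [add_sub_cancel_right] at hχ1'
  obtain ⟨b, ε, hε, hb⟩ := Ln.reparam_of_range hχ.line hχ'.line (hχ'.2.le.trans hχ.2.ge)
  have e1 : b = -1 := by
    apply hχ.inj
    have := hb 0
    rw [mul_zero, add_zero, hχ0'] at this
    rw [← this, hχ1]
  have e2 : b + ε * (-1) = 0 := by
    apply hχ.inj
    rw [← hb, hχ1', hχ0]
  have e3 : ε = -1 := by omega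
  subst e1 e3
  rw [hb] at hcU'
  have key := f2' hc hm hχ (a := -1 + -1 * c') (b := 0) (c := c) (by omega) (by omega) hcU'
    (by rw [hχ0]; exact hU i) hcU
  by_cases hdb : Dbl Dt.A m.ty.1
  · by_cases h3 : 3 * (m.ty.1 : ZMod q) = 0
    · rw [Dv_dbl3 hdb h3] at key
      have := Dt.s11 _ m.hA hdb h3
      omega
    · by_cases h2 : 2 * (m.ty.1 : ZMod q) ∈ PP q Dt.A
      · rw [Dv_dbl2 hdb h3 h2] at key
        have := Dt.s9 _ m.hA hdb h2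
        omega
      · rw [Dv_dbl hdb h3 h2] at key
        have := Dt.s7 _ m.hA hdb
        have h4 : c ≠ 2 := by
          intro h
          obtain ⟨-, s, hs⟩ := hd h
          exact h2 (hs ▸ mem_PP k s)
        have h5 : c' ≠ 2 := by
          intro h
          obtain ⟨-, s, hs⟩ := hd' h
          exact h2 (hs ▸ mem_PP k s)
        omega
  · rw [Dv_tri hdb ht] at key
    have := Dt.s6 _ m.hA ht
    have h4 : c ≠ 2 := fun h => hdb (hd h).1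
    have h5 : c' ≠ 2 := fun h => hdb (hd' h).1
    omega

lemma three_zero {j j' : ZMod q} {s : ℤˣ} (h : 2 * j = uz q s * j') (hj : j' = j) (h0 : j ≠ 0) :
    3 * j = 0 := by
  rw [hj] at h
  rcases uz_cases (q := q) s with h1 | h1 <;> rw [h1] at h
  · exfalso; apply h0; linear_combination h
  · linear_combination h

/-- A non-junction next to a junction. -/
lemma NJ (hc : CF M U) (hk : ∀ m ∈ M, ¬ k.Same m) (hU : ∀ s, ψ s ∉ U) (hψ : Par k ψ)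
    {i : ℤ} (h1 : NV M ψ i) (hn : ¬ NV M ψ (i + 1)) {m2 : Ln Dt} (hm2 : m2 ∈ M)
    (b1 : ψ (i + 1) ∈ Set.range m2.f) (b2 : ψ (i + 1 + 1) ∈ Set.range m2.f) :
    ∃ s, 2 * (k.ty.1 : ZMod q) = uz q s * (m2.ty.1 : ZMod q) := by
  obtain ⟨m, hm, a1, a2, a3⟩ := h1
  have h0 : EE M ψ (i + 1 - 1) := ⟨m, hm, by rw [add_sub_cancel_right]; exact a2, by
    rw [sub_add_cancel]; exact a3⟩
  -- the junction at `i + 1` seen from `m2`
  have hn2 : ψ (i + 1 + 1) ∉ Set.range m.f := by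
    intro h
    exact hn ⟨m, hm, by rw [add_sub_cancel_right]; exact a2, a3, h⟩
  have hn1 : ψ i ∉ Set.range m2.f := by
    intro h
    exact hn ⟨m2, hm2, by rw [add_sub_cancel_right]; exact h, b1, b2⟩
  obtain ⟨χ, c, hχ, hχ0, hχ1, hc1, hc2, hcU, hall, hns⟩ := junction hc hm hm2 a3 b1 a2 b2 hn1
    hn2 (by have := hψ.d_pred (i + 1); rwa [add_sub_cancel_right] at this) (hψ.d_succ (i + 1))
    (hU (i + 1))
  have hw : χ 1 ∈ Set.range m.f := hall 1 (by norm_num) hc1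
  have dw : (T q).d (ψ (i + 1)) (χ 1) = 1 := by rw [← hχ0]; exact hχ.d_succ 0
  have n1w : χ 1 ≠ ψ i := fun h => hn1 (h ▸ hχ.mem 1)
  have dpi : (T q).d (ψ (i + 1)) (ψ i) = 1 := by
    have := hψ.d_pred (i + 1); rwa [add_sub_cancel_right] at this
  obtain ⟨s, hs⟩ := arc2 (hk m hm) (v := ψ (i + 1)) (w := ψ i) (w' := ψ (i - 1))
    (u1 := ψ (i + 1 + 1)) (u2 := χ 1) dpi (hψ.d_pred i) (hψ.ne (by omega)) (hψ.mem _) (hψ.mem _)
    (hψ.mem _) a3 a2 a1 (hψ.mem _) hw (hψ.d_succ (i + 1)) dw (hψ.ne (by omega)) n1w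
  obtain ⟨t, ht⟩ := turn_type m2 b2 b1 (hχ.mem 1) (hψ.d_succ (i + 1)) dw (by
    rw [← hχ1]; exact hχ.ne (by norm_num))
  rw [ht] at hs
  refine ⟨s * t, ?_⟩
  rw [uz_mul, mul_assoc, hs, ← mul_assoc, uz_sq, one_mul]

lemma NJ_mem (hc : CF M U) (hk : ∀ m ∈ M, ¬ k.Same m) (hU : ∀ s, ψ s ∉ U) (hψ : Par k ψ)
    {i : ℤ} (h1 : NV M ψ i) (hn : ¬ NV M ψ (i + 1)) (h2 : EE M ψ (i + 1)) :
    2 * (k.ty.1 : ZMod q) ∈ PP q Dt.A := by
  obtain ⟨m2, hm2, b1, b2⟩ := h2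
  obtain ⟨s, hs⟩ := NJ hc hk hU hψ h1 hn hm2 b1 b2
  rw [hs]; exact mem_PP m2 s

lemma JN_mem (hc : CF M U) (hk : ∀ m ∈ M, ¬ k.Same m) (hU : ∀ s, ψ s ∉ U) (hψ : Par k ψ)
    {i : ℤ} (h1 : NV M ψ (i + 1)) (hn : ¬ NV M ψ i) (h2 : EE M ψ (i - 1)) :
    2 * (k.ty.1 : ZMod q) ∈ PP q Dt.A := by
  have hψ' : Par k (fun k => ψ (0 + -1 * k)) := hψ.rev 0 (Or.inr rfl)
  refine NJ_mem (ψ := fun k => ψ (0 + -1 * k)) (i := -(i + 1)) hc hk (fun s => hU _) hψ' ?_ ?_ ?_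
  · rwa [NV_rev]
  · rw [show -(i + 1) + 1 = -i by ring, NV_rev]; exact hn
  · have := EE_rev h2
    rwa [show -(i - 1) - 1 = -(i + 1) + 1 by ring] at this

lemma j_ne (k : Ln Dt) : (k.ty.1 : ZMod q) ≠ 0 :=
  natCast_ne (Dt.hA _ k.hA).1 (Dt.hA _ k.hA).2

/-- A junction between two non-junctions. -/
lemma NJN (hc : CF M U) (hk : ∀ m ∈ M, ¬ k.Same m) (hU : ∀ s, ψ s ∉ U) (hψ : Par k ψ)
    {i : ℤ} (h1 : NV M ψ i) (hn : ¬ NV M ψ (i + 1)) (h2 : NV M ψ (i + 1 + 1)) :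
    3 * (k.ty.1 : ZMod q) = 0 := by
  obtain ⟨m', hm', b1, b2, b3⟩ := h2
  rw [add_sub_cancel_right] at b1
  obtain ⟨s, hs⟩ := NJ hc hk hU hψ h1 hn hm' b1 b2
  obtain ⟨c1, -⟩ := NV_dbl (i := i + 1 + 1) hk hψ hm' (by rw [add_sub_cancel_right]; exact b1)
    b2 b3
  exact three_zero hs (by rw [c1]) (j_ne k)

/-- A non-junction between two junctions. -/
lemma JNJ (hc : CF M U) (hk : ∀ m ∈ M, ¬ k.Same m) (hU : ∀ s, ψ s ∉ U) (hψ : Par k ψ)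
    {i : ℤ} (h0 : EE M ψ (i - 1)) (hn : ¬ NV M ψ i) (h1 : NV M ψ (i + 1))
    (hn' : ¬ NV M ψ (i + 1 + 1)) (h2 : EE M ψ (i + 1 + 1)) : False := by
  have h2P := JN_mem hc hk hU hψ h1 hn h0
  obtain ⟨m, hm, a1, a2, a3⟩ := h1
  rw [add_sub_cancel_right] at a1
  obtain ⟨c1, c2⟩ := NV_dbl (i := i + 1) hk hψ hm (by rw [add_sub_cancel_right]; exact a1) a2 a3
  have hdb : Dbl Dt.A m.ty.1 := dbl_of c1.symm (Ne.symm c2)
  obtain ⟨χ, c, hχ, hχ0, hχ1, hc1, hc2, hcU, hd, ht, -, -, -⟩ := JV hc hU hψ h0 hn hm a1 a2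
  obtain ⟨χ', c', hχ', hχ0', hχ1', hc1', hc2', hcU', hd', -, -, -, -⟩ :=
    JV' (i := i + 1 + 1) hc hU hψ h2 hn' hm a3 (by rw [add_sub_cancel_right]; exact a2)
  rw [add_sub_cancel_right] at hχ1'
  have hχ2 : χ (-2) = ψ (i + 1 + 1) := by
    have := hχ.prev (k := -1) (w := ψ (i + 1 + 1)) a3 (by rw [hχ1]; exact hψ.d_succ (i + 1)) (by
      rw [show (-1 : ℤ) + 1 = 0 by norm_num, hχ0]; exact hψ.ne (by omega))
    exact this
  obtain ⟨b, ε, hε, hb⟩ := Ln.reparam_of_range hχ.line hχ'.line (hχ'.2.le.trans hχ.2.ge)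
  have e1 : b = -2 := by
    apply hχ.inj
    have := hb 0
    rw [mul_zero, add_zero, hχ0'] at this
    rw [← this, hχ2]
  have e2 : b + ε * (-1) = -1 := by
    apply hχ.inj
    rw [← hb, hχ1', hχ1]
  have e3 : ε = -1 := by omega
  subst e1 e3
  rw [hb] at hcU'
  have key := f2' hc hm hχ (a := -2 + -1 * c') (b := 0) (c := c) (by omega) (by omega) hcU'
    (by rw [hχ0]; exact hU i) hcU
  by_cases h3 : 3 * (m.ty.1 : ZMod q) = 0
  · rw [Dv_dbl3 hdb h3] at key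
    have := Dt.s11 _ m.hA hdb h3
    omega
  · have h2 : 2 * (m.ty.1 : ZMod q) ∈ PP q Dt.A := by rw [← c1]; exact h2P
    rw [Dv_dbl2 hdb h3 h2] at key
    have := Dt.s9 _ m.hA hdb h2
    have hkm : (k.ty.1 : ZMod q) = m.ty.1 := by rw [c1]
    have h4 : c ≠ 2 := by
      intro h
      obtain ⟨-, s, hs⟩ := hd h
      exact h3 (three_zero hs hkm (j_ne m))
    have h5 : c' ≠ 2 := by
      intro h
      obtain ⟨-, s, hs⟩ := hd' h
      exact h3 (three_zero hs hkm (j_ne m))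
    omega

/-- The axiom `cover`. -/
lemma cover (hc : CF M U) (k : Ln Dt) (hk : ∀ m ∈ M, ¬ k.Same m) (hU : ∀ s, k.f s ∉ U)
    (a b : ℤ) (hE : ∀ s, a ≤ s → s < b → EE M k.f s) : b - a ≤ Dv Dt k.ty.1 := by
  have hψ : Par k k.f := self_par k
  by_contra hcon
  have NNf : ∀ i, NV M k.f i → NV M k.f (i + 1) → False := fun i h1 h2 =>
    NN hc hk hU hψ h1 h2
  by_cases hdb : Dbl Dt.A k.ty.1
  · by_cases h3 : 3 * (k.ty.1 : ZMod q) = 0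
    · rw [Dv_dbl3 hdb h3] at hcon
      have e0 := hE a (by omega) (by omega)
      have e1 := hE (a + 1) (by omega) (by omega)
      have e2 := hE (a + 1 + 1) (by omega) (by omega)
      have e3 := hE (a + 1 + 1 + 1) (by omega) (by omega)
      have e4 := hE (a + 1 + 1 + 1 + 1) (by omega) (by omega)
      have j1 := JJ (i := a + 1) hc hU hψ (by rwa [add_sub_cancel_right]) e1 e2
      have j2 := JJ (i := a + 1 + 1) hc hU hψ (by rwa [add_sub_cancel_right]) e2 e3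
      have j3 := JJ (i := a + 1 + 1 + 1) hc hU hψ (by rwa [add_sub_cancel_right]) e3 e4
      have k1 := fun h1 h2 h3 => JNJ (i := a + 1) hc hk hU hψ (by rwa [add_sub_cancel_right])
        h1 h2 h3 e3
      have k2 := fun h1 h2 h3 => JNJ (i := a + 1 + 1) hc hk hU hψ
        (by rwa [add_sub_cancel_right]) h1 h2 h3 e4
      have n1 := NNf (a + 1)
      have n2 := NNf (a + 1 + 1)
      have n3 := NNf (a + 1 + 1 + 1)
      tauto
    · by_cases h2 : 2 * (k.ty.1 : ZMod q) ∈ PP q Dt.A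
      · rw [Dv_dbl2 hdb h3 h2] at hcon
        have e0 := hE a (by omega) (by omega)
        have e1 := hE (a + 1) (by omega) (by omega)
        have e2 := hE (a + 1 + 1) (by omega) (by omega)
        have e3 := hE (a + 1 + 1 + 1) (by omega) (by omega)
        have j1 := JJ (i := a + 1) hc hU hψ (by rwa [add_sub_cancel_right]) e1 e2
        have j2 := JJ (i := a + 1 + 1) hc hU hψ (by rwa [add_sub_cancel_right]) e2 e3
        have k1 := fun h1 h2 h3 => JNJ (i := a + 1) hc hk hU hψ (by rwa [add_sub_cancel_right])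
          h1 h2 h3 e3
        have l1 := fun h1 h2 h4 => h3 (NJN (i := a + 1) hc hk hU hψ h1 h2 h4)
        have n1 := NNf (a + 1)
        have n2 := NNf (a + 1 + 1)
        tauto
      · rw [Dv_dbl hdb h3 h2] at hcon
        have e0 := hE a (by omega) (by omega)
        have e1 := hE (a + 1) (by omega) (by omega)
        have e2 := hE (a + 1 + 1) (by omega) (by omega)
        have j1 := JJ (i := a + 1) hc hU hψ (by rwa [add_sub_cancel_right]) e1 e2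
        have k1 := fun h1 h4 => h2 (NJ_mem (i := a + 1) hc hk hU hψ h1 h4 e2)
        have k2 := fun h1 h4 => h2 (JN_mem (i := a + 1) hc hk hU hψ h1 h4
          (by rwa [add_sub_cancel_right]))
        have n1 := NNf (a + 1)
        tauto
  · have nn : ∀ i, ¬ NV M k.f i := by
      rintro i ⟨m, hm, h1, h2, h3⟩
      obtain ⟨c1, c2⟩ := NV_dbl hk hψ hm h1 h2 h3
      exact hdb (dbl_of c1 c2)
    by_cases ht : Tri q Dt.A k.ty.1
    · rw [Dv_tri hdb ht] at hcon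
      have e0 := hE a (by omega) (by omega)
      have e1 := hE (a + 1) (by omega) (by omega)
      have e2 := hE (a + 1 + 1) (by omega) (by omega)
      exact JJ (i := a + 1) hc hU hψ (by rwa [add_sub_cancel_right]) e1 e2 (nn _) (nn _)
    · rw [Dv_ntri hdb ht] at hcon
      have e0 := hE a (by omega) (by omega)
      obtain ⟨m, hm, a1, a2⟩ := hE (a + 1) (by omega) (by omega)
      obtain ⟨χ, c, -, -, -, -, -, -, -, -, h, -⟩ := JV (i := a + 1) hc hU hψ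
        (by rwa [add_sub_cancel_right]) (nn _) hm a1 a2
      exact ht h

end window

end Pool.Agent.Helper477_holes
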