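import Mathlib
import Pool.Agent.Helper477_holes.Mill

set_option autoImplicit false

/-!
# The next windmill, and the conclusion

See `Pool.Agent.Helper477_holes.Mill`.
-/

namespace Pool.Agent.Helper477_holes

open Pool.Agent.H17R2

namespace Sys

variable {G V I : Type*} [Group G] [MulAction G V] [MulAction G I] {S : Sys G V I}

namespace Mill

variable (M : Mill S)

/-- The next region. -/
def W' : Set V := {x | x ∈ M.U ∨ ∃ m ∈ M.M1, x ∈ Set.range (S.L m)}

/-- Unit steps inside a translate of the region or inside a line of the last layer. -/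
def R (x y : V) : Prop := S.T.d x y = 1 ∧ ((∃ g ∈ M.N', g⁻¹ • x ∈ M.W ∧ g⁻¹ • y ∈ M.W) ∨
  ∃ m ∈ M.M1, x ∈ Set.range (S.L m) ∧ y ∈ Set.range (S.L m))

lemma R_symm {x y : V} (h : M.R x y) : M.R y x := by
  obtain ⟨h1, h2⟩ := h
  refine ⟨by rw [S.T.d_comm]; exact h1, ?_⟩
  rcases h2 with ⟨g, hg, h3, h4⟩ | ⟨m, hm, h3, h4⟩
  · exact Or.inl ⟨g, hg, h4, h3⟩
  · exact Or.inr ⟨m, hm, h4, h3⟩

lemma M1_smul {g : G} (hg : g ∈ M.N') {m : I} (hm : m ∈ M.M1) : g • m ∈ M.M1 := by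
  obtain ⟨g', hg', i, hi, rfl⟩ := hm
  exact ⟨g * g', M.N'.mul_mem hg hg', i, hi, by rw [mul_smul]⟩

lemma J1_M1 {i : I} (hi : i ∈ M.J1) : i ∈ M.M1 := ⟨1, M.N'.one_mem, i, hi, by rw [one_smul]⟩

lemma R_smul {g : G} (hg : g ∈ M.N') {x y : V} (h : M.R x y) : M.R (g • x) (g • y) := by
  obtain ⟨h1, h2⟩ := h
  refine ⟨by rw [S.smul_d]; exact h1, ?_⟩
  rcases h2 with ⟨g', hg', h3, h4⟩ | ⟨m, hm, h3, h4⟩
  · refine Or.inl ⟨g * g', M.N'.mul_mem hg hg', ?_, ?_⟩
    · rw [mul_inv_rev, mul_smul, inv_smul_smul]; exact h3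
    · rw [mul_inv_rev, mul_smul, inv_smul_smul]; exact h4
  · exact Or.inr ⟨g • m, M.M1_smul hg hm, (S.range_smul g m _).2 h3, (S.range_smul g m _).2 h4⟩

lemma chain_symm {x y : V} (h : Relation.ReflTransGen M.R x y) :
    Relation.ReflTransGen M.R y x := by
  induction h with
  | refl => exact Relation.ReflTransGen.refl
  | tail _ h2 ih => exact Relation.ReflTransGen.head (M.R_symm h2) ih

lemma chain_smul {g : G} (hg : g ∈ M.N') {x y : V} (h : Relation.ReflTransGen M.R x y) :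
    Relation.ReflTransGen M.R (g • x) (g • y) := by
  induction h with
  | refl => exact Relation.ReflTransGen.refl
  | tail _ h2 ih => exact Relation.ReflTransGen.tail ih (M.R_smul hg h2)

lemma chain_W : ∀ (n : ℕ) {p q : V}, p ∈ M.W → q ∈ M.W → S.T.d p q ≤ n →
    Relation.ReflTransGen M.R p q := by
  intro n
  induction n with
  | zero =>
    intro p q _ _ h
    have : p = q := S.T.eq_of_zero _ _ (le_antisymm (by simpa using h) (S.T.d_nonneg _ _))
    rw [this]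
  | succ n ih =>
    intro p q hp hq h
    by_cases hpq : p = q
    · rw [hpq]
    obtain ⟨r, h1, h2⟩ := S.step p q hpq
    have hr : r ∈ M.W := M.conv p hp q hq r (by omega)
    refine Relation.ReflTransGen.head ?_ (ih hr hq (by push_cast at h; omega))
    exact ⟨h1, Or.inl ⟨1, M.N'.one_mem, by simpa using hp, by simpa using hr⟩⟩

lemma chain_W' {p q : V} (hp : p ∈ M.W) (hq : q ∈ M.W) : Relation.ReflTransGen M.R p q :=
  M.chain_W (S.T.d p q).toNat hp hq (Int.self_le_toNat _)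

lemma chain_L {m : I} (hm : m ∈ M.M1) (a b : ℤ) :
    Relation.ReflTransGen M.R (S.L m a) (S.L m b) := by
  have key : ∀ (n : ℕ) (a : ℤ), Relation.ReflTransGen M.R (S.L m a) (S.L m (a + n)) := by
    intro n
    induction n with
    | zero => intro a; rw [Nat.cast_zero, add_zero]
    | succ n ih =>
      intro a
      refine (ih a).tail ⟨?_, Or.inr ⟨m, hm, ⟨_, rfl⟩, ⟨_, rfl⟩⟩⟩
      rw [S.line m]
      push_cast
      rw [show a + (n : ℤ) - (a + (n + 1)) = -1 by ring]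
      norm_num
  rcases le_total a b with h | h
  · have := key (b - a).toNat a
    rwa [Int.toNat_of_nonneg (by omega), add_sub_cancel] at this
  · have := key (a - b).toNat b
    rw [Int.toNat_of_nonneg (by omega), add_sub_cancel] at this
    exact M.chain_symm this

lemma chain_v0 {g : G} (hg : g ∈ M.N') : Relation.ReflTransGen M.R S.v0 (g • S.v0) := by
  have hgen : ∀ s ∈ ((M.N : Set G) ∪ ⋃ i ∈ M.J1, (S.H i : Set G)),
      Relation.ReflTransGen M.R S.v0 (s • S.v0) ∧ s ∈ M.N' := by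
    rintro s (hs | hs)
    · exact ⟨M.chain_W' M.w0 (M.w1 s hs _ M.w0), M.le_N' hs⟩
    · obtain ⟨i, hi, hs⟩ := Set.mem_iUnion₂.mp hs
      have hs' : s ∈ M.N' := M.H_le_N' hi hs
      refine ⟨?_, hs'⟩
      obtain ⟨k, hk⟩ := hi.2
      obtain ⟨τ, -, h2, -⟩ := S.htau_c hs
      have h3 := M.chain_W' M.w0 hk
      have h4 := M.chain_L (M.J1_M1 hi) k (k + τ)
      rw [← h2] at h4
      exact (h3.trans h4).trans (M.chain_smul hs' (M.chain_symm h3))
  induction hg using Subgroup.closure_induction_left with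
  | one => rw [one_smul]
  | mul_left a ha y hy ih =>
    obtain ⟨h1, h2⟩ := hgen a ha
    rw [mul_smul]
    exact h1.trans (M.chain_smul h2 ih)
  | inv_mul_cancel a ha y hy ih =>
    obtain ⟨h1, h2⟩ := hgen a ha
    rw [mul_smul]
    have h3 := M.chain_smul (M.N'.inv_mem h2) h1
    rw [inv_smul_smul] at h3
    exact (M.chain_symm h3).trans (M.chain_smul (M.N'.inv_mem h2) ih)

lemma chain_all {x : V} (hx : x ∈ M.W') : Relation.ReflTransGen M.R S.v0 x := by
  rcases hx with ⟨g, hg, hgx⟩ | ⟨_, ⟨g, hg, i, hi, rfl⟩, hx⟩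
  · have h1 := M.chain_smul hg (M.chain_W' M.w0 hgx)
    rw [smul_inv_smul] at h1
    exact (M.chain_v0 hg).trans h1
  · obtain ⟨k, hk⟩ := hi.2
    have h1 := M.chain_smul hg (M.chain_W' M.w0 hk)
    obtain ⟨s, rfl⟩ := hx
    have h2 := M.chain_L (M.M1_smul hg (M.J1_M1 hi)) k s
    rw [S.L_smul] at h2
    exact ((M.chain_v0 hg).trans h1).trans h2

lemma R_mem {x y : V} (h : M.R x y) : x ∈ M.W' ∧ y ∈ M.W' := by
  obtain ⟨-, ⟨g, hg, h3, h4⟩ | ⟨m, hm, h3, h4⟩⟩ := h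
  · exact ⟨Or.inl ⟨g, hg, h3⟩, Or.inl ⟨g, hg, h4⟩⟩
  · exact ⟨Or.inr ⟨m, hm, h3⟩, Or.inr ⟨m, hm, h4⟩⟩

lemma conv' (p : V) (hp : p ∈ M.W') (q : V) (hq : q ∈ M.W') (x : V)
    (hx : S.T.d p x + S.T.d x q = S.T.d p q) : x ∈ M.W' := by
  by_cases hpx : p = x
  · rw [← hpx]; exact hp
  by_contra hn
  have h1 := sep S.T (R := M.R) (fun a b h => h.1) hpx (fun b hb => hn (M.R_mem hb).2)
    ((M.chain_symm (M.chain_all hp)).trans (M.chain_all hq))
  omega

lemma edge' {x y : V} (hx : x ∈ M.W') (hy : y ∈ M.W') (h : S.T.d x y = 1) : M.R x y :=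
  edge S.T (R := M.R) (fun a b h => h.1) h ((M.chain_symm (M.chain_all hx)).trans (M.chain_all hy))

/-- The lines of the next windmill. -/
def J' : Set I := {j | ∃ g ∈ M.N', ∃ i, (i ∈ M.J ∨ i ∈ M.J1) ∧ S.Same (g • i) j}

lemma smul_J' {g : G} (hg : g ∈ M.N') {i : I} (hi : i ∈ M.J ∨ i ∈ M.J1) : g • i ∈ M.J' :=
  ⟨g, hg, i, hi, S.same_refl _⟩

lemma J_cases (i : I) (h : ∃ k, S.L i k ∈ M.W) : i ∈ M.J ∨ i ∈ M.J1 := by
  by_cases hi : i ∈ M.J
  · exact Or.inl hi
  · exact Or.inr ⟨hi, h⟩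

lemma not_touch {k : I} (hk : k ∉ M.J') (s : ℤ) : S.L k s ∉ M.U := by
  rintro ⟨g, hg, h⟩
  rw [← S.L_smul] at h
  have := M.smul_J' hg (M.J_cases (g⁻¹ • k) ⟨s, h⟩)
  rw [smul_inv_smul] at this
  exact hk this

lemma w4' (k : I) (hk : k ∉ M.J') (p : V) (hp : p ∈ M.W') (q : V) (hq : q ∈ M.W') :
    |S.c k p - S.c k q| ≤ S.D k := by
  have main : ∀ p ∈ M.W', ∀ q ∈ M.W', S.c k p < S.c k q → S.c k q - S.c k p ≤ S.D k := by
    intro p hp q hq hlt
    apply S.cover M.M1 M.U M.cfg k ?_ (M.not_touch hk) _ _ hlt.le ?_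
    · rintro _ ⟨g, hg, i, hi, rfl⟩ hs
      exact hk ⟨g, hg, i, Or.inr hi, S.same_symm _ _ hs⟩
    · intro s h1 h2
      have h3 : S.L k s ∈ M.W' := M.conv' p hp q hq _ (seg_btw (S.line k) hlt h1 (by
        change s ≤ S.c k q; omega))
      have h4 : S.L k (s + 1) ∈ M.W' := M.conv' p hp q hq _ (seg_btw (S.line k) hlt (by
        change S.c k p ≤ s + 1; omega) (by change s + 1 ≤ S.c k q; omega))
      have h5 : S.T.d (S.L k s) (S.L k (s + 1)) = 1 := by
        rw [S.line k, show s - (s + 1) = -1 by ring]; norm_num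
      obtain ⟨-, ⟨g, hg, h6, -⟩ | ⟨m, hm, h6, h7⟩⟩ := M.edge' h3 h4 h5
      · exact absurd ⟨g, hg, h6⟩ (M.not_touch hk s)
      · exact ⟨m, hm, h6, h7⟩
  have h0 := S.D_nonneg k
  rcases lt_trichotomy (S.c k p) (S.c k q) with h | h | h
  · have := main p hp q hq h
    rw [abs_le]; constructor <;> omega
  · rw [h]; simpa using h0
  · have := main q hq p hp h
    rw [abs_le]; constructor <;> omega

lemma W'_smul (g : G) (hg : g ∈ M.N') (p : V) (hp : p ∈ M.W') : g • p ∈ M.W' := by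
  rcases hp with ⟨g', hg', h⟩ | ⟨m, hm, h⟩
  · refine Or.inl ⟨g * g', M.N'.mul_mem hg hg', ?_⟩
    rw [mul_inv_rev, mul_smul, inv_smul_smul]; exact h
  · exact Or.inr ⟨g • m, M.M1_smul hg hm, (S.range_smul g m _).2 h⟩

lemma W_le {x : V} (hx : x ∈ M.W) : x ∈ M.W' := Or.inl ⟨1, M.N'.one_mem, by simpa using hx⟩

lemma w3'' (i : I) (hi : i ∈ M.J') (k : ℤ) : S.L i k ∈ M.W' := by
  obtain ⟨g, hg, j, hj, hs⟩ := hi
  have h1 : S.L i k ∈ Set.range (S.L (g • j)) := by
    rw [S.same_range _ _ hs]; exact ⟨k, rfl⟩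
  obtain ⟨s, hs⟩ := h1
  rw [← hs, S.L_smul]
  apply M.W'_smul g hg
  rcases hj with hj | hj
  · exact M.W_le (M.w3 j hj s)
  · exact Or.inr ⟨j, M.J1_M1 hj, ⟨s, rfl⟩⟩

lemma exists_bdry : ∃ x0 ∈ M.W, ∃ x, x ∉ M.W ∧ S.T.d x0 x = 1 := by
  obtain ⟨x, hx⟩ := M.w7
  by_contra hcon
  push Not at hcon
  have key : ∀ (n : ℕ) (p : V), p ∈ M.W → S.T.d p x ≤ n → x ∈ M.W := by
    intro n
    induction n with
    | zero =>
      intro p hp h
      have : p = x := S.T.eq_of_zero _ _ (le_antisymm (by simpa using h) (S.T.d_nonneg _ _))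
      exact this ▸ hp
    | succ n ih =>
      intro p hp h
      by_cases hpx : p = x
      · exact hpx ▸ hp
      obtain ⟨r, h1, h2⟩ := S.step p x hpx
      have hr : r ∈ M.W := by
        by_contra hr
        exact hcon p hp r hr h1
      exact ih r hr (by push_cast at h; omega)
  exact hx (key (S.T.d S.v0 x).toNat S.v0 M.w0 (Int.self_le_toNat _))

lemma U_W' {x : V} (hx : x ∈ M.U) : x ∈ M.W' := Or.inl hx

lemma bdry_U {x0 x : V} (hx0 : x0 ∈ M.W) (hx : x ∉ M.W) (hd : S.T.d x0 x = 1) : x ∉ M.U := by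
  rintro ⟨g, hg, hgx⟩
  obtain ⟨i, s, hs, hs', h, hh, hne⟩ := S.thru x0 x hd
  have hi : i ∈ M.J1 := by
    refine ⟨fun hi => hx (hs' ▸ M.w3 i hi _), s, hs ▸ hx0⟩
  rw [← hs'] at hgx
  obtain ⟨h1, hh1, hx1⟩ := M.F2' hi hg ⟨_, rfl⟩ hgx
  obtain ⟨τ, h2, h3, -⟩ := S.htau_c ((S.H i).inv_mem hh1)
  rw [h3] at hx1
  have h4 := M.w4 i hi.1 _ hx1 _ (hs ▸ hx0 : S.L i s ∈ M.W)
  unfold Sys.c at h4
  rw [(S.line i).pr_self, (S.line i).pr_self] at h4
  have hb := S.big i
  have hl := S.lam_pos i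
  have h1ne : h1 ≠ 1 := by
    rintro rfl
    have h5 := h3 0
    rw [inv_one, one_smul] at h5
    have h6 := line_inj (S.line i) h5
    have : τ = 0 := by omega
    subst this
    rw [add_zero, hs'] at hx1
    exact hx hx1
  have h5 := h2 (inv_ne_one.2 h1ne)
  rw [abs_le] at h4
  rcases abs_cases τ with h9 | h9 <;> omega

lemma w7' : ∃ x, x ∉ M.W' := by
  obtain ⟨x0, hx0, x, hx, hd⟩ := M.exists_bdry
  obtain ⟨y, z, h1, h2, h3⟩ := S.esc M.M1 M.U M.cfg
    ⟨x0, ⟨1, M.N'.one_mem, by simpa using hx0⟩, x, M.bdry_U hx0 hx hd, hd⟩ (by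
      rintro i ⟨s, g, hg, hs⟩ ⟨t, ht⟩
      rw [← S.L_smul] at hs
      rcases M.J_cases (g⁻¹ • i) ⟨s, hs⟩ with hj | hj
      · exfalso
        apply ht
        refine ⟨g, hg, ?_⟩
        rw [← S.L_smul]
        exact M.w3 _ hj t
      · exact ⟨g, hg, _, hj, by rw [smul_inv_smul]⟩)
  by_contra hcon
  push Not at hcon
  obtain ⟨-, ⟨g, hg, h4, -⟩ | ⟨m, hm, h4, h5⟩⟩ := M.edge' (hcon y) (hcon z) h1
  · exact h2 ⟨g, hg, h4⟩
  · exact h3 m hm h4 h5

/-- The next windmill. -/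
def next : Mill S where
  W := M.W'
  N := M.N'
  J := M.J'
  w0 := M.W_le M.w0
  conv := M.conv'
  w1 := M.W'_smul
  w2 := by
    rintro j ⟨g, hg, i, hi, hs⟩ h hh
    rw [← S.same_H _ _ hs] at hh
    have h1 := S.H_smul g⁻¹ _ _ hh
    rw [inv_smul_smul, inv_inv] at h1
    have h2 : g⁻¹ * h * g ∈ M.N' := by
      rcases hi with hi | hi
      · exact M.le_N' (M.w2 i hi h1)
      · exact M.H_le_N' hi h1
    have h3 := M.N'.mul_mem (M.N'.mul_mem hg h2) (M.N'.inv_mem hg)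
    have e : g * (g⁻¹ * h * g) * g⁻¹ = h := by group
    rwa [e] at h3
  w3 := M.w3''
  w4 := M.w4'
  w5 := by
    rintro g hg i ⟨g', hg', j, hj, hs⟩
    refine ⟨g * g', M.N'.mul_mem hg hg', j, hj, ?_⟩
    rw [mul_smul]
    exact S.same_smul g _ _ hs
  w6 := by
    rintro i ⟨g', hg', k, hk, hs⟩ j hij
    exact ⟨g', hg', k, hk, S.same_trans _ _ _ hs hij⟩
  w7 := M.w7'

lemma J_next {i : I} (hi : i ∈ M.J ∨ i ∈ M.J1) : i ∈ M.next.J := by
  have := M.smul_J' M.N'.one_mem hi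
  rwa [one_smul] at this

/-- Neighbours of the region are in the next region. -/
lemma nbr_next {x y : V} (hx : x ∈ M.W) (hxy : S.T.d x y = 1) : y ∈ M.next.W := by
  obtain ⟨i, s, hs, hs', -⟩ := S.thru x y hxy
  have := M.next.w3 i (M.J_next (M.J_cases i ⟨s, hs ▸ hx⟩)) (s + 1)
  rwa [hs'] at this

end Mill

/-- The first windmill. -/
def mill0 (S : Sys G V I) (h : ∃ x : V, x ≠ S.v0) : Mill S where
  W := {S.v0}
  N := ⊥
  J := ∅
  w0 := rfl
  conv := by
    rintro p hp q hq x hx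
    rw [Set.mem_singleton_iff] at hp hq ⊢
    subst hp
    rw [hq, S.T.d_self] at hx
    have h1 := S.T.d_nonneg S.v0 x
    have h2 := S.T.d_nonneg x S.v0
    exact S.T.eq_of_zero _ _ (by omega)
  w1 := by
    intro g hg p hp
    rw [Subgroup.mem_bot] at hg
    rw [hg, one_smul]; exact hp
  w2 := by intro i hi; simp at hi
  w3 := by intro i hi; simp at hi
  w4 := by
    rintro i - p hp q hq
    rw [Set.mem_singleton_iff] at hp hq
    rw [hp, hq, sub_self, abs_zero]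
    exact S.D_nonneg i
  w5 := by intro g _ i hi; simp at hi
  w6 := by intro i hi; simp at hi
  w7 := by
    obtain ⟨x, hx⟩ := h
    exact ⟨x, hx⟩

/-- The sequence of windmills. -/
def seq (S : Sys G V I) (h : ∃ x : V, x ≠ S.v0) : ℕ → Mill S
  | 0 => S.mill0 h
  | n + 1 => (seq S h n).next

/-- The group generated by all translations. -/
def NN (S : Sys G V I) : Subgroup G := ⨆ i, S.H i

lemma ball_seq (h : ∃ x : V, x ≠ S.v0) : ∀ (n : ℕ) (x : V), S.T.d S.v0 x ≤ n →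
    x ∈ (seq S h n).W := by
  intro n
  induction n with
  | zero =>
    intro x hx
    have : S.v0 = x := S.T.eq_of_zero _ _ (le_antisymm (by simpa using hx) (S.T.d_nonneg _ _))
    exact this.symm
  | succ n ih =>
    intro x hx
    by_cases h1 : S.T.d S.v0 x ≤ n
    · exact (seq S h n).W_le (ih x h1)
    · have hne : x ≠ S.v0 := by
        rintro rfl
        rw [S.T.d_self] at h1
        omega
      obtain ⟨r, h2, h3⟩ := S.step x S.v0 hne
      have h4 := S.T.d_comm r S.v0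
      have h5 := S.T.d_comm x S.v0
      refine (seq S h n).nbr_next (ih r (by push_cast at hx; omega)) ?_
      rw [S.T.d_comm]; exact h2

lemma mono_seq (h : ∃ x : V, x ≠ S.v0) : Monotone (fun n => (seq S h n).N) :=
  monotone_nat_of_le_succ fun n => (seq S h n).le_N'

lemma line_seq (h : ∃ x : V, x ≠ S.v0) (i : I) : ∃ n, i ∈ (seq S h n).J := by
  refine ⟨(S.T.d S.v0 (S.L i 0)).toNat + 1, ?_⟩
  exact (seq S h _).J_next ((seq S h _).J_cases i
    ⟨0, S.ball_seq h _ _ (Int.self_le_toNat _)⟩)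

lemma N_le_NN (h : ∃ x : V, x ≠ S.v0) (n : ℕ) : (seq S h n).N ≤ S.NN := by
  induction n with
  | zero => exact bot_le
  | succ n ih =>
    change Subgroup.closure _ ≤ _
    rw [Subgroup.closure_le]
    rintro g (hg | hg)
    · exact ih hg
    · obtain ⟨i, -, hg⟩ := Set.mem_iUnion₂.mp hg
      exact (le_iSup S.H i) hg

lemma NN_eq (h : ∃ x : V, x ≠ S.v0) : S.NN = ⨆ n, (seq S h n).N := by
  apply le_antisymm
  · apply iSup_le
    intro i
    obtain ⟨n, hn⟩ := S.line_seq h i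
    exact ((seq S h n).w2 i hn).trans (le_iSup (fun n => (seq S h n).N) n)
  · exact iSup_le (S.N_le_NN h)

/-- The group generated by the translations is not finitely generated. -/
theorem not_fg (h : ∃ x : V, x ≠ S.v0) : ¬ S.NN.FG := by
  intro hfg
  obtain ⟨F, hF⟩ := hfg
  have hdir : Directed (· ≤ ·) (fun n => (seq S h n).N) := (S.mono_seq h).directed_le
  have h1 : ∀ g ∈ F, ∃ n, g ∈ (seq S h n).N := by
    intro g hg
    have : g ∈ S.NN := by rw [← hF]; exact Subgroup.subset_closure hg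
    rw [S.NN_eq h] at this
    exact (Subgroup.mem_iSup_of_directed hdir).1 this
  choose! f hf using h1
  obtain ⟨n, hn⟩ : ∃ n, ∀ g ∈ F, f g ≤ n := ⟨F.sup f, fun g hg => Finset.le_sup hg⟩
  have h2 : S.NN ≤ (seq S h n).N := by
    rw [← hF, Subgroup.closure_le]
    intro g hg
    exact S.mono_seq h (hn g hg) (hf g hg)
  -- a line which is not used
  obtain ⟨x0, hx0, x, hx, hd⟩ := (seq S h n).exists_bdry
  obtain ⟨i, s, hs, hs', g, hg, hne⟩ := S.thru x0 x hd
  have hi : i ∉ (seq S h n).J := fun hi => hx (hs' ▸ (seq S h n).w3 i hi _)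
  obtain ⟨τ, h3, h4, -⟩ := S.htau_c hg
  have hgN : g ∈ (seq S h n).N := h2 ((le_iSup S.H i) hg)
  have h5 := (seq S h n).w4 i hi _ ((seq S h n).w1 g hgN _ (hs ▸ hx0 : S.L i s ∈ _)) _
    (hs ▸ hx0 : S.L i s ∈ (seq S h n).W)
  rw [h4] at h5
  unfold Sys.c at h5
  rw [(S.line i).pr_self, (S.line i).pr_self] at h5
  have h6 := h3 hne
  have h7 := S.big i
  have h8 := S.lam_pos i
  rw [abs_le] at h5
  rcases abs_cases τ with h9 | h9 <;> omega

/-- The group generated by the translations has infinite index. -/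
theorem not_finiteIndex [Group.FG G] (h : ∃ x : V, x ≠ S.v0) : ¬ S.NN.FiniteIndex := by
  intro hfi
  apply S.not_fg h
  rw [← Group.fg_iff_subgroup_fg]
  infer_instance

end Sys

end Pool.Agent.Helper477_holes
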