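import Mathlib
import Pool.Agent.Helper477_holes.Local
import Pool.Agent.Helper477_holes.Next

set_option autoImplicit false

/-!
# The family of all holes and zigzags is a `Sys`
-/

namespace Pool.Agent.Helper477_holes

open Pool.Agent.H17R2 Vt

variable {q : ℕ} {Dt : Data q}

/-- The translation along the standard line of type `τ`. -/
def stdX (τ : ℕ × Bool) : G q := if τ.2 then z * rot (-(τ.1 : ZMod q)) else z * ref * rot (τ.1 : ZMod q)

lemma stdX_true (j : ℕ) : (stdX (j, true) : G q) = z * rot (-(j : ZMod q)) := by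
  unfold stdX; simp

lemma stdX_false (j : ℕ) : (stdX (j, false) : G q) = z * ref * rot (j : ZMod q) := by
  unfold stdX; simp

lemma sgn_stdX (τ : ℕ × Bool) : sgn (stdX τ : G q) = if τ.2 then 1 else -1 := by
  unfold stdX
  split_ifs <;> simp [sgn_z, sgn_rot, sgn_ref]

lemma ref_nb0 : (ref : G q) • (nb0 : Vt q) = nb0 := by
  rw [← z_root, smul_smul, ref_z, mul_smul, ref_root]

lemma dir_root_nb0 : dir (root : Vt q) nb0 = 0 := dir_child rfl

lemma stdX_root (τ : ℕ × Bool) : (stdX τ : G q) • (root : Vt q) = nb0 := by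
  unfold stdX
  split_ifs
  · rw [mul_smul, rot_root, z_root]
  · rw [mul_smul, rot_root, mul_smul, ref_root, z_root]

lemma stdX_inv_root (τ : ℕ × Bool) : (stdX τ : G q)⁻¹ • (root : Vt q) =
    (rot (if τ.2 then (τ.1 : ZMod q) else -(τ.1 : ZMod q)) : G q) • nb0 := by
  rw [inv_smul_eq_iff]
  unfold stdX
  split_ifs
  · rw [mul_smul, smul_smul (rot _), rot_mul, neg_add_cancel, rot_zero, one_smul, z_nb0]
  · rw [mul_smul, smul_smul (rot _), rot_mul, add_neg_cancel, rot_zero, one_smul, mul_smul,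
      ref_nb0, z_nb0]

lemma std_ty (τ : ℕ × Bool) : IsTy q τ (fun k : ℤ => (stdX τ : G q) ^ k • (root : Vt q)) := by
  have h1 : ∀ k : ℤ, (stdX τ : G q) ^ (k + 1) • (root : Vt q) = (stdX τ : G q) ^ k • nb0 := by
    intro k
    rw [zpow_add_one, mul_smul, stdX_root]
  have h2 : ∀ k : ℤ, (stdX τ : G q) ^ (k - 1) • (root : Vt q) = (stdX τ : G q) ^ k •
      (rot (if τ.2 then (τ.1 : ZMod q) else -(τ.1 : ZMod q)) : G q) • nb0 := by
    intro k
    rw [zpow_sub_one, mul_smul, stdX_inv_root]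
  have h3 : (T q).d (root : Vt q)
      ((rot (if τ.2 then (τ.1 : ZMod q) else -(τ.1 : ZMod q)) : G q) • nb0) = 1 := by
    have := smul_d (rot (if τ.2 then (τ.1 : ZMod q) else -(τ.1 : ZMod q)) : G q) root nb0
    rw [rot_root] at this
    rw [this]; exact d_root_nb0
  refine ⟨fun k => ?_, if τ.2 then -1 else 1, fun k => ?_⟩
  · simp only
    rw [h1, smul_d]; exact d_root_nb0
  · simp only
    rw [h1, h2, smul_turn _ h3 d_root_nb0, map_zpow, sgn_stdX]
    unfold turn
    rw [dir_root_nb0, dir_root_rot]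
    unfold ut uz
    split_ifs <;> simp

/-- The standard line of type `τ`. -/
def std {τ : ℕ × Bool} (h : Dt.A τ) : Ln Dt := ⟨τ, _, h, std_ty τ⟩

lemma std_f {τ : ℕ × Bool} (h : Dt.A τ) (k : ℤ) :
    (std h).f k = (stdX τ : G q) ^ k • (root : Vt q) := rfl

lemma stdX_mem_H {τ : ℕ × Bool} (h : Dt.A τ) (hσ : sgn (stdX τ : G q) ^ Dt.n τ = Dt.σ τ) :
    (stdX τ : G q) ^ Dt.n τ ∈ (std h).H := by
  refine ⟨1, fun k => ?_, ?_⟩
  · rw [std_f, std_f, smul_smul, ← zpow_natCast, ← zpow_add]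
    congr 2
    change (Dt.n τ : ℤ) + k = k + 1 * Dt.n τ
    ring
  · rw [map_pow, hσ, zpow_one]
    rfl

lemma thru (x y : Vt q) (h : (T q).d x y = 1) : ∃ (i : Ln Dt), i.ty = (1, true) ∧ i.f 0 = x ∧
    i.f 1 = y ∧ ∃ h ∈ i.H, h ≠ 1 := by
  obtain ⟨g, -, hg1, hg2⟩ := trans_edge x y h
  refine ⟨g • std Dt.one, rfl, ?_, ?_, ?_⟩
  · rw [Ln.smul_f, std_f, zpow_zero, one_smul, hg1]
  · rw [Ln.smul_f, std_f, zpow_one, stdX_root, hg2]
  · have h1 : (stdX (1, true) : G q) ^ Dt.n (1, true) ∈ (std Dt.one).H :=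
      stdX_mem_H Dt.one (by rw [sgn_stdX, Dt.σ1]; simp)
    have h2 := Ln.H_smul g _ _ h1
    refine ⟨_, h2, ?_⟩
    intro h3
    obtain ⟨m, h4, -⟩ := h1
    have h5 : (stdX (1, true) : G q) ^ Dt.n (1, true) = 1 := by
      have := congrArg (fun w => g⁻¹ * w * g) h3
      simpa [mul_assoc] using this
    have h6 : (std Dt.one).f (0 + Dt.n (1, true)) = (std Dt.one).f 0 := by
      rw [std_f, std_f, zero_add, zpow_natCast, h5, zpow_zero]
    have h7 := line_inj (std Dt.one).line h6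
    have h8 := Dt.s4 _ Dt.one
    omega

lemma piece (x y : Ln Dt) (hns : ¬ x.Same y) (s t : ℤ) :
    |(T q).pr x.f (y.f s) - (T q).pr x.f (y.f t)| ≤ lamv Dt x.ty.1 := by
  have main : ∀ s t, (T q).pr x.f (y.f s) < (T q).pr x.f (y.f t) →
      (T q).pr x.f (y.f t) - (T q).pr x.f (y.f s) ≤ lamv Dt x.ty.1 := by
    intro s t hlt
    obtain ⟨b, ε, hε, hk⟩ := x.line.overlap y.line s t hlt
    set a := (T q).pr x.f (y.f s) with ha
    set a' := (T q).pr x.f (y.f t) with ha'
    have hmem : ∀ k, 0 ≤ k → k ≤ a' - a → x.f (a + k) ∈ Set.range y.f := fun k h1 h2 => by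
      rw [hk k h1 h2]; exact ⟨_, rfl⟩
    have hp := self_par x
    by_contra hcon
    by_cases h3 : 3 ≤ a' - a
    · exact share4 hns (v0 := x.f (a + 0)) (v1 := x.f (a + 1)) (v2 := x.f (a + 2))
        (v3 := x.f (a + 3)) (by rw [x.line]; norm_num) (by rw [x.line]; norm_num)
        (by rw [x.line]; norm_num) (hp.ne (by omega)) (hp.ne (by omega)) ⟨_, rfl⟩ ⟨_, rfl⟩
        ⟨_, rfl⟩ ⟨_, rfl⟩ (hmem _ (by omega) (by omega)) (hmem _ (by omega) (by omega))
        (hmem _ (by omega) (by omega)) (hmem _ (by omega) (by omega))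
    · have hl : lamv Dt x.ty.1 = 1 ∨ lamv Dt x.ty.1 = 2 := by
        unfold lamv; split_ifs <;> simp
      have h4 : lamv Dt x.ty.1 = 1 := by omega
      obtain ⟨h5, h6⟩ := share3 hns (v0 := x.f (a + 0)) (v1 := x.f (a + 1)) (v2 := x.f (a + 2))
        (by rw [x.line]; norm_num) (by rw [x.line]; norm_num)
        (hp.ne (by omega)) ⟨_, rfl⟩ ⟨_, rfl⟩
        ⟨_, rfl⟩ (hmem _ (by omega) (by omega)) (hmem _ (by omega) (by omega))
        (hmem _ (by omega) (by omega))
      unfold lamv at h4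
      rw [if_pos (dbl_of h5 h6)] at h4
      omega
  have hl : 0 ≤ lamv Dt x.ty.1 := by
    unfold lamv; split_ifs <;> norm_num
  rcases lt_trichotomy ((T q).pr x.f (y.f s)) ((T q).pr x.f (y.f t)) with h | h | h
  · have := main s t h
    rw [abs_le]; constructor <;> omega
  · rw [h, sub_self, abs_zero]; exact hl
  · have := main t s h
    rw [abs_le]; constructor <;> omega

lemma two_ne_zero' : (2 : ZMod q) ≠ 0 ∨ q ≤ 2 := by
  by_cases h : q ≤ 2
  · exact Or.inr h
  · left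
    have := two_ne (q := q) (j := 1) le_rfl (by omega) (by omega)
    simpa using this

lemma exists_third (hq : 3 ≤ q) (a b : ZMod q) : ∃ c : ZMod q, c ≠ a ∧ c ≠ b := by
  have : NeZero q := ⟨by omega⟩
  by_contra hcon
  push Not at hcon
  have h1 : (Finset.univ : Finset (ZMod q)) ⊆ {a, b} := by
    intro c _
    rw [Finset.mem_insert, Finset.mem_singleton]
    by_cases h : c = a
    · exact Or.inl h
    · exact Or.inr (hcon c h)
  have h2 := Finset.card_le_card h1
  have h3 := Finset.card_le_two (a := a) (b := b)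
  rw [Finset.card_univ, ZMod.card] at h2
  omega

lemma one_mem_PP : (1 : ZMod q) ∈ PP q Dt.A := ⟨(1, true), Dt.one, Or.inl (by simp)⟩

lemma esc (M : Set (Ln Dt)) (U : Set (Vt q)) (hc : CF M U)
    (hx : ∃ x0 ∈ U, ∃ x, x ∉ U ∧ (T q).d x0 x = 1)
    (hM : ∀ i : Ln Dt, (∃ s, i.f s ∈ U) → (∃ s, i.f s ∉ U) → i ∈ M) :
    ∃ x y, (T q).d x y = 1 ∧ x ∉ U ∧ ∀ m ∈ M, x ∈ Set.range m.f → y ∉ Set.range m.f := by
  obtain ⟨x0, hx0, x, hxU, hd⟩ := hx
  obtain ⟨i, hty, hi0, hi1, -⟩ := thru (Dt := Dt) x0 x hd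
  have hiM : i ∈ M := hM i ⟨0, hi0 ▸ hx0⟩ ⟨1, hi1 ▸ hxU⟩
  have hp := self_par i
  have hgap : ∀ b : ℤ, 1 ≤ b → b < (Dt.n i.ty : ℤ) - Dv Dt i.ty.1 → i.f b ∉ U := by
    intro b hb hb' hbU
    rcases hb.lt_or_eq with h | h
    · have := hc.f2 i hiM 0 1 b (by norm_num) h (hi0 ▸ hx0) (hi1 ▸ hxU) hbU
      omega
    · rw [← h, hi1] at hbU
      exact hxU hbU
  have hpiece : ∀ m : Ln Dt, ¬ i.Same m → ∀ a b, i.f a ∈ Set.range m.f →
      i.f b ∈ Set.range m.f → |a - b| ≤ lamv Dt i.ty.1 := by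
    rintro m hns a b ⟨s, hs⟩ ⟨t, ht⟩
    have := piece i m hns s t
    rwa [hs, ht, i.line.pr_self, i.line.pr_self] at this
  have hlam : 1 ≤ lamv Dt i.ty.1 ∧ lamv Dt i.ty.1 ≤ 2 := by
    unfold lamv; split_ifs <;> norm_num
  have h1A : Dt.A i.ty := i.hA
  have hcast : ((i.ty.1 : ℕ) : ZMod q) = 1 := by rw [hty]; simp
  by_cases h2P : (2 : ZMod q) ∈ PP q Dt.A
  · -- the middle of the gap
    have htri : Tri q Dt.A i.ty.1 := by
      refine ⟨2, h2P, -1, PP_neg one_mem_PP, ?_⟩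
      rw [hcast]; ring
    have hbig : 2 * lamv Dt i.ty.1 + 2 ≤ (Dt.n i.ty : ℤ) - Dv Dt i.ty.1 := by
      by_cases hdb : Dbl Dt.A i.ty.1
      · have hl : lamv Dt i.ty.1 = 2 := by unfold lamv; rw [if_pos hdb]
        by_cases h3 : 3 * (i.ty.1 : ZMod q) = 0
        · have := Dt.s11 _ h1A hdb h3
          rw [Dv_dbl3 hdb h3, hl]; omega
        · have h2P' : 2 * (i.ty.1 : ZMod q) ∈ PP q Dt.A := by rw [hcast, mul_one]; exact h2P
          have := Dt.s9 _ h1A hdb h2P'
          rw [Dv_dbl2 hdb h3 h2P', hl]; omega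
      · have hl : lamv Dt i.ty.1 = 1 := by unfold lamv; rw [if_neg hdb]
        have := Dt.s6 _ h1A htri
        rw [Dv_tri hdb htri, hl]; omega
    set l := lamv Dt i.ty.1 with hl
    obtain ⟨e, he1, he2⟩ := exists_third Dt.hq (dir (i.f (l + 1)) (i.f l))
      (dir (i.f (l + 1)) (i.f (l + 2)))
    obtain ⟨w, hw1, hw2⟩ := exists_nb (i.f (l + 1)) e
    refine ⟨i.f (l + 1), w, hw1, hgap _ (by omega) (by omega), ?_⟩
    intro m hm hy hwm
    have hwi : w ∉ Set.range i.f := by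
      rintro ⟨b, rfl⟩
      rw [i.line] at hw1
      have : b = l ∨ b = l + 2 := by rcases abs_cases (l + 1 - b) with h | h <;> omega
      rcases this with rfl | rfl
      · exact he1 hw2.symm
      · exact he2 hw2.symm
    have hns : ¬ i.Same m := fun h => hwi (h.2 ▸ hwm)
    obtain ⟨p, hpU, ⟨b, rfl⟩, hpm⟩ := hc.f1 i hiM m hm hns _ ⟨_, rfl⟩ hy
      (hgap _ (by omega) (by omega))
    have h5 := hpiece m hns _ _ hy hpm
    rw [abs_le] at h5
    exact hgap b (by omega) (by omega) hpU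
  · -- a direction which is not used
    have hbig : 1 + lamv Dt i.ty.1 < (Dt.n i.ty : ℤ) - Dv Dt i.ty.1 := by
      by_cases hdb : Dbl Dt.A i.ty.1
      · have hl : lamv Dt i.ty.1 = 2 := by unfold lamv; rw [if_pos hdb]
        by_cases h3 : 3 * (i.ty.1 : ZMod q) = 0
        · have := Dt.s11 _ h1A hdb h3
          rw [Dv_dbl3 hdb h3, hl]; omega
        · have h2P' : 2 * (i.ty.1 : ZMod q) ∉ PP q Dt.A := by rw [hcast, mul_one]; exact h2P
          have := Dt.s7 _ h1A hdb
          rw [Dv_dbl hdb h3 h2P', hl]; omega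
      · have hl : lamv Dt i.ty.1 = 1 := by unfold lamv; rw [if_neg hdb]
        by_cases htri : Tri q Dt.A i.ty.1
        · have := Dt.s6 _ h1A htri
          rw [Dv_tri hdb htri, hl]; omega
        · have := Dt.s4 _ h1A
          rw [Dv_ntri hdb htri, hl]; omega
    have hxd : (T q).d x x0 = 1 := by rw [(T q).d_comm]; exact hd
    obtain ⟨y, hy1, hy2⟩ := exists_nb x (dir x x0 + 2)
    have hturn : turn x0 x y = 2 := by unfold turn; rw [hy2]; ring
    refine ⟨x, y, hy1, hxU, ?_⟩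
    intro m hm hxm hym
    have hne : x0 ≠ y := by
      rintro rfl
      rw [turn_self] at hturn
      rcases two_ne_zero' (q := q) with h | h
      · exact h hturn.symm
      · have := Dt.hq; omega
    have hx0m : x0 ∉ Set.range m.f := by
      intro h
      obtain ⟨s, hs⟩ := turn_type m h hxm hym hxd hy1 hne
      rw [hturn] at hs
      exact h2P (hs ▸ mem_PP m s)
    have hns : ¬ i.Same m := fun h => hx0m (h.2 ▸ ⟨0, hi0⟩)
    obtain ⟨p, hpU, ⟨b, rfl⟩, hpm⟩ := hc.f1 i hiM m hm hns x ⟨1, hi1⟩ hxm hxU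
    have hb : 1 ≤ b := by
      by_contra hcon
      apply hx0m
      rw [← hi0]
      exact btw_mem i.line (by omega : b ≤ 0) (by norm_num : (0 : ℤ) ≤ 1) hpm (hi1 ▸ hxm)
    have h5 := hpiece m hns 1 b (hi1 ▸ hxm) hpm
    rw [abs_le] at h5
    exact hgap b hb (by omega) hpU

/-- The system of all holes and zigzags of the types in use. -/
noncomputable def sys (Dt : Data q) : Sys (G q) (Vt q) (Ln Dt) where
  T := T q
  v0 := root
  smul_d := smul_d
  step := Vt.step
  L := fun x => x.f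
  line := Ln.line
  L_smul := Ln.smul_f
  Same := Ln.Same
  same_refl := fun i => ⟨rfl, rfl⟩
  same_symm := fun i j h => same_symm h
  same_trans := fun i j k h h' => ⟨h.1.trans h'.1, h.2.trans h'.2⟩
  same_smul := by
    rintro g i j ⟨h1, h2⟩
    refine ⟨h1, ?_⟩
    have e : ∀ i : Ln Dt, Set.range (g • i).f = (fun v => g • v) '' Set.range i.f := by
      intro i
      rw [← Set.range_comp]; rfl
    rw [e, e, h2]
  same_range := fun i j h => h.2
  H := Ln.H
  H_smul := Ln.H_smul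
  same_H := Ln.same_H
  n := fun i => Dt.n i.ty
  D := fun i => Dv Dt i.ty.1
  lam := fun i => lamv Dt i.ty.1
  n_smul := fun g i => rfl
  D_smul := fun g i => rfl
  htau := Ln.htau
  big := by
    intro i
    have h1A := i.hA
    by_cases hdb : Dbl Dt.A i.ty.1
    · have hl : lamv Dt i.ty.1 = 2 := by unfold lamv; rw [if_pos hdb]
      by_cases h3 : 3 * (i.ty.1 : ZMod q) = 0
      · have := Dt.s11 _ h1A hdb h3
        rw [Dv_dbl3 hdb h3, hl]; omega
      · by_cases h2P : 2 * (i.ty.1 : ZMod q) ∈ PP q Dt.A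
        · have := Dt.s9 _ h1A hdb h2P
          rw [Dv_dbl2 hdb h3 h2P, hl]; omega
        · have := Dt.s7 _ h1A hdb
          rw [Dv_dbl hdb h3 h2P, hl]; omega
    · have hl : lamv Dt i.ty.1 = 1 := by unfold lamv; rw [if_neg hdb]
      by_cases htri : Tri q Dt.A i.ty.1
      · have := Dt.s6 _ h1A htri
        rw [Dv_tri hdb htri, hl]; omega
      · have := Dt.s4 _ h1A
        rw [Dv_ntri hdb htri, hl]; omega
  D_nonneg := by
    intro i
    unfold Dv
    split_ifs <;> norm_num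
  lam_pos := by
    intro i
    unfold lamv
    split_ifs <;> norm_num
  piece := piece
  thru := by
    intro x y h
    obtain ⟨i, -, h1, h2, h3⟩ := thru (Dt := Dt) x y h
    exact ⟨i, 0, h1, by rw [zero_add]; exact h2, h3⟩
  cover := by
    intro M U hc k hk hU a b _ hE
    exact cover hc k hk hU a b hE
  esc := esc

end Pool.Agent.Helper477_holes
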