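import Mathlib
import Pool.Agent.Helper477_holes.Inst
import Pool.Agent.Helper477_holes.Defs

set_option autoImplicit false

/-!
# The group is infinite
-/

namespace Pool.Agent.Helper477_holes

open Pool.Agent.H17R2 Vt

variable {p q : ℕ} {h r : ℕ → ℕ}

/-- the types in use -/
def AA (p q : ℕ) (h r : ℕ → ℕ) (τ : ℕ × Bool) : Prop :=
  1 ≤ τ.1 ∧ 2 * τ.1 ≤ q ∧ (2 * τ.1 = q → τ.2 = true ∧ (hol p h τ.1 ≠ 0 ∨ r τ.1 ≠ 0)) ∧
    (2 * τ.1 ≠ q → (τ.2 = true → hol p h τ.1 ≠ 0) ∧ (τ.2 = false → r τ.1 ≠ 0))

/-- the lengths -/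
def nn (p q : ℕ) (h r : ℕ → ℕ) (τ : ℕ × Bool) : ℕ :=
  if 2 * τ.1 = q then Nat.gcd (hol p h τ.1) (r τ.1) else if τ.2 then hol p h τ.1 else r τ.1

/-- the signs -/
def ss (q : ℕ) (r : ℕ → ℕ) (τ : ℕ × Bool) : ℤˣ :=
  if 2 * τ.1 = q then (-1) ^ r τ.1 else if τ.2 then 1 else (-1) ^ r τ.1

lemma AA_used {τ : ℕ × Bool} (hA : AA p q h r τ) : hol p h τ.1 ≠ 0 ∨ r τ.1 ≠ 0 := by
  obtain ⟨-, -, h1, h2⟩ := hA
  by_cases h3 : 2 * τ.1 = q
  · exact (h1 h3).2
  · cases h4 : τ.2
    · exact Or.inr ((h2 h3).2 h4)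
    · exact Or.inl ((h2 h3).1 h4)

lemma PP_used {x : ZMod q} (hx : x ∈ PP q (AA p q h r)) : x ∈ Used p q h r := by
  obtain ⟨τ, h1, h2⟩ := hx
  exact ⟨τ.1, h1.1, h1.2.1, AA_used h1, h2⟩

lemma Tri_sum2 {j : ℕ} (hx : Tri q (AA p q h r) j) : Sum2 p q h r j := by
  obtain ⟨a, ha, b, hb, hab⟩ := hx
  exact ⟨a, PP_used ha, b, PP_used hb, hab⟩

lemma Dbl_lt {j : ℕ} (hx : Dbl (AA p q h r) j) : 1 ≤ j ∧ 2 * j < q ∧ hol p h j ≠ 0 ∧ r j ≠ 0 := by
  obtain ⟨h1, h2⟩ := hx
  have h3 : 2 * j ≠ q := by
    intro h3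
    have := (h2.2.2.1 h3).1
    simp at this
  have h4 := h1.2.1
  simp only at h4
  exact ⟨h1.1, by omega, (h1.2.2.2 h3).1 rfl, (h2.2.2.2 h3).2 rfl⟩

/-- The data of a tuple with large entries. -/
def dat (H : Large p q h r) : Data q where
  A := AA p q h r
  n := nn p q h r
  σ := ss q r
  hq := H.hq
  hA := fun τ h => ⟨h.1, h.2.1⟩
  hA' := by
    intro j hj h3
    have := (hj.2.2.1 h3).1
    simp at this
  one := by
    have := H.hq
    refine ⟨le_rfl, by simp only; omega, fun h => by simp only at h; omega, fun _ =>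
      ⟨fun _ => ?_, fun h => by simp at h⟩⟩
    simp only [hol, if_true]
    exact H.hp
  σ1 := by
    have := H.hq
    unfold ss
    rw [if_neg (by simp only; omega)]
    simp
  s11 := by
    intro τ hA hD h3
    obtain ⟨h4, h5, h6, h7⟩ := Dbl_lt hD
    have h8 : 3 * τ.1 = q := by
      have h9 : ((3 * τ.1 : ℕ) : ZMod q) = 0 := by push_cast; exact h3
      rw [ZMod.natCast_eq_zero_iff] at h9
      obtain ⟨c, hc⟩ := h9
      have : c = 1 := by nlinarith
      rw [hc, this, mul_one]
    obtain ⟨h9, h10⟩ := (H.both _ h4 h5 h6 h7).2.2.2 h8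
    unfold nn
    rw [if_neg (by omega)]
    split_ifs <;> assumption
  s9 := by
    intro τ hA hD h3
    obtain ⟨h4, h5, h6, h7⟩ := Dbl_lt hD
    obtain ⟨h9, h10⟩ := (H.both _ h4 h5 h6 h7).2.2.1 (PP_used h3)
    unfold nn
    rw [if_neg (by omega)]
    split_ifs <;> assumption
  s7 := by
    intro τ hA hD
    obtain ⟨h4, h5, h6, h7⟩ := Dbl_lt hD
    obtain ⟨h9, h10, -⟩ := H.both _ h4 h5 h6 h7
    unfold nn
    rw [if_neg (by omega)]
    split_ifs <;> assumption
  s6 := by
    intro τ hA hT
    have hT' := Tri_sum2 hT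
    have hu := AA_used hA
    obtain ⟨h1, h2, h3, h4⟩ := hA
    unfold nn
    by_cases h5 : 2 * τ.1 = q
    · rw [if_pos h5]
      exact (H.straight _ h5 hu).2.2 hT'
    · rw [if_neg h5]
      obtain ⟨h6, h7⟩ := h4 h5
      by_cases h8 : hol p h τ.1 = 0
      · by_cases h9 : r τ.1 = 0
        · rcases hu with hu | hu
          · exact absurd h8 hu
          · exact absurd h9 hu
        · have := (H.zigzag _ h1 (by omega) h8 h9).2 hT'
          split_ifs with h10
          · exact absurd h8 (h6 h10)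
          · exact this
      · by_cases h9 : r τ.1 = 0
        · have := (H.hole _ h1 (by omega) h8 h9).2 hT'
          split_ifs with h10
          · exact this
          · exact absurd h9 (h7 (by simpa using h10))
        · obtain ⟨h10, h11, -⟩ := H.both _ h1 (by omega) h8 h9
          split_ifs <;> omega
  s4 := by
    intro τ hA
    have hu := AA_used hA
    obtain ⟨h1, h2, h3, h4⟩ := hA
    unfold nn
    by_cases h5 : 2 * τ.1 = q
    · rw [if_pos h5]
      exact (H.straight _ h5 hu).2.1
    · rw [if_neg h5]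
      obtain ⟨h6, h7⟩ := h4 h5
      by_cases h8 : hol p h τ.1 = 0
      · by_cases h9 : r τ.1 = 0
        · rcases hu with hu | hu
          · exact absurd h8 hu
          · exact absurd h9 hu
        · have := (H.zigzag _ h1 (by omega) h8 h9).1
          split_ifs with h10
          · exact absurd h8 (h6 h10)
          · exact this
      · by_cases h9 : r τ.1 = 0
        · have := (H.hole _ h1 (by omega) h8 h9).1
          split_ifs with h10
          · exact this
          · exact absurd h9 (h7 (by simpa using h10))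
        · obtain ⟨h10, h11, -⟩ := H.both _ h1 (by omega) h8 h9
          split_ifs <;> omega

/-- The images of the generators. -/
def gens (q : ℕ) : Fin 3 → G q := ![z * ref, rot 1 * ref, ref]

lemma g01 : gens q 0 * gens q 1 = z * rot (-1) := by
  change z * ref * (rot 1 * ref) = _
  rw [mul_assoc, ← mul_assoc ref, ref_rot, mul_assoc, ref_sq, mul_one]

lemma g12 : gens q 1 * gens q 2 = rot 1 := by
  change rot 1 * ref * ref = _
  rw [mul_assoc, ref_sq, mul_one]

lemma g21 : gens q 2 * gens q 1 = rot (-1) := by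
  change ref * (rot 1 * ref) = _
  rw [← mul_assoc, ref_rot, mul_assoc, ref_sq, mul_one]

lemma g02 : gens q 0 * gens q 2 = z := by
  change z * ref * ref = _
  rw [mul_assoc, ref_sq, mul_one]

lemma lift_hole {j : ℕ} (hj : 1 ≤ j) :
    FreeGroup.lift (gens q) (holeWord j) = stdX (j, true) := by
  unfold holeWord
  rw [map_mul, map_mul, map_pow, map_mul, FreeGroup.lift_apply_of, FreeGroup.lift_apply_of,
    FreeGroup.lift_apply_of, g01, g21, rot_pow, mul_assoc, rot_mul, stdX_true]
  congr 2
  obtain ⟨i, rfl⟩ := Nat.exists_eq_add_of_le hj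
  push_cast [Nat.add_sub_cancel_left]
  ring

lemma lift_zigzag {j : ℕ} : FreeGroup.lift (gens q) (zigzagWord j) = stdX (j, false) := by
  unfold zigzagWord
  rw [map_mul, map_pow, map_mul, FreeGroup.lift_apply_of, FreeGroup.lift_apply_of,
    FreeGroup.lift_apply_of, g12, rot_pow, stdX_false, mul_one]
  rfl

lemma mem_NN (H : Large p q h r) {i : Ln (dat H)} {g : G q} (hg : g ∈ i.H) :
    g ∈ (sys (dat H)).NN := (le_iSup (sys (dat H)).H i) hg

lemma self_neg {j : ℕ} (h2 : 2 * j = q) : -(j : ZMod q) = j := by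
  have : ((2 * j : ℕ) : ZMod q) = 0 := by rw [h2]; simp
  push_cast at this
  linear_combination -this

lemma stdX_str {j : ℕ} (h2 : 2 * j = q) :
    (stdX (j, false) : G q) = stdX (j, true) * ref ∧
      Commute (stdX (j, true) : G q) ref := by
  rw [stdX_true, stdX_false]
  constructor
  · rw [mul_assoc, ref_rot, mul_assoc]
  · change _ * _ = _ * _
    rw [mul_assoc, ← mul_assoc ref, ref_z, mul_assoc, ref_rot, neg_neg, self_neg h2]

lemma std_hole_mem (H : Large p q h r) {j : ℕ} (h1 : 1 ≤ j) (h2 : 2 * j ≤ q) :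
    (stdX (j, true) : G q) ^ hol p h j ∈ (sys (dat H)).NN := by
  by_cases h0 : hol p h j = 0
  · rw [h0, pow_zero]; exact Subgroup.one_mem _
  by_cases h3 : 2 * j = q
  · have hA : (dat H).A (j, true) := ⟨h1, h2, fun _ => ⟨rfl, Or.inl h0⟩, fun h => absurd h3 h⟩
    apply mem_NN H (i := std hA)
    obtain ⟨h4, h5, -⟩ := H.straight j h3 (Or.inl h0)
    have hn : (dat H).n (j, true) = Nat.gcd (hol p h j) (r j) := by
      change nn p q h r (j, true) = _
      unfold nn; rw [if_pos h3]
    have hσ : (dat H).σ (j, true) = (-1) ^ r j := by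
      change ss q r (j, true) = _
      unfold ss; rw [if_pos h3]
    obtain ⟨m, hm⟩ := Nat.gcd_dvd_left (hol p h j) (r j)
    refine ⟨m, fun k => ?_, ?_⟩
    · rw [std_f, std_f, smul_smul, ← zpow_natCast, ← zpow_add]
      congr 2
      change _ = k + m * ((dat H).n (j, true) : ℤ)
      rw [hn]
      have : (hol p h j : ℤ) = (Nat.gcd (hol p h j) (r j) : ℤ) * m := by exact_mod_cast hm
      rw [this]; ring
    · change sgn _ = (dat H).σ (j, true) ^ (m : ℤ)
      rw [hσ, map_pow, sgn_stdX]
      simp only [if_true, one_pow]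
      rw [zpow_natCast, ← pow_mul]
      rcases h4 with h4 | h4
      · -- `h` even
        by_cases hr : Even (r j)
        · rw [(hr.mul_right m).neg_one_pow]
        · have hodd : Odd (Nat.gcd (hol p h j) (r j)) :=
            Odd.of_dvd_nat (Nat.not_even_iff_odd.1 hr) (Nat.gcd_dvd_right _ _)
          have hme : Even m := by
            rw [hm] at h4
            rcases Nat.even_mul.1 h4 with h6 | h6
            · exact absurd h6 (Nat.not_even_iff_odd.2 hodd)
            · exact h6
          rw [(hme.mul_left _).neg_one_pow]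
      · rw [(h4.mul_right m).neg_one_pow]
  · have hA : (dat H).A (j, true) := ⟨h1, h2, fun h => absurd h h3, fun _ =>
      ⟨fun _ => h0, fun h => by simp at h⟩⟩
    apply mem_NN H (i := std hA)
    have hn : (dat H).n (j, true) = hol p h j := by
      change nn p q h r (j, true) = _
      unfold nn; rw [if_neg h3]; simp
    have := stdX_mem_H hA (by
      change _ = ss q r (j, true)
      unfold ss; rw [if_neg h3, sgn_stdX]; simp)
    rwa [hn] at this

lemma std_zigzag_mem (H : Large p q h r) {j : ℕ} (h1 : 1 ≤ j) (h2 : 2 * j ≤ q) :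
    (stdX (j, false) : G q) ^ r j ∈ (sys (dat H)).NN := by
  by_cases h0 : r j = 0
  · rw [h0, pow_zero]; exact Subgroup.one_mem _
  by_cases h3 : 2 * j = q
  · have hA : (dat H).A (j, true) := ⟨h1, h2, fun _ => ⟨rfl, Or.inr h0⟩, fun h => absurd h3 h⟩
    apply mem_NN H (i := std hA)
    obtain ⟨h4, h5, -⟩ := H.straight j h3 (Or.inr h0)
    have hn : (dat H).n (j, true) = Nat.gcd (hol p h j) (r j) := by
      change nn p q h r (j, true) = _
      unfold nn; rw [if_pos h3]
    have hσ : (dat H).σ (j, true) = (-1) ^ r j := by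
      change ss q r (j, true) = _
      unfold ss; rw [if_pos h3]
    obtain ⟨m, hm⟩ := Nat.gcd_dvd_right (hol p h j) (r j)
    obtain ⟨e1, e2⟩ := stdX_str h3
    have hrf : ∀ n : ℕ, (ref : G q) ^ n • (root : Vt q) = root := by
      intro n
      induction n with
      | zero => rw [pow_zero, one_smul]
      | succ n ih => rw [pow_succ, mul_smul, ref_root, ih]
    refine ⟨m, fun k => ?_, ?_⟩
    · rw [std_f, std_f, e1, e2.mul_pow, mul_smul, smul_smul _ _ (root : Vt q),
        ((e2.zpow_left k).pow_right (r j)).symm.eq, mul_smul, hrf, smul_smul, ← zpow_natCast,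
        ← zpow_add]
      congr 2
      change _ = k + m * ((dat H).n (j, true) : ℤ)
      rw [hn]
      have : (r j : ℤ) = (Nat.gcd (hol p h j) (r j) : ℤ) * m := by exact_mod_cast hm
      rw [this]; ring
    · change sgn _ = (dat H).σ (j, true) ^ (m : ℤ)
      rw [hσ, map_pow, sgn_stdX]
      simp only [Bool.false_eq_true, if_false]
      rw [zpow_natCast, ← pow_mul]
      by_cases hr : Even (r j)
      · rw [(hr.mul_right m).neg_one_pow, hr.neg_one_pow]
      · have hodd := Nat.not_even_iff_odd.1 hr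
        have hmo : Odd m := Odd.of_dvd_nat hodd (Dvd.intro_left _ hm.symm)
        rw [(hodd.mul hmo).neg_one_pow, hodd.neg_one_pow]
  · have hA : (dat H).A (j, false) := ⟨h1, h2, fun h => absurd h h3, fun _ =>
      ⟨fun h => by simp at h, fun _ => h0⟩⟩
    apply mem_NN H (i := std hA)
    have hn : (dat H).n (j, false) = r j := by
      change nn p q h r (j, false) = _
      unfold nn; rw [if_neg h3]; simp
    have := stdX_mem_H hA (by
      change _ ^ (dat H).n (j, false) = ss q r (j, false)
      rw [hn]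
      unfold ss; rw [if_neg h3, sgn_stdX]; simp)
    rwa [hn] at this

instance normal_NN (Dt : Data q) : (sys Dt).NN.Normal := by
  constructor
  intro n hn g
  have : ∀ n ∈ (sys Dt).NN, g * n * g⁻¹ ∈ (sys Dt).NN := by
    intro n hn
    refine Subgroup.iSup_induction (sys Dt).H (C := fun n => g * n * g⁻¹ ∈ (sys Dt).NN) hn ?_ ?_ ?_
    · intro i x hx
      exact (le_iSup (sys Dt).H (g • i)) ((sys Dt).H_smul g i x hx)
    · rw [mul_one, mul_inv_cancel]; exact Subgroup.one_mem _
    · intro x y hx hy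
      have := Subgroup.mul_mem _ hx hy
      have e : g * x * g⁻¹ * (g * y * g⁻¹) = g * (x * y) * g⁻¹ := by group
      rwa [e] at this
  exact this n hn

lemma lift_rel (H : Large p q h r) {w : FreeGroup (Fin 3)} (hw : w ∈ relators p q h r) :
    FreeGroup.lift (gens q) w ∈ (sys (dat H)).NN := by
  have hq := H.hq
  have one : ∀ {g : G q}, g = 1 → g ∈ (sys (dat H)).NN := fun h => h ▸ Subgroup.one_mem _
  rcases hw with (hw | ⟨j, h1, h2, rfl⟩) | ⟨j, h1, h2, rfl⟩
  · simp only [Set.mem_insert_iff, Set.mem_singleton_iff] at hw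
    rcases hw with rfl | rfl | rfl | rfl | rfl | rfl
    · apply one
      rw [map_pow, FreeGroup.lift_apply_of, sq]
      change z * ref * (z * ref) = 1
      rw [mul_assoc, ← mul_assoc ref, ref_z, mul_assoc z ref, ref_sq, mul_one, z_sq]
    · apply one
      rw [map_pow, FreeGroup.lift_apply_of, sq]
      change rot 1 * ref * (rot 1 * ref) = 1
      rw [mul_assoc, ← mul_assoc ref, ref_rot, mul_assoc _ ref, ref_sq, mul_one, rot_mul,
        add_neg_cancel, rot_zero]
    · apply one
      rw [map_pow, FreeGroup.lift_apply_of, sq]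
      exact ref_sq
    · have := std_hole_mem H (j := 1) le_rfl (by omega)
      rw [map_pow, map_mul, FreeGroup.lift_apply_of, FreeGroup.lift_apply_of, g01]
      rw [stdX_true, hol, if_pos rfl] at this
      simpa using this
    · apply one
      rw [map_pow, map_mul, FreeGroup.lift_apply_of, FreeGroup.lift_apply_of, g12, rot_pow]
      simp [rot_zero]
    · apply one
      rw [map_pow, map_mul, FreeGroup.lift_apply_of, FreeGroup.lift_apply_of, g02, sq, z_sq]
  · rw [map_pow, lift_hole (by omega)]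
    have := std_hole_mem H (j := j) (by omega) h2
    rw [hol, if_neg (by omega)] at this
    exact this
  · rw [map_pow, lift_zigzag]
    exact std_zigzag_mem H h1 h2

lemma rot_mem {K : Subgroup (G q)} (hq : 3 ≤ q) (h1 : rot 1 ∈ K) (b : ZMod q) : rot b ∈ K := by
  have : NeZero q := ⟨by omega⟩
  have h2 := K.pow_mem h1 b.val
  rw [rot_pow, ZMod.natCast_zmod_val, mul_one] at h2
  exact h2

lemma closure_gens (hq : 3 ≤ q) : Subgroup.closure (Set.range (gens q)) = ⊤ := by
  have h0 : gens q 0 ∈ Subgroup.closure (Set.range (gens q)) :=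
    Subgroup.subset_closure ⟨0, rfl⟩
  have h1 : gens q 1 ∈ Subgroup.closure (Set.range (gens q)) :=
    Subgroup.subset_closure ⟨1, rfl⟩
  have h2 : gens q 2 ∈ Subgroup.closure (Set.range (gens q)) :=
    Subgroup.subset_closure ⟨2, rfl⟩
  apply gen
  · rw [← g02]; exact Subgroup.mul_mem _ h0 h2
  · apply rot_mem hq
    rw [← g12]; exact Subgroup.mul_mem _ h1 h2
  · exact h2

lemma fg_G (hq : 3 ≤ q) : Group.FG (G q) := by
  rw [Group.fg_iff]
  exact ⟨Set.range (gens q), closure_gens hq, Set.finite_range _⟩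

/-- The homomorphism onto the quotient. -/
noncomputable def toQ (H : Large p q h r) : Gam p q h r →* G q ⧸ (sys (dat H)).NN :=
  PresentedGroup.toGroup (f := fun i => QuotientGroup.mk' (sys (dat H)).NN (gens q i)) (by
    intro w hw
    have h1 : FreeGroup.lift (fun i => QuotientGroup.mk' (sys (dat H)).NN (gens q i)) =
        (QuotientGroup.mk' (sys (dat H)).NN).comp (FreeGroup.lift (gens q)) := by
      ext i
      simp
    rw [h1, MonoidHom.comp_apply, QuotientGroup.mk'_apply, QuotientGroup.eq_one_iff]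
    exact lift_rel H hw)

lemma toQ_surj (H : Large p q h r) : Function.Surjective (toQ H) := by
  rw [← MonoidHom.range_eq_top, eq_top_iff]
  intro x _
  obtain ⟨g, rfl⟩ := QuotientGroup.mk'_surjective _ x
  have hg : g ∈ Subgroup.closure (Set.range (gens q)) := by
    rw [closure_gens H.hq]; exact Subgroup.mem_top _
  have h1 : Subgroup.closure (Set.range (gens q)) ≤
      (toQ H).range.comap (QuotientGroup.mk' (sys (dat H)).NN) := by
    rw [Subgroup.closure_le]
    rintro _ ⟨i, rfl⟩
    exact ⟨PresentedGroup.of i, by unfold toQ; rw [PresentedGroup.toGroup.of]⟩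
  exact h1 hg

theorem infinite (H : Large p q h r) : Infinite (Gam p q h r) := by
  by_contra hcon
  rw [not_infinite_iff_finite] at hcon
  have h1 : Finite (G q ⧸ (sys (dat H)).NN) := Finite.of_surjective _ (toQ_surj H)
  have h2 : (sys (dat H)).NN.FiniteIndex := Subgroup.finiteIndex_of_finite_quotient
  have := fg_G H.hq
  refine (sys (dat H)).not_finiteIndex ⟨nb0, ?_⟩ h2
  intro h3
  have h4 := d_root_nb0 (q := q)
  rw [h3] at h4
  change (T q).d root root = 1 at h4
  rw [(T q).d_self] at h4
  norm_num at h4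

end Pool.Agent.Helper477_holes
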