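import Mathlib
import Pool.Agent.Helper477_holes.Next

set_option autoImplicit false

/-!
# Elements of the group generated by the translations

A nontrivial element of `NN` moves `v0` far along one of the lines.  Consequences: `NN` acts freely
on the orbit of `v0`, and an element of `NN` which maps `v0` to a point of a line through `v0` is
in the group of this line.
-/

namespace Pool.Agent.Helper477_holes

open Pool.Agent.H17R2

namespace Sys

variable {G V I : Type*} [Group G] [MulAction G V] [MulAction G I] {S : Sys G V I}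

namespace Mill

variable (M : Mill S)

lemma near_far' {i : I} (hi : i ∈ M.J1) {h : G} (hh : h ∈ S.H i) (h1 : h ≠ 1) {x : V}
    (hx : M.Near i x) {q : V} (hq : q ∈ M.W) :
    S.n i - S.D i - S.lam i ≤ |S.c i (h • x) - S.c i q| := by
  obtain ⟨p, hp, hpx⟩ := hx
  obtain ⟨τ, h2, -, h3⟩ := S.htau_c hh
  have h4 := M.w4 i hi.1 p hp q hq
  have h6 := h2 h1
  rw [h3]
  rw [abs_le] at hpx h4
  rw [le_abs] at h6
  rw [le_abs]
  rcases h6 with h6 | h6
  · left; linarith
  · right; linarith

lemma pong' {i : I} {h : G} {l : List (I × G)} {x : V} (hr : M.Red ((i, h) :: l))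
    (hl : ∀ y ∈ ((i, h) :: l).getLast?, M.Near y.1 x) {q : V} (hq : q ∈ M.W) :
    S.n i - S.D i - S.lam i ≤ |S.c i (prod ((i, h) :: l) • x) - S.c i q| := by
  have h1 := M.ping l i h x hr hl
  obtain ⟨⟨h7, h8, h9⟩, -, -⟩ := hr
  rw [prod_cons, mul_smul]
  exact M.near_far' h7 h8 h9 h1 hq

/-- An element of the next group is in the old group or moves the points of the region far along
a new line. -/
lemma far_or {g : G} (hg : g ∈ M.N') {x : V} (hx : x ∈ M.W) :
    g ∈ M.N ∨ ∃ i, S.n i - S.D i - S.lam i ≤ |S.c i (g • x) - S.c i x| := by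
  obtain ⟨l, hl, n, hn, rfl⟩ := M.exists_red hg
  cases l with
  | nil => left; simpa [prod] using hn
  | cons a l =>
    obtain ⟨i, h⟩ := a
    right
    refine ⟨i, ?_⟩
    rw [mul_smul]
    apply M.pong' hl _ hx
    intro z _
    exact ⟨n • x, M.w1 n hn x hx, by
      have := S.lam_pos z.1
      rw [sub_self, abs_zero]; omega⟩

/-- An element of the next group which maps a point of the region and of a line to a point of this
line. -/
lemma on_line_or {g : G} (hg : g ∈ M.N') {x : V} (hx : x ∈ M.W) {i : I}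
    (h1 : x ∈ Set.range (S.L i)) (h2 : g • x ∈ Set.range (S.L i)) :
    g ∈ M.N ∨ (i ∈ M.J1 ∧ ∃ h ∈ S.H i, ∃ n ∈ M.N, g = h * n ∧ n • x ∈ Set.range (S.L i)) := by
  obtain ⟨l, hl, n, hn, rfl⟩ := M.exists_red hg
  cases hle : l with
  | nil => left; simpa [prod] using hn
  | cons a l' =>
    right
    obtain ⟨i1, h⟩ := a
    have hnx : n • x ∈ M.W := M.w1 n hn x hx
    have hfar : M.Far i1 (prod l • n • x) := by
      rw [hle]
      rw [hle] at hl
      refine M.pong hl ?_
      intro z _
      exact ⟨n • x, hnx, by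
        have := S.lam_pos z.1
        rw [sub_self, abs_zero]; omega⟩
    rw [mul_smul] at h2
    have hs : S.Same i1 i := by
      by_contra hs
      have h3 := hfar x hx
      obtain ⟨s, hs1⟩ := h1
      obtain ⟨t, ht1⟩ := h2
      have h4 := S.piece i1 i hs t s
      rw [hs1, ht1] at h4
      unfold c at h3
      omega
    have hi1 : i1 ∈ M.J1 := by
      rw [hle] at hl
      exact hl.1.1
    have hi : i ∈ M.J1 := M.J1_same hi1 hs
    have hp : prod l ∈ S.H i := M.F2 hi hl hnx h2
    rw [← hle]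
    refine ⟨hi, prod l, hp, n, hn, rfl, ?_⟩
    have := S.range_H ((S.H i).inv_mem hp) h2
    rwa [inv_smul_smul] at this

end Mill

lemma v0_mem (h : ∃ x : V, x ≠ S.v0) (n : ℕ) : S.v0 ∈ (seq S h n).W :=
  (seq S h n).w0

lemma J_mono (h : ∃ x : V, x ≠ S.v0) (n : ℕ) {i : I} (hi : i ∈ (seq S h n).J) :
    i ∈ (seq S h (n + 1)).J := (seq S h n).J_next (Or.inl hi)

lemma mem_seq (h : ∃ x : V, x ≠ S.v0) {g : G} (hg : g ∈ S.NN) : ∃ n, g ∈ (seq S h n).N := by
  have hdir : Directed (· ≤ ·) (fun n => (seq S h n).N) := (S.mono_seq h).directed_le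
  rw [S.NN_eq h] at hg
  exact (Subgroup.mem_iSup_of_directed hdir).1 hg

/-- A nontrivial element moves `v0` far along one of the lines. -/
theorem far_of_mem (h : ∃ x : V, x ≠ S.v0) {g : G} (hg : g ∈ S.NN) (hne : g ≠ 1) :
    ∃ i, S.n i - S.D i - S.lam i ≤ |S.c i (g • S.v0) - S.c i S.v0| := by
  obtain ⟨n, hn⟩ := S.mem_seq h hg
  induction n with
  | zero => exact absurd (Subgroup.mem_bot.1 hn) hne
  | succ n ih =>
    rcases (seq S h n).far_or hn (v0_mem h n) with h1 | h1
    · exact ih h1
    · exact h1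

/-- An element which maps `v0` to a point of a line through `v0` is in the group of this line. -/
theorem mem_H_of (h : ∃ x : V, x ≠ S.v0) {g : G} (hg : g ∈ S.NN) {i : I}
    (h1 : S.v0 ∈ Set.range (S.L i)) (h2 : g • S.v0 ∈ Set.range (S.L i)) : g ∈ S.H i := by
  obtain ⟨n, hn⟩ := S.mem_seq h hg
  have key : ∀ n, ∀ g ∈ (seq S h n).N, g • S.v0 ∈ Set.range (S.L i) →
      g ∈ S.H i ∧ (g ≠ 1 → i ∈ (seq S h n).J) := by
    intro n
    induction n with
    | zero =>
      intro g hg _
      have : g = 1 := Subgroup.mem_bot.1 hg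
      exact ⟨this ▸ (S.H i).one_mem, fun h => absurd this h⟩
    | succ n ih =>
      intro g hg h2
      rcases (seq S h n).on_line_or hg (v0_mem h n) h1 h2 with h3 | ⟨h3, k, hk, m, hm, rfl, h4⟩
      · obtain ⟨h4, h5⟩ := ih g h3 h2
        exact ⟨h4, fun h6 => J_mono h n (h5 h6)⟩
      · obtain ⟨-, h6⟩ := ih m hm h4
        have h7 : m = 1 := by
          by_contra h7
          exact h3.1 (h6 h7)
        rw [h7, mul_one]
        exact ⟨hk, fun _ => (seq S h n).J_next (Or.inr h3)⟩
  exact (key n g hn h2).1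

/-- If `v0` and its image are in a set which is short along all lines, then the element is
trivial. -/
theorem eq_one_of (h : ∃ x : V, x ≠ S.v0) {g : G} (hg : g ∈ S.NN)
    (h1 : ∀ i, |S.c i (g • S.v0) - S.c i S.v0| < S.n i - S.D i - S.lam i) : g = 1 := by
  by_contra hne
  obtain ⟨i, hi⟩ := S.far_of_mem h hg hne
  have := h1 i
  omega

end Sys

end Pool.Agent.Helper477_holes
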