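import Mathlib
import Pool.Agent.Helper477_holes.Defs

set_option autoImplicit false

/-!
# Regular polyhedra as string C-groups, and the lengths of holes and zigzags
-/

namespace Pool.Agent.Helper477_holes

/-- `Γ` together with the generators `ρ₀, ρ₁, ρ₂` is a string C-group of rank three: the generators
are involutions, `ρ₀` and `ρ₂` commute, and the intersection property holds.  These are exactly the
groups of the regular polyhedra with their distinguished generators. -/
structure IsStringC {Γ : Type*} [Group Γ] (ρ : Fin 3 → Γ) : Prop where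
  gen : Subgroup.closure (Set.range ρ) = ⊤
  ne_one : ∀ i, ρ i ≠ 1
  invol : ∀ i, ρ i ^ 2 = 1
  comm : ρ 0 * ρ 2 = ρ 2 * ρ 0
  inter : ∀ I J : Set (Fin 3), Subgroup.closure (ρ '' I) ⊓ Subgroup.closure (ρ '' J) =
    Subgroup.closure (ρ '' (I ∩ J))

/-- Restrictions on the lengths `a j` of the `j`-holes and `r j` of the `j`-zigzags for `j = q / 2`:
if both are prescribed, then they are equal and even, or one is odd and the other twice as
large. -/
def Compat (q : ℕ) (a r : ℕ → ℕ) : Prop :=
  ∀ j, 2 * j = q → a j ≠ 0 → r j ≠ 0 →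
    (a j = r j ∧ Even (r j)) ∨ (a j = 2 * r j ∧ Odd (r j)) ∨ (r j = 2 * a j ∧ Odd (a j))

/-- The distinguished generators. -/
def rho (p q : ℕ) (h r : ℕ → ℕ) (i : Fin 3) : Gam p q h r := PresentedGroup.of i

/-- The element `ρ₀ρ₁(ρ₂ρ₁)^(j-1)`; its order is the length of the `j`-holes. -/
def hole (p q : ℕ) (h r : ℕ → ℕ) (j : ℕ) : Gam p q h r :=
  rho p q h r 0 * rho p q h r 1 * (rho p q h r 2 * rho p q h r 1) ^ (j - 1)

/-- The element `ρ₀(ρ₁ρ₂)^j`; its order is the length of the `j`-zigzags. -/
def zigzag (p q : ℕ) (h r : ℕ → ℕ) (j : ℕ) : Gam p q h r :=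
  rho p q h r 0 * (rho p q h r 1 * rho p q h r 2) ^ j

end Pool.Agent.Helper477_holes
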