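import Mathlib
import Pool.Agent.Helper477_holes.Defs2

set_option autoImplicit false

/-!
# String C-groups of rank three

The automorphism groups of the regular polyhedra (abstract regular `3`-polytopes) are exactly the
string C-groups of rank `3`.
-/

namespace Pool.Agent.Helper477_holes

section

variable {Γ : Type*} [Group Γ]

/-- The elements of a group generated by two involutions. -/
lemma dih {a b : Γ} (ha : a ^ 2 = 1) (hb : b ^ 2 = 1) {x : Γ}
    (hx : x ∈ Subgroup.closure {a, b}) : ∃ k : ℤ, x = (a * b) ^ k ∨ x = (a * b) ^ k * a := by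
  have ha' : a⁻¹ = a := by rw [inv_eq_iff_mul_eq_one, ← sq, ha]
  have hb' : b⁻¹ = b := by rw [inv_eq_iff_mul_eq_one, ← sq, hb]
  have hb2 : b * b = 1 := by rw [← sq, hb]
  have ha2 : a * a = 1 := by rw [← sq, ha]
  have key : ∀ x : Γ, (∃ k : ℤ, x = (a * b) ^ k ∨ x = (a * b) ^ k * a) →
      ∀ y ∈ ({a, b} : Set Γ), ∃ k : ℤ, x * y = (a * b) ^ k ∨ x * y = (a * b) ^ k * a := by
    rintro x ⟨k, rfl | rfl⟩ y hy
    · rcases hy with rfl | hy
      · exact ⟨k, Or.inr rfl⟩
      · rw [Set.mem_singleton_iff] at hy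
        subst hy
        refine ⟨k - 1, Or.inr ?_⟩
        rw [zpow_sub_one, mul_inv_rev, ha', hb', mul_assoc, mul_assoc, ha2, mul_one]
    · rcases hy with rfl | hy
      · exact ⟨k, Or.inl (by rw [mul_assoc, ha2, mul_one])⟩
      · rw [Set.mem_singleton_iff] at hy
        subst hy
        exact ⟨k + 1, Or.inl (by rw [zpow_add_one, mul_assoc])⟩
  induction hx using Subgroup.closure_induction_right with
  | one => exact ⟨0, Or.inl (by rw [zpow_zero])⟩
  | mul_right x hx y hy ih => exact key x ih y hy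
  | mul_inv_cancel x hx y hy ih =>
    have : y⁻¹ = y := by
      rcases hy with rfl | hy
      · exact ha'
      · rw [Set.mem_singleton_iff] at hy; subst hy; exact hb'
    rw [this]
    exact key x ih y hy

/-- The elements of the group generated by an involution. -/
lemma cyc2 {a : Γ} (ha : a ^ 2 = 1) {x : Γ} (hx : x ∈ Subgroup.closure {a}) :
    x = 1 ∨ x = a := by
  rw [← Subgroup.zpowers_eq_closure] at hx
  obtain ⟨k, rfl⟩ := hx
  rcases Int.even_or_odd' k with ⟨c, rfl | rfl⟩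
  · left
    simp only
    rw [zpow_mul]
    have : a ^ (2 : ℤ) = 1 := by exact_mod_cast ha
    rw [this, one_zpow]
  · right
    simp only
    rw [zpow_add_one, zpow_mul]
    have : a ^ (2 : ℤ) = 1 := by exact_mod_cast ha
    rw [this, one_zpow, one_mul]

lemma fin3_cases : ∀ I J : Finset (Fin 3), I ⊆ J ∨ J ⊆ I ∨
    (I, J) ∈ ([({0}, {1}), ({0}, {2}), ({1}, {2}), ({0}, {1, 2}), ({1}, {0, 2}), ({2}, {0, 1}),
      ({0, 2}, {0, 1}), ({0, 1}, {1, 2}), ({0, 2}, {1, 2})] :
        List (Finset (Fin 3) × Finset (Fin 3))) ∨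
    (J, I) ∈ ([({0}, {1}), ({0}, {2}), ({1}, {2}), ({0}, {1, 2}), ({1}, {0, 2}), ({2}, {0, 1}),
      ({0, 2}, {0, 1}), ({0, 1}, {1, 2}), ({0, 2}, {1, 2})] :
        List (Finset (Fin 3) × Finset (Fin 3))) := by
  decide

/-- The intersection property follows from three special cases. -/
lemma inter_of (ρ : Fin 3 → Γ) (hne : ∀ i, ρ i ≠ 1) (hinv : ∀ i, ρ i ^ 2 = 1)
    (h01 : ρ 0 ≠ ρ 1) (h02 : ρ 0 ≠ ρ 2) (h12 : ρ 1 ≠ ρ 2)
    (i1 : ∀ x, x ∈ Subgroup.closure {ρ 0, ρ 1} → x ∈ Subgroup.closure {ρ 1, ρ 2} →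
      x = 1 ∨ x = ρ 1)
    (i2 : ∀ x, x ∈ Subgroup.closure {ρ 0, ρ 2} → x ∈ Subgroup.closure {ρ 1, ρ 2} →
      x = 1 ∨ x = ρ 2)
    (i0 : ∀ x, x ∈ Subgroup.closure {ρ 0, ρ 2} → x ∈ Subgroup.closure {ρ 0, ρ 1} →
      x = 1 ∨ x = ρ 0) (I J : Set (Fin 3)) :
    Subgroup.closure (ρ '' I) ⊓ Subgroup.closure (ρ '' J) =
      Subgroup.closure (ρ '' (I ∩ J)) := by
  classical
  have hsub : ∀ I J : Set (Fin 3), I ⊆ J → Subgroup.closure (ρ '' I) ≤
      Subgroup.closure (ρ '' J) := fun I J h => Subgroup.closure_mono (Set.image_mono h)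
  have hle : ∀ I J : Set (Fin 3), Subgroup.closure (ρ '' (I ∩ J)) ≤
      Subgroup.closure (ρ '' I) ⊓ Subgroup.closure (ρ '' J) := fun I J =>
    le_inf (hsub _ _ Set.inter_subset_left) (hsub _ _ Set.inter_subset_right)
  have s0 : ∀ x, x ∈ Subgroup.closure {ρ 0} → x = 1 ∨ x = ρ 0 := fun x hx => cyc2 (hinv 0) hx
  have s1 : ∀ x, x ∈ Subgroup.closure {ρ 1} → x = 1 ∨ x = ρ 1 := fun x hx => cyc2 (hinv 1) hx
  have s2 : ∀ x, x ∈ Subgroup.closure {ρ 2} → x = 1 ∨ x = ρ 2 := fun x hx => cyc2 (hinv 2) hx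
  have m0 : ∀ T : Set Γ, ρ 0 ∈ T → Subgroup.closure {ρ 0} ≤ Subgroup.closure T := fun T h =>
    Subgroup.closure_mono (Set.singleton_subset_iff.2 h)
  have m1 : ∀ T : Set Γ, ρ 1 ∈ T → Subgroup.closure {ρ 1} ≤ Subgroup.closure T := fun T h =>
    Subgroup.closure_mono (Set.singleton_subset_iff.2 h)
  have m2 : ∀ T : Set Γ, ρ 2 ∈ T → Subgroup.closure {ρ 2} ≤ Subgroup.closure T := fun T h =>
    Subgroup.closure_mono (Set.singleton_subset_iff.2 h)
  -- all cases up to symmetry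
  have key : ∀ I J : Finset (Fin 3), (I, J) ∈ ([({0}, {1}), ({0}, {2}), ({1}, {2}),
      ({0}, {1, 2}), ({1}, {0, 2}), ({2}, {0, 1}),
      ({0, 2}, {0, 1}), ({0, 1}, {1, 2}), ({0, 2}, {1, 2})] :
        List (Finset (Fin 3) × Finset (Fin 3))) →
      Subgroup.closure (ρ '' (I : Set (Fin 3))) ⊓ Subgroup.closure (ρ '' (J : Set (Fin 3))) ≤
      Subgroup.closure (ρ '' ((I : Set (Fin 3)) ∩ J)) := by
    intro I J hIJ
    simp only [List.mem_cons, Prod.mk.injEq, List.not_mem_nil, or_false] at hIJ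
    rintro x ⟨hx1, hx2⟩
    have one : x = 1 → x ∈ Subgroup.closure (ρ '' ((I : Set (Fin 3)) ∩ J)) := fun h =>
      h ▸ Subgroup.one_mem _
    have mem : ∀ i, i ∈ I → i ∈ J → x = ρ i →
        x ∈ Subgroup.closure (ρ '' ((I : Set (Fin 3)) ∩ J)) := fun i h1 h2 h =>
      h ▸ Subgroup.subset_closure ⟨i, ⟨by exact_mod_cast h1, by exact_mod_cast h2⟩, rfl⟩
    simp only [SetLike.mem_coe] at hx1 hx2
    rcases hIJ with ⟨rfl, rfl⟩ | ⟨rfl, rfl⟩ | ⟨rfl, rfl⟩ | ⟨rfl, rfl⟩ | ⟨rfl, rfl⟩ |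
      ⟨rfl, rfl⟩ | ⟨rfl, rfl⟩ | ⟨rfl, rfl⟩ | ⟨rfl, rfl⟩ <;>
    simp only [Finset.coe_singleton, Finset.coe_insert, Set.image_singleton, Set.image_pair]
      at hx1 hx2
    · apply one
      rcases s0 x hx1 with h | h
      · exact h
      · rcases s1 x hx2 with h' | h'
        · exact h'
        · exact absurd (h.symm.trans h') h01
    · apply one
      rcases s0 x hx1 with h | h
      · exact h
      · rcases s2 x hx2 with h' | h'
        · exact h'
        · exact absurd (h.symm.trans h') h02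
    · apply one
      rcases s1 x hx1 with h | h
      · exact h
      · rcases s2 x hx2 with h' | h'
        · exact h'
        · exact absurd (h.symm.trans h') h12
    · apply one
      rcases i1 x (m0 _ (by simp) hx1) hx2 with h | h
      · exact h
      · rcases s0 x hx1 with h' | h'
        · exact h'
        · exact absurd (h'.symm.trans h) h01
    · apply one
      rcases i0 x hx2 (m1 _ (by simp) hx1) with h | h
      · exact h
      · rcases s1 x hx1 with h' | h'
        · exact h'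
        · exact absurd (h.symm.trans h') h01
    · apply one
      rcases i1 x hx2 (m2 _ (by simp) hx1) with h | h
      · exact h
      · rcases s2 x hx1 with h' | h'
        · exact h'
        · exact absurd (h.symm.trans h') h12
    · rcases i0 x hx1 hx2 with h | h
      · exact one h
      · exact mem 0 (by simp) (by simp) h
    · rcases i1 x hx1 hx2 with h | h
      · exact one h
      · exact mem 1 (by simp) (by simp) h
    · rcases i2 x hx1 hx2 with h | h
      · exact one h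
      · exact mem 2 (by simp) (by simp) h
  apply le_antisymm _ (hle I J)
  have hI : (I.toFinset : Set (Fin 3)) = I := Set.coe_toFinset I
  have hJ : (J.toFinset : Set (Fin 3)) = J := Set.coe_toFinset J
  rcases fin3_cases I.toFinset J.toFinset with h | h | h | h
  · rw [← Finset.coe_subset, hI, hJ] at h
    rw [Set.inter_eq_left.2 h]; exact inf_le_left
  · rw [← Finset.coe_subset, hI, hJ] at h
    rw [Set.inter_eq_right.2 h]; exact inf_le_right
  · have := key _ _ h
    rwa [hI, hJ] at this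
  · have := key _ _ h
    rwa [hI, hJ, inf_comm, Set.inter_comm] at this

/-- Injectivity on a dihedral subgroup. -/
lemma dih_inj {Q : Type*} [Group Q] (φ : Γ →* Q) {a b : Γ} (ha : a ^ 2 = 1) (hb : b ^ 2 = 1)
    (hab : (a * b) ^ orderOf (φ a * φ b) = 1) (h2 : (φ a * φ b) ^ 2 ≠ 1)
    {x : Γ} (hx : x ∈ Subgroup.closure {a, b}) (h1 : φ x = 1) : x = 1 := by
  have ha2 : φ a * φ a = 1 := by rw [← map_mul, ← sq, ha, map_one]
  have hb2 : φ b * φ b = 1 := by rw [← map_mul, ← sq, hb, map_one]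
  have hc : ∀ k : ℤ, (φ a * φ b) ^ k = 1 → (a * b) ^ k = 1 := by
    intro k hk
    rw [← orderOf_dvd_iff_zpow_eq_one] at hk
    obtain ⟨c, rfl⟩ := hk
    rw [zpow_mul, zpow_natCast, hab, one_zpow]
  obtain ⟨k, rfl | rfl⟩ := dih ha hb hx
  · rw [map_zpow, map_mul] at h1
    exact hc k h1
  · exfalso
    rw [map_mul, map_zpow, map_mul] at h1
    apply h2
    -- `φ a` is a power of `φ a * φ b`, so it commutes with it
    have h3 : φ a = (φ a * φ b) ^ (-k) := by
      rw [zpow_neg, eq_inv_iff_mul_eq_one]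
      have h4 : φ a * ((φ a * φ b) ^ k * φ a) * φ a = φ a * 1 * φ a := by rw [h1]
      rw [mul_one, ha2, mul_assoc, mul_assoc, ha2, mul_one] at h4
      exact h4
    have h4 : Commute (φ a) (φ a * φ b) := by
      rw [h3]
      nth_rewrite 2 [← h3]
      exact (Commute.refl _).zpow_left _
    have h5 : φ a * (φ a * φ b) = φ a * φ b * φ a := h4
    rw [← mul_assoc, ha2, one_mul] at h5
    rw [sq]
    calc φ a * φ b * (φ a * φ b) = (φ a * φ b * φ a) * φ b := by group
      _ = 1 := by rw [← h5, hb2]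

/-- Lifting the intersection property along a homomorphism which is injective on the two dihedral
subgroups. -/
lemma IsStringC.lift {Q : Type*} [Group Q] (φ : Γ →* Q) {ρ : Fin 3 → Γ}
    (hQ : IsStringC (fun i => φ (ρ i))) (hgen : Subgroup.closure (Set.range ρ) = ⊤)
    (hinv : ∀ i, ρ i ^ 2 = 1) (hcomm : ρ 0 * ρ 2 = ρ 2 * ρ 0)
    (h01 : (ρ 0 * ρ 1) ^ orderOf (φ (ρ 0) * φ (ρ 1)) = 1) (h01' : (φ (ρ 0) * φ (ρ 1)) ^ 2 ≠ 1)
    (h12 : (ρ 1 * ρ 2) ^ orderOf (φ (ρ 1) * φ (ρ 2)) = 1) (h12' : (φ (ρ 1) * φ (ρ 2)) ^ 2 ≠ 1) :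
    IsStringC ρ := by
  have hne : ∀ i, ρ i ≠ 1 := fun i h => hQ.ne_one i (by simp only [h, map_one])
  have hcl : ∀ a b : Γ, ∀ x ∈ Subgroup.closure {a, b}, φ x ∈ Subgroup.closure {φ a, φ b} := by
    intro a b x hx
    have : φ x ∈ (Subgroup.closure {a, b}).map φ := ⟨x, hx, rfl⟩
    rw [MonoidHom.map_closure, Set.image_pair] at this
    exact this
  have hsq : ∀ a : Γ, a ^ 2 = 1 → φ a * φ a = 1 := by
    intro a ha
    rw [← map_mul, ← sq, ha, map_one]
  have e01 : φ (ρ 0) ≠ φ (ρ 1) := by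
    intro h
    apply h01'
    rw [h, sq, hsq _ (hinv 1), one_mul]
  have e12 : φ (ρ 1) ≠ φ (ρ 2) := by
    intro h
    apply h12'
    rw [h, sq, hsq _ (hinv 2), one_mul]
  have hpair : ∀ i j : Fin 3, Subgroup.closure ((fun i => φ (ρ i)) '' {i, j}) =
      Subgroup.closure {φ (ρ i), φ (ρ j)} := by
    intro i j
    rw [Set.image_pair]
  have hsing : ∀ i : Fin 3, Subgroup.closure ((fun i => φ (ρ i)) '' {i}) =
      Subgroup.closure {φ (ρ i)} := by
    intro i
    rw [Set.image_singleton]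
  have e02 : φ (ρ 0) ≠ φ (ρ 2) := by
    intro h
    have h3 := hQ.inter {0, 1} {1, 2}
    have h4 : ({0, 1} ∩ {1, 2} : Set (Fin 3)) = {1} := by
      ext i; fin_cases i <;> simp
    rw [h4, hpair, hpair, hsing] at h3
    have h5 : φ (ρ 0) ∈ Subgroup.closure {φ (ρ 1)} := by
      rw [← h3]
      refine ⟨Subgroup.subset_closure (by simp), ?_⟩
      rw [h]
      exact Subgroup.subset_closure (by simp)
    rcases cyc2 (hQ.invol 1) h5 with h6 | h6
    · exact hQ.ne_one 0 h6
    · exact e01 h6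
  have up : ∀ a b : Γ, a ^ 2 = 1 → b ^ 2 = 1 → (a * b) ^ orderOf (φ a * φ b) = 1 →
      (φ a * φ b) ^ 2 ≠ 1 → ∀ x ∈ Subgroup.closure {a, b}, ∀ y ∈ Subgroup.closure {a, b},
      φ x = φ y → x = y := by
    intro a b ha hb h h' x hx y hy hxy
    have h1 := dih_inj φ ha hb h h' (Subgroup.mul_mem _ (Subgroup.inv_mem _ hx) hy)
      (by rw [map_mul, map_inv, hxy, inv_mul_cancel])
    exact inv_mul_eq_one.1 h1
  refine ⟨hgen, hne, hinv, hcomm, ?_⟩
  apply inter_of ρ hne hinv (fun h => e01 (by rw [h])) (fun h => e02 (by rw [h]))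
    (fun h => e12 (by rw [h]))
  · intro x hx hx'
    have h3 := hQ.inter {0, 1} {1, 2}
    have h4 : ({0, 1} ∩ {1, 2} : Set (Fin 3)) = {1} := by
      ext i; fin_cases i <;> simp
    rw [h4, hpair, hpair, hsing] at h3
    have h5 : φ x ∈ Subgroup.closure {φ (ρ 1)} := by
      rw [← h3]
      exact ⟨hcl _ _ x hx, hcl _ _ x hx'⟩
    rcases cyc2 (hQ.invol 1) h5 with h6 | h6
    · left
      exact up _ _ (hinv 0) (hinv 1) h01 h01' x hx 1 (Subgroup.one_mem _) (by rw [h6, map_one])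
    · right
      exact up _ _ (hinv 0) (hinv 1) h01 h01' x hx _ (Subgroup.subset_closure (by simp)) h6
  · intro x hx hx'
    have h3 := hQ.inter {0, 2} {1, 2}
    have h4 : ({0, 2} ∩ {1, 2} : Set (Fin 3)) = {2} := by
      ext i; fin_cases i <;> simp
    rw [h4, hpair, hpair, hsing] at h3
    have h5 : φ x ∈ Subgroup.closure {φ (ρ 2)} := by
      rw [← h3]
      exact ⟨hcl _ _ x hx, hcl _ _ x hx'⟩
    rcases cyc2 (hQ.invol 2) h5 with h6 | h6
    · left
      exact up _ _ (hinv 1) (hinv 2) h12 h12' x hx' 1 (Subgroup.one_mem _) (by rw [h6, map_one])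
    · right
      exact up _ _ (hinv 1) (hinv 2) h12 h12' x hx' _ (Subgroup.subset_closure (by simp)) h6
  · intro x hx hx'
    have h3 := hQ.inter {0, 2} {0, 1}
    have h4 : ({0, 2} ∩ {0, 1} : Set (Fin 3)) = {0} := by
      ext i; fin_cases i <;> simp
    rw [h4, hpair, hpair, hsing] at h3
    have h5 : φ x ∈ Subgroup.closure {φ (ρ 0)} := by
      rw [← h3]
      exact ⟨hcl _ _ x hx, hcl _ _ x hx'⟩
    rcases cyc2 (hQ.invol 0) h5 with h6 | h6
    · left
      exact up _ _ (hinv 0) (hinv 1) h01 h01' x hx' 1 (Subgroup.one_mem _) (by rw [h6, map_one])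
    · right
      exact up _ _ (hinv 0) (hinv 1) h01 h01' x hx' _ (Subgroup.subset_closure (by simp)) h6

end

end Pool.Agent.Helper477_holes
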