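import Mathlib
import Pool.Agent.Helper477_holes.Final
import Pool.Agent.Helper477_holes.Free
import Pool.Agent.Helper477_holes.StringC

set_option autoImplicit false

/-!
# Quotients of the group of the regular tree which are groups of regular polyhedra
-/

namespace Pool.Agent.Helper477_holes

open Pool.Agent.H17R2 Vt

variable {q : ℕ}

/-- The translation along the standard face. -/
def x1 (q : ℕ) : G q := stdX (1, true)

/-- The elements of `K` move the root far away, and not along a face. -/
structure Thin (K : Subgroup (G q)) : Prop where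
  free : ∀ g ∈ K, g • (root : Vt q) = root → g = 1
  nbr : ∀ g ∈ K, (T q).d (root : Vt q) (g • root) ≠ 1
  face : ∀ g ∈ K, ∀ m : ℤ, g • (root : Vt q) = (x1 q) ^ m • root → g = (x1 q) ^ m

lemma x1_eq : x1 q = gens q 0 * gens q 1 := by
  rw [g01]; unfold x1; rw [stdX_true]; simp

lemma gens_sq (i : Fin 3) : gens q i ^ 2 = 1 := by
  fin_cases i
  · change (z * ref : G q) ^ 2 = 1
    rw [sq, mul_assoc, ← mul_assoc ref, ref_z, mul_assoc z ref, ref_sq, mul_one, z_sq]
  · change (rot 1 * ref : G q) ^ 2 = 1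
    rw [sq, mul_assoc, ← mul_assoc ref, ref_rot, mul_assoc _ ref, ref_sq, mul_one, rot_mul,
      add_neg_cancel, rot_zero]
  · change (ref : G q) ^ 2 = 1
    rw [sq, ref_sq]

lemma gens_inv (i : Fin 3) : (gens q i)⁻¹ = gens q i := by
  rw [inv_eq_iff_mul_eq_one, ← sq, gens_sq]

lemma gens_comm : gens q 0 * gens q 2 = gens q 2 * gens q 0 := by
  change z * ref * ref = ref * (z * ref)
  rw [← mul_assoc ref, ref_z]

lemma gens1_root : gens q 1 • (root : Vt q) = root := rfl
lemma gens2_root : gens q 2 • (root : Vt q) = root := rfl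

lemma ref_ne_one : (ref : G q) ≠ 1 := by
  intro h
  have := congrArg sgn h
  rw [sgn_ref, map_one] at this
  exact absurd this (by decide)

lemma rot_eq_one (hq : 3 ≤ q) {b : ZMod q} (h : (rot b : G q) = 1) : b = 0 := by
  have h1 := dir_root_rot b
  rw [h, one_smul, dir_root_nb0] at h1
  exact h1.symm

lemma one_ne (hq : 3 ≤ q) : (1 : ZMod q) ≠ 0 := by
  have := natCast_ne (q := q) (j := 1) le_rfl (by omega)
  simpa using this

/-- The elements of the group of the standard face, on the root. -/
lemma face_elt {a : G q} (ha : a ∈ Subgroup.closure {gens q 0, gens q 1}) :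
    ∃ m : ℤ, a = (x1 q) ^ m ∨ a = (x1 q) ^ m * gens q 1 := by
  rw [Set.pair_comm] at ha
  have h10 : gens q 1 * gens q 0 = (x1 q)⁻¹ := by
    rw [x1_eq, mul_inv_rev, gens_inv, gens_inv]
  obtain ⟨k, hk⟩ := dih (gens_sq 1) (gens_sq 0) ha
  refine ⟨-k, ?_⟩
  rw [h10, inv_zpow'] at hk
  exact hk

lemma fix_elt {a : G q} (ha : a ∈ Subgroup.closure {gens q 1, gens q 2}) :
    a • (root : Vt q) = root := by
  have : Subgroup.closure {gens q 1, gens q 2} ≤ MulAction.stabilizer (G q) (root : Vt q) := by
    rw [Subgroup.closure_le]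
    rintro g (rfl | hg)
    · exact gens1_root
    · rw [Set.mem_singleton_iff] at hg
      subst hg
      exact gens2_root
  exact this ha

lemma edge_elt {c : G q} (hc : c ∈ Subgroup.closure {gens q 0, gens q 2}) :
    c = 1 ∨ c = gens q 0 ∨ c = gens q 2 ∨ c = z := by
  obtain ⟨k, hk⟩ := dih (gens_sq 0) (gens_sq 2) hc
  rw [g02] at hk
  have hz : ∀ k : ℤ, (z : G q) ^ k = 1 ∨ (z : G q) ^ k = z := by
    intro k
    have h2 : (z : G q) ^ (2 : ℤ) = 1 := by
      rw [zpow_ofNat, sq, z_sq]
    rcases Int.even_or_odd' k with ⟨c, rfl | rfl⟩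
    · left; rw [zpow_mul, h2, one_zpow]
    · right; rw [zpow_add_one, zpow_mul, h2, one_zpow, one_mul]
  have e : (z : G q) * gens q 0 = gens q 2 := by
    change z * (z * ref) = ref
    rw [← mul_assoc, z_sq, one_mul]
  rcases hk with hk | hk <;> rcases hz k with h | h <;> rw [h] at hk
  · left; exact hk
  · right; right; right; exact hk
  · right; left; rw [hk, one_mul]
  · right; right; left; rw [hk, e]

/-- The quotient is the group of a regular polyhedron. -/
lemma Thin.stringC (hq : 3 ≤ q) {K : Subgroup (G q)} [K.Normal] (hK : Thin K) :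
    IsStringC (fun i => QuotientGroup.mk' K (gens q i)) := by
  set φ := QuotientGroup.mk' K with hφ
  have hφK : ∀ g, φ g = 1 ↔ g ∈ K := fun g => by
    rw [hφ, QuotientGroup.mk'_apply, QuotientGroup.eq_one_iff]
  have heq : ∀ a b, φ a = φ b → a * b⁻¹ ∈ K := by
    intro a b h
    rw [← hφK, map_mul, map_inv, h, mul_inv_cancel]
  have hd0 : (T q).d (root : Vt q) nb0 = 1 := d_root_nb0
  have h0r : gens q 0 • (root : Vt q) = nb0 := by
    change (z * ref : G q) • (root : Vt q) = nb0
    rw [mul_smul, ref_root, z_root]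
  have hx1 : x1 q • (root : Vt q) = nb0 := stdX_root _
  have hgen : Subgroup.closure (Set.range fun i => φ (gens q i)) = ⊤ := by
    have h1 : (Set.range fun i => φ (gens q i)) = φ '' (Set.range (gens q)) := by
      rw [← Set.range_comp]; rfl
    rw [h1, ← MonoidHom.map_closure, closure_gens hq, ← MonoidHom.range_eq_map,
      MonoidHom.range_eq_top]
    exact QuotientGroup.mk'_surjective K
  have hinv : ∀ i, φ (gens q i) ^ 2 = 1 := fun i => by rw [← map_pow, gens_sq, map_one]
  have hcomm : φ (gens q 0) * φ (gens q 2) = φ (gens q 2) * φ (gens q 0) := by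
    rw [← map_mul, gens_comm, map_mul]
  have ne1 : gens q 1 ≠ 1 := by
    intro h
    have := congrArg sgn h
    rw [map_one] at this
    change sgn (rot 1 * ref : G q) = 1 at this
    rw [map_mul, sgn_rot, sgn_ref] at this
    exact absurd this (by decide)
  have hne : ∀ i, φ (gens q i) ≠ 1 := by
    intro i hi
    rw [hφK] at hi
    fin_cases i
    · exact hK.nbr _ hi (by
        change (T q).d (root : Vt q) (gens q 0 • root) = 1
        rw [h0r]; exact hd0)
    · exact ne1 (hK.free _ hi gens1_root)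
    · exact ref_ne_one (hK.free _ hi gens2_root)
  have e01 : φ (gens q 0) ≠ φ (gens q 1) := by
    intro h
    have h1 := heq _ _ h
    rw [gens_inv, ← x1_eq] at h1
    exact hK.nbr _ h1 (by rw [hx1]; exact hd0)
  have e02 : φ (gens q 0) ≠ φ (gens q 2) := by
    intro h
    have h1 := heq _ _ h
    rw [gens_inv, g02] at h1
    exact hK.nbr _ h1 (by rw [z_root]; exact hd0)
  have e12 : φ (gens q 1) ≠ φ (gens q 2) := by
    intro h
    have h1 := heq _ _ h
    rw [gens_inv, g12] at h1
    exact one_ne hq (rot_eq_one hq (hK.free _ h1 (rot_root 1)))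
  have hpre : ∀ i j : Fin 3, ∀ x ∈ Subgroup.closure {φ (gens q i), φ (gens q j)},
      ∃ a ∈ Subgroup.closure {gens q i, gens q j}, φ a = x := by
    intro i j x hx
    rw [← Set.image_pair, ← MonoidHom.map_closure] at hx
    obtain ⟨a, ha, rfl⟩ := hx
    exact ⟨a, ha, rfl⟩
  -- the elements of the face group equal to a reflection of the edge
  have hno : ∀ a ∈ Subgroup.closure {gens q 0, gens q 1}, φ a ≠ φ (gens q 2) := by
    intro a ha h
    have h1 := heq _ _ h
    obtain ⟨m, hm⟩ := face_elt ha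
    have h2 : a • (root : Vt q) = (x1 q) ^ m • root := by
      rcases hm with hm | hm <;> rw [hm]
      rw [mul_smul, gens1_root]
    have h3 := hK.face _ h1 m (by rw [gens_inv, mul_smul, gens2_root, h2])
    rw [gens_inv] at h3
    rcases hm with hm | hm <;> rw [hm] at h3
    · exact ref_ne_one (mul_eq_left.1 h3)
    · rw [mul_assoc, g12] at h3
      exact one_ne hq (rot_eq_one hq (mul_eq_left.1 h3))
  refine ⟨hgen, hne, hinv, hcomm, ?_⟩
  apply inter_of _ hne hinv e01 e02 e12
  · intro x hx hx'
    obtain ⟨a, ha, rfl⟩ := hpre 0 1 x hx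
    obtain ⟨b, hb, hab⟩ := hpre 1 2 _ hx'
    have h1 := heq _ _ hab.symm
    obtain ⟨m, hm⟩ := face_elt ha
    have h2 : a • (root : Vt q) = (x1 q) ^ m • root := by
      rcases hm with hm | hm <;> rw [hm]
      rw [mul_smul, gens1_root]
    have hb' : b⁻¹ • (root : Vt q) = root := by rw [inv_smul_eq_iff, fix_elt hb]
    have h3 := hK.face _ h1 m (by rw [mul_smul, hb', h2])
    rcases hm with hm | hm
    · left
      rw [hm] at h3
      have h4 : b = 1 := by simpa using h3
      rw [← hab, h4, map_one]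
    · right
      rw [hm, mul_assoc] at h3
      have h4 : gens q 1 * b⁻¹ = 1 := mul_eq_left.1 h3
      have h5 : gens q 1 = b := by rwa [mul_inv_eq_one] at h4
      rw [← hab, h5]
  · intro x hx hx'
    obtain ⟨c, hc, rfl⟩ := hpre 0 2 x hx
    obtain ⟨b, hb, hcb⟩ := hpre 1 2 _ hx'
    have h1 := heq _ _ hcb.symm
    have hb' : b⁻¹ • (root : Vt q) = root := by rw [inv_smul_eq_iff, fix_elt hb]
    have bad : c • (root : Vt q) = nb0 → False := by
      intro h
      exact hK.nbr _ h1 (by rw [mul_smul, hb', h]; exact hd0)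
    rcases edge_elt hc with h | h | h | h
    · left; rw [h, map_one]
    · exact (bad (by rw [h, h0r])).elim
    · right; rw [h]
    · exact (bad (by rw [h, z_root])).elim
  · intro x hx hx'
    obtain ⟨c, hc, rfl⟩ := hpre 0 2 x hx
    obtain ⟨a, ha, hca⟩ := hpre 0 1 _ hx'
    rcases edge_elt hc with h | h | h | h
    · left; rw [h, map_one]
    · right; rw [h]
    · exact (hno a ha (by rw [hca, h])).elim
    · have h2 : φ (gens q 0 * a) = φ (gens q 2) := by
        rw [map_mul, hca, h, ← map_mul]
        congr 1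
        rw [← g02, ← mul_assoc, ← sq, gens_sq, one_mul]
      exact (hno _ (Subgroup.mul_mem _ (Subgroup.subset_closure (by simp)) ha) h2).elim

lemma orderOf_of {Q : Type*} [Group Q] {x : Q} {n : ℕ} (h : ∀ m : ℕ, x ^ m = 1 ↔ n ∣ m) :
    orderOf x = n := by
  apply Nat.dvd_antisymm
  · exact orderOf_dvd_of_pow_eq_one ((h n).2 dvd_rfl)
  · exact (h _).1 (pow_orderOf_eq_one x)

lemma Thin.order_rot {K : Subgroup (G q)} [K.Normal] (hK : Thin K) (hq : 3 ≤ q) :
    orderOf (QuotientGroup.mk' K (gens q 1) * QuotientGroup.mk' K (gens q 2)) = q := by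
  apply orderOf_of
  intro m
  rw [← map_mul, g12, ← map_pow, rot_pow, mul_one, QuotientGroup.mk'_apply,
    QuotientGroup.eq_one_iff, ← ZMod.natCast_eq_zero_iff]
  constructor
  · intro h
    exact rot_eq_one hq (hK.free _ h (rot_root _))
  · intro h
    rw [h, rot_zero]; exact K.one_mem

/-! ### The groups generated by the translations of holes and zigzags -/

lemma exists_ne_root : ∃ x : Vt q, x ≠ root := by
  refine ⟨nb0, ?_⟩
  intro h3
  have h4 := d_root_nb0 (q := q)
  rw [h3] at h4
  change (T q).d root root = 1 at h4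
  rw [(T q).d_self] at h4
  norm_num at h4

lemma mem_H_std {Dt : Data q} {g : G q} (hg : g ∈ (sys Dt).NN) {i : Ln Dt}
    (h1 : (root : Vt q) ∈ Set.range i.f) (h2 : g • (root : Vt q) ∈ Set.range i.f) : g ∈ i.H :=
  (sys Dt).mem_H_of exists_ne_root hg h1 h2

lemma thin_NN (Dt : Data q) : Thin (sys Dt).NN := by
  have h4 := Dt.s4 _ Dt.one
  refine ⟨?_, ?_, ?_⟩
  · intro g hg h1
    have h2 := mem_H_std hg (i := std Dt.one) ⟨0, by rw [std_f]; simp⟩
      (by rw [h1]; exact ⟨0, by rw [std_f]; simp⟩)
    by_contra hne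
    obtain ⟨τ, h3, h5⟩ := Ln.htau _ _ h2
    have h6 := h5 0
    rw [std_f, zpow_zero, one_smul, h1] at h6
    have h7 : (std Dt.one).f 0 = (std Dt.one).f (0 + τ) := by
      rw [← h6, std_f, zpow_zero, one_smul]
    have h8 := line_inj (std Dt.one).line h7
    have h9 := h3 hne
    have : τ = 0 := by omega
    rw [this, abs_zero] at h9
    change (Dt.n (1, true) : ℤ) ≤ 0 at h9
    omega
  · intro g hg h1
    obtain ⟨i, hty, hi0, hi1, -⟩ := thru (Dt := Dt) root (g • root) h1
    have h2 := mem_H_std hg (i := i) ⟨0, hi0⟩ ⟨1, hi1⟩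
    obtain ⟨m, h3, -⟩ := h2
    have h5 := h3 0
    rw [hi0, ← hi1] at h5
    have h6 := line_inj i.line h5
    rw [hty] at h6
    have h7 : (1 : ℤ) = m * (Dt.n (1, true) : ℤ) := by omega
    have h8 : (Dt.n (1, true) : ℤ) ∣ 1 := ⟨m, by rw [h7]; ring⟩
    have h9 := Int.le_of_dvd (by norm_num) h8
    omega
  · intro g hg m h1
    have h2 := mem_H_std hg (i := std Dt.one) ⟨0, by rw [std_f]; simp⟩ (by
      rw [h1]; exact ⟨m, rfl⟩)
    obtain ⟨m', h3, h5⟩ := h2
    have hty : (std Dt.one).ty = (1, true) := rfl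
    have h6 : (std Dt.one).f m = (std Dt.one).f (0 + m' * (Dt.n (1, true) : ℤ)) := by
      have := h3 0
      rw [hty] at this
      rw [← this, std_f, std_f, zpow_zero, one_smul, h1]
      rfl
    have h7 : m = 0 + m' * (Dt.n (1, true) : ℤ) := line_inj (std Dt.one).line h6
    rw [zero_add] at h7
    rw [hty, Dt.σ1, one_zpow] at h5
    have h8 : ((x1 q) ^ m)⁻¹ * g = 1 := by
      have hs : sgn (x1 q) = 1 := by unfold x1; rw [sgn_stdX]; simp
      apply rigid (y := root) (x := nb0) (by rw [map_mul, map_inv, map_zpow, hs, h5]; simp)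
        d_root_nb0
      · rw [mul_smul, inv_smul_eq_iff, h1]
      · rw [mul_smul, inv_smul_eq_iff]
        have h9 := h3 1
        rw [hty, ← h7, std_f, std_f, zpow_one] at h9
        rw [stdX_root] at h9
        rw [h9]
        change (x1 q) ^ (1 + m) • (root : Vt q) = _
        rw [add_comm, zpow_add_one, mul_smul]
        congr 1
    exact (inv_mul_eq_one.1 h8).symm

end Pool.Agent.Helper477_holes
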