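import Mathlib
import Pool.Agent.Helper477_holes.Poly

set_option autoImplicit false

/-!
# The lengths of the holes and zigzags are exact
-/

namespace Pool.Agent.Helper477_holes

open Pool.Agent.H17R2 Vt

variable {q : ℕ}

/-! ### Lines of all types -/

/-- all types -/
def fullA (q : ℕ) (τ : ℕ × Bool) : Prop :=
  1 ≤ τ.1 ∧ 2 * τ.1 ≤ q ∧ (2 * τ.1 = q → τ.2 = true)

/-- the data with all types in use -/
def full (hq : 3 ≤ q) : Data q where
  A := fullA q
  n := fun _ => 11
  σ := fun _ => 1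
  hq := hq
  hA := fun τ h => ⟨h.1, h.2.1⟩
  hA' := by
    intro j hj h3
    have := hj.2.2 h3
    simp at this
  one := ⟨le_rfl, by simp only; omega, fun h => by simp only at h; omega⟩
  σ1 := rfl
  s11 := fun _ _ _ _ => le_rfl
  s9 := fun _ _ _ _ => by norm_num
  s7 := fun _ _ _ => by norm_num
  s6 := fun _ _ _ => by norm_num
  s4 := fun _ _ => by norm_num

/-- A line of a type in use, as a line. -/
def incl {Dt : Data q} (x : Ln Dt) : Ln (full Dt.hq) where
  ty := x.ty
  f := x.f
  hA := ⟨(Dt.hA _ x.hA).1, (Dt.hA _ x.hA).2, fun h => by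
    cases h2 : x.ty.2
    · exfalso
      have h3 := x.hA
      have ex : x.ty = (x.ty.1, false) := Prod.ext rfl h2
      rw [ex] at h3
      exact Dt.hA' _ h3 h
    · rfl⟩
  ht := x.ht

/-- Two lines which are not a hole and a zigzag of the same kind share at most one edge. -/
lemma piece1 {Dt : Data q} (x y : Ln Dt) (hns : ¬ x.Same y)
    (hk : x.ty.1 ≠ y.ty.1 ∨ x.ty.2 = y.ty.2) (s t : ℤ) :
    |(T q).pr x.f (y.f s) - (T q).pr x.f (y.f t)| ≤ 1 := by
  have main : ∀ s t, (T q).pr x.f (y.f s) < (T q).pr x.f (y.f t) →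
      (T q).pr x.f (y.f t) - (T q).pr x.f (y.f s) ≤ 1 := by
    intro s t hlt
    obtain ⟨b, ε, hε, hk'⟩ := x.line.overlap y.line s t hlt
    set a := (T q).pr x.f (y.f s) with ha
    set a' := (T q).pr x.f (y.f t) with ha'
    have hmem : ∀ k, 0 ≤ k → k ≤ a' - a → x.f (a + k) ∈ Set.range y.f := fun k h1 h2 => by
      rw [hk' k h1 h2]; exact ⟨_, rfl⟩
    have hp := self_par x
    by_contra hcon
    obtain ⟨h5, h6⟩ := share3 hns (v0 := x.f (a + 0)) (v1 := x.f (a + 1)) (v2 := x.f (a + 2))
      (by rw [x.line]; norm_num) (by rw [x.line]; norm_num)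
      (hp.ne (by omega)) ⟨_, rfl⟩ ⟨_, rfl⟩
      ⟨_, rfl⟩ (hmem _ (by omega) (by omega)) (hmem _ (by omega) (by omega))
      (hmem _ (by omega) (by omega))
    rcases hk with h | h
    · exact h h5
    · exact h6 h
  rcases lt_trichotomy ((T q).pr x.f (y.f s)) ((T q).pr x.f (y.f t)) with h | h | h
  · have := main s t h
    rw [abs_le]; constructor <;> omega
  · rw [h, sub_self, abs_zero]; norm_num
  · have := main t s h
    rw [abs_le]; constructor <;> omega

/-- An element which moves the root along a line which is not in use is trivial. -/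
lemma one_of_unused {Dt : Data q} (L : Ln (full Dt.hq)) (hL : ∀ i : Ln Dt, i.ty ≠ L.ty)
    (h5 : ∀ i : Ln Dt, i.ty.1 = L.ty.1 → 5 ≤ Dt.n i.ty ∧ ¬ Dbl Dt.A i.ty.1) {g : G q}
    (hg : g ∈ (sys Dt).NN) (h0 : (root : Vt q) ∈ Set.range L.f)
    (h1 : g • (root : Vt q) ∈ Set.range L.f) : g = 1 := by
  apply (sys Dt).eq_one_of exists_ne_root hg
  intro i
  change |(T q).pr i.f (g • (root : Vt q)) - (T q).pr i.f root| <
    (Dt.n i.ty : ℤ) - Dv Dt i.ty.1 - lamv Dt i.ty.1
  obtain ⟨s, hs⟩ := h0
  obtain ⟨t, ht⟩ := h1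
  rw [← ht, ← hs]
  have hns : ¬ (incl i).Same L := fun h => hL i h.1
  by_cases hj : i.ty.1 = L.ty.1
  · obtain ⟨h6, h7⟩ := h5 i hj
    have h2 := piece (incl i) L hns t s
    have h3 : lamv (full Dt.hq) (incl i).ty.1 ≤ 2 := by
      unfold lamv; split_ifs <;> norm_num
    have h4 : lamv Dt i.ty.1 = 1 := by unfold lamv; rw [if_neg h7]
    have h8 : |(T q).pr i.f (L.f t) - (T q).pr i.f (L.f s)| ≤ 2 := h2.trans h3
    refine lt_of_le_of_lt h8 ?_
    rw [h4]
    by_cases htri : Tri q Dt.A i.ty.1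
    · have := Dt.s6 _ i.hA htri
      rw [Dv_tri h7 htri]; omega
    · rw [Dv_ntri h7 htri]; omega
  · have h2 := piece1 (incl i) L hns (Or.inl hj) t s
    have h3 := (sys Dt).big i
    have h4 := (sys Dt).lam_pos i
    change Dv Dt i.ty.1 + 2 * lamv Dt i.ty.1 < (Dt.n i.ty : ℤ) at h3
    change 1 ≤ lamv Dt i.ty.1 at h4
    have h8 : |(T q).pr i.f (L.f t) - (T q).pr i.f (L.f s)| ≤ 1 := h2
    omega

/-! ### The orders modulo the translations -/

variable {p : ℕ} {h r : ℕ → ℕ}

lemma pow_root_line {Dt : Data q} {τ : ℕ × Bool} (hA : Dt.A τ) {m : ℕ}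
    (hm : (stdX τ : G q) ^ m ∈ (sys Dt).NN) :
    ∃ c : ℤ, (m : ℤ) = c * Dt.n τ ∧ sgn ((stdX τ : G q) ^ m) = Dt.σ τ ^ c := by
  have h2 := mem_H_std hm (i := std hA) ⟨0, by rw [std_f]; simp⟩ ⟨m, by
    rw [std_f, zpow_natCast]⟩
  obtain ⟨c, h3, h4⟩ := h2
  refine ⟨c, ?_, h4⟩
  have h5 := h3 0
  rw [std_f, zpow_zero, one_smul] at h5
  have h6 : (std hA).f m = (std hA).f (0 + c * (Dt.n τ : ℤ)) := by
    rw [std_f, zpow_natCast]; exact h5
  have := line_inj (std hA).line h6
  omega

lemma dvd_of_cast {m n : ℕ} {c : ℤ} (h : (m : ℤ) = c * n) : n ∣ m := by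
  have : (n : ℤ) ∣ m := ⟨c, by rw [h]; ring⟩
  exact_mod_cast this

lemma ref_pow_root (n : ℕ) : (ref : G q) ^ n • (root : Vt q) = root := by
  induction n with
  | zero => rw [pow_zero, one_smul]
  | succ n ih => rw [pow_succ, mul_smul, ref_root, ih]

lemma str_pow_root {j : ℕ} (h2 : 2 * j = q) (m : ℕ) :
    (stdX (j, false) : G q) ^ m • (root : Vt q) = (stdX (j, true) : G q) ^ m • root := by
  obtain ⟨e1, e2⟩ := stdX_str h2
  rw [e1, e2.mul_pow, mul_smul, ref_pow_root]

lemma even_of_neg_one_pow {c : ℤ} {r : ℕ} (hr : Odd r) (h : ((-1 : ℤˣ) ^ r) ^ c = 1) :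
    Even c := by
  rw [hr.neg_one_pow] at h
  by_contra hc
  rw [Int.not_even_iff_odd] at hc
  obtain ⟨d, rfl⟩ := hc
  rw [zpow_add_one, zpow_mul] at h
  have : ((-1 : ℤˣ)) ^ (2 : ℤ) = 1 := by decide
  rw [this, one_zpow, one_mul] at h
  exact absurd h (by decide)

lemma hole_dvd (H : Large p q h r) (C : Compat q (hol p h) r) {j : ℕ} (h1 : 1 ≤ j)
    (h2 : 2 * j ≤ q) (h0 : hol p h j ≠ 0) {m : ℕ}
    (hm : (stdX (j, true) : G q) ^ m ∈ (sys (dat H)).NN) : hol p h j ∣ m := by
  by_cases h3 : 2 * j = q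
  · have hA : (dat H).A (j, true) := ⟨h1, h2, fun _ => ⟨rfl, Or.inl h0⟩, fun h => absurd h3 h⟩
    obtain ⟨c, h4, h5⟩ := pow_root_line hA hm
    have hn : (dat H).n (j, true) = Nat.gcd (hol p h j) (r j) := by
      change nn p q h r (j, true) = _
      unfold nn; rw [if_pos h3]
    have hσ : (dat H).σ (j, true) = (-1) ^ r j := by
      change ss q r (j, true) = _
      unfold ss; rw [if_pos h3]
    rw [hn] at h4
    rw [hσ, map_pow, sgn_stdX] at h5
    simp only [if_true, one_pow] at h5
    by_cases hr : r j = 0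
    · rw [hr, Nat.gcd_zero_right] at h4
      exact dvd_of_cast h4
    rcases C j h3 h0 hr with ⟨h6, h7⟩ | ⟨h6, h7⟩ | ⟨h6, h7⟩
    · rw [h6, Nat.gcd_self, ← h6] at h4
      exact dvd_of_cast h4
    · have hc : Even c := even_of_neg_one_pow h7 h5.symm
      obtain ⟨d, rfl⟩ := hc
      rw [h6, Nat.gcd_eq_right (Dvd.intro_left 2 rfl)] at h4
      rw [h6]
      apply dvd_of_cast (c := d)
      rw [h4]; push_cast; ring
    · rw [h6, Nat.gcd_eq_left (Dvd.intro_left 2 rfl)] at h4
      exact dvd_of_cast h4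
  · have hA : (dat H).A (j, true) := ⟨h1, h2, fun h => absurd h h3, fun _ =>
      ⟨fun _ => h0, fun h => by simp at h⟩⟩
    obtain ⟨c, h4, -⟩ := pow_root_line hA hm
    have hn : (dat H).n (j, true) = hol p h j := by
      change nn p q h r (j, true) = _
      unfold nn; rw [if_neg h3]; simp
    rw [hn] at h4
    exact dvd_of_cast h4

lemma zigzag_dvd (H : Large p q h r) (C : Compat q (hol p h) r) {j : ℕ} (h1 : 1 ≤ j)
    (h2 : 2 * j ≤ q) (h0 : r j ≠ 0) {m : ℕ}
    (hm : (stdX (j, false) : G q) ^ m ∈ (sys (dat H)).NN) : r j ∣ m := by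
  by_cases h3 : 2 * j = q
  · have hA : (dat H).A (j, true) := ⟨h1, h2, fun _ => ⟨rfl, Or.inr h0⟩, fun h => absurd h3 h⟩
    have h4' := mem_H_std hm (i := std hA) ⟨0, by rw [std_f]; simp⟩ ⟨m, by
      rw [std_f, zpow_natCast, str_pow_root h3]⟩
    obtain ⟨c, h3', h5⟩ := h4'
    have h5' := h3' 0
    rw [std_f, zpow_zero, one_smul, str_pow_root h3] at h5'
    have h6 : (std hA).f m = (std hA).f (0 + c * ((dat H).n (j, true) : ℤ)) := by
      rw [std_f, zpow_natCast]; exact h5'
    have h4 : (m : ℤ) = c * ((dat H).n (j, true) : ℤ) := by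
      have := line_inj (std hA).line h6
      omega
    have hn : (dat H).n (j, true) = Nat.gcd (hol p h j) (r j) := by
      change nn p q h r (j, true) = _
      unfold nn; rw [if_pos h3]
    have hσ : (dat H).σ (std hA).ty = (-1) ^ r j := by
      change ss q r (j, true) = _
      unfold ss; rw [if_pos h3]
    rw [hn] at h4
    rw [hσ, map_pow, sgn_stdX] at h5
    simp only [Bool.false_eq_true, if_false] at h5
    by_cases hr : hol p h j = 0
    · rw [hr, Nat.gcd_zero_left] at h4
      exact dvd_of_cast h4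
    rcases C j h3 hr h0 with ⟨h6, h7⟩ | ⟨h6, h7⟩ | ⟨h6, h7⟩
    · rw [h6, Nat.gcd_self] at h4
      exact dvd_of_cast h4
    · rw [h6, Nat.gcd_eq_right (Dvd.intro_left 2 rfl)] at h4
      exact dvd_of_cast h4
    · rw [h6, Nat.gcd_eq_left (Dvd.intro_left 2 rfl)] at h4
      have hr2 : Even (r j) := by rw [h6]; exact even_two_mul _
      rw [hr2.neg_one_pow, one_zpow] at h5
      have hme : Even m := by
        by_contra hc
        rw [Nat.not_even_iff_odd] at hc
        rw [hc.neg_one_pow] at h5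
        exact absurd h5 (by decide)
      have hd := dvd_of_cast h4
      rw [h6]
      exact (Nat.Coprime.mul_dvd_of_dvd_of_dvd (Nat.coprime_two_left.2 h7) hme.two_dvd hd)
  · have hA : (dat H).A (j, false) := ⟨h1, h2, fun h => absurd h h3, fun _ =>
      ⟨fun h => by simp at h, fun _ => h0⟩⟩
    obtain ⟨c, h4, -⟩ := pow_root_line hA hm
    have hn : (dat H).n (j, false) = r j := by
      change nn p q h r (j, false) = _
      unfold nn; rw [if_neg h3]; simp
    rw [hn] at h4
    exact dvd_of_cast h4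

lemma unused_zero (H : Large p q h r) {τ : ℕ × Bool} (h1 : 1 ≤ τ.1) (h2 : 2 * τ.1 ≤ q)
    (h3 : 2 * τ.1 = q → hol p h τ.1 = 0 ∧ r τ.1 = 0)
    (h4 : 2 * τ.1 ≠ q → if τ.2 then hol p h τ.1 = 0 ∧ r τ.1 ≠ 4 else
      r τ.1 = 0 ∧ hol p h τ.1 ≠ 4) {m : ℕ}
    (hm : (stdX τ : G q) ^ m ∈ (sys (dat H)).NN) : m = 0 := by
  by_cases h5 : 2 * τ.1 = q
  · obtain ⟨h6, h7⟩ := h3 h5
    have hA : (full H.hq).A (τ.1, true) := ⟨h1, h2, fun _ => rfl⟩
    have hno : ∀ i : Ln (dat H), i.ty.1 ≠ τ.1 := by
      intro i hi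
      have h8 := AA_used i.hA
      rw [hi] at h8
      rcases h8 with h8 | h8
      · exact h8 h6
      · exact h8 h7
    have hr : (stdX τ : G q) ^ m • (root : Vt q) = (stdX (τ.1, true) : G q) ^ m • root := by
      cases h8 : τ.2
      · have e : τ = (τ.1, false) := Prod.ext rfl h8
        rw [e]
        exact str_pow_root h5 m
      · have e : τ = (τ.1, true) := Prod.ext rfl h8
        rw [e]
    have h8 := one_of_unused (Dt := dat H) (std hA) (fun i hi => hno i (by
      have hi' : i.ty = (τ.1, true) := hi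
      rw [hi']))
      (fun i hi => absurd hi (hno i)) hm ⟨0, by rw [std_f]; simp⟩ ⟨m, by
        rw [std_f, zpow_natCast, hr]⟩
    have h9 : (std hA).f m = (std hA).f 0 := by
      rw [std_f, std_f, zpow_natCast, zpow_zero, ← hr, h8]
    have := line_inj (std hA).line h9
    exact_mod_cast this
  · have h6 := h4 h5
    have hA : (full H.hq).A τ := ⟨h1, h2, fun h => absurd h h5⟩
    have h7 : ¬ (dat H).A τ := by
      intro h7
      obtain ⟨-, -, -, h8⟩ := h7
      obtain ⟨h9, h10⟩ := h8 h5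
      cases h11 : τ.2
      · rw [h11] at h6
        simp only [Bool.false_eq_true, if_false] at h6
        exact h10 h11 h6.1
      · rw [h11] at h6
        simp only [if_true] at h6
        exact h9 h11 h6.1
    have h8 := one_of_unused (Dt := dat H) (std hA) (fun i hi => h7 (by
      have := i.hA
      rw [hi] at this
      exact this)) (fun i hi => by
        have hdb : ¬ Dbl (dat H).A i.ty.1 := by
          rintro ⟨a1, a2⟩
          rw [hi] at a1 a2
          apply h7
          change (dat H).A (τ.1, τ.2)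
          cases τ.2
          · exact a2
          · exact a1
        refine ⟨?_, hdb⟩
        have h12 := (dat H).s4 _ i.hA
        have h13 := i.hA
        have h14 : (dat H).n i.ty ≠ 4 := by
          change nn p q h r i.ty ≠ 4
          change i.ty.1 = τ.1 at hi
          have hne : i.ty.2 ≠ τ.2 := fun h => h7 (by
            have e : i.ty = τ := Prod.ext hi h
            rw [← e]; exact h13)
          unfold nn
          rw [hi, if_neg h5]
          cases h11 : τ.2
          · rw [h11] at h6 hne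
            simp only [Bool.false_eq_true, if_false] at h6
            have : i.ty.2 = true := by
              cases h15 : i.ty.2
              · exact absurd h15 hne
              · rfl
            rw [this]
            simpa using h6.2
          · rw [h11] at h6 hne
            simp only [if_true] at h6
            have : i.ty.2 = false := by
              cases h15 : i.ty.2
              · rfl
              · exact absurd h15 hne
            rw [this]
            simpa using h6.2
        omega) hm ⟨0, by rw [std_f]; simp⟩ ⟨m, by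
        rw [std_f, zpow_natCast]⟩
    have h9 : (std hA).f m = (std hA).f 0 := by
      rw [std_f, std_f, zpow_natCast, zpow_zero, h8]
    have := line_inj (std hA).line h9
    exact_mod_cast this

/-! ### The group itself -/

lemma hole_eq (j : ℕ) : hole p q h r j = PresentedGroup.mk _ (holeWord j) := by
  unfold hole holeWord rho
  simp only [map_mul, map_pow]
  rfl

lemma zigzag_eq (j : ℕ) : zigzag p q h r j = PresentedGroup.mk _ (zigzagWord j) := by
  unfold zigzag zigzagWord rho
  simp only [map_mul, map_pow]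
  rfl

lemma toQ_mk (H : Large p q h r) (w : FreeGroup (Fin 3)) :
    toQ H (PresentedGroup.mk _ w) =
      QuotientGroup.mk' (sys (dat H)).NN (FreeGroup.lift (gens q) w) := by
  have h1 : (toQ H).comp (PresentedGroup.mk (relators p q h r)) =
      (QuotientGroup.mk' (sys (dat H)).NN).comp (FreeGroup.lift (gens q)) := by
    ext i
    unfold toQ
    simp only [MonoidHom.comp_apply, FreeGroup.lift_apply_of]
    exact PresentedGroup.toGroup.of _
  exact DFunLike.congr_fun h1 w

lemma toQ_rho (H : Large p q h r) (i : Fin 3) :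
    toQ H (rho p q h r i) = QuotientGroup.mk' (sys (dat H)).NN (gens q i) := by
  have := toQ_mk H (FreeGroup.of i)
  rw [FreeGroup.lift_apply_of] at this
  exact this

lemma toQ_hole (H : Large p q h r) {j : ℕ} (hj : 1 ≤ j) :
    toQ H (hole p q h r j) = QuotientGroup.mk' (sys (dat H)).NN (stdX (j, true)) := by
  rw [hole_eq, toQ_mk, lift_hole hj]

lemma toQ_zigzag (H : Large p q h r) {j : ℕ} :
    toQ H (zigzag p q h r j) = QuotientGroup.mk' (sys (dat H)).NN (stdX (j, false)) := by
  rw [zigzag_eq, toQ_mk, lift_zigzag]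

lemma mk_one {w : FreeGroup (Fin 3)} (hw : w ∈ relators p q h r) :
    PresentedGroup.mk (relators p q h r) w = 1 :=
  PresentedGroup.one_of_mem hw

lemma rho_sq (i : Fin 3) : rho p q h r i ^ 2 = 1 := by
  have : rho p q h r i ^ 2 = PresentedGroup.mk (relators p q h r) (FreeGroup.of i ^ 2) := by
    rw [map_pow]; rfl
  rw [this]
  apply mk_one
  left; left
  fin_cases i <;> simp

lemma rho12_pow : (rho p q h r 1 * rho p q h r 2) ^ q = 1 := by
  have : (rho p q h r 1 * rho p q h r 2) ^ q =
      PresentedGroup.mk (relators p q h r) ((FreeGroup.of 1 * FreeGroup.of 2) ^ q) := by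
    rw [map_pow, map_mul]; rfl
  rw [this]
  apply mk_one
  left; left
  simp

lemma rho01_pow : (rho p q h r 0 * rho p q h r 1) ^ p = 1 := by
  have : (rho p q h r 0 * rho p q h r 1) ^ p =
      PresentedGroup.mk (relators p q h r) ((FreeGroup.of 0 * FreeGroup.of 1) ^ p) := by
    rw [map_pow, map_mul]; rfl
  rw [this]
  apply mk_one
  left; left
  simp

lemma rho02_comm : rho p q h r 0 * rho p q h r 2 = rho p q h r 2 * rho p q h r 0 := by
  have h1 : (rho p q h r 0 * rho p q h r 2) ^ 2 =
      PresentedGroup.mk (relators p q h r) ((FreeGroup.of 0 * FreeGroup.of 2) ^ 2) := by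
    rw [map_pow, map_mul]; rfl
  have h2 : (rho p q h r 0 * rho p q h r 2) ^ 2 = 1 := by
    rw [h1]
    apply mk_one
    left; left
    simp
  have hi : ∀ i, (rho p q h r i)⁻¹ = rho p q h r i := fun i => by
    rw [inv_eq_iff_mul_eq_one, ← sq, rho_sq]
  rw [sq, ← eq_inv_iff_mul_eq_one, mul_inv_rev, hi, hi] at h2
  exact h2

lemma hole_one : hole p q h r 1 = rho p q h r 0 * rho p q h r 1 := by
  unfold hole; simp

lemma hole_pow {j : ℕ} (h1 : 1 ≤ j) (h2 : 2 * j ≤ q) : hole p q h r j ^ hol p h j = 1 := by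
  by_cases hj : j = 1
  · subst hj
    rw [hole_one, hol, if_pos rfl, rho01_pow]
  · rw [hole_eq, ← map_pow, hol, if_neg hj]
    apply mk_one
    left; right
    exact ⟨j, by omega, h2, rfl⟩

lemma zigzag_pow {j : ℕ} (h1 : 1 ≤ j) (h2 : 2 * j ≤ q) : zigzag p q h r j ^ r j = 1 := by
  rw [zigzag_eq, ← map_pow]
  apply mk_one
  right
  exact ⟨j, h1, h2, rfl⟩

lemma order_hole (H : Large p q h r) (C : Compat q (hol p h) r) {j : ℕ} (h1 : 1 ≤ j)
    (h2 : 2 * j ≤ q) (h0 : hol p h j ≠ 0) : orderOf (hole p q h r j) = hol p h j := by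
  apply Nat.dvd_antisymm (orderOf_dvd_of_pow_eq_one (hole_pow h1 h2))
  apply hole_dvd H C h1 h2 h0
  rw [← QuotientGroup.eq_one_iff, ← QuotientGroup.mk'_apply, map_pow, ← toQ_hole H h1,
    ← map_pow, pow_orderOf_eq_one, map_one]

lemma order_zigzag (H : Large p q h r) (C : Compat q (hol p h) r) {j : ℕ} (h1 : 1 ≤ j)
    (h2 : 2 * j ≤ q) (h0 : r j ≠ 0) : orderOf (zigzag p q h r j) = r j := by
  apply Nat.dvd_antisymm (orderOf_dvd_of_pow_eq_one (zigzag_pow h1 h2))
  apply zigzag_dvd H C h1 h2 h0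
  rw [← QuotientGroup.eq_one_iff, ← QuotientGroup.mk'_apply, map_pow, ← toQ_zigzag H,
    ← map_pow, pow_orderOf_eq_one, map_one]

lemma order_hole_zero (H : Large p q h r) {j : ℕ} (h1 : 1 ≤ j) (h2 : 2 * j ≤ q)
    (h0 : hol p h j = 0) (h3 : 2 * j = q → r j = 0) (h4 : r j ≠ 4) :
    orderOf (hole p q h r j) = 0 := by
  rw [orderOf_eq_zero_iff']
  intro m hm hm1
  have h5 : m = 0 := by
    apply unused_zero H (τ := (j, true)) h1 h2 (fun h => ⟨h0, h3 h⟩) (fun _ => by
      simp only [if_true]; exact ⟨h0, h4⟩)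
    rw [← QuotientGroup.eq_one_iff, ← QuotientGroup.mk'_apply, map_pow, ← toQ_hole H h1,
      ← map_pow, hm1, map_one]
  omega

lemma order_zigzag_zero (H : Large p q h r) {j : ℕ} (h1 : 1 ≤ j) (h2 : 2 * j ≤ q)
    (h0 : r j = 0) (h3 : 2 * j = q → hol p h j = 0) (h4 : hol p h j ≠ 4) :
    orderOf (zigzag p q h r j) = 0 := by
  rw [orderOf_eq_zero_iff']
  intro m hm hm1
  have h5 : m = 0 := by
    apply unused_zero H (τ := (j, false)) h1 h2 (fun h => ⟨h3 h, h0⟩) (fun _ => by
      simp only [Bool.false_eq_true, if_false]; exact ⟨h0, h4⟩)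
    rw [← QuotientGroup.eq_one_iff, ← QuotientGroup.mk'_apply, map_pow, ← toQ_zigzag H,
      ← map_pow, hm1, map_one]
  omega

lemma closure_rho : Subgroup.closure (Set.range (rho p q h r)) = ⊤ :=
  PresentedGroup.closure_range_of _

theorem stringC_Gam (H : Large p q h r) : IsStringC (rho p q h r) := by
  have hq := H.hq
  have hT := thin_NN (dat H)
  have hS := hT.stringC H.hq
  have e : (fun i => toQ H (rho p q h r i)) =
      fun i => QuotientGroup.mk' (sys (dat H)).NN (gens q i) := by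
    funext i; exact toQ_rho H i
  have h4 := (dat H).s4 _ (dat H).one
  have hn : (dat H).n (1, true) = p := by
    change nn p q h r (1, true) = _
    unfold nn
    rw [if_neg (by simp only; omega)]
    simp [hol]
  have hp : 4 ≤ p := hn ▸ h4
  have hx : ∀ m : ℕ, (x1 q) ^ m ∈ (sys (dat H)).NN ↔ p ∣ m := by
    intro m
    constructor
    · intro hm
      obtain ⟨c, h5, -⟩ := pow_root_line (dat H).one hm
      rw [hn] at h5
      exact dvd_of_cast h5
    · rintro ⟨c, rfl⟩
      rw [pow_mul]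
      apply Subgroup.pow_mem
      have := std_hole_mem H (j := 1) le_rfl (by omega)
      rw [hol, if_pos rfl] at this
      exact this
  have hor : orderOf (toQ H (rho p q h r 0) * toQ H (rho p q h r 1)) = p := by
    apply orderOf_of
    intro m
    rw [toQ_rho, toQ_rho, ← map_mul, ← x1_eq, ← map_pow, QuotientGroup.mk'_apply,
      QuotientGroup.eq_one_iff, hx]
  have hor2 : orderOf (toQ H (rho p q h r 1) * toQ H (rho p q h r 2)) = q := by
    rw [toQ_rho, toQ_rho]
    exact hT.order_rot H.hq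
  apply IsStringC.lift (toQ H) (by rw [e]; exact hS) closure_rho (fun i => rho_sq i) rho02_comm
  · rw [hor]; exact rho01_pow
  · intro h5
    have h6 := orderOf_dvd_of_pow_eq_one h5
    rw [hor] at h6
    have := Nat.le_of_dvd (by norm_num) h6
    omega
  · rw [hor2]; exact rho12_pow
  · intro h5
    have h6 := orderOf_dvd_of_pow_eq_one h5
    rw [hor2] at h6
    have := Nat.le_of_dvd (by norm_num) h6
    omega

theorem order_q (H : Large p q h r) : orderOf (rho p q h r 1 * rho p q h r 2) = q := by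
  apply Nat.dvd_antisymm (orderOf_dvd_of_pow_eq_one rho12_pow)
  have hT := thin_NN (dat H)
  have := hT.order_rot H.hq
  rw [← toQ_rho, ← toQ_rho, ← map_mul] at this
  conv_lhs => rw [← this]
  exact orderOf_map_dvd _ _

end Pool.Agent.Helper477_holes
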