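import Mathlib
import Pool.Agent.Helper477_holes.Free

set_option autoImplicit false

/-!
# Families of lines with short pieces

If the lines of a family share at most `lam` edges and the translations are longer than `5 * lam`,
then we have a `Sys`.
-/

namespace Pool.Agent.Helper477_holes

open Pool.Agent.H17R2

/-- A family of periodic lines with short pieces. -/
structure PS (G V I : Type*) [Group G] [MulAction G V] [MulAction G I] where
  T : ZTree V
  v0 : V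
  smul_d : ∀ (g : G) p q, T.d (g • p) (g • q) = T.d p q
  step : ∀ p q, p ≠ q → ∃ r, T.d p r = 1 ∧ T.d r q = T.d p q - 1
  L : I → ℤ → V
  line : ∀ i, T.IsLine (L i)
  L_smul : ∀ (g : G) i k, L (g • i) k = g • L i k
  Same : I → I → Prop
  same_refl : ∀ i, Same i i
  same_symm : ∀ i j, Same i j → Same j i
  same_trans : ∀ i j k, Same i j → Same j k → Same i k
  same_smul : ∀ (g : G) i j, Same i j → Same (g • i) (g • j)
  same_range : ∀ i j, Same i j → Set.range (L i) = Set.range (L j)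
  H : I → Subgroup G
  H_smul : ∀ (g : G) i h, h ∈ H i → g * h * g⁻¹ ∈ H (g • i)
  same_H : ∀ i j, Same i j → H i = H j
  n : I → ℤ
  lam : I → ℤ
  n_smul : ∀ (g : G) i, n (g • i) = n i
  lam_smul : ∀ (g : G) i, lam (g • i) = lam i
  htau : ∀ i, ∀ h ∈ H i, ∃ τ : ℤ, (h ≠ 1 → n i ≤ |τ|) ∧ ∀ k, h • L i k = L i (k + τ)
  big : ∀ i, 5 * lam i < n i
  lam_pos : ∀ i, 1 ≤ lam i
  piece : ∀ i j, ¬ Same i j → ∀ s t, |T.pr (L i) (L j s) - T.pr (L i) (L j t)| ≤ lam i
  thru : ∀ x y, T.d x y = 1 → ∃ i s, L i s = x ∧ L i (s + 1) = y ∧ ∃ h ∈ H i, h ≠ 1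
  three : ∀ x a b : V, ∃ c, T.d x c = 1 ∧ c ≠ a ∧ c ≠ b

namespace PS

variable {G V I : Type*} [Group G] [MulAction G V] [MulAction G I] (S : PS G V I)

/-- The configurations of the windmill. -/
abbrev CF (M : Set I) (U : Set V) : Prop :=
  Cfg S.L S.Same S.n (fun i => 2 * S.lam i) M U

lemma short {i m : I} (hns : ¬ S.Same i m) {x y : ℤ} (hx : S.L i x ∈ Set.range (S.L m))
    (hy : S.L i y ∈ Set.range (S.L m)) : |x - y| ≤ S.lam i := by
  obtain ⟨s, hs⟩ := hx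
  obtain ⟨t, ht⟩ := hy
  have := S.piece i m hns s t
  rwa [hs, ht, (S.line i).pr_self, (S.line i).pr_self] at this

lemma conv {i m : I} {x y z : ℤ} (hxy : x ≤ y) (hyz : y ≤ z)
    (hx : S.L i x ∈ Set.range (S.L m)) (hz : S.L i z ∈ Set.range (S.L m)) :
    S.L i y ∈ Set.range (S.L m) :=
  range_conv (S.line m) hx hz (line_btw (S.line i) hxy hyz)

lemma three_lines {M : Set I} {U : Set V} (hc : S.CF M U) {k m1 m2 m3 : I}
    (hk : ∀ m ∈ M, ¬ S.Same k m) (hU : ∀ s, S.L k s ∉ U) (h1 : m1 ∈ M) (h2 : m2 ∈ M)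
    (h3 : m3 ∈ M) (n12 : ¬ S.Same m1 m2) (n23 : ¬ S.Same m2 m3) {e1 e2 : ℤ} (he : e1 < e2)
    (a1 : S.L k e1 ∈ Set.range (S.L m1)) (a2 : S.L k e1 ∈ Set.range (S.L m2))
    (b2 : S.L k e2 ∈ Set.range (S.L m2)) (b3 : S.L k e2 ∈ Set.range (S.L m3))
    (na : S.L k e2 ∉ Set.range (S.L m1)) (nb : S.L k e1 ∉ Set.range (S.L m3)) : False := by
  obtain ⟨α, hα⟩ := a2
  obtain ⟨β, hβ⟩ := b2
  obtain ⟨_, hpU, hp1, ⟨γ, rfl⟩⟩ := hc.f1 m1 h1 m2 h2 n12 _ a1 ⟨α, hα⟩ (hU e1)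
  obtain ⟨_, hpU', ⟨δ, rfl⟩, hp3⟩ := hc.f1 m2 h2 m3 h3 n23 _ ⟨β, hβ⟩ b3 (hU e2)
  have hk2 : ¬ S.Same m2 k := fun h => hk m2 h2 (S.same_symm _ _ h)
  have hαk : S.L m2 α ∈ Set.range (S.L k) := ⟨e1, hα.symm⟩
  have hβk : S.L m2 β ∈ Set.range (S.L k) := ⟨e2, hβ.symm⟩
  have s1 := S.short hk2 hαk hβk
  have s2 := S.short (fun h => n12 (S.same_symm _ _ h)) (i := m2) (m := m1) (x := α) (y := γ)
    (by rw [hα]; exact a1) hp1
  have s3 := S.short n23 (i := m2) (m := m3) (x := β) (y := δ) (by rw [hβ]; exact b3) hp3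
  have hαU : S.L m2 α ∉ U := by rw [hα]; exact hU e1
  have hβU : S.L m2 β ∉ U := by rw [hβ]; exact hU e2
  have hnk : ∀ z, S.L m2 z ∈ U → S.L m2 z ∉ Set.range (S.L k) := by
    rintro z hz ⟨w, hw⟩
    exact hU w (hw ▸ hz)
  have hα3 : S.L m2 α ∉ Set.range (S.L m3) := by rw [hα]; exact nb
  have hβ1 : S.L m2 β ∉ Set.range (S.L m1) := by rw [hβ]; exact na
  have hα1 : S.L m2 α ∈ Set.range (S.L m1) := by rw [hα]; exact a1
  have hβ3 : S.L m2 β ∈ Set.range (S.L m3) := by rw [hβ]; exact b3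
  have hne : α ≠ β := by
    rintro rfl
    exact hβ1 hα1
  have hγα : γ ≠ α := by rintro rfl; exact hαU hpU
  have hγβ : γ ≠ β := by rintro rfl; exact hβU hpU
  have hδα : δ ≠ α := by rintro rfl; exact hαU hpU'
  have hδβ : δ ≠ β := by rintro rfl; exact hβU hpU'
  have hb := S.big m2
  rw [abs_le] at s1 s2 s3
  rcases lt_or_gt_of_ne hne with hlt | hlt
  · have g1 : γ < α := by
      by_contra hcon
      rcases lt_or_ge γ β with h | h
      · exact hnk γ hpU (S.conv (by omega) h.le hαk hβk)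
      · exact hβ1 (S.conv hlt.le h hα1 hp1)
    have g2 : β < δ := by
      by_contra hcon
      rcases lt_or_ge α δ with h | h
      · exact hnk δ hpU' (S.conv h.le (by omega) hαk hβk)
      · exact hα3 (S.conv h hlt.le hp3 hβ3)
    have := hc.f2 m2 h2 γ α δ g1 (by omega) hpU hαU hpU'
    omega
  · have g1 : α < γ := by
      by_contra hcon
      rcases lt_or_ge β γ with h | h
      · exact hnk γ hpU (S.conv h.le (by omega) hβk hαk)
      · exact hβ1 (S.conv h hlt.le hp1 hα1)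
    have g2 : δ < β := by
      by_contra hcon
      rcases lt_or_ge δ α with h | h
      · exact hnk δ hpU' (S.conv (by omega) h.le hβk hαk)
      · exact hα3 (S.conv hlt.le h hβ3 hp3)
    have := hc.f2 m2 h2 δ β γ g2 (by omega) hpU' hβU hpU
    omega

lemma cover (M : Set I) (U : Set V) (hc : S.CF M U) (k : I) (hk : ∀ m ∈ M, ¬ S.Same k m)
    (hU : ∀ s, S.L k s ∉ U) (a b : ℤ)
    (hE : ∀ s, a ≤ s → s < b → ∃ m ∈ M, S.L k s ∈ Set.range (S.L m) ∧
      S.L k (s + 1) ∈ Set.range (S.L m)) : b - a ≤ 2 * S.lam k := by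
  by_contra hcon
  push Not at hcon
  have hl := S.lam_pos k
  obtain ⟨m1, h1, p1, p1'⟩ := hE a le_rfl (by omega)
  obtain ⟨e1, he1, he1'⟩ := Int.exists_greatest_of_bdd (P := fun z => S.L k z ∈ Set.range (S.L m1))
    ⟨a + S.lam k, fun z hz => by
      have := S.short (hk m1 h1) hz p1
      rw [abs_le] at this; omega⟩ ⟨a + 1, p1'⟩
  have h2 := he1' _ p1'
  have h3 := S.short (hk m1 h1) he1 p1
  rw [abs_le] at h3
  obtain ⟨m0, h0, p0, p0'⟩ := hE e1 (by omega) (by omega)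
  obtain ⟨e2, ⟨m2, hm2, q1, q2, q3⟩, he2'⟩ := Int.exists_greatest_of_bdd
    (P := fun z => ∃ m ∈ M, S.L k e1 ∈ Set.range (S.L m) ∧
      S.L k (e1 + 1) ∈ Set.range (S.L m) ∧ S.L k z ∈ Set.range (S.L m))
    ⟨e1 + S.lam k, by
      rintro z ⟨m, hm, w1, w2, w3⟩
      have := S.short (hk m hm) w3 w1
      rw [abs_le] at this; omega⟩ ⟨e1 + 1, m0, h0, p0, p0', p0'⟩
  have h4 := he2' _ ⟨m0, h0, p0, p0', p0'⟩
  have h5 := S.short (hk m2 hm2) q3 q1
  rw [abs_le] at h5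
  obtain ⟨m3, h6, p3, p3'⟩ := hE e2 (by omega) (by omega)
  have nb : S.L k e1 ∉ Set.range (S.L m3) := by
    intro h
    have := he2' (e2 + 1) ⟨m3, h6, h, S.conv (by omega) h4 h p3, p3'⟩
    omega
  have na : S.L k e2 ∉ Set.range (S.L m1) := by
    intro h
    have := he1' _ h
    omega
  refine S.three_lines hc hk hU h1 hm2 h6 ?_ ?_ (by omega) he1 q1 q3 p3 na nb
  · intro h
    rw [← S.same_range _ _ h] at q2
    have := he1' _ q2
    omega
  · intro h
    rw [← S.same_range _ _ h] at p3'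
    have := he2' (e2 + 1) ⟨m2, hm2, q1, q2, p3'⟩
    omega

lemma esc (M : Set I) (U : Set V) (hc : S.CF M U)
    (hx : ∃ x0 ∈ U, ∃ x, x ∉ U ∧ S.T.d x0 x = 1)
    (hM : ∀ i, (∃ s, S.L i s ∈ U) → (∃ s, S.L i s ∉ U) → i ∈ M) :
    ∃ x y, S.T.d x y = 1 ∧ x ∉ U ∧ ∀ m ∈ M, x ∈ Set.range (S.L m) → y ∉ Set.range (S.L m) := by
  obtain ⟨x0, hx0, x, hxU, hd⟩ := hx
  obtain ⟨i, s, hi0, hi1, -⟩ := S.thru x0 x hd
  have hiM : i ∈ M := hM i ⟨s, hi0 ▸ hx0⟩ ⟨s + 1, hi1 ▸ hxU⟩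
  have hb := S.big i
  have hl := S.lam_pos i
  have hgap : ∀ b : ℤ, s < b → b < s + (S.n i - 2 * S.lam i) → S.L i b ∉ U := by
    intro b h1 h2 h3
    rcases (show s + 1 ≤ b by omega).lt_or_eq with h | h
    · have := hc.f2 i hiM s (s + 1) b (by omega) h (hi0 ▸ hx0) (hi1 ▸ hxU) h3
      omega
    · rw [← h, hi1] at h3
      exact hxU h3
  set b0 := s + S.lam i + 1 with hb0
  have hv : S.L i b0 ∉ U := hgap b0 (by omega) (by omega)
  obtain ⟨w, hw, hw1, hw2⟩ := S.three (S.L i b0) (S.L i (b0 - 1)) (S.L i (b0 + 1))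
  refine ⟨S.L i b0, w, hw, hv, ?_⟩
  intro m hm hvm hwm
  have hsame : S.Same i m := by
    by_contra hns
    obtain ⟨_, hpU, ⟨b, rfl⟩, hpm⟩ := hc.f1 i hiM m hm hns _ ⟨b0, rfl⟩ hvm hv
    have h1 := S.short hns hvm hpm
    rw [abs_le] at h1
    exact hgap b (by omega) (by omega) hpU
  rw [← S.same_range _ _ hsame] at hwm
  obtain ⟨c, rfl⟩ := hwm
  rw [S.line i] at hw
  have : c = b0 - 1 ∨ c = b0 + 1 := by rcases abs_cases (b0 - c) with h | h <;> omega
  rcases this with rfl | rfl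
  · exact hw1 rfl
  · exact hw2 rfl

/-- The system. -/
def toSys : Sys G V I where
  T := S.T
  v0 := S.v0
  smul_d := S.smul_d
  step := S.step
  L := S.L
  line := S.line
  L_smul := S.L_smul
  Same := S.Same
  same_refl := S.same_refl
  same_symm := S.same_symm
  same_trans := S.same_trans
  same_smul := S.same_smul
  same_range := S.same_range
  H := S.H
  H_smul := S.H_smul
  same_H := S.same_H
  n := S.n
  D := fun i => 2 * S.lam i
  lam := S.lam
  n_smul := S.n_smul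
  D_smul := fun g i => by rw [S.lam_smul]
  htau := S.htau
  big := fun i => by
    have := S.big i
    have := S.lam_pos i
    omega
  D_nonneg := fun i => by
    have := S.lam_pos i
    omega
  lam_pos := S.lam_pos
  piece := S.piece
  thru := S.thru
  cover := fun M U hc k hk hU a b _ hE => S.cover M U hc k hk hU a b hE
  esc := S.esc

end PS

end Pool.Agent.Helper477_holes
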