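import Mathlib
import Pool.Agent.Helper477_holes.Inst
import Pool.Agent.Helper477_holes.Piece

set_option autoImplicit false

/-!
# Lines with given turns

A family of lines in the regular tree, each described by the sequence of its turns.
-/

namespace Pool.Agent.Helper477_holes

open Pool.Agent.H17R2 Vt

variable {q : ℕ}

/-- A path with the turns `t`, up to a global sign. -/
def Pth (q : ℕ) (t : ℤ → ZMod q) (φ : ℤ → Vt q) : Prop :=
  (∀ k, (T q).d (φ k) (φ (k + 1)) = 1) ∧
  ∃ s : ℤˣ, ∀ k, turn (φ (k - 1)) (φ k) (φ (k + 1)) = uz q s * t k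

lemma adj_prev {φ : ℤ → Vt q} (h : ∀ k, (T q).d (φ k) (φ (k + 1)) = 1) (k : ℤ) :
    (T q).d (φ k) (φ (k - 1)) = 1 := by
  have := h (k - 1)
  rw [sub_add_cancel] at this
  rw [(T q).d_comm]; exact this

lemma Pth.smul {t : ℤ → ZMod q} {φ : ℤ → Vt q} (h : Pth q t φ) (g : G q) :
    Pth q t (fun k => g • φ k) := by
  obtain ⟨h1, s, h2⟩ := h
  refine ⟨fun k => by rw [smul_d]; exact h1 k, sgn g * s, fun k => ?_⟩
  rw [smul_turn g (adj_prev h1 k) (h1 k), h2, uz_mul, mul_assoc]
  rfl

lemma Pth.line {t : ℤ → ZMod q} {φ : ℤ → Vt q} (h : Pth q t φ) (ht : ∀ k, t k ≠ 0) :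
    (T q).IsLine φ := by
  apply geo h.1
  intro k hk
  obtain ⟨s, h3⟩ := h.2
  have h4 := h3 k
  rw [hk, turn_self] at h4
  exact uz_mul_ne (ht k) h4.symm

/-- A path is determined by an edge and its turns. -/
lemma det' {φ ψ : ℤ → Vt q} (hφ : ∀ k, (T q).d (φ k) (φ (k + 1)) = 1)
    (hψ : ∀ k, (T q).d (ψ k) (ψ (k + 1)) = 1) (h0 : φ 0 = ψ 0) (h1 : φ 1 = ψ 1)
    (h6 : ∀ k, turn (φ (k - 1)) (φ k) (φ (k + 1)) = turn (ψ (k - 1)) (ψ k) (ψ (k + 1))) :
    ∀ k, φ k = ψ k := by
  have fwd : ∀ n : ℕ, φ n = ψ n ∧ φ (n + 1) = ψ (n + 1) := by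
    intro n
    induction n with
    | zero => exact ⟨by simpa using h0, by simpa using h1⟩
    | succ n ih =>
      push_cast
      refine ⟨ih.2, ?_⟩
      have h7 := h6 (n + 1)
      rw [show (n : ℤ) + 1 - 1 = n by ring, ih.1, ih.2] at h7
      have h8 := hφ (n + 1)
      rw [ih.2] at h8
      exact turn_inj h8 (hψ (n + 1)) h7
  have bwd : ∀ n : ℕ, φ (-n) = ψ (-n) ∧ φ (-n + 1) = ψ (-n + 1) := by
    intro n
    induction n with
    | zero => exact ⟨by simpa using h0, by simpa using h1⟩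
    | succ n ih =>
      have e1 : (-((n + 1 : ℕ) : ℤ)) + 1 = -n := by push_cast; ring
      have e2 : (-((n + 1 : ℕ) : ℤ)) = -n - 1 := by push_cast; ring
      rw [e1, e2]
      refine ⟨?_, ih.1⟩
      have h7 := h6 (-n)
      rw [ih.1, ih.2] at h7
      have h8 := adj_prev hφ (-n)
      rw [ih.1] at h8
      refine turn_inj (x := ψ (-n + 1)) h8 (adj_prev hψ (-n)) ?_
      rw [turn_rev (φ (-↑n - 1)), turn_rev (ψ (-↑n - 1)), h7]
  intro k
  rcases le_total 0 k with hk | hk
  · have := (fwd k.toNat).1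
    rwa [Int.toNat_of_nonneg hk] at this
  · have := (bwd (-k).toNat).1
    rwa [Int.toNat_of_nonneg (by omega), neg_neg] at this

/-- Transitivity on edges, with a prescribed sign. -/
lemma trans_edge_sgn (s : ℤˣ) (y x y' x' : Vt q) (h : (T q).d y x = 1)
    (h' : (T q).d y' x' = 1) : ∃ g : G q, sgn g = s ∧ g • y = y' ∧ g • x = x' := by
  obtain ⟨g, h1, h2, h3⟩ := trans_edge y x h
  obtain ⟨g', h1', h2', h3'⟩ := trans_edge y' x' h'
  rcases Int.units_eq_one_or s with rfl | rfl
  · refine ⟨g' * g⁻¹, by rw [map_mul, map_inv, h1, h1']; simp, ?_, ?_⟩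
    · rw [mul_smul, ← h2, inv_smul_smul, h2']
    · rw [mul_smul, ← h3, inv_smul_smul, h3']
  · refine ⟨g' * ref * g⁻¹, by rw [map_mul, map_mul, map_inv, h1, h1', sgn_ref]; simp, ?_, ?_⟩
    · rw [mul_smul, ← h2, inv_smul_smul, mul_smul, ref_root, h2']
    · rw [mul_smul, ← h3, inv_smul_smul, mul_smul, ref_nb0, h3']

/-- There is a path with given turns through every edge. -/
lemma exists_path (t : ℤ → ZMod q) (x y : Vt q) (h : (T q).d x y = 1) :
    ∃ φ : ℤ → Vt q, φ 0 = x ∧ φ 1 = y ∧ (∀ k, (T q).d (φ k) (φ (k + 1)) = 1) ∧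
      ∀ k, turn (φ (k - 1)) (φ k) (φ (k + 1)) = t k := by
  have hnext : ∀ (a b : Vt q) (u : ZMod q), ∃ c, (T q).d b c = 1 ∧ turn a b c = u := by
    intro a b u
    obtain ⟨c, h1, h2⟩ := exists_nb b (dir b a + u)
    exact ⟨c, h1, by unfold turn; rw [h2]; ring⟩
  choose nx hnx1 hnx2 using hnext
  -- forward
  let F : ℕ → Vt q × Vt q := fun n =>
    Nat.rec (x, y) (fun n p => (p.2, nx p.1 p.2 (t (n + 1)))) n
  have F0 : F 0 = (x, y) := rfl
  have Fs : ∀ n : ℕ, F (n + 1) = ((F n).2, nx (F n).1 (F n).2 (t (n + 1))) := fun n => rfl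
  let B : ℕ → Vt q × Vt q := fun n =>
    Nat.rec (x, y) (fun n p => (nx p.2 p.1 (-t (-n)), p.1)) n
  have B0 : B 0 = (x, y) := rfl
  have Bs : ∀ n : ℕ, B (n + 1) = (nx (B n).2 (B n).1 (-t (-n)), (B n).1) := fun n => rfl
  have Fadj : ∀ n, (T q).d (F n).1 (F n).2 = 1 := by
    intro n
    induction n with
    | zero => exact h
    | succ n ih => rw [Fs]; exact hnx1 _ _ _
  have Badj : ∀ n, (T q).d (B n).1 (B n).2 = 1 := by
    intro n
    induction n with
    | zero => exact h
    | succ n ih =>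
      rw [Bs]
      simp only
      rw [(T q).d_comm]
      exact hnx1 _ _ _
  let φ : ℤ → Vt q := fun k => if 0 ≤ k then (F k.toNat).1 else (B (-k).toNat).1
  have φpos : ∀ n : ℕ, φ n = (F n).1 := fun n => by simp [φ]
  have φneg : ∀ n : ℕ, φ (-n) = (B n).1 := by
    intro n
    cases n with
    | zero => simp [φ, F0, B0]
    | succ n =>
      have h1 : ¬ (0 : ℤ) ≤ -((n + 1 : ℕ) : ℤ) := by push_cast; omega
      simp only [φ]
      rw [if_neg h1, neg_neg, Int.toNat_natCast]
  have φpos1 : ∀ n : ℕ, φ (n + 1) = (F n).2 := by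
    intro n
    have := φpos (n + 1)
    push_cast at this
    rw [this, Fs]
  have φneg1 : ∀ n : ℕ, φ (-n + 1) = (B n).2 := by
    intro n
    cases n with
    | zero =>
      have := φpos1 0
      simpa [F0, B0] using this
    | succ n =>
      have e : (-((n + 1 : ℕ) : ℤ)) + 1 = -n := by push_cast; ring
      rw [e, φneg, Bs]
  refine ⟨φ, ?_, ?_, ?_, ?_⟩
  · have := φpos 0
    simpa [F0] using this
  · have := φpos1 0
    simpa [F0] using this
  · intro k
    rcases le_total 0 k with hk | hk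
    · obtain ⟨n, rfl⟩ := Int.eq_ofNat_of_zero_le hk
      rw [φpos, φpos1]; exact Fadj n
    · obtain ⟨n, hn⟩ := Int.eq_ofNat_of_zero_le (show 0 ≤ -k by omega)
      have e : k = -n := by omega
      rw [e, φneg, φneg1]; exact Badj n
  · intro k
    rcases lt_or_ge 0 k with hk | hk
    · obtain ⟨n, hn⟩ := Int.eq_ofNat_of_zero_le (show 0 ≤ k - 1 by omega)
      have e : k = n + 1 := by omega
      subst e
      rw [show (n : ℤ) + 1 - 1 = n by ring, φpos, φpos1]
      have e2 : φ (n + 1 + 1) = (F (n + 1)).2 := by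
        have := φpos1 (n + 1)
        push_cast at this
        exact this
      rw [e2, Fs]
      exact hnx2 _ _ _
    · obtain ⟨n, hn⟩ := Int.eq_ofNat_of_zero_le (show 0 ≤ -k by omega)
      have e : k = -n := by omega
      subst e
      rw [φneg, φneg1]
      have e2 : φ (-n - 1) = (B (n + 1)).1 := by
        have := φneg (n + 1)
        rw [← this]
        congr 1
        push_cast; ring
      rw [e2, Bs]
      simp only
      rw [turn_rev, hnx2, neg_neg]

/-- A family of turn sequences with short pieces. -/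
structure Lab (q : ℕ) where
  Λ : Type
  t : Λ → ℤ → ZMod q
  N : Λ → ℕ
  σ : Λ → ℤˣ
  lam : Λ → ℤ
  hq : 3 ≤ q
  ne : ∀ a k, t a k ≠ 0
  per : ∀ a k, t a (k + N a) = uz q (σ a) * t a k
  lam_pos : ∀ a, 1 ≤ lam a
  big : ∀ a, 5 * lam a < N a
  one : Λ
  pc : ∀ (a b : Λ) (c d ε : ℤ) (s : ℤˣ), (ε = 1 ∨ ε = -1) →
    (∀ k, 0 ≤ k → k < lam a → t b (d + k) = uz q s * t a (c + ε * k)) →
    a = b ∧ ∀ k, t b (d + k) = uz q s * t a (c + ε * k)

/-- A line of the family. -/
@[ext] structure Wl (D : Lab q) where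
  a : D.Λ
  f : ℤ → Vt q
  hf : Pth q (D.t a) f

namespace Wl

variable {D : Lab q}

instance : MulAction (G q) (Wl D) where
  smul g x := ⟨x.a, fun k => g • x.f k, x.hf.smul g⟩
  one_smul x := by
    apply Wl.ext
    · rfl
    · funext k; exact one_smul _ _
  mul_smul g h x := by
    apply Wl.ext
    · rfl
    · funext k; exact mul_smul _ _ _

lemma smul_f (g : G q) (x : Wl D) (k : ℤ) : (g • x).f k = g • x.f k := rfl
lemma smul_a (g : G q) (x : Wl D) : (g • x).a = x.a := rfl

lemma line (x : Wl D) : (T q).IsLine x.f := x.hf.line (D.ne x.a)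

/-- Equal up to the parametrization. -/
def Same (x y : Wl D) : Prop := x.a = y.a ∧ Set.range x.f = Set.range y.f

/-- The admissible translations of the line. -/
def H (x : Wl D) : Subgroup (G q) where
  carrier := {g | ∃ m : ℤ, (∀ k, g • x.f k = x.f (k + m * D.N x.a)) ∧ sgn g = D.σ x.a ^ m}
  one_mem' := ⟨0, fun k => by simp, by simp⟩
  mul_mem' := by
    rintro a b ⟨m, h1, h2⟩ ⟨m', h1', h2'⟩
    refine ⟨m' + m, fun k => ?_, ?_⟩
    · rw [mul_smul, h1', h1]; congr 1; ring
    · rw [map_mul, h2, h2', zpow_add, mul_comm]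
  inv_mem' := by
    rintro a ⟨m, h1, h2⟩
    refine ⟨-m, fun k => ?_, ?_⟩
    · rw [inv_smul_eq_iff, h1]; congr 1; ring
    · rw [map_inv, h2, zpow_neg]

lemma H_smul (g : G q) (x : Wl D) (h : G q) (hh : h ∈ x.H) : g * h * g⁻¹ ∈ (g • x).H := by
  obtain ⟨m, h1, h2⟩ := hh
  refine ⟨m, fun k => ?_, ?_⟩
  · rw [smul_f, smul_f, mul_smul, inv_smul_smul, mul_smul, h1]; rfl
  · rw [map_mul, map_mul, map_inv, h2, mul_comm (sgn g), mul_inv_cancel_right]; rfl

lemma htau (x : Wl D) (h : G q) (hh : h ∈ x.H) :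
    ∃ τ : ℤ, (h ≠ 1 → (D.N x.a : ℤ) ≤ |τ|) ∧ ∀ k, h • x.f k = x.f (k + τ) := by
  obtain ⟨m, h1, h2⟩ := hh
  refine ⟨m * D.N x.a, fun hne => ?_, h1⟩
  have hm : m ≠ 0 := by
    rintro rfl
    apply hne
    apply rigid (by rw [h2, zpow_zero]) (x.hf.1 0)
    · rw [h1]; simp
    · rw [h1]; simp
  rw [abs_mul, Nat.abs_cast]
  have := Int.one_le_abs hm
  nlinarith [Nat.cast_nonneg (α := ℤ) (D.N x.a)]

lemma same_H (x y : Wl D) (h : x.Same y) : x.H = y.H := by
  have key : ∀ x y : Wl D, x.Same y → x.H ≤ y.H := by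
    rintro x y ⟨h1, h2⟩ g ⟨m, h3, h4⟩
    obtain ⟨b, ε, hε, hb⟩ := Ln.reparam_of_range x.line y.line h2.ge
    refine ⟨ε * m, fun k => ?_, ?_⟩
    · rw [hb, h3, hb, ← h1]
      congr 1
      rcases hε with rfl | rfl <;> ring
    · rw [h4, ← h1]
      rcases hε with rfl | rfl
      · rw [one_mul]
      · rw [neg_one_mul, zpow_neg, Int.units_inv_eq_self]
  exact le_antisymm (key x y h) (key y x ⟨h.1.symm, h.2.symm⟩)

/-- If two lines agree on a long segment, then they agree. -/
lemma agree (x y : Wl D) {a b ε : ℤ} (hε : ε = 1 ∨ ε = -1)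
    (h : ∀ k, 0 ≤ k → k ≤ D.lam x.a + 1 → x.f (a + k) = y.f (b + ε * k)) : x.Same y := by
  obtain ⟨hx, s, hs⟩ := x.hf
  obtain ⟨hy, s', hs'⟩ := y.hf
  have hl := D.lam_pos x.a
  -- the turns of the second line in the new parametrization
  have hψ : ∀ k, turn (y.f (b + ε * (k - 1))) (y.f (b + ε * k)) (y.f (b + ε * (k + 1))) =
      uz q (s' * (if ε = 1 then 1 else -1)) * D.t y.a (b + ε * k) := by
    intro k
    rcases hε with rfl | rfl
    · have := hs' (b + 1 * k)
      rw [show b + 1 * k - 1 = b + 1 * (k - 1) by ring,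
        show b + 1 * k + 1 = b + 1 * (k + 1) by ring] at this
      rw [this, if_pos rfl, mul_one]
    · have := hs' (b + -1 * k)
      rw [show b + -1 * k - 1 = b + -1 * (k + 1) by ring,
        show b + -1 * k + 1 = b + -1 * (k - 1) by ring] at this
      rw [turn_rev, this, if_neg (by norm_num), uz_mul, uz_neg, uz_one]; ring
  set δ : ℤˣ := s' * (if ε = 1 then 1 else -1) with hδ
  have hturn : ∀ k, 1 ≤ k → k ≤ D.lam x.a → D.t y.a (b + ε * k) =
      uz q (δ * s) * D.t x.a (a + k) := by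
    intro k h1 h2
    have e1 := hs (a + k)
    have e2 := hψ k
    rw [show a + k - 1 = a + (k - 1) by ring, show a + k + 1 = a + (k + 1) by ring,
      h _ (by omega) (by omega), h _ (by omega) (by omega), h _ (by omega) (by omega), e2] at e1
    have e3 := congrArg (fun w => uz q δ * w) e1
    simp only [← mul_assoc, uz_sq, one_mul] at e3
    rw [uz_mul]
    exact e3
  have hall : x.a = y.a ∧ ∀ k, D.t y.a (b + ε * k) = uz q (δ * s) * D.t x.a (a + k) := by
    rcases hε with rfl | rfl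
    · obtain ⟨h1, h2⟩ := D.pc x.a y.a (a + 1) (b + 1) 1 (δ * s) (Or.inl rfl) (by
        intro k h3 h4
        have := hturn (k + 1) (by omega) (by omega)
        rw [show b + 1 * (k + 1) = b + 1 + k by ring,
          show a + (k + 1) = a + 1 + 1 * k by ring] at this
        exact this)
      refine ⟨h1, fun k => ?_⟩
      have := h2 (k - 1)
      rw [show b + 1 + (k - 1) = b + 1 * k by ring,
        show a + 1 + 1 * (k - 1) = a + k by ring] at this
      exact this
    · obtain ⟨h1, h2⟩ := D.pc x.a y.a (a + D.lam x.a) (b - D.lam x.a) (-1) (δ * s) (Or.inr rfl)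
        (by
          intro k h3 h4
          have := hturn (D.lam x.a - k) (by omega) (by omega)
          rw [show b + -1 * (D.lam x.a - k) = b - D.lam x.a + k by ring,
            show a + (D.lam x.a - k) = a + D.lam x.a + -1 * k by ring] at this
          exact this)
      refine ⟨h1, fun k => ?_⟩
      have := h2 (D.lam x.a - k)
      rw [show b - D.lam x.a + (D.lam x.a - k) = b + -1 * k by ring,
        show a + D.lam x.a + -1 * (D.lam x.a - k) = a + k by ring] at this
      exact this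
  refine ⟨hall.1, ?_⟩
  have heq : ∀ k, x.f (a + k) = y.f (b + ε * k) := by
    apply det' (φ := fun k => x.f (a + k)) (ψ := fun k => y.f (b + ε * k))
    · intro k
      rw [show a + (k + 1) = a + k + 1 by ring]
      exact hx _
    · intro k
      rcases hε with rfl | rfl
      · rw [show b + 1 * (k + 1) = b + 1 * k + 1 by ring]
        exact hy _
      · rw [show b + -1 * (k + 1) = b + -1 * k - 1 by ring]
        exact adj_prev hy _
    · exact h 0 le_rfl (by omega)
    · exact h 1 (by norm_num) (by omega)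
    · intro k
      rw [hψ, hall.2 k]
      have e1 := hs (a + k)
      rw [show a + k - 1 = a + (k - 1) by ring, show a + k + 1 = a + (k + 1) by ring] at e1
      rw [e1, ← mul_assoc, ← uz_mul, ← mul_assoc, Int.units_mul_self, one_mul]
  apply Set.eq_of_subset_of_subset
  · rintro _ ⟨k, rfl⟩
    refine ⟨b + ε * (k - a), ?_⟩
    rw [← heq]; congr 1; ring
  · rintro _ ⟨k, rfl⟩
    refine ⟨a + ε * (k - b), ?_⟩
    rw [heq]
    congr 1
    rcases hε with rfl | rfl <;> ring

lemma piece (x y : Wl D) (hns : ¬ x.Same y) (s t : ℤ) :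
    |(T q).pr x.f (y.f s) - (T q).pr x.f (y.f t)| ≤ D.lam x.a := by
  have main : ∀ s t, (T q).pr x.f (y.f s) < (T q).pr x.f (y.f t) →
      (T q).pr x.f (y.f t) - (T q).pr x.f (y.f s) ≤ D.lam x.a := by
    intro s t hlt
    obtain ⟨b, ε, hε, hk⟩ := x.line.overlap y.line s t hlt
    by_contra hcon
    apply hns
    exact agree x y hε (fun k h1 h2 => hk k h1 (by omega))
  have hl := D.lam_pos x.a
  rcases lt_trichotomy ((T q).pr x.f (y.f s)) ((T q).pr x.f (y.f t)) with h | h | h
  · have := main s t h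
    rw [abs_le]; constructor <;> omega
  · rw [h, sub_self, abs_zero]; omega
  · have := main t s h
    rw [abs_le]; constructor <;> omega

/-- The translation of a line by its period. -/
lemma exists_trans (x : Wl D) : ∃ g ∈ x.H, (∀ k, g • x.f k = x.f (k + D.N x.a)) := by
  obtain ⟨hx, s, hs⟩ := x.hf
  obtain ⟨g, h1, h2, h3⟩ := trans_edge_sgn (D.σ x.a) (x.f 0) (x.f (0 + 1))
    (x.f (D.N x.a)) (x.f (D.N x.a + 1)) (hx 0) (hx _)
  have h4 : ∀ k, g • x.f k = x.f (k + D.N x.a) := by
    apply det' (φ := fun k => g • x.f k) (ψ := fun k => x.f (k + D.N x.a))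
    · intro k
      rw [smul_d]; exact hx k
    · intro k
      rw [show k + 1 + (D.N x.a : ℤ) = k + D.N x.a + 1 by ring]
      exact hx _
    · rw [h2, zero_add]
    · rw [zero_add] at h3
      rw [h3, add_comm]
    · intro k
      rw [smul_turn g (adj_prev hx k) (hx k), hs, h1]
      have e1 := hs (k + D.N x.a)
      rw [show k + (D.N x.a : ℤ) - 1 = k - 1 + D.N x.a by ring,
        show k + (D.N x.a : ℤ) + 1 = k + 1 + D.N x.a by ring, D.per] at e1
      rw [e1]
      change uz q (D.σ x.a) * (uz q s * D.t x.a k) = _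
      ring
  exact ⟨g, ⟨1, fun k => by rw [h4, one_mul], by rw [zpow_one, h1]⟩, h4⟩

end Wl

lemma exists_three (hq : 3 ≤ q) (x a b : Vt q) : ∃ c, (T q).d x c = 1 ∧ c ≠ a ∧ c ≠ b := by
  obtain ⟨e, h1, h2⟩ := exists_third hq (dir x a) (dir x b)
  obtain ⟨c, h3, h4⟩ := exists_nb x e
  exact ⟨c, h3, by rintro rfl; exact h1 h4.symm, by rintro rfl; exact h2 h4.symm⟩

/-- The family of lines, as an abstract family with short pieces. -/
noncomputable def Lab.ps (D : Lab q) : PS (G q) (Vt q) (Wl D) where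
  T := T q
  v0 := root
  smul_d := smul_d
  step := Vt.step
  L := fun x => x.f
  line := Wl.line
  L_smul := Wl.smul_f
  Same := Wl.Same
  same_refl := fun i => ⟨rfl, rfl⟩
  same_symm := fun i j h => ⟨h.1.symm, h.2.symm⟩
  same_trans := fun i j k h h' => ⟨h.1.trans h'.1, h.2.trans h'.2⟩
  same_smul := by
    rintro g i j ⟨h1, h2⟩
    refine ⟨h1, ?_⟩
    have e : ∀ i : Wl D, Set.range (g • i).f = (fun v => g • v) '' Set.range i.f := by
      intro i
      rw [← Set.range_comp]; rfl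
    rw [e, e, h2]
  same_range := fun i j h => h.2
  H := Wl.H
  H_smul := Wl.H_smul
  same_H := Wl.same_H
  n := fun i => D.N i.a
  lam := fun i => D.lam i.a
  n_smul := fun g i => rfl
  lam_smul := fun g i => rfl
  htau := Wl.htau
  big := fun i => D.big i.a
  lam_pos := fun i => D.lam_pos i.a
  piece := Wl.piece
  thru := by
    intro x y h
    obtain ⟨φ, h1, h2, h3, h4⟩ := exists_path (D.t D.one) x y h
    let i : Wl D := ⟨D.one, φ, h3, 1, fun k => by rw [h4, uz_one, one_mul]⟩
    obtain ⟨g, hg, hg'⟩ := i.exists_trans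
    refine ⟨i, 0, h1, by rw [zero_add]; exact h2, g, hg, ?_⟩
    rintro rfl
    have h5 := hg' 0
    rw [one_smul] at h5
    have h6 := line_inj i.line h5
    have h7 := D.big i.a
    have h8 := D.lam_pos i.a
    omega
  three := exists_three D.hq

end Pool.Agent.Helper477_holes
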