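import Mathlib
import Pool.Agent.Helper477_holes.Lab

set_option autoImplicit false

/-!
# Holes, zigzags and infinitely many other lines

The turn sequences of the holes and zigzags together with an infinite family of further turn
sequences have short pieces.
-/

namespace Pool.Agent.Helper477_holes

open Pool.Agent.H17R2 Vt

variable {q : ℕ}

/-- labels: the types, and the natural numbers -/
abbrev L0 : Type := (ℕ × Bool) ⊕ ℕ

/-- the turn sequence number `m` -/
def wt (q : ℕ) (m : ℕ) (k : ℤ) : ZMod q :=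
  if (2 : ℤ) ∣ k then (if (2 * ((m : ℤ) + 3)) ∣ k then -1 else 1) else 2

/-- the turn sequences -/
def tt (q : ℕ) : L0 → ℤ → ZMod q
  | .inl τ => fun k => uz q (ut τ.2 k) * (τ.1 : ZMod q)
  | .inr m => wt q m

lemma wt_even {m : ℕ} {k : ℤ} (h : (2 : ℤ) ∣ k) : wt q m k = 1 ∨ wt q m k = -1 := by
  unfold wt
  rw [if_pos h]
  split_ifs
  · right; rfl
  · left; rfl

lemma wt_odd {m : ℕ} {k : ℤ} (h : ¬ (2 : ℤ) ∣ k) : wt q m k = 2 := by
  unfold wt
  rw [if_neg h]

lemma cast_ne {a b : ℕ} (ha : a < b) (hb : b < q) : (a : ZMod q) ≠ b := by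
  intro h
  rw [ZMod.natCast_eq_natCast_iff] at h
  have := Nat.ModEq.eq_of_lt_of_lt h (by omega) hb
  omega

lemma z1 (hq : 4 ≤ q) : (1 : ZMod q) ≠ 0 := by
  have := cast_ne (q := q) (a := 0) (b := 1) (by omega) (by omega)
  intro h; apply this; push_cast; exact h.symm

lemma z2 (hq : 4 ≤ q) : (2 : ZMod q) ≠ 0 := by
  have := cast_ne (q := q) (a := 0) (b := 2) (by omega) (by omega)
  intro h; apply this; push_cast; exact h.symm

lemma z3 (hq : 4 ≤ q) : (3 : ZMod q) ≠ 0 := by
  have := cast_ne (q := q) (a := 0) (b := 3) (by omega) (by omega)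
  intro h; apply this; push_cast; exact h.symm

/-- `1` and `2` are different up to sign -/
lemma z12 (hq : 4 ≤ q) (s : ℤˣ) : (1 : ZMod q) ≠ uz q s * 2 := by
  intro h
  rcases uz_cases (q := q) s with h1 | h1 <;> rw [h1] at h
  · exact z1 hq (by linear_combination -h)
  · exact z3 hq (by linear_combination h)

lemma z1n (hq : 4 ≤ q) : (1 : ZMod q) ≠ -1 := by
  intro h
  exact z2 hq (by linear_combination h)

lemma uz_inv_eq {s : ℤˣ} {a b : ZMod q} (h : a = uz q s * b) : b = uz q s * a := by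
  rw [h, ← mul_assoc, uz_sq, one_mul]

/-- The turns at even places are `±1`, those at odd places are `2`. -/
lemma wt_cases (m : ℕ) (k : ℤ) : (2 ∣ k ∧ ∃ s : ℤˣ, wt q m k = uz q s * 1) ∨
    (¬ 2 ∣ k ∧ wt q m k = 2) := by
  by_cases h : (2 : ℤ) ∣ k
  · left
    refine ⟨h, ?_⟩
    rcases wt_even (q := q) (m := m) h with h1 | h1
    · exact ⟨1, by rw [h1, uz_one]; ring⟩
    · exact ⟨-1, by rw [h1, uz_neg, uz_one]; ring⟩
  · right; exact ⟨h, wt_odd h⟩

/-- Two consecutive turns of a new sequence are not `±j`, `±j`. -/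
lemma wt_not_type (hq : 4 ≤ q) {m : ℕ} {k l : ℤ} (hl : l = k + 1 ∨ l = k - 1) {j : ZMod q}
    {s s' : ℤˣ} (h1 : wt q m k = uz q s * j) (h2 : wt q m l = uz q s' * j) : False := by
  have h3 := uz_inv_eq h1
  have h4 := uz_inv_eq h2
  rcases wt_cases (q := q) m k with ⟨a1, t, a2⟩ | ⟨a1, a2⟩ <;>
    rcases wt_cases (q := q) m l with ⟨b1, t', b2⟩ | ⟨b1, b2⟩
  · rcases hl with rfl | rfl <;> omega
  · rw [a2, ← mul_assoc, ← uz_mul] at h3
    rw [b2] at h4
    rw [h3] at h4
    have h5 := uz_inv_eq h4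
    apply z12 hq (s * t * s')
    have h6 := uz_inv_eq (a := uz q s' * 2) (b := 1) (s := s * t) h4.symm
    rw [h6, ← mul_assoc, ← uz_mul]
  · rw [b2, ← mul_assoc, ← uz_mul] at h4
    rw [a2] at h3
    rw [h4] at h3
    apply z12 hq (s' * t' * s)
    have h6 := uz_inv_eq (a := uz q s * 2) (b := 1) (s := s' * t') h3.symm
    rw [h6, ← mul_assoc, ← uz_mul]
  · rcases hl with rfl | rfl <;> omega

lemma exists_multiple (P c : ℤ) (hP : 0 < P) : ∃ k, 0 ≤ k ∧ k < P ∧ P ∣ c + k := by
  refine ⟨(-c) % P, Int.emod_nonneg _ (by omega), Int.emod_lt_of_pos _ hP, ?_⟩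
  have := Int.emod_add_mul_ediv (-c) P
  exact ⟨-((-c) / P), by linarith⟩

/-- The pieces of two new sequences are short. -/
lemma wt_pc (hq : 4 ≤ q) (m m' : ℕ) (c d ε : ℤ) (s : ℤˣ) (hε : ε = 1 ∨ ε = -1)
    (h : ∀ k, 0 ≤ k → k < 4 * ((m : ℤ) + 3) → wt q m' (d + k) = uz q s * wt q m (c + ε * k)) :
    m = m' ∧ ∀ k, wt q m' (d + k) = uz q s * wt q m (c + ε * k) := by
  set P : ℤ := (m : ℤ) + 3 with hP
  set P' : ℤ := (m' : ℤ) + 3 with hP'
  have hεdvd : ∀ a x : ℤ, a ∣ ε * x ↔ a ∣ x := by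
    intro a x
    rcases hε with rfl | rfl
    · rw [one_mul]
    · rw [neg_one_mul, dvd_neg]
  -- a multiple of `2P` in the window
  obtain ⟨k1, k1a, k1b, k1c⟩ : ∃ k, 0 ≤ k ∧ k < 2 * P ∧ 2 * P ∣ c + ε * k := by
    obtain ⟨k, h1, h2, h3⟩ := exists_multiple (2 * P) (ε * c) (by omega)
    refine ⟨k, h1, h2, ?_⟩
    rw [← hεdvd (2 * P) (c + ε * k)]
    have : ε * (c + ε * k) = ε * c + k := by
      rcases hε with rfl | rfl <;> ring
    rw [this]; exact h3
  have hsh : ∀ x : ℤ, c + ε * (k1 + x) = (c + ε * k1) + ε * x := fun x => by ring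
  have h2P : (2 : ℤ) ∣ 2 * P := Dvd.intro P rfl
  have h2P' : (2 : ℤ) ∣ 2 * P' := Dvd.intro P' rfl
  have hk1e : (2 : ℤ) ∣ c + ε * k1 := h2P.trans k1c
  have hdv : ∀ a x : ℤ, a ∣ c + ε * k1 → (a ∣ c + ε * (k1 + x) ↔ a ∣ x) := by
    intro a x ha
    rw [hsh, dvd_add_right ha, hεdvd]
  have w0 : wt q m (c + ε * k1) = -1 := by
    unfold wt
    rw [if_pos hk1e, if_pos k1c]
  have w1 : wt q m (c + ε * (k1 + 1)) = 2 := by
    apply wt_odd
    rw [hdv 2 1 hk1e]; omega
  have w2 : ∀ x : ℤ, 2 ∣ x → ¬ 2 * P ∣ x → wt q m (c + ε * (k1 + x)) = 1 := by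
    intro x h1 h2
    unfold wt
    rw [if_pos ((hdv 2 x hk1e).2 h1), if_neg (fun h => h2 ((hdv _ x k1c).1 h))]
  have nd : ∀ x : ℤ, 0 < x → x < 2 * P → ¬ 2 * P ∣ x := fun x h1 h2 h3 => by
    have := Int.le_of_dvd h1 h3
    omega
  have nd' : ∀ x : ℤ, 0 < x → x < 2 * P' → ¬ 2 * P' ∣ x := fun x h1 h2 h3 => by
    have := Int.le_of_dvd h1 h3
    omega
  -- parity
  have hd1 : ¬ (2 : ℤ) ∣ d + (k1 + 1) := by
    intro h1
    have h2 := h (k1 + 1) (by omega) (by omega)
    rw [w1] at h2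
    rcases wt_even (q := q) (m := m') h1 with h3 | h3 <;> rw [h3] at h2
    · exact z12 hq s h2
    · apply z12 hq (-s)
      rw [uz_neg]; linear_combination -h2
  have hd0 : (2 : ℤ) ∣ d + k1 := by omega
  -- the sign
  have hs : uz q s = 1 := by
    rcases Int.units_eq_one_or s with rfl | rfl
    · exact uz_one
    · exfalso
      have e2 := h (k1 + 2) (by omega) (by omega)
      have e4 := h (k1 + 4) (by omega) (by omega)
      rw [w2 2 (by norm_num) (nd 2 (by norm_num) (by omega)), uz_neg, uz_one] at e2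
      rw [w2 4 (by norm_num) (nd 4 (by norm_num) (by omega)), uz_neg, uz_one] at e4
      have key : ∀ x : ℤ, 2 ∣ x → wt q m' (d + (k1 + x)) = -1 * 1 → 2 * P' ∣ d + (k1 + x) := by
        intro x hx hw
        unfold wt at hw
        rw [if_pos (by
          have := dvd_add hd0 hx
          rwa [show d + k1 + x = d + (k1 + x) by ring] at this)] at hw
        by_contra hn
        rw [if_neg hn] at hw
        exact z1n hq (by linear_combination hw)
      have d2 := key 2 (by norm_num) e2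
      have d4 := key 4 (by norm_num) e4
      have := dvd_sub d4 d2
      rw [show d + (k1 + 4) - (d + (k1 + 2)) = 2 by ring] at this
      exact nd' 2 (by norm_num) (by omega) this
  rw [hs] at h
  simp only [one_mul] at h
  -- multiples of `2P'`
  have key : ∀ x : ℤ, 0 ≤ k1 + x → k1 + x < 4 * P → 2 ∣ x →
      (2 * P' ∣ d + (k1 + x) ↔ 2 * P ∣ x) := by
    intro x h1 h2 hx
    have h3 := h (k1 + x) h1 h2
    have h4 : (2 : ℤ) ∣ d + (k1 + x) := by
      have := dvd_add hd0 hx
      rwa [show d + k1 + x = d + (k1 + x) by ring] at this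
    unfold wt at h3
    rw [if_pos h4, if_pos ((hdv 2 x hk1e).2 hx)] at h3
    by_cases h5 : 2 * P' ∣ d + (k1 + x) <;> by_cases h6 : 2 * P ∣ x
    · exact ⟨fun _ => h6, fun _ => h5⟩
    · rw [if_pos h5, if_neg (fun h => h6 ((hdv _ x k1c).1 h))] at h3
      exact absurd h3.symm (z1n hq)
    · rw [if_neg h5, if_pos ((hdv _ x k1c).2 h6)] at h3
      exact absurd h3 (z1n hq)
    · exact ⟨fun h => absurd h h5, fun h => absurd h h6⟩
  have a0 := (key 0 (by omega) (by omega) (by norm_num)).2 (dvd_zero _)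
  rw [add_zero] at a0
  have a1 := (key (2 * P) (by omega) (by omega) h2P).2 dvd_rfl
  have hPP : 2 * P' ∣ 2 * P := by
    have := dvd_sub a1 a0
    rwa [show d + (k1 + 2 * P) - (d + k1) = 2 * P by ring] at this
  have hle := Int.le_of_dvd (by omega) hPP
  have hPe : P' = P := by
    by_contra hne
    have h1 := (key (2 * P') (by omega) (by omega) h2P').1 (by
      have := dvd_add a0 (dvd_refl (2 * P'))
      rwa [show d + k1 + 2 * P' = d + (k1 + 2 * P') by ring] at this)
    exact nd (2 * P') (by omega) (by omega) h1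
  have hmm : m = m' := by
    have : (m : ℤ) = m' := by omega
    exact_mod_cast this
  refine ⟨hmm, fun k => ?_⟩
  rw [hs, one_mul]
  have e1 : d + k = (d + k1) + (k - k1) := by ring
  have e2 : c + ε * k = c + ε * (k1 + (k - k1)) := by
    congr 2
    ring
  unfold wt
  have p1 : ((2 : ℤ) ∣ d + k) ↔ ((2 : ℤ) ∣ c + ε * k) := by
    rw [e1, e2, dvd_add_right hd0, hdv 2 _ hk1e]
  have p2 : (2 * ((m' : ℤ) + 3) ∣ d + k) ↔ (2 * ((m : ℤ) + 3) ∣ c + ε * k) := by
    rw [← hP, ← hP', hPe, e1, e2, dvd_add_right (hPe ▸ a0), hdv (2 * P) _ k1c]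
  simp only [p1, p2]

/-- The labels in use, with the lengths. -/
structure Dat2 (q : ℕ) where
  P : L0 → Prop
  n : ℕ × Bool → ℕ
  σ : ℕ × Bool → ℤˣ
  hq : 4 ≤ q
  hA : ∀ τ, P (.inl τ) → 1 ≤ τ.1 ∧ 2 * τ.1 ≤ q
  hA' : ∀ j, P (.inl (j, false)) → 2 * j ≠ q
  one : P (.inl (1, true))
  σ1 : σ (1, true) = 1
  sper : ∀ τ, P (.inl τ) → σ τ = ut τ.2 (n τ) ∨ 2 * τ.1 = q
  s11 : ∀ τ, P (.inl τ) → ((P (.inl (τ.1, true)) ∧ P (.inl (τ.1, false))) ∨ τ.1 ≤ 2) →
    11 ≤ n τ
  s6 : ∀ τ, P (.inl τ) → 6 ≤ n τ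

namespace Dat2

variable (D : Dat2 q)

open Classical in
/-- the lengths of the pieces -/
noncomputable def lam : L0 → ℤ
  | .inl τ => if (D.P (.inl (τ.1, true)) ∧ D.P (.inl (τ.1, false))) ∨ τ.1 ≤ 2 then 2 else 1
  | .inr m => 4 * ((m : ℤ) + 3)

/-- the lengths of the translations -/
def NL : L0 → ℕ
  | .inl τ => D.n τ
  | .inr m => 22 * (m + 3)

/-- the signs of the translations -/
def σL : L0 → ℤˣ
  | .inl τ => D.σ τ
  | .inr _ => 1

lemma tt_inl (τ : ℕ × Bool) (k : ℤ) : tt q (.inl τ) k = uz q (ut τ.2 k) * (τ.1 : ZMod q) := rfl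
lemma tt_inr (m : ℕ) (k : ℤ) : tt q (.inr m) k = wt q m k := rfl

lemma same_kind {j : ℕ} {b b' : Bool} (h2 : 2 * (j : ZMod q) ≠ 0) {c d ε : ℤ} {s : ℤˣ}
    (hε : ε = 1 ∨ ε = -1)
    (e0 : uz q (ut b' d) * (j : ZMod q) = uz q s * (uz q (ut b c) * j))
    (e1 : uz q (ut b' (d + 1)) * (j : ZMod q) = uz q s * (uz q (ut b (c + ε)) * j)) :
    b = b' := by
  have hε' : ∀ b, ut b ε = ut b 1 := by
    intro b
    rcases hε with rfl | rfl
    · rfl
    · rw [ut_neg]
  rw [ut_add, ut_add, uz_mul, uz_mul, hε'] at e1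
  by_contra hne
  have key : uz q (ut b' 1) = -uz q (ut b 1) := by
    cases b <;> cases b'
    · exact absurd rfl hne
    · rw [ut_one, ut_one]; simp [uz_one, uz_neg]
    · rw [ut_one, ut_one]; simp [uz_one, uz_neg]
    · exact absurd rfl hne
  rw [key] at e1
  have e2 : uz q (ut b 1) * (2 * (uz q (ut b' d) * (j : ZMod q))) = 0 := by
    linear_combination -e1 + uz q (ut b 1) * e0
  have e3 := uz_mul_ne (q := q) (s := ut b 1) (a := 2 * (uz q (ut b' d) * (j : ZMod q)))
  have e4 : 2 * (uz q (ut b' d) * (j : ZMod q)) = 0 := by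
    by_contra h; exact e3 h e2
  have e5 : uz q (ut b' d) * (2 * (j : ZMod q)) = 0 := by linear_combination e4
  exact uz_mul_ne h2 e5

lemma pc (a b : L0) (ha : D.P a) (hb : D.P b) (c d ε : ℤ) (s : ℤˣ) (hε : ε = 1 ∨ ε = -1)
    (h : ∀ k, 0 ≤ k → k < D.lam a → tt q b (d + k) = uz q s * tt q a (c + ε * k)) :
    a = b ∧ ∀ k, tt q b (d + k) = uz q s * tt q a (c + ε * k) := by
  have hq := D.hq
  rcases a with τ | m <;> rcases b with τ' | m'
  · -- two types
    have h0 := h 0 le_rfl (by unfold lam; simp only; split_ifs <;> norm_num)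
    rw [tt_inl, tt_inl, mul_zero, add_zero, add_zero] at h0
    have hA := D.hA _ ha
    have hA2 := D.hA _ hb
    have hj : τ'.1 = τ.1 := by
      apply natCast_inj hA2.1 hA2.2 hA.1 hA.2
      rw [← mul_assoc, ← uz_mul] at h0
      exact uz_eq h0
    have hkind : τ.2 = τ'.2 := by
      by_cases hl : (D.P (.inl (τ.1, true)) ∧ D.P (.inl (τ.1, false))) ∨ τ.1 ≤ 2
      · by_cases h2 : 2 * τ.1 = q
        · -- straight
          have key : ∀ τ : ℕ × Bool, D.P (.inl τ) → 2 * τ.1 = q → τ.2 = true := by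
            intro τ hτ h2
            by_contra hf
            have e : τ = (τ.1, false) := Prod.ext rfl (by simpa using hf)
            rw [e] at hτ
            exact D.hA' _ hτ h2
          rw [key τ ha h2, key τ' hb (by rw [hj]; exact h2)]
        · have h1 := h 1 (by norm_num) (by unfold lam; simp only; rw [if_pos hl]; norm_num)
          rw [tt_inl, tt_inl, mul_one] at h1
          rw [hj] at h0 h1
          exact same_kind (two_ne hA.1 hA.2 h2) hε h0 h1
      · by_contra hne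
        apply hl
        left
        have e : τ = (τ.1, τ.2) := rfl
        have e' : τ' = (τ.1, τ'.2) := by rw [← hj]
        rw [e] at ha
        rw [e'] at hb
        cases h5 : τ.2 <;> cases h6 : τ'.2 <;> rw [h5] at ha <;> rw [h6] at hb
        · exact absurd (h5.trans h6.symm) hne
        · exact ⟨hb, ha⟩
        · exact ⟨ha, hb⟩
        · exact absurd (h5.trans h6.symm) hne
    have he : τ = τ' := Prod.ext hj.symm hkind
    refine ⟨by rw [he], fun k => ?_⟩
    subst he
    rw [tt_inl, tt_inl, ut_add, ut_add, uz_mul, uz_mul]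
    have hεk : ut τ.2 (ε * k) = ut τ.2 k := by
      rcases hε with rfl | rfl
      · rw [one_mul]
      · rw [neg_one_mul, ut_neg]
    rw [hεk]
    linear_combination uz q (ut τ.2 k) * h0
  · -- a type and a new sequence
    exfalso
    have h0 := h 0 le_rfl (by unfold lam; simp only; split_ifs <;> norm_num)
    rw [tt_inl, tt_inr, mul_zero, add_zero, add_zero, ← mul_assoc, ← uz_mul] at h0
    have hA := D.hA _ ha
    by_cases hl : (D.P (.inl (τ.1, true)) ∧ D.P (.inl (τ.1, false))) ∨ τ.1 ≤ 2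
    · have h1 := h 1 (by norm_num) (by unfold lam; simp only; rw [if_pos hl]; norm_num)
      rw [tt_inl, tt_inr, mul_one, ← mul_assoc, ← uz_mul] at h1
      exact wt_not_type hq (Or.inl rfl) h0 h1
    · push Not at hl
      have h3 : 3 ≤ τ.1 := by omega
      rcases wt_cases (q := q) m' d with ⟨-, t, h4⟩ | ⟨-, h4⟩
      · rw [h4] at h0
        have h5 := uz_eq h0
        have := natCast_inj (q := q) (j := 1) (j' := τ.1) le_rfl (by omega) hA.1 hA.2
          (by push_cast; exact h5)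
        omega
      · rw [h4] at h0
        have h5 : uz q 1 * (2 : ZMod q) = uz q (s * ut τ.2 c) * τ.1 := by
          rw [uz_one, one_mul]; exact h0
        have h6 := uz_eq h5
        have := natCast_inj (q := q) (j := 2) (j' := τ.1) (by norm_num) (by omega) hA.1 hA.2
          (by push_cast; exact h6)
        omega
  · -- a new sequence and a type
    exfalso
    have h0 := h 0 le_rfl (by unfold lam; simp only; omega)
    have h1 := h 1 (by norm_num) (by unfold lam; simp only; omega)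
    rw [tt_inl, tt_inr, mul_zero, add_zero, add_zero] at h0
    rw [tt_inl, tt_inr, mul_one] at h1
    have g0 := uz_inv_eq h0
    have g1 := uz_inv_eq h1
    rw [← mul_assoc, ← uz_mul] at g0 g1
    exact wt_not_type hq (by rcases hε with rfl | rfl <;> [left; right] <;> ring) g0 g1
  · -- two new sequences
    have := wt_pc hq m m' c d ε s hε h
    exact ⟨by rw [this.1], this.2⟩

/-- The family of lines. -/
noncomputable def lab : Lab q where
  Λ := {a : L0 // D.P a}
  t := fun a => tt q a.1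
  N := fun a => D.NL a.1
  σ := fun a => D.σL a.1
  lam := fun a => D.lam a.1
  hq := by have := D.hq; omega
  ne := by
    rintro ⟨a, ha⟩ k
    rcases a with τ | m
    · exact uz_mul_ne (natCast_ne (D.hA _ ha).1 (D.hA _ ha).2)
    · change wt q m k ≠ 0
      have hq := D.hq
      rcases wt_cases (q := q) m k with ⟨-, s, h⟩ | ⟨-, h⟩
      · rw [h]; exact uz_mul_ne (z1 hq)
      · rw [h]; exact z2 hq
  per := by
    rintro ⟨a, ha⟩ k
    rcases a with τ | m
    · change uz q (ut τ.2 (k + D.n τ)) * (τ.1 : ZMod q) =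
        uz q (D.σ τ) * (uz q (ut τ.2 k) * (τ.1 : ZMod q))
      rcases D.sper τ ha with h | h
      · rw [h, ut_add, uz_mul]; ring
      · have hjj : ∀ s : ℤˣ, uz q s * (τ.1 : ZMod q) = τ.1 := by
          intro s
          have h2 : ((2 * τ.1 : ℕ) : ZMod q) = 0 := by rw [h]; simp
          push_cast at h2
          rcases uz_cases (q := q) s with h1 | h1 <;> rw [h1]
          · ring
          · linear_combination -h2
        rw [hjj, hjj, hjj]
    · change wt q m (k + ((22 * (m + 3) : ℕ) : ℤ)) = uz q 1 * wt q m k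
      rw [uz_one, one_mul]
      unfold wt
      have e : ((22 * (m + 3) : ℕ) : ℤ) = (2 * ((m : ℤ) + 3)) * 11 := by push_cast; ring
      have e1 : (2 : ℤ) ∣ ((22 * (m + 3) : ℕ) : ℤ) := by
        rw [e]; exact Dvd.dvd.mul_right (Dvd.intro _ rfl) _
      have e2 : (2 * ((m : ℤ) + 3)) ∣ ((22 * (m + 3) : ℕ) : ℤ) := by
        rw [e]; exact Dvd.intro _ rfl
      simp only [dvd_add_left e1, dvd_add_left e2]
  lam_pos := by
    rintro ⟨a, ha⟩
    rcases a with τ | m
    · unfold lam; simp only; split_ifs <;> norm_num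
    · unfold lam; simp only; omega
  big := by
    rintro ⟨a, ha⟩
    rcases a with τ | m
    · change 5 * D.lam (.inl τ) < (D.n τ : ℤ)
      unfold lam
      simp only
      split_ifs with h
      · have := D.s11 τ ha h
        omega
      · have := D.s6 τ ha
        omega
    · change 5 * (4 * ((m : ℤ) + 3)) < ((22 * (m + 3) : ℕ) : ℤ)
      push_cast
      omega
  one := ⟨.inl (1, true), D.one⟩
  pc := by
    rintro ⟨a, ha⟩ ⟨b, hb⟩ c d ε s hε h
    obtain ⟨h1, h2⟩ := D.pc a b ha hb c d ε s hε h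
    exact ⟨Subtype.ext h1, h2⟩

end Dat2

end Pool.Agent.Helper477_holes
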