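import Mathlib
import Pool.Agent.Helper477_holes.Words
import Pool.Agent.Helper477_holes.Exact

set_option autoImplicit false

/-!
# The quotients by the translations along the lines of a family
-/

namespace Pool.Agent.Helper477_holes

open Pool.Agent.H17R2 Vt

variable {q : ℕ}

lemma Sys.normal {G V I : Type*} [Group G] [MulAction G V] [MulAction G I] (S : Sys G V I) :
    S.NN.Normal := by
  constructor
  intro n hn g
  refine Subgroup.iSup_induction S.H (C := fun n => g * n * g⁻¹ ∈ S.NN) hn ?_ ?_ ?_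
  · intro i x hx
    exact (le_iSup S.H (g • i)) (S.H_smul g i x hx)
  · rw [mul_one, mul_inv_cancel]; exact Subgroup.one_mem _
  · intro x y hx hy
    have := Subgroup.mul_mem _ hx hy
    have e : g * x * g⁻¹ * (g * y * g⁻¹) = g * (x * y) * g⁻¹ := by group
    rwa [e] at this

namespace Dat2

variable (D : Dat2 q)

/-- The subgroup generated by the translations. -/
noncomputable def K : Subgroup (G q) := D.lab.ps.toSys.NN

instance : D.K.Normal := D.lab.ps.toSys.normal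

variable {D}

lemma mem_K {x : Wl D.lab} {g : G q} (hg : g ∈ x.H) : g ∈ D.K :=
  (le_iSup D.lab.ps.toSys.H x) hg

lemma mem_H {g : G q} (hg : g ∈ D.K) {i : Wl D.lab} (h1 : (root : Vt q) ∈ Set.range i.f)
    (h2 : g • (root : Vt q) ∈ Set.range i.f) : g ∈ i.H :=
  D.lab.ps.toSys.mem_H_of exists_ne_root hg h1 h2

lemma std_pth (τ : ℕ × Bool) :
    Pth q (tt q (.inl τ)) (fun k : ℤ => (stdX τ : G q) ^ k • (root : Vt q)) := by
  obtain ⟨h1, s, h2⟩ := std_ty (q := q) τ
  refine ⟨h1, s, fun k => ?_⟩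
  rw [h2, uz_mul, mul_assoc]
  rfl

/-- The standard line. -/
noncomputable def sl {τ : ℕ × Bool} (h : D.P (.inl τ)) : Wl D.lab :=
  ⟨⟨.inl τ, h⟩, _, std_pth τ⟩

lemma sl_f {τ : ℕ × Bool} (h : D.P (.inl τ)) (k : ℤ) :
    (sl h).f k = (stdX τ : G q) ^ k • (root : Vt q) := rfl

lemma N_pos (i : Wl D.lab) : 5 < (D.lab.N i.a : ℤ) := by
  have h1 := D.lab.big i.a
  have h2 := D.lab.lam_pos i.a
  omega

lemma thin : Thin D.K := by
  have hq := D.hq
  refine ⟨?_, ?_, ?_⟩
  · intro g hg h1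
    have h2 := mem_H hg (i := sl D.one) ⟨0, by rw [sl_f]; simp⟩
      (by rw [h1]; exact ⟨0, by rw [sl_f]; simp⟩)
    by_contra hne
    obtain ⟨τ, h3, h5⟩ := Wl.htau _ _ h2
    have h6 := h5 0
    rw [sl_f, zpow_zero, one_smul, h1] at h6
    have h7 : (sl D.one).f 0 = (sl D.one).f (0 + τ) := by
      rw [← h6, sl_f, zpow_zero, one_smul]
    have h8 := line_inj (sl D.one).line h7
    have h9 := h3 hne
    have h10 := N_pos (sl D.one)
    have : τ = 0 := by omega
    rw [this, abs_zero] at h9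
    omega
  · intro g hg h1
    obtain ⟨i, s, hi0, hi1, -⟩ := D.lab.ps.thru root (g • root) h1
    have h2 := mem_H hg (i := i) ⟨s, hi0⟩ ⟨s + 1, hi1⟩
    obtain ⟨m, h3, -⟩ := h2
    have h5 := h3 s
    have e0 : i.f s = root := hi0
    have e1 : i.f (s + 1) = g • root := hi1
    rw [e0, ← e1] at h5
    have h6 := line_inj i.line h5
    have h7 : (1 : ℤ) = m * (D.lab.N i.a : ℤ) := by omega
    have h8 : (D.lab.N i.a : ℤ) ∣ 1 := ⟨m, by rw [h7]; ring⟩
    have h9 := Int.le_of_dvd (by norm_num) h8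
    have h10 := N_pos i
    omega
  · intro g hg m h1
    have h2 := mem_H hg (i := sl D.one) ⟨0, by rw [sl_f]; simp⟩ (by
      rw [h1]; exact ⟨m, rfl⟩)
    obtain ⟨m', h3, h5⟩ := h2
    set n := D.lab.N (sl D.one).a with hn
    have hσ : D.lab.σ (sl D.one).a = 1 := D.σ1
    have h6 : (sl D.one).f m = (sl D.one).f (0 + m' * (n : ℤ)) := by
      have := h3 0
      rw [← this, sl_f, sl_f, zpow_zero, one_smul, h1]
      rfl
    have h7 : m = 0 + m' * (n : ℤ) := line_inj (sl D.one).line h6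
    rw [zero_add] at h7
    rw [hσ, one_zpow] at h5
    have h8 : ((x1 q) ^ m)⁻¹ * g = 1 := by
      have hs : sgn (x1 q) = 1 := by unfold x1; rw [sgn_stdX]; simp
      apply rigid (y := root) (x := nb0) (by rw [map_mul, map_inv, map_zpow, hs, h5]; simp)
        d_root_nb0
      · rw [mul_smul, inv_smul_eq_iff, h1]
      · rw [mul_smul, inv_smul_eq_iff]
        have h9 := h3 1
        rw [← h7, sl_f, sl_f, zpow_one] at h9
        rw [stdX_root] at h9
        rw [h9]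
        change (x1 q) ^ (1 + m) • (root : Vt q) = _
        rw [add_comm, zpow_add_one, mul_smul]
        congr 1
    exact (inv_mul_eq_one.1 h8).symm

lemma pow_root {τ : ℕ × Bool} (hA : D.P (.inl τ)) {g : G q} {m : ℕ} (hg : g ∈ D.K)
    (hm : g • (root : Vt q) = (stdX τ : G q) ^ m • root) :
    ∃ c : ℤ, (m : ℤ) = c * D.n τ ∧ sgn g = D.σ τ ^ c := by
  have h2 := mem_H hg (i := sl hA) ⟨0, by rw [sl_f]; simp⟩ ⟨m, by
    rw [sl_f, zpow_natCast, hm]⟩
  obtain ⟨c, h3, h4⟩ := h2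
  refine ⟨c, ?_, h4⟩
  have h5 := h3 0
  rw [sl_f, zpow_zero, one_smul, hm] at h5
  have h6 : (sl hA).f m = (sl hA).f (0 + c * (D.n τ : ℤ)) := by
    rw [sl_f, zpow_natCast]; exact h5
  have := line_inj (sl hA).line h6
  omega

lemma stdX_mem {τ : ℕ × Bool} (hA : D.P (.inl τ)) {g : G q} (m : ℤ)
    (h1 : ∀ k : ℤ, g • (stdX τ : G q) ^ k • (root : Vt q) = (stdX τ : G q) ^ (k + m * D.n τ) • root)
    (h2 : sgn g = D.σ τ ^ m) : g ∈ D.K :=
  mem_K (x := sl hA) ⟨m, h1, h2⟩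

/-! ### The lines which are not in use -/

/-- all lines -/
def fullD (hq : 4 ≤ q) : Dat2 q where
  P := fun a => match a with
    | .inl τ => fullA q τ
    | .inr _ => True
  n := fun _ => 12
  σ := fun _ => 1
  hq := hq
  hA := fun τ h => ⟨h.1, h.2.1⟩
  hA' := by
    intro j hj h3
    have := hj.2.2 h3
    simp at this
  one := ⟨le_rfl, by simp only; omega, fun h => by simp only at h; omega⟩
  σ1 := rfl
  sper := fun τ _ => by
    left
    unfold ut
    split_ifs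
    · rfl
    · decide
  s11 := fun _ _ _ => by norm_num
  s6 := fun _ _ => by norm_num

lemma full_of {a : L0} (h : D.P a) : (fullD D.hq).P a := by
  rcases a with τ | m
  · refine ⟨(D.hA _ h).1, (D.hA _ h).2, fun h2 => ?_⟩
    by_contra h3
    have e : τ = (τ.1, false) := Prod.ext rfl (by simpa using h3)
    rw [e] at h
    exact D.hA' _ h h2
  · trivial

/-- A line in use, among all lines. -/
noncomputable def inc (x : Wl D.lab) : Wl (fullD D.hq).lab :=
  ⟨⟨x.a.1, full_of x.a.2⟩, x.f, x.hf⟩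

lemma full_lam (a : L0) : (fullD D.hq).lam a ≤ 2 * D.lam a ∧
    (fullD D.hq).lam a < (D.NL a : ℤ) - 3 * D.lam a ∨ ¬ D.P a := by
  by_cases h : D.P a
  · left
    rcases a with τ | m
    · have h11 := D.s11 τ h
      have h6 := D.s6 τ h
      change (fullD D.hq).lam (.inl τ) ≤ 2 * D.lam (.inl τ) ∧
        (fullD D.hq).lam (.inl τ) < (D.n τ : ℤ) - 3 * D.lam (.inl τ)
      unfold lam
      simp only
      split_ifs with h1 h2 h2
      · have := h11 h2; omega
      · omega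
      · have := h11 h2; omega
      · omega
    · change (4 * ((m : ℤ) + 3)) ≤ 2 * (4 * ((m : ℤ) + 3)) ∧
        (4 * ((m : ℤ) + 3)) < ((22 * (m + 3) : ℕ) : ℤ) - 3 * (4 * ((m : ℤ) + 3))
      push_cast
      omega
  · right; exact h

/-- An element which moves the root along a line which is not in use is trivial. -/
lemma one_of {L : Wl (fullD D.hq).lab} (hL : ¬ D.P L.a.1) {g : G q} (hg : g ∈ D.K)
    (h1 : (root : Vt q) ∈ Set.range L.f) (h2 : g • (root : Vt q) ∈ Set.range L.f) : g = 1 := by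
  apply D.lab.ps.toSys.eq_one_of exists_ne_root hg
  intro i
  obtain ⟨s, hs⟩ := h1
  obtain ⟨t, ht⟩ := h2
  change |(T q).pr i.f (g • root) - (T q).pr i.f root| <
    (D.lab.N i.a : ℤ) - 2 * D.lab.lam i.a - D.lab.lam i.a
  rw [← ht, ← hs]
  have hns : ¬ (inc i).Same L := fun h => hL (by
    have h3 : (inc i).a.1 = L.a.1 := by rw [h.1]
    rw [← h3]
    exact i.a.2)
  have h3 := Wl.piece (inc i) L hns t s
  have h4 := (full_lam (D := D) i.a.1).resolve_right (fun h => h i.a.2)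
  have h5 : |(T q).pr i.f (L.f t) - (T q).pr i.f (L.f s)| ≤ (fullD D.hq).lam i.a.1 := h3
  have h6 : D.lab.N i.a = D.NL i.a.1 := rfl
  have h7 : D.lab.lam i.a = D.lam i.a.1 := rfl
  rw [h6, h7]
  omega

lemma zero_of_unused {τ : ℕ × Bool} (h1 : fullA q τ) (h2 : ¬ D.P (.inl τ)) {m : ℕ} {g : G q}
    (hg : g ∈ D.K) (hm : g • (root : Vt q) = (stdX τ : G q) ^ m • root) : m = 0 := by
  have h3 := one_of (D := D) (L := sl (D := fullD D.hq) (τ := τ) h1) h2 hg
    ⟨0, by rw [sl_f]; simp⟩ ⟨m, by rw [sl_f, zpow_natCast, hm]⟩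
  have h9 : (sl (D := fullD D.hq) (τ := τ) h1).f m = (sl (D := fullD D.hq) (τ := τ) h1).f 0 := by
    rw [sl_f, sl_f, zpow_natCast, zpow_zero, ← hm, h3]
  have := line_inj (sl (D := fullD D.hq) (τ := τ) h1).line h9
  exact_mod_cast this

/-! ### The new translations -/

lemma wt_per (m : ℕ) (k : ℤ) : wt q m (k + 2 * ((m : ℤ) + 3)) = wt q m k := by
  unfold wt
  have e1 : (2 : ℤ) ∣ 2 * ((m : ℤ) + 3) := Dvd.intro _ rfl
  simp only [dvd_add_left e1, dvd_add_left (dvd_refl (2 * ((m : ℤ) + 3)))]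

lemma exists_y (m : ℕ) : ∃ (φ : ℤ → Vt q) (y : G q), φ 0 = root ∧ Pth q (wt q m) φ ∧
    (∀ k, y • φ k = φ (k + 2 * ((m : ℤ) + 3))) ∧ sgn y = 1 := by
  obtain ⟨φ, h1, h2, h3, h4⟩ := exists_path (wt q m) root nb0 d_root_nb0
  obtain ⟨y, h5, h6, h7⟩ := trans_edge_sgn 1 (φ 0) (φ (0 + 1)) (φ (0 + 2 * ((m : ℤ) + 3)))
    (φ (0 + 2 * ((m : ℤ) + 3) + 1)) (h3 _) (h3 _)
  refine ⟨φ, y, h1, ⟨h3, 1, fun k => by rw [h4, uz_one, one_mul]⟩, ?_, h5⟩
  apply det' (φ := fun k => y • φ k) (ψ := fun k => φ (k + 2 * ((m : ℤ) + 3)))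
  · intro k
    rw [smul_d]; exact h3 k
  · intro k
    rw [show k + 1 + 2 * ((m : ℤ) + 3) = k + 2 * ((m : ℤ) + 3) + 1 by ring]
    exact h3 _
  · exact h6
  · rw [zero_add] at h7
    change y • φ 1 = φ (1 + 2 * ((m : ℤ) + 3))
    rw [h7]; congr 1; ring
  · intro k
    rw [smul_turn y (adj_prev h3 k) (h3 k), h4, h5]
    have e1 := h4 (k + 2 * ((m : ℤ) + 3))
    rw [show k + 2 * ((m : ℤ) + 3) - 1 = k - 1 + 2 * ((m : ℤ) + 3) by ring,
      show k + 2 * ((m : ℤ) + 3) + 1 = k + 1 + 2 * ((m : ℤ) + 3) by ring, wt_per] at e1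
    rw [e1]
    simp

/-- the path number `m` -/
noncomputable def wφ (q m : ℕ) : ℤ → Vt q := (exists_y (q := q) m).choose

/-- the translation number `m` -/
noncomputable def wy (q m : ℕ) : G q := (exists_y (q := q) m).choose_spec.choose

lemma wφ_zero (m : ℕ) : wφ q m 0 = root := (exists_y (q := q) m).choose_spec.choose_spec.1
lemma wφ_pth (m : ℕ) : Pth q (wt q m) (wφ q m) :=
  (exists_y (q := q) m).choose_spec.choose_spec.2.1
lemma wy_smul (m : ℕ) (k : ℤ) : wy q m • wφ q m k = wφ q m (k + 2 * ((m : ℤ) + 3)) :=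
  (exists_y (q := q) m).choose_spec.choose_spec.2.2.1 k
lemma sgn_wy (m : ℕ) : sgn (wy q m) = 1 := (exists_y (q := q) m).choose_spec.choose_spec.2.2.2

lemma wy_pow (m : ℕ) (c : ℕ) (k : ℤ) :
    wy q m ^ c • wφ q m k = wφ q m (k + c * (2 * ((m : ℤ) + 3))) := by
  induction c with
  | zero => simp
  | succ c ih =>
    rw [pow_succ', mul_smul, ih, wy_smul]
    congr 1
    push_cast; ring

lemma wy_mem_iff (m : ℕ) : wy q m ^ 11 ∈ D.K ↔ D.P (.inr m) := by
  have h0 : (wy q m : G q) ^ 11 • (root : Vt q) = wφ q m (22 * ((m : ℤ) + 3)) := by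
    rw [← wφ_zero m, wy_pow]
    congr 1
    push_cast; ring
  constructor
  · intro hg
    by_contra hP
    have h3 := one_of (D := D) (L := ⟨⟨.inr m, trivial⟩, wφ q m, wφ_pth m⟩) hP hg
      ⟨0, wφ_zero m⟩ ⟨_, h0.symm⟩
    rw [h3, one_smul, ← wφ_zero m] at h0
    have h4 := line_inj ((wφ_pth (q := q) m).line (fun k => by
      rcases wt_cases (q := q) m k with ⟨-, s, h⟩ | ⟨-, h⟩
      · rw [h]; exact uz_mul_ne (z1 D.hq)
      · rw [h]; exact z2 D.hq)) h0
    omega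
  · intro hP
    apply mem_K (x := ⟨⟨.inr m, hP⟩, wφ q m, wφ_pth m⟩)
    refine ⟨1, fun k => ?_, ?_⟩
    · change wy q m ^ 11 • wφ q m k = wφ q m (k + 1 * ((22 * (m + 3) : ℕ) : ℤ))
      rw [wy_pow]
      congr 1
      push_cast; ring
    · change sgn (wy q m ^ 11) = 1 ^ (1 : ℤ)
      rw [map_pow, sgn_wy]; simp

end Dat2

end Pool.Agent.Helper477_holes
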