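import Mathlib
import Pool.Agent.Helper477_holes.Defs2

set_option autoImplicit false

/-!
# Regular polyhedra with given lengths of holes and zigzags
-/

namespace Pool.Agent.Helper477_holes

/-- The element `ρ₀ρ₁(ρ₂ρ₁)^(j-1)`; its order is the length of the `j`-holes. -/
def holeOf {Γ : Type*} [Group Γ] (ρ : Fin 3 → Γ) (j : ℕ) : Γ :=
  ρ 0 * ρ 1 * (ρ 2 * ρ 1) ^ (j - 1)

/-- The element `ρ₀(ρ₁ρ₂)^j`; its order is the length of the `j`-zigzags. -/
def zigzagOf {Γ : Type*} [Group Γ] (ρ : Fin 3 → Γ) (j : ℕ) : Γ :=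
  ρ 0 * (ρ 1 * ρ 2) ^ j

/-- `Γ`, with the distinguished generators `ρ`, is the group of a regular polyhedron of type
`{p, q}` whose `j`-holes have length `h j` and whose `j`-zigzags have length `r j`, for all
`1 ≤ j ≤ q / 2` for which this length is prescribed (the entry `0` means no prescription; the
`1`-holes are the faces, their length is `p`). -/
structure HasLengths (p q : ℕ) (h r : ℕ → ℕ) {Γ : Type*} [Group Γ] (ρ : Fin 3 → Γ) :
    Prop where
  stringC : IsStringC ρ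
  deg : orderOf (ρ 1 * ρ 2) = q
  holes : ∀ j, 1 ≤ j → 2 * j ≤ q → hol p h j ≠ 0 → orderOf (holeOf ρ j) = hol p h j
  zigzags : ∀ j, 1 ≤ j → 2 * j ≤ q → r j ≠ 0 → orderOf (zigzagOf ρ j) = r j

/-- The sum `1/p + 1/q + 1/h_2 + … + 1/h_k + 1/r_1 + … + 1/r_k`, `k = ⌊q/2⌋`, where entries without
prescription are omitted (in Lean, `1/0 = 0`) and, for `q = 2k`, only the larger one of
`1/h_k` and `1/r_k` is counted. -/
def lenSum (p q : ℕ) (h r : ℕ → ℕ) : ℚ :=
  1 / q + ∑ j ∈ Finset.Icc 1 (q / 2), if 2 * j = q then max (1 / (hol p h j : ℚ)) (1 / (r j : ℚ))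
    else 1 / (hol p h j : ℚ) + 1 / (r j : ℚ)

end Pool.Agent.Helper477_holes
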