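import Mathlib
import Pool.Agent.Helper477_holes.Defs3

set_option autoImplicit false

/-!
# Long lengths
-/

namespace Pool.Agent.Helper477_holes

/-- All prescribed lengths are long.  Here the entry `0` stands for infinite length.
* `q ≥ 4` and `p` is finite;
* each finite length is at least `6`, and at least `11` if it is the length of the `j`-holes or the
  `j`-zigzags with `j ≤ 2`, or if both lengths are finite and `2 * j ≠ q`;
* if `2 * j = q`, then the length of the `j`-holes and that of the `j`-zigzags are both infinite, or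
  equal and even, or one is odd and the other is twice as large. -/
structure Long (p q : ℕ) (h r : ℕ → ℕ) : Prop where
  hq : 4 ≤ q
  hp : p ≠ 0
  holes : ∀ j, 1 ≤ j → 2 * j ≤ q → hol p h j ≠ 0 → 6 ≤ hol p h j ∧
    (j ≤ 2 ∨ (2 * j ≠ q ∧ r j ≠ 0) → 11 ≤ hol p h j)
  zigzags : ∀ j, 1 ≤ j → 2 * j ≤ q → r j ≠ 0 → 6 ≤ r j ∧
    (j ≤ 2 ∨ (2 * j ≠ q ∧ hol p h j ≠ 0) → 11 ≤ r j)
  straight : ∀ j, 2 * j = q → (hol p h j = 0 ∧ r j = 0) ∨ (hol p h j = r j ∧ Even (r j)) ∨
    (hol p h j = 2 * r j ∧ Odd (r j)) ∨ (r j = 2 * hol p h j ∧ Odd (hol p h j))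

end Pool.Agent.Helper477_holes
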