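import Mathlib
import Pool.Agent.Helper477_holes.Cont
import Pool.Agent.Helper477_holes.Defs4

set_option autoImplicit false

/-!
# Continuously many polyhedra with the same lengths
-/

namespace Pool.Agent.Helper477_holes

open Pool.Agent.H17R2 Vt

variable {p q : ℕ} {h r : ℕ → ℕ}

lemma Long.str_ne (H : Long p q h r) {j : ℕ} (h1 : 2 * j = q)
    (h2 : hol p h j ≠ 0 ∨ r j ≠ 0) : hol p h j ≠ 0 ∧ r j ≠ 0 := by
  rcases H.straight j h1 with ⟨h3, h4⟩ | ⟨h3, h4⟩ | ⟨h3, h4⟩ | ⟨h3, h4⟩ <;> omega

lemma Long.gcd_eq (H : Long p q h r) {j : ℕ} (h1 : 2 * j = q) :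
    Nat.gcd (hol p h j) (r j) = hol p h j ∨ Nat.gcd (hol p h j) (r j) = r j := by
  rcases H.straight j h1 with ⟨h3, h4⟩ | ⟨h3, h4⟩ | ⟨h3, h4⟩ | ⟨h3, h4⟩
  · rw [h3, h4]; simp
  · rw [h3]; simp
  · right; exact Nat.gcd_eq_right (Dvd.intro_left 2 h3.symm)
  · left; exact Nat.gcd_eq_left (Dvd.intro_left 2 h3.symm)

/-- The family of lines for a set of numbers. -/
def ld (H : Long p q h r) (S : Set ℕ) : Dat2 q where
  P := fun a => match a with
    | .inl τ => AA p q h r τ
    | .inr m => m ∈ S
  n := nn p q h r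
  σ := ss q r
  hq := H.hq
  hA := fun τ h => ⟨h.1, h.2.1⟩
  hA' := by
    intro j hj h3
    have := (hj.2.2.1 h3).1
    simp at this
  one := by
    have := H.hq
    refine ⟨le_rfl, by simp only; omega, fun h => by simp only at h; omega, fun _ =>
      ⟨fun _ => ?_, fun h => by simp at h⟩⟩
    simp only [hol, if_true]
    exact H.hp
  σ1 := by
    have := H.hq
    unfold ss
    rw [if_neg (by simp only; omega)]
    simp
  sper := by
    rintro ⟨j, b⟩ hA
    by_cases h1 : 2 * j = q
    · right; exact h1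
    · left
      unfold ss nn ut
      rw [if_neg h1, if_neg h1]
      cases b
      · simp
      · simp
  s11 := by
    intro τ hA hD
    have hu := AA_used hA
    obtain ⟨h1, h2, h3, h4⟩ := hA
    unfold nn
    by_cases h5 : 2 * τ.1 = q
    · rw [if_pos h5]
      obtain ⟨h6, h7⟩ := H.str_ne h5 hu
      have h8 : τ.1 ≤ 2 := by
        rcases hD with ⟨-, h9⟩ | h9
        · have := (h9.2.2.1 h5).1
          simp at this
        · exact h9
      have h9 := (H.holes _ h1 h2 h6).2 (Or.inl h8)
      have h10 := (H.zigzags _ h1 h2 h7).2 (Or.inl h8)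
      rcases H.gcd_eq h5 with h11 | h11 <;> rw [h11] <;> assumption
    · rw [if_neg h5]
      obtain ⟨h6, h7⟩ := h4 h5
      have h8 : τ.1 ≤ 2 ∨ (hol p h τ.1 ≠ 0 ∧ r τ.1 ≠ 0) := by
        rcases hD with ⟨h9, h10⟩ | h9
        · right
          exact ⟨(h9.2.2.2 h5).1 rfl, (h10.2.2.2 h5).2 rfl⟩
        · left; exact h9
      split_ifs with h9
      · have h10 := h6 h9
        apply (H.holes _ h1 h2 h10).2
        rcases h8 with h8 | h8
        · exact Or.inl h8
        · exact Or.inr ⟨h5, h8.2⟩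
      · have h10 := h7 (by simpa using h9)
        apply (H.zigzags _ h1 h2 h10).2
        rcases h8 with h8 | h8
        · exact Or.inl h8
        · exact Or.inr ⟨h5, h8.1⟩
  s6 := by
    intro τ hA
    have hu := AA_used hA
    obtain ⟨h1, h2, h3, h4⟩ := hA
    unfold nn
    by_cases h5 : 2 * τ.1 = q
    · rw [if_pos h5]
      obtain ⟨h6, h7⟩ := H.str_ne h5 hu
      have h9 := (H.holes _ h1 h2 h6).1
      have h10 := (H.zigzags _ h1 h2 h7).1
      rcases H.gcd_eq h5 with h11 | h11 <;> rw [h11] <;> assumption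
    · rw [if_neg h5]
      obtain ⟨h6, h7⟩ := h4 h5
      split_ifs with h9
      · exact (H.holes _ h1 h2 (h6 h9)).1
      · exact (H.zigzags _ h1 h2 (h7 (by simpa using h9))).1

variable (H : Long p q h r) (S : Set ℕ)

lemma str_smul {j : ℕ} (h2 : 2 * j = q) (m : ℕ) (k : ℤ) :
    (stdX (j, false) : G q) ^ m • (stdX (j, true) : G q) ^ k • (root : Vt q) =
      (stdX (j, true) : G q) ^ (k + m) • root := by
  obtain ⟨e1, e2⟩ := stdX_str h2
  rw [e1, e2.mul_pow, mul_smul, smul_smul _ _ (root : Vt q),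
    ((e2.zpow_left k).pow_right m).symm.eq, mul_smul, ref_pow_root, smul_smul, ← zpow_natCast,
    ← zpow_add]
  congr 2
  ring

lemma units_pow_cast {c m : ℕ} (s : ℤˣ) (h : c = m) : s ^ c = s ^ m := by rw [h]

/-- The powers of the straight holes in the subgroup. -/
lemma str_hole {j : ℕ} (h1 : 1 ≤ j) (h2 : 2 * j = q) (h0 : hol p h j ≠ 0 ∨ r j ≠ 0) (m : ℕ) :
    (stdX (j, true) : G q) ^ m ∈ (ld H S).K ↔ hol p h j ∣ m := by
  have hA : AA p q h r (j, true) := ⟨h1, h2.le, fun _ => ⟨rfl, h0⟩, fun h => absurd h2 h⟩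
  have hP : (ld H S).P (.inl (j, true)) := hA
  have hn : (ld H S).n (j, true) = Nat.gcd (hol p h j) (r j) := by
    change nn p q h r (j, true) = _
    unfold nn; rw [if_pos h2]
  have hσ : (ld H S).σ (j, true) = (-1) ^ r j := by
    change ss q r (j, true) = _
    unfold ss; rw [if_pos h2]
  obtain ⟨h6, h7⟩ := H.str_ne h2 h0
  constructor
  · intro hm
    obtain ⟨c, h4, h5⟩ := Dat2.pow_root hP hm rfl
    rw [hn] at h4
    rw [hσ, map_pow, sgn_stdX] at h5
    simp only [if_true, one_pow] at h5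
    rcases (H.straight j h2) with ⟨h8, -⟩ | ⟨h8, h9⟩ | ⟨h8, h9⟩ | ⟨h8, h9⟩
    · exact absurd h8 h6
    · rw [h8, Nat.gcd_self, ← h8] at h4
      exact dvd_of_cast h4
    · have hc : Even c := even_of_neg_one_pow h9 h5.symm
      obtain ⟨d, rfl⟩ := hc
      rw [h8, Nat.gcd_eq_right (Dvd.intro_left 2 rfl)] at h4
      rw [h8]
      apply dvd_of_cast (c := d)
      rw [h4]; push_cast; ring
    · rw [h8, Nat.gcd_eq_left (Dvd.intro_left 2 rfl)] at h4
      exact dvd_of_cast h4
  · rintro ⟨c, rfl⟩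
    obtain ⟨d, hd⟩ := Nat.gcd_dvd_left (hol p h j) (r j)
    apply Dat2.stdX_mem hP ((d * c : ℕ) : ℤ)
    · intro k
      rw [smul_smul, ← zpow_natCast, ← zpow_add, hn]
      congr 2
      have : (hol p h j : ℤ) = (Nat.gcd (hol p h j) (r j) : ℤ) * d := by exact_mod_cast hd
      rw [add_comm]
      congr 1
      push_cast
      rw [this]; ring
    · rw [hσ, map_pow, sgn_stdX]
      simp only [if_true, one_pow]
      rw [zpow_natCast, ← pow_mul]
      have he : Even (r j * (d * c)) := by
        rcases (H.straight j h2) with ⟨h8, -⟩ | ⟨h8, h9⟩ | ⟨h8, h9⟩ | ⟨h8, h9⟩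
        · exact absurd h8 h6
        · exact h9.mul_right _
        · have hg : Nat.gcd (hol p h j) (r j) = r j := by
            rw [h8]; exact Nat.gcd_eq_right (Dvd.intro_left 2 rfl)
          have hd2 : d = 2 := by
            rw [hg, h8, mul_comm] at hd
            exact (Nat.eq_of_mul_eq_mul_left (Nat.pos_of_ne_zero h7) hd).symm
          rw [hd2]
          exact (Even.mul_right even_two c).mul_left _
        · rw [h8]
          exact (even_two_mul _).mul_right _
      rw [he.neg_one_pow]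

/-- The powers of the straight zigzags in the subgroup. -/
lemma str_zigzag {j : ℕ} (h1 : 1 ≤ j) (h2 : 2 * j = q) (h0 : hol p h j ≠ 0 ∨ r j ≠ 0) (m : ℕ) :
    (stdX (j, false) : G q) ^ m ∈ (ld H S).K ↔ r j ∣ m := by
  have hA : AA p q h r (j, true) := ⟨h1, h2.le, fun _ => ⟨rfl, h0⟩, fun h => absurd h2 h⟩
  have hP : (ld H S).P (.inl (j, true)) := hA
  have hn : (ld H S).n (j, true) = Nat.gcd (hol p h j) (r j) := by
    change nn p q h r (j, true) = _
    unfold nn; rw [if_pos h2]
  have hσ : (ld H S).σ (j, true) = (-1) ^ r j := by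
    change ss q r (j, true) = _
    unfold ss; rw [if_pos h2]
  obtain ⟨h6, h7⟩ := H.str_ne h2 h0
  constructor
  · intro hm
    obtain ⟨c, h4, h5⟩ := Dat2.pow_root hP hm (str_pow_root h2 m)
    rw [hn] at h4
    rw [hσ, map_pow, sgn_stdX] at h5
    simp only [Bool.false_eq_true, if_false] at h5
    rcases (H.straight j h2) with ⟨h8, -⟩ | ⟨h8, h9⟩ | ⟨h8, h9⟩ | ⟨h8, h9⟩
    · exact absurd h8 h6
    · rw [h8, Nat.gcd_self] at h4
      exact dvd_of_cast h4
    · rw [h8, Nat.gcd_eq_right (Dvd.intro_left 2 rfl)] at h4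
      exact dvd_of_cast h4
    · rw [h8, Nat.gcd_eq_left (Dvd.intro_left 2 rfl)] at h4
      have hr2 : Even (r j) := by rw [h8]; exact even_two_mul _
      rw [hr2.neg_one_pow, one_zpow] at h5
      have hme : Even m := by
        by_contra hc
        rw [Nat.not_even_iff_odd] at hc
        rw [hc.neg_one_pow] at h5
        exact absurd h5 (by decide)
      have hd := dvd_of_cast h4
      rw [h8]
      exact (Nat.Coprime.mul_dvd_of_dvd_of_dvd (Nat.coprime_two_left.2 h9) hme.two_dvd hd)
  · rintro ⟨c, rfl⟩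
    obtain ⟨d, hd⟩ := Nat.gcd_dvd_right (hol p h j) (r j)
    apply Dat2.stdX_mem hP ((d * c : ℕ) : ℤ)
    · intro k
      rw [str_smul h2, hn]
      congr 2
      have : (r j : ℤ) = (Nat.gcd (hol p h j) (r j) : ℤ) * d := by exact_mod_cast hd
      push_cast
      rw [this]; ring
    · rw [hσ, map_pow, sgn_stdX]
      simp only [Bool.false_eq_true, if_false]
      rw [zpow_natCast, ← pow_mul]
      by_cases hr : Even (r j)
      · rw [(hr.mul_right c).neg_one_pow, (hr.mul_right _).neg_one_pow]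
      · have hodd := Nat.not_even_iff_odd.1 hr
        have hdo : Odd d := Odd.of_dvd_nat hodd (Dvd.intro_left _ hd.symm)
        have e1 : ((-1 : ℤˣ)) ^ (r j * c) = (-1) ^ c := by
          rw [pow_mul, hodd.neg_one_pow]
        have e2 : ((-1 : ℤˣ)) ^ (r j * (d * c)) = (-1) ^ c := by
          rw [← mul_assoc, pow_mul, (hodd.mul hdo).neg_one_pow]
        rw [e1, e2]

lemma mem_iff {τ : ℕ × Bool} (h1 : 1 ≤ τ.1) (h2 : 2 * τ.1 ≤ q) (m : ℕ) :
    (stdX τ : G q) ^ m ∈ (ld H S).K ↔ (if τ.2 then hol p h τ.1 else r τ.1) ∣ m := by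
  obtain ⟨j, b⟩ := τ
  simp only at h1 h2 ⊢
  have hz : ∀ {n : ℕ}, n = 0 → (stdX (j, b) : G q) ^ n ∈ (ld H S).K := by
    rintro n rfl
    rw [pow_zero]; exact Subgroup.one_mem _
  by_cases h3 : 2 * j = q
  · by_cases h4 : hol p h j ≠ 0 ∨ r j ≠ 0
    · cases b
      · exact str_zigzag H S h1 h3 h4 m
      · exact str_hole H S h1 h3 h4 m
    · push Not at h4
      have hno : ¬ (ld H S).P (.inl (j, true)) := fun hA => by
        have h8 : hol p h j ≠ 0 ∨ r j ≠ 0 := AA_used hA
        rcases h8 with h8 | h8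
        · exact h8 h4.1
        · exact h8 h4.2
      have e : (if b = true then hol p h j else r j) = 0 := by
        split_ifs
        · exact h4.1
        · exact h4.2
      rw [e, zero_dvd_iff]
      refine ⟨fun hm => ?_, hz⟩
      apply Dat2.zero_of_unused (D := ld H S) (τ := (j, true)) ⟨h1, h2, fun _ => rfl⟩ hno hm
      cases b
      · exact str_pow_root h3 m
      · rfl
  · set L := (if b = true then hol p h j else r j) with hL
    by_cases h4 : L = 0
    · rw [h4, zero_dvd_iff]
      refine ⟨fun hm => ?_, hz⟩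
      have hno : ¬ (ld H S).P (.inl (j, b)) := by
        intro hA
        obtain ⟨-, -, -, h8⟩ := (hA : AA p q h r (j, b))
        obtain ⟨h9, h10⟩ := h8 h3
        cases b
        · simp only [Bool.false_eq_true, if_false] at hL
          exact h10 rfl (hL ▸ h4)
        · simp only [if_true] at hL
          exact h9 rfl (hL ▸ h4)
      exact Dat2.zero_of_unused (D := ld H S) (τ := (j, b))
        ⟨h1, h2, fun h => absurd h h3⟩ hno hm rfl
    · have hA : AA p q h r (j, b) := by
        refine ⟨h1, h2, fun h => absurd h h3, fun _ => ⟨fun hb => ?_, fun hb => ?_⟩⟩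
        · rw [hL] at h4
          simp only at hb
          rw [hb] at h4
          simpa using h4
        · rw [hL] at h4
          simp only at hb
          rw [hb] at h4
          simpa using h4
      have hP : (ld H S).P (.inl (j, b)) := hA
      have hn : (ld H S).n (j, b) = L := by
        change nn p q h r (j, b) = _
        unfold nn; rw [if_neg h3]
      have hσ : (ld H S).σ (j, b) = sgn (stdX (j, b) : G q) ^ L := by
        change ss q r (j, b) = _
        unfold ss; rw [if_neg h3, sgn_stdX]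
        cases b
        · simp [hL]
        · simp
      constructor
      · intro hm
        obtain ⟨c, h5, -⟩ := Dat2.pow_root hP hm rfl
        rw [hn] at h5
        exact dvd_of_cast h5
      · rintro ⟨c, rfl⟩
        apply Dat2.stdX_mem hP (c : ℤ)
        · intro k
          rw [smul_smul, ← zpow_natCast, ← zpow_add, hn]
          congr 2
          push_cast
          ring
        · rw [hσ, map_pow, zpow_natCast, pow_mul]

/-- The quotient. -/
abbrev QS : Type := G q ⧸ (ld H S).K

/-- The distinguished generators. -/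
noncomputable def rS (i : Fin 3) : QS H S := QuotientGroup.mk' (ld H S).K (gens q i)

lemma rS_hole {j : ℕ} (hj : 1 ≤ j) :
    holeOf (rS H S) j = QuotientGroup.mk' (ld H S).K (stdX (j, true)) := by
  unfold holeOf rS
  rw [← lift_hole hj]
  unfold holeWord
  simp only [map_mul, map_pow, FreeGroup.lift_apply_of]

lemma rS_zigzag {j : ℕ} :
    zigzagOf (rS H S) j = QuotientGroup.mk' (ld H S).K (stdX (j, false)) := by
  unfold zigzagOf rS
  rw [← lift_zigzag]
  unfold zigzagWord
  simp only [map_mul, map_pow, FreeGroup.lift_apply_of]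

lemma order_rS {j : ℕ} (h1 : 1 ≤ j) (h2 : 2 * j ≤ q) :
    orderOf (holeOf (rS H S) j) = hol p h j ∧ orderOf (zigzagOf (rS H S) j) = r j := by
  constructor
  · apply orderOf_of
    intro m
    rw [rS_hole H S h1, ← map_pow, QuotientGroup.mk'_apply, QuotientGroup.eq_one_iff,
      mem_iff H S h1 h2]
    simp
  · apply orderOf_of
    intro m
    rw [rS_zigzag H S, ← map_pow, QuotientGroup.mk'_apply, QuotientGroup.eq_one_iff,
      mem_iff H S h1 h2]
    simp

lemma hom_eq {Q : Type*} [Group Q] (hq : 3 ≤ q) {f g : G q →* Q}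
    (hfg : ∀ i, f (gens q i) = g (gens q i)) : f = g := by
  apply MonoidHom.eq_of_eqOn_dense (closure_gens hq)
  rintro _ ⟨i, rfl⟩
  exact hfg i

lemma eq_of_iso (S S' : Set ℕ) (e : QS H S ≃* QS H S') (he : ∀ i, e (rS H S i) = rS H S' i) :
    S = S' := by
  have hq := H.hq
  have h1 : (e : QS H S →* QS H S').comp (QuotientGroup.mk' (ld H S).K) =
      QuotientGroup.mk' (ld H S').K := hom_eq (by omega) he
  ext m
  have h2 : Dat2.wy q m ^ 11 ∈ (ld H S).K ↔ Dat2.wy q m ^ 11 ∈ (ld H S').K := by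
    rw [← QuotientGroup.eq_one_iff, ← QuotientGroup.eq_one_iff (N := (ld H S').K),
      ← QuotientGroup.mk'_apply, ← QuotientGroup.mk'_apply, ← h1, MonoidHom.comp_apply,
      MonoidHom.coe_coe, MulEquiv.map_eq_one_iff]
  rw [Dat2.wy_mem_iff, Dat2.wy_mem_iff] at h2
  exact h2

lemma thin_S : Thin (ld H S).K := Dat2.thin

lemma stringC_S : IsStringC (rS H S) := (thin_S H S).stringC (by have := H.hq; omega)

lemma order_q_S : orderOf (rS H S 1 * rS H S 2) = q :=
  (thin_S H S).order_rot (by have := H.hq; omega)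

lemma countable_QS : Countable (QS H S) := by
  have h1 : Countable (FreeGroup (Fin 3)) := FreeGroup.toWord_injective.countable
  apply Function.Surjective.countable (f := FreeGroup.lift (rS H S))
  rw [← MonoidHom.range_eq_top, FreeGroup.range_lift_eq_closure]
  exact (stringC_S H S).gen

lemma countable_iso : {S' : Set ℕ | Nonempty (QS H S ≃* QS H S')}.Countable := by
  have h1 := countable_QS H S
  rw [← Set.countable_coe_iff]
  apply Function.Injective.countable (f := fun (x : {S' : Set ℕ | Nonempty (QS H S ≃* QS H S')})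
    (i : Fin 3) => x.2.some.symm (rS H x.1 i))
  intro x y hxy
  apply Subtype.ext
  apply eq_of_iso H x.1 y.1 (x.2.some.symm.trans y.2.some)
  intro i
  have h2 := congrFun hxy i
  simp only at h2
  rw [MulEquiv.trans_apply, h2, MulEquiv.apply_symm_apply]

theorem continuum (H : Long p q h r) :
    ∃ (Q : Set ℕ → Type) (_ : ∀ S, Group (Q S)) (ρ : ∀ S, Fin 3 → Q S),
      (∀ S, IsStringC (ρ S) ∧ orderOf (ρ S 1 * ρ S 2) = q ∧
        ∀ j, 1 ≤ j → 2 * j ≤ q →
          orderOf (holeOf (ρ S) j) = hol p h j ∧ orderOf (zigzagOf (ρ S) j) = r j) ∧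
      (∀ S S', (∃ e : Q S ≃* Q S', ∀ i, e (ρ S i) = ρ S' i) → S = S') ∧
      ∀ S, {S' | Nonempty (Q S ≃* Q S')}.Countable :=
  ⟨fun S => QS H S, fun S => inferInstance, fun S => rS H S,
    fun S => ⟨stringC_S H S, order_q_S H S, fun _ h1 h2 => order_rS H S h1 h2⟩,
    fun S S' ⟨e, he⟩ => eq_of_iso H S S' e he, fun S => countable_iso H S⟩

end Pool.Agent.Helper477_holes
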