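import Mathlib
import Pool.Agent.Helper477_holes.StringC

set_option autoImplicit false

/-!
# Finite covers with the same lengths: the linear algebra

Functions on a finite group `G`, as a module over the group, and the wreath product of the
coefficients with `G`.
-/

namespace Pool.Agent.Helper477_holes.Twin

open Module

/-! ### The wreath product -/

/-- Pairs of a function on `G` and an element of `G`. -/
@[ext] structure WR (G F : Type*) where
  s : G → F
  g : G

namespace WR

variable {G F : Type*} [Group G] [AddCommGroup F]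

instance : Mul (WR G F) := ⟨fun a b => ⟨fun x => a.s x + b.s (x * a.g), a.g * b.g⟩⟩
instance : One (WR G F) := ⟨⟨0, 1⟩⟩
instance : Inv (WR G F) := ⟨fun a => ⟨fun x => - a.s (x * a.g⁻¹), a.g⁻¹⟩⟩

lemma mul_s (a b : WR G F) (x : G) : (a * b).s x = a.s x + b.s (x * a.g) := rfl
lemma mul_g (a b : WR G F) : (a * b).g = a.g * b.g := rfl
lemma one_s (x : G) : (1 : WR G F).s x = 0 := rfl
lemma one_g : (1 : WR G F).g = 1 := rfl
lemma inv_s (a : WR G F) (x : G) : (a⁻¹).s x = - a.s (x * a.g⁻¹) := rfl
lemma inv_g (a : WR G F) : (a⁻¹).g = a.g⁻¹ := rfl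

instance : Group (WR G F) where
  mul_assoc a b c := by
    apply WR.ext
    · funext x
      simp only [mul_s, mul_g]
      rw [add_assoc, mul_assoc]
    · simp only [mul_g, mul_assoc]
  one_mul a := by
    apply WR.ext
    · funext x
      simp only [mul_s, one_s, one_g, mul_one, zero_add]
    · simp only [mul_g, one_g, one_mul]
  mul_one a := by
    apply WR.ext
    · funext x
      simp only [mul_s, one_s, add_zero]
    · simp only [mul_g, one_g, mul_one]
  inv_mul_cancel a := by
    apply WR.ext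
    · funext x
      simp only [mul_s, inv_s, inv_g, one_s]
      rw [neg_add_cancel]
    · simp only [mul_g, inv_g, one_g, inv_mul_cancel]

/-- the projection -/
def pr : WR G F →* G where
  toFun := WR.g
  map_one' := rfl
  map_mul' _ _ := rfl

/-- the embedding of `G` -/
def emb : G →* WR G F where
  toFun g := ⟨0, g⟩
  map_one' := rfl
  map_mul' a b := by
    apply WR.ext
    · funext x
      simp [mul_s]
    · rfl

lemma emb_s (g x : G) : (emb g : WR G F).s x = 0 := rfl
lemma emb_g (g : G) : (emb g : WR G F).g = g := rfl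

lemma pow_g (a : WR G F) (n : ℕ) : (a ^ n).g = a.g ^ n := map_pow pr a n

lemma pow_s (a : WR G F) (n : ℕ) (x : G) :
    (a ^ n).s x = ∑ i ∈ Finset.range n, a.s (x * a.g ^ i) := by
  induction n with
  | zero => simp [one_s]
  | succ n ih => rw [pow_succ, mul_s, ih, pow_g, Finset.sum_range_succ]

/-- the generator `ρ₀`, twisted -/
def tw (ρ0 : G) (a : G → F) : WR G F := ⟨fun x => a (x * ρ0) - a x, ρ0⟩

lemma tw_mul_s (ρ0 d : G) (a : G → F) (x : G) :
    (tw ρ0 a * emb d).s x = a (x * ρ0) - a x := by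
  simp [mul_s, tw, emb_s]

lemma tw_mul_g (ρ0 d : G) (a : G → F) : (tw ρ0 a * emb d).g = ρ0 * d := rfl

lemma tw_sq {ρ0 : G} (h0 : ρ0 ^ 2 = 1) (a : G → F) : tw ρ0 a ^ 2 = 1 := by
  rw [sq] at h0
  apply WR.ext
  · funext x
    rw [sq, mul_s]
    simp only [tw, one_s]
    rw [mul_assoc, h0, mul_one]
    abel
  · rw [sq]; exact h0

lemma tw_pow_s (ρ0 d : G) (a : G → F) (n : ℕ) (x : G) :
    ((tw ρ0 a * emb d) ^ n).s x =
      ∑ i ∈ Finset.range n, (a (x * (ρ0 * d) ^ i * ρ0) - a (x * (ρ0 * d) ^ i)) := by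
  rw [pow_s]
  apply Finset.sum_congr rfl
  intro i _
  rw [tw_mul_s, tw_mul_g]

end WR

/-! ### Invariant functions -/

section inv

variable {G : Type*} [Group G] (F : Type*) [Field F]

/-- the functions invariant under right multiplication by `H` -/
def inv (H : Subgroup G) : Submodule F (G → F) where
  carrier := {f | ∀ h ∈ H, ∀ x, f (x * h) = f x}
  add_mem' := by
    intro f g hf hg h hh x
    simp only [Pi.add_apply, hf h hh, hg h hh]
  zero_mem' := fun _ _ _ => rfl
  smul_mem' := by
    intro c f hf h hh x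
    simp only [Pi.smul_apply, hf h hh]

variable {F}

lemma mem_inv {H : Subgroup G} {f : G → F} : f ∈ inv F H ↔ ∀ h ∈ H, ∀ x, f (x * h) = f x :=
  Iff.rfl

/-- Invariant functions are functions on the cosets. -/
noncomputable def invEquiv (H : Subgroup G) : inv F H ≃ₗ[F] (G ⧸ H → F) where
  toFun f := fun c => f.1 c.out
  map_add' _ _ := rfl
  map_smul' _ _ := rfl
  invFun f := ⟨fun x => f (x : G ⧸ H), by
    intro h hh x
    have e : ((x * h : G) : G ⧸ H) = (x : G ⧸ H) := by
      rw [QuotientGroup.eq]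
      simpa using H.inv_mem hh
    simp only [e]⟩
  left_inv f := by
    ext x
    change f.1 ((x : G ⧸ H).out) = f.1 x
    obtain ⟨h, hh⟩ := QuotientGroup.mk_out_eq_mul H x
    rw [hh]
    exact f.2 h h.2 x
  right_inv f := by
    funext c
    change f ((c.out : G ⧸ H)) = f c
    rw [QuotientGroup.out_eq']

lemma finrank_inv [Finite G] (H : Subgroup G) : finrank F (inv F H) * Nat.card H = Nat.card G := by
  have := Fintype.ofFinite (G ⧸ H)
  rw [(invEquiv (F := F) H).finrank_eq, Module.finrank_fintype_fun_eq_card,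
    ← Nat.card_eq_fintype_card, mul_comm]
  exact H.card_mul_index

/-- the functions invariant under `w` and changing sign under `τ` -/
def anti (F : Type*) [Field F] (w τ : G) : Submodule F (G → F) where
  carrier := {f | (∀ x, f (x * w) = f x) ∧ ∀ x, f (x * τ) = - f x}
  add_mem' := by
    rintro f g ⟨hf, hf'⟩ ⟨hg, hg'⟩
    refine ⟨fun x => ?_, fun x => ?_⟩
    · simp only [Pi.add_apply, hf, hg]
    · simp only [Pi.add_apply, hf', hg']; ring
  zero_mem' := ⟨fun _ => rfl, fun _ => by simp⟩
  smul_mem' := by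
    rintro c f ⟨hf, hf'⟩
    refine ⟨fun x => ?_, fun x => ?_⟩
    · simp only [Pi.smul_apply, hf]
    · simp only [Pi.smul_apply, hf', smul_neg]

lemma finrank_anti [Finite G] {w τ : G} (hτ : τ ∉ Subgroup.zpowers w) :
    finrank F (anti F w τ) * (2 * orderOf w) ≤ Nat.card G := by
  set H := Subgroup.closure {w, τ} with hH
  have hz : ∀ h ∈ H, ∀ f ∈ anti F w τ, ∀ x, f (x * h) = f x ∨ f (x * h) = - f x := by
    intro h hh f hf
    induction hh using Subgroup.closure_induction with
    | mem h hh =>
      intro x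
      rcases hh with rfl | hh
      · exact Or.inl (hf.1 x)
      · rw [Set.mem_singleton_iff] at hh
        subst hh
        exact Or.inr (hf.2 x)
    | one => intro x; left; rw [mul_one]
    | mul a b _ _ iha ihb =>
      intro x
      rw [← mul_assoc]
      rcases iha x with h1 | h1 <;> rcases ihb (x * a) with h2 | h2 <;> rw [h2, h1]
      · left; rfl
      · right; rfl
      · right; rfl
      · left; rw [neg_neg]
    | inv a _ iha =>
      intro x
      have := iha (x * a⁻¹)
      rw [inv_mul_cancel_right] at this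
      rcases this with h1 | h1
      · left; exact h1.symm
      · right; rw [h1, neg_neg]
  have hfin := Fintype.ofFinite (G ⧸ H)
  let L : anti F w τ →ₗ[F] (G ⧸ H → F) :=
    { toFun := fun f c => f.1 c.out
      map_add' := fun _ _ => rfl
      map_smul' := fun _ _ => rfl }
  have hL : Function.Injective L := by
    rw [injective_iff_map_eq_zero]
    intro f hf
    ext x
    obtain ⟨h, hh⟩ := QuotientGroup.mk_out_eq_mul H x
    have h1 : f.1 ((x : G ⧸ H).out) = 0 := congrFun hf (x : G ⧸ H)
    rw [hh] at h1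
    rcases hz h h.2 f.1 f.2 x with h2 | h2
    · rw [← h2]; exact h1
    · rw [h2, neg_eq_zero] at h1; exact h1
  have h1 : finrank F (anti F w τ) ≤ Nat.card (G ⧸ H) := by
    have := LinearMap.finrank_le_finrank_of_injective hL
    rwa [Module.finrank_fintype_fun_eq_card, ← Nat.card_eq_fintype_card] at this
  have h2 : 2 * orderOf w ≤ Nat.card H := by
    have hle : Subgroup.zpowers w ≤ H := by
      rw [Subgroup.zpowers_le]
      exact Subgroup.subset_closure (by simp)
    have h3 := Subgroup.card_dvd_of_le hle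
    rw [Nat.card_zpowers] at h3
    obtain ⟨c, hc⟩ := h3
    have hpos : 0 < Nat.card H := Nat.card_pos
    have hc1 : c ≠ 1 := by
      rintro rfl
      rw [mul_one] at hc
      have : Subgroup.zpowers w = H := by
        apply Subgroup.eq_of_le_of_card_ge hle
        rw [Nat.card_zpowers, hc]
      apply hτ
      rw [this]
      exact Subgroup.subset_closure (by simp)
    have hc0 : c ≠ 0 := by
      rintro rfl
      rw [mul_zero] at hc
      omega
    rw [hc, mul_comm]
    exact Nat.mul_le_mul_left _ (by omega)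
  calc finrank F (anti F w τ) * (2 * orderOf w) ≤ Nat.card (G ⧸ H) * Nat.card H :=
        Nat.mul_le_mul h1 h2
    _ = Nat.card G := by rw [mul_comm]; exact H.card_mul_index

/-- the sum over a cycle -/
def cyc (ρ0 w : G) (n : ℕ) : (G → F) →ₗ[F] (G → F) where
  toFun a := fun x => ∑ i ∈ Finset.range n, (a (x * w ^ i * ρ0) - a (x * w ^ i))
  map_add' a b := by
    funext x
    simp only [Pi.add_apply]
    rw [← Finset.sum_add_distrib]
    apply Finset.sum_congr rfl
    intro i _
    ring
  map_smul' c a := by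
    funext x
    simp only [Pi.smul_apply, RingHom.id_apply, smul_eq_mul]
    rw [Finset.mul_sum]
    apply Finset.sum_congr rfl
    intro i _
    ring

lemma cyc_apply (ρ0 w : G) (n : ℕ) (a : G → F) (x : G) : cyc ρ0 w n a x =
    ∑ i ∈ Finset.range n, (a (x * w ^ i * ρ0) - a (x * w ^ i)) := rfl

lemma sum_shift {w : G} {n : ℕ} (hw : w ^ n = 1) (f : G → F) :
    ∑ i ∈ Finset.range n, f (w ^ (i + 1)) = ∑ i ∈ Finset.range n, f (w ^ i) := by
  have h1 := Finset.sum_range_succ (fun i => f (w ^ i)) n
  have h2 := Finset.sum_range_succ' (fun i => f (w ^ i)) n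
  rw [h1] at h2
  rw [hw, pow_zero] at h2
  exact (add_right_cancel h2).symm

lemma sum_inv {w : G} {n : ℕ} (hw : w ^ n = 1) (f : G → F) :
    ∑ i ∈ Finset.range n, f ((w ^ i)⁻¹) = ∑ i ∈ Finset.range n, f (w ^ i) := by
  rw [← sum_shift hw f, ← Finset.sum_range_reflect]
  apply Finset.sum_congr rfl
  intro i hi
  rw [Finset.mem_range] at hi
  congr 1
  rw [inv_eq_iff_mul_eq_one, ← pow_add]
  rw [show n - 1 - i + (i + 1) = n by omega, hw]

lemma cyc_anti {ρ0 ρ2 w τ : G} {n : ℕ} (hw : w ^ n = 1) (h0 : ρ0 ^ 2 = 1) (h2 : ρ2 ^ 2 = 1)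
    (h02 : ρ0 * ρ2 = ρ2 * ρ0) (hτ : τ = ρ0 ∨ τ = ρ0 * ρ2) (hτw : τ * w = w⁻¹ * τ)
    {a : G → F} (ha : a ∈ inv F (Subgroup.zpowers ρ2)) : cyc ρ0 w n a ∈ anti F w τ := by
  have ha2 : ∀ x, a (x * ρ2) = a x := fun x => ha ρ2 (Subgroup.mem_zpowers ρ2) x
  have e1 : ∀ y, a (y * τ * ρ0) = a y := by
    intro y
    rw [sq] at h0
    rcases hτ with rfl | rfl
    · rw [mul_assoc, h0, mul_one]
    · rw [mul_assoc, h02, mul_assoc, h0, mul_one, ha2]
  have e2 : ∀ y, a (y * τ) = a (y * ρ0) := by
    intro y
    rcases hτ with rfl | rfl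
    · rfl
    · rw [← mul_assoc, ha2]
  have e3 : ∀ i : ℕ, τ * w ^ i = (w ^ i)⁻¹ * τ := by
    intro i
    induction i with
    | zero => simp
    | succ i ih => rw [pow_succ, ← mul_assoc, ih, mul_assoc, hτw, mul_inv_rev, ← mul_assoc,
        ← mul_inv_rev, ← mul_inv_rev, ← pow_succ', pow_succ]
  refine ⟨fun x => ?_, fun x => ?_⟩
  · rw [cyc_apply, cyc_apply]
    have := sum_shift hw (fun y => a (x * y * ρ0) - a (x * y))
    rw [← this]
    apply Finset.sum_congr rfl
    intro i _
    rw [pow_succ', mul_assoc x w]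
  · rw [cyc_apply, cyc_apply]
    have := sum_inv hw (fun y => a (x * y * ρ0) - a (x * y))
    rw [← this, ← Finset.sum_neg_distrib]
    apply Finset.sum_congr rfl
    intro i _
    rw [mul_assoc x τ, e3, ← mul_assoc, e1, e2]
    ring

end inv

end Pool.Agent.Helper477_holes.Twin
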