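import Mathlib
import Pool.Agent.Helper477_holes.Defs3
import Pool.Agent.Helper477_holes.Exact
import Pool.Agent.Helper477_holes.Twin

set_option autoImplicit false

/-!
# Finite covers with the same lengths
-/

namespace Pool.Agent.Helper477_holes.Twin

open Module

/-! ### Dimensions -/

section dim

variable {F : Type*} [Field F] {G : Type*} [Group G] [Finite G]

lemma card_ge {H : Subgroup G} {w τ : G} (hw : w ∈ H) (hτ : τ ∈ H)
    (hn : τ ∉ Subgroup.zpowers w) : 2 * orderOf w ≤ Nat.card H := by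
  have hle : Subgroup.zpowers w ≤ H := by
    rw [Subgroup.zpowers_le]
    exact hw
  have h3 := Subgroup.card_dvd_of_le hle
  rw [Nat.card_zpowers] at h3
  obtain ⟨c, hc⟩ := h3
  have hpos : 0 < Nat.card H := Nat.card_pos
  have hc1 : c ≠ 1 := by
    rintro rfl
    rw [mul_one] at hc
    have : Subgroup.zpowers w = H := by
      apply Subgroup.eq_of_le_of_card_ge hle
      rw [Nat.card_zpowers, hc]
    apply hn
    rw [this]
    exact hτ
  have hc0 : c ≠ 0 := by
    rintro rfl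
    rw [mul_zero] at hc
    omega
  rw [hc, mul_comm]
  exact Nat.mul_le_mul_left _ (by omega)

lemma finrank_step {V : Type*} [AddCommGroup V] [Module F V] [FiniteDimensional F V]
    (W U : Submodule F V) (S : V →ₗ[F] V) (h : ∀ v ∈ W, S v ∈ U) :
    finrank F W ≤ finrank F (W ⊓ LinearMap.ker S : Submodule F V) + finrank F U := by
  have h1 := (S.domRestrict W).finrank_range_add_finrank_ker
  have h2 : finrank F (LinearMap.range (S.domRestrict W)) ≤ finrank F U := by
    apply Submodule.finrank_mono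
    rintro _ ⟨v, rfl⟩
    exact h v v.2
  have h3 : finrank F (LinearMap.ker (S.domRestrict W)) ≤
      finrank F (W ⊓ LinearMap.ker S : Submodule F V) := by
    rw [← Submodule.finrank_map_subtype_eq W (LinearMap.ker (S.domRestrict W))]
    apply Submodule.finrank_mono
    rintro _ ⟨v, hv, rfl⟩
    exact ⟨v.2, hv⟩
  omega

lemma finrank_steps {V ι : Type*} [AddCommGroup V] [Module F V] [FiniteDimensional F V]
    [DecidableEq ι] (W : Submodule F V) (U : ι → Submodule F V) (S : ι → V →ₗ[F] V)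
    (s : Finset ι) (h : ∀ i ∈ s, ∀ v ∈ W, S i v ∈ U i) :
    ∃ W' : Submodule F V, W' ≤ W ∧ (∀ i ∈ s, ∀ v ∈ W', S i v = 0) ∧
      finrank F W ≤ finrank F W' + ∑ i ∈ s, finrank F (U i) := by
  induction s using Finset.induction_on with
  | empty => exact ⟨W, le_rfl, by simp, by simp⟩
  | insert i s hi ih =>
    obtain ⟨W', h1, h2, h3⟩ := ih (fun j hj => h j (Finset.mem_insert_of_mem hj))
    refine ⟨W' ⊓ LinearMap.ker (S i), inf_le_left.trans h1, ?_, ?_⟩
    · intro j hj v hv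
      rcases Finset.mem_insert.1 hj with rfl | hj
      · exact hv.2
      · exact h2 j hj v hv.1
    · have h4 := finrank_step W' (U i) (S i)
        (fun v hv => h i (Finset.mem_insert_self _ _) v (h1 hv))
      rw [Finset.sum_insert hi]
      omega

lemma inv_closure {A : Set G} {f : G → F} (h : ∀ a ∈ A, ∀ x, f (x * a) = f x) :
    f ∈ inv F (Subgroup.closure A) := by
  intro b hb
  induction hb using Subgroup.closure_induction with
  | mem a ha => exact h a ha
  | one => intro x; rw [mul_one]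
  | mul a b _ _ iha ihb => intro x; rw [← mul_assoc, ihb, iha]
  | inv a _ iha =>
    intro x
    have := iha (x * a⁻¹)
    rw [inv_mul_cancel_right] at this
    exact this.symm

end dim

/-! ### The covers -/

variable {p q : ℕ} {h r : ℕ → ℕ}

/-- the relations which have to be taken care of -/
def tok (p q : ℕ) (h r : ℕ → ℕ) : Finset (ℕ × Bool) :=
  (Finset.Icc 1 (q / 2) ×ˢ Finset.univ).filter fun τ =>
    (τ.2 = true → hol p h τ.1 ≠ 0 ∧ (2 * τ.1 = q → r τ.1 = 0 ∨ hol p h τ.1 ≤ r τ.1)) ∧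
    (τ.2 = false → r τ.1 ≠ 0 ∧ (2 * τ.1 = q → hol p h τ.1 = 0 ∨ r τ.1 < hol p h τ.1))

/-- the exponents -/
def ex (p : ℕ) (h r : ℕ → ℕ) (τ : ℕ × Bool) : ℕ := if τ.2 then hol p h τ.1 else r τ.1

/-- the part of the relation in the group of the vertex -/
def dl {Γ : Type*} [Group Γ] (ρ : Fin 3 → Γ) (τ : ℕ × Bool) : Γ :=
  if τ.2 then ρ 1 * (ρ 2 * ρ 1) ^ (τ.1 - 1) else (ρ 1 * ρ 2) ^ τ.1

/-- the reflection -/
def rf {Γ : Type*} [Group Γ] (ρ : Fin 3 → Γ) (τ : ℕ × Bool) : Γ :=
  if τ.2 then ρ 0 else ρ 0 * ρ 2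

lemma mem_tok {τ : ℕ × Bool} : τ ∈ tok p q h r ↔ (1 ≤ τ.1 ∧ 2 * τ.1 ≤ q) ∧
    (τ.2 = true → hol p h τ.1 ≠ 0 ∧ (2 * τ.1 = q → r τ.1 = 0 ∨ hol p h τ.1 ≤ r τ.1)) ∧
    (τ.2 = false → r τ.1 ≠ 0 ∧ (2 * τ.1 = q → hol p h τ.1 = 0 ∨ r τ.1 < hol p h τ.1)) := by
  unfold tok
  rw [Finset.mem_filter, Finset.mem_product, Finset.mem_Icc]
  constructor
  · rintro ⟨⟨⟨h1, h2⟩, -⟩, h3⟩
    exact ⟨⟨h1, by omega⟩, h3⟩
  · rintro ⟨⟨h1, h2⟩, h3⟩
    exact ⟨⟨⟨h1, by omega⟩, Finset.mem_univ _⟩, h3⟩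

lemma sum_tok : 1 / (q : ℚ) + ∑ τ ∈ tok p q h r, 1 / (ex p h r τ : ℚ) ≤ lenSum p q h r := by
  unfold lenSum tok
  rw [add_le_add_iff_left, Finset.sum_filter, Finset.sum_product]
  apply Finset.sum_le_sum
  intro j _
  rw [Fintype.sum_bool]
  have h1 : (0 : ℚ) ≤ 1 / (hol p h j : ℚ) := by positivity
  have h2 : (0 : ℚ) ≤ 1 / (r j : ℚ) := by positivity
  simp only [ex, if_true, Bool.false_eq_true, if_false, true_implies, false_implies,
    Bool.true_eq_false, and_true, true_and]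
  by_cases h3 : 2 * j = q
  · simp only [h3, true_implies, if_true]
    by_cases h4 : hol p h j = 0
    · by_cases h5 : r j = 0
      · simp [h4, h5]
      · simp [h4, h5]
    · by_cases h5 : r j = 0
      · simp [h4, h5]
      · by_cases h6 : hol p h j ≤ r j
        · have h7 : ¬ r j < hol p h j := by omega
          simp [h4, h5, h6, h7]
        · have h7 : r j < hol p h j := by omega
          simp [h4, h5, h6, h7]
  · simp only [h3, false_implies, and_true, if_false]
    by_cases h4 : hol p h j = 0 <;> by_cases h5 : r j = 0 <;> simp [h4, h5]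

section grp

variable {Γ : Type*} [Group Γ] {ρ : Fin 3 → Γ}

lemma semi {a b : Γ} (m : ℕ) : a * (b * a) ^ m = (a * b) ^ m * a := by
  have h1 : SemiconjBy a (b * a) (a * b) := by
    change a * (b * a) = a * b * a
    rw [mul_assoc]
  exact h1.pow_right m

lemma inv_self {a : Γ} (h : a ^ 2 = 1) : a⁻¹ = a := by
  rw [inv_eq_iff_mul_eq_one, ← sq, h]

lemma ba_inv {a b : Γ} (ha : a ^ 2 = 1) (hb : b ^ 2 = 1) : (a * b)⁻¹ = b * a := by
  rw [mul_inv_rev, inv_self ha, inv_self hb]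

lemma rf_conj (hinv : ∀ i, ρ i ^ 2 = 1) (hcomm : ρ 0 * ρ 2 = ρ 2 * ρ 0) (τ : ℕ × Bool) :
    rf ρ τ * (ρ 0 * dl ρ τ) = (ρ 0 * dl ρ τ)⁻¹ * rf ρ τ := by
  have h00 : ρ 0 * ρ 0 = 1 := by rw [← sq, hinv]
  have h11 : ρ 1 * ρ 1 = 1 := by rw [← sq, hinv]
  unfold rf dl
  split_ifs with h1
  · rw [← mul_assoc, h00, one_mul, mul_inv_rev, inv_self (hinv 0), mul_assoc, h00, mul_one,
      eq_inv_iff_mul_eq_one]
    nth_rewrite 1 [semi]
    rw [mul_assoc, ← mul_assoc (ρ 1), h11, one_mul, ← ba_inv (hinv 1) (hinv 2), inv_pow,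
      mul_inv_cancel]
  · rw [mul_inv_rev, inv_self (hinv 0), mul_assoc _ (ρ 0), ← mul_assoc (ρ 0) (ρ 0), h00, one_mul,
      hcomm, mul_assoc, ← mul_assoc (ρ 0), h00, one_mul, semi, ← inv_pow,
      ba_inv (hinv 1) (hinv 2)]

/-- the straight paths -/
lemma straight_eq (hinv : ∀ i, ρ i ^ 2 = 1) (hcomm : ρ 0 * ρ 2 = ρ 2 * ρ 0) {j : ℕ}
    (hj : 1 ≤ j) (hq : (ρ 1 * ρ 2) ^ (2 * j) = 1) :
    holeOf ρ j = zigzagOf ρ j * ρ 2 ∧ Commute (zigzagOf ρ j) (ρ 2) := by
  have h22 : ρ 2 * ρ 2 = 1 := by rw [← sq, hinv]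
  have hζ : (ρ 2 * ρ 1) ^ j = (ρ 1 * ρ 2) ^ j := by
    rw [← ba_inv (hinv 1) (hinv 2), inv_pow, inv_eq_iff_mul_eq_one, ← pow_add, ← two_mul, hq]
  have h2ζ : ρ 2 * (ρ 1 * ρ 2) ^ j = (ρ 1 * ρ 2) ^ j * ρ 2 := by
    rw [semi, hζ]
  have hc : Commute (zigzagOf ρ j) (ρ 2) := by
    unfold zigzagOf
    change ρ 0 * (ρ 1 * ρ 2) ^ j * ρ 2 = ρ 2 * (ρ 0 * (ρ 1 * ρ 2) ^ j)
    rw [← mul_assoc (ρ 2), ← hcomm, mul_assoc, mul_assoc, h2ζ]
  refine ⟨?_, hc⟩
  obtain ⟨i, rfl⟩ := Nat.exists_eq_add_of_le hj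
  unfold holeOf zigzagOf
  rw [Nat.add_sub_cancel_left]
  have h3 : (ρ 1 * ρ 2) ^ (1 + i) = ρ 2 * ρ 1 * (ρ 2 * ρ 1) ^ i := by
    rw [← hζ, pow_add, pow_one]
  rw [mul_assoc (ρ 0) _ (ρ 2), ← h2ζ, h3, ← mul_assoc (ρ 2), ← mul_assoc (ρ 2), h22, one_mul,
    mul_assoc (ρ 0)]

lemma straight_orders {X Z t : Γ} (hX : X = Z * t) (hc : Commute Z t) (ht : t ^ 2 = 1)
    (ht1 : t ≠ 1) {m n : ℕ} (hm : orderOf X = m) (hn : orderOf Z = n) (hm0 : m ≠ 0)
    (hn0 : n ≠ 0) :
    (m ≤ n → m ∣ n ∧ Even n) ∧ (n < m → m = 2 * n) := by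
  have hpow : ∀ k, X ^ k = Z ^ k * t ^ k := fun k => by rw [hX, hc.mul_pow]
  have heven : ∀ k, Even k → t ^ k = 1 := by
    rintro k ⟨c, rfl⟩
    rw [← two_mul, pow_mul, ht, one_pow]
  have hodd : ∀ k, Odd k → t ^ k = t := by
    rintro k ⟨c, rfl⟩
    rw [pow_succ, pow_mul, ht, one_pow, one_mul]
  have hXm : X ^ m = 1 := hm ▸ pow_orderOf_eq_one X
  have hZn : Z ^ n = 1 := hn ▸ pow_orderOf_eq_one Z
  have dX : ∀ k, X ^ k = 1 → m ∣ k := fun k h => hm ▸ orderOf_dvd_of_pow_eq_one h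
  have dZ : ∀ k, Z ^ k = 1 → n ∣ k := fun k h => hn ▸ orderOf_dvd_of_pow_eq_one h
  constructor
  · intro hmn
    rcases Nat.even_or_odd m with he | ho
    · have h1 : Z ^ m = 1 := by
        have := hpow m
        rw [hXm, heven m he, mul_one] at this
        exact this.symm
      have h2 : n = m := le_antisymm (Nat.le_of_dvd (by omega) (dZ m h1)) hmn
      rw [h2]; exact ⟨dvd_rfl, he⟩
    · have h1 : Z ^ (2 * m) = 1 := by
        have := hpow (2 * m)
        rw [heven _ (even_two_mul m), mul_one, mul_comm, pow_mul, hXm, one_pow] at this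
        rw [mul_comm]; exact this.symm
      have h2 := dZ _ h1
      have h3 : n ≠ m := by
        rintro rfl
        have := hpow n
        rw [hXm, hZn, hodd n ho, one_mul] at this
        exact ht1 this.symm
      obtain ⟨c, hc'⟩ := h2
      have hc1 : c = 1 := by
        have h4 : m < n := by omega
        have h5 : c < 2 := by
          by_contra h6
          push Not at h6
          have : 2 * n ≤ n * c := by
            rw [mul_comm]; exact Nat.mul_le_mul_left n h6
          omega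
        have h6 : c ≠ 0 := by
          rintro rfl
          omega
        omega
      rw [hc1, mul_one] at hc'
      exact ⟨⟨2, by omega⟩, ⟨m, by omega⟩⟩
  · intro hnm
    rcases Nat.even_or_odd n with he | ho
    · exfalso
      have h1 : X ^ n = 1 := by rw [hpow, hZn, heven n he, mul_one]
      have := Nat.le_of_dvd (by omega) (dX n h1)
      omega
    · have h1 : X ^ (2 * n) = 1 := by
        rw [hpow, heven _ (even_two_mul n), mul_one, mul_comm, pow_mul, hZn, one_pow]
      obtain ⟨c, hc'⟩ := dX _ h1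
      have hc1 : c = 1 := by
        have h5 : c < 2 := by
          by_contra h6
          push Not at h6
          have : 2 * m ≤ m * c := by
            rw [mul_comm]; exact Nat.mul_le_mul_left m h6
          omega
        have h6 : c ≠ 0 := by
          rintro rfl
          omega
        omega
      rw [hc1, mul_one] at hc'
      exact hc'.symm

lemma holeOf_eq (ρ : Fin 3 → Γ) (j : ℕ) : holeOf ρ j = ρ 0 * dl ρ (j, true) := by
  unfold holeOf dl
  simp only [if_true]
  rw [mul_assoc]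

lemma zigzagOf_eq (ρ : Fin 3 → Γ) (j : ℕ) : zigzagOf ρ j = ρ 0 * dl ρ (j, false) := by
  unfold zigzagOf dl
  simp

lemma map_holeOf {Q : Type*} [Group Q] (φ : Γ →* Q) (ρ : Fin 3 → Γ) (j : ℕ) :
    holeOf (fun i => φ (ρ i)) j = φ (holeOf ρ j) := by
  unfold holeOf; simp only [map_mul, map_pow]

lemma map_zigzagOf {Q : Type*} [Group Q] (φ : Γ →* Q) (ρ : Fin 3 → Γ) (j : ℕ) :
    zigzagOf (fun i => φ (ρ i)) j = φ (zigzagOf ρ j) := by
  unfold zigzagOf; simp only [map_mul, map_pow]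

end grp

lemma holeOf_rho (j : ℕ) : holeOf (rho p q h r) j = hole p q h r j := rfl
lemma zigzagOf_rho (j : ℕ) : zigzagOf (rho p q h r) j = zigzag p q h r j := rfl

/-- The lengths of a group between `Γ` and a group with exact lengths are exact. -/
lemma between {G Q : Type*} [Group G] [Group Q] (φ : Gam p q h r →* Q)
    (hφ : Function.Surjective φ) (π : Q →* G) (hG : HasLengths p q h r
      (fun i => π (φ (rho p q h r i)))) (hp : 3 ≤ p) (hq : 3 ≤ q) :
    HasLengths p q h r (fun i => φ (rho p q h r i)) := by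
  have hh : ∀ j, 1 ≤ j → 2 * j ≤ q → hol p h j ≠ 0 →
      orderOf (holeOf (fun i => φ (rho p q h r i)) j) = hol p h j := by
    intro j h1 h2 h3
    apply Nat.dvd_antisymm
    · apply orderOf_dvd_of_pow_eq_one
      rw [map_holeOf, holeOf_rho, ← map_pow, hole_pow h1 h2, map_one]
    · have h4 := hG.holes j h1 h2 h3
      have h5 : holeOf (fun i => π (φ (rho p q h r i))) j =
          π (holeOf (fun i => φ (rho p q h r i)) j) := map_holeOf π _ j
      rw [h5] at h4
      rw [← h4]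
      exact orderOf_map_dvd _ _
  have hz : ∀ j, 1 ≤ j → 2 * j ≤ q → r j ≠ 0 →
      orderOf (zigzagOf (fun i => φ (rho p q h r i)) j) = r j := by
    intro j h1 h2 h3
    apply Nat.dvd_antisymm
    · apply orderOf_dvd_of_pow_eq_one
      rw [map_zigzagOf, zigzagOf_rho, ← map_pow, zigzag_pow h1 h2, map_one]
    · have h4 := hG.zigzags j h1 h2 h3
      have h5 : zigzagOf (fun i => π (φ (rho p q h r i))) j =
          π (zigzagOf (fun i => φ (rho p q h r i)) j) := map_zigzagOf π _ j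
      rw [h5] at h4
      rw [← h4]
      exact orderOf_map_dvd _ _
  have hd : orderOf (φ (rho p q h r 1) * φ (rho p q h r 2)) = q := by
    apply Nat.dvd_antisymm
    · apply orderOf_dvd_of_pow_eq_one
      rw [← map_mul, ← map_pow, rho12_pow, map_one]
    · have h4 : orderOf (π (φ (rho p q h r 1)) * π (φ (rho p q h r 2))) = q := hG.deg
      rw [← map_mul π] at h4
      exact h4.symm.dvd.trans (orderOf_map_dvd π _)
  have h01 : orderOf (π (φ (rho p q h r 0)) * π (φ (rho p q h r 1))) = p := by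
    have := hG.holes 1 le_rfl (by omega) (by simp [hol]; omega)
    simpa [holeOf, hol] using this
  have ne2 : ∀ {x : G} {n : ℕ}, 3 ≤ n → orderOf x = n → x ^ 2 ≠ 1 := by
    intro x n hn hx h1
    have := Nat.le_of_dvd (by norm_num) (orderOf_dvd_of_pow_eq_one h1)
    omega
  refine ⟨?_, hd, hh, hz⟩
  apply IsStringC.lift π hG.stringC
  · have h1 : (Set.range fun i => φ (rho p q h r i)) = φ '' (Set.range (rho p q h r)) := by
      rw [← Set.range_comp]; rfl
    rw [h1, ← MonoidHom.map_closure, closure_rho, ← MonoidHom.range_eq_map,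
      MonoidHom.range_eq_top]
    exact hφ
  · intro i
    rw [← map_pow, rho_sq, map_one]
  · rw [← map_mul, rho02_comm, map_mul]
  · rw [h01, ← map_mul, ← map_pow, rho01_pow, map_one]
  · exact ne2 hp h01
  · have : orderOf (π (φ (rho p q h r 1)) * π (φ (rho p q h r 2))) = q := hG.deg
    rw [this, ← map_mul, ← map_pow, rho12_pow, map_one]
  · exact ne2 hq hG.deg

end Pool.Agent.Helper477_holes.Twin
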