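import Mathlib
import Pool.Agent.Helper477_holes.TwinMain

set_option autoImplicit false

/-!
# Finite covers with the same lengths: the conclusion
-/

namespace Pool.Agent.Helper477_holes.Twin

open Module

variable {p q : ℕ} {h r : ℕ → ℕ}

lemma sq_mul {Q : Type*} [Group Q] {a : Q} (h : a ^ 2 = 1) : a * a = 1 := by rw [← sq, h]

/-- the relators hold -/
lemma lift_one {Q : Type*} [Group Q] (τ : Fin 3 → Q) (hq : 2 ≤ q) (hinv : ∀ i, τ i ^ 2 = 1)
    (hcomm : τ 0 * τ 2 = τ 2 * τ 0) (hrot : (τ 1 * τ 2) ^ q = 1)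
    (hh : ∀ j, 1 ≤ j → 2 * j ≤ q → holeOf τ j ^ hol p h j = 1)
    (hz : ∀ j, 1 ≤ j → 2 * j ≤ q → zigzagOf τ j ^ r j = 1) :
    ∀ w ∈ relators p q h r, FreeGroup.lift τ w = 1 := by
  intro w hw
  rcases hw with (hw | ⟨j, h1, h2, rfl⟩) | ⟨j, h1, h2, rfl⟩
  · simp only [Set.mem_insert_iff, Set.mem_singleton_iff] at hw
    rcases hw with rfl | rfl | rfl | rfl | rfl | rfl
    · rw [map_pow, FreeGroup.lift_apply_of, hinv]
    · rw [map_pow, FreeGroup.lift_apply_of, hinv]
    · rw [map_pow, FreeGroup.lift_apply_of, hinv]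
    · rw [map_pow, map_mul, FreeGroup.lift_apply_of, FreeGroup.lift_apply_of]
      have := hh 1 le_rfl (by omega)
      simpa [holeOf, hol] using this
    · rw [map_pow, map_mul, FreeGroup.lift_apply_of, FreeGroup.lift_apply_of, hrot]
    · rw [map_pow, map_mul, FreeGroup.lift_apply_of, FreeGroup.lift_apply_of, sq, mul_assoc,
        ← mul_assoc (τ 2), ← hcomm, mul_assoc, ← sq (τ 2), hinv, mul_one, ← sq, hinv]
  · have e : FreeGroup.lift τ (holeWord j) = holeOf τ j := by
      unfold holeWord holeOf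
      simp only [map_mul, map_pow, FreeGroup.lift_apply_of]
    rw [map_pow, e]
    have := hh j (by omega) h2
    rwa [hol, if_neg (by omega)] at this
  · have e : FreeGroup.lift τ (zigzagWord j) = zigzagOf τ j := by
      unfold zigzagWord zigzagOf
      simp only [map_mul, map_pow, FreeGroup.lift_apply_of]
    rw [map_pow, e]
    exact hz j h1 h2

section main

variable {G : Type} [Group G] [Finite G] {ρ : Fin 3 → G}

lemma bounds (hP : HasLengths p q h r ρ) (hp : p ≠ 0) (hs : lenSum p q h r ≤ 1 / 2) :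
    3 ≤ q ∧ 3 ≤ p ∧ ∀ τ ∈ tok p q h r, 3 ≤ ex p h r τ := by
  have h1 := (sum_tok (p := p) (q := q) (h := h) (r := r)).trans hs
  have hnn : ∀ τ : ℕ × Bool, (0 : ℚ) ≤ 1 / (ex p h r τ : ℚ) := fun τ => by positivity
  have hsum : (0 : ℚ) ≤ ∑ τ ∈ tok p q h r, 1 / (ex p h r τ : ℚ) :=
    Finset.sum_nonneg fun τ _ => hnn τ
  have hq0 : q ≠ 0 := by
    intro h0
    have h2 := hP.deg
    rw [h0, orderOf_eq_zero_iff] at h2
    exact h2 (isOfFinOrder_of_finite _)
  have hqpos : (0 : ℚ) < 1 / (q : ℚ) := by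
    have : (0 : ℚ) < q := by exact_mod_cast Nat.pos_of_ne_zero hq0
    positivity
  have hq2 : 2 ≤ q := by
    by_contra hcon
    have : q = 1 := by omega
    subst this
    have : (1 : ℚ) / ((1 : ℕ) : ℚ) = 1 := by norm_num
    rw [this] at h1
    linarith
  have hppos : (0 : ℚ) < 1 / (p : ℚ) := by
    have : (0 : ℚ) < p := by exact_mod_cast Nat.pos_of_ne_zero hp
    positivity
  have hq3 : 3 ≤ q := by
    by_contra hcon
    have : q = 2 := by omega
    subst this
    unfold lenSum at hs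
    have e : Finset.Icc 1 (2 / 2) = {1} := by decide
    rw [e, Finset.sum_singleton] at hs
    simp only [mul_one, if_true, hol] at hs
    have h3 := le_max_left (1 / (p : ℚ)) (1 / (r 1 : ℚ))
    have h4 : (1 : ℚ) / ((2 : ℕ) : ℚ) = 1 / 2 := by norm_num
    rw [h4] at hs
    linarith
  have htok : ∀ τ ∈ tok p q h r, 3 ≤ ex p h r τ := by
    intro τ hτ
    have h2 := Finset.single_le_sum (f := fun τ => 1 / (ex p h r τ : ℚ)) (fun τ _ => hnn τ) hτ
    have h3 : 1 / (ex p h r τ : ℚ) < 1 / 2 := by linarith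
    have h4 : ex p h r τ ≠ 0 := by
      rw [mem_tok] at hτ
      unfold ex
      split_ifs with h5
      · exact (hτ.2.1 h5).1
      · exact (hτ.2.2 (by simpa using h5)).1
    have h5 : (0 : ℚ) < ex p h r τ := by exact_mod_cast Nat.pos_of_ne_zero h4
    rw [one_div_lt_one_div h5 (by norm_num)] at h3
    have : 2 < ex p h r τ := by exact_mod_cast h3
    exact this
  refine ⟨hq3, ?_, htok⟩
  have h2 : (1, true) ∈ tok p q h r := by
    rw [mem_tok]
    refine ⟨⟨le_rfl, by simp only; omega⟩, fun _ => ⟨by simpa [hol] using hp, fun h => ?_⟩,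
      fun h => by simp at h⟩
    simp only at h
    omega
  have := htok _ h2
  simpa [ex, hol] using this

lemma tok_order (hP : HasLengths p q h r ρ) {τ : ℕ × Bool} (hτ : τ ∈ tok p q h r) :
    orderOf (ρ 0 * dl ρ τ) = ex p h r τ := by
  rw [mem_tok] at hτ
  obtain ⟨⟨h1, h2⟩, h3, h4⟩ := hτ
  obtain ⟨j, b⟩ := τ
  cases b
  · rw [← zigzagOf_eq]
    exact hP.zigzags j h1 h2 (h4 rfl).1
  · rw [← holeOf_eq]
    exact hP.holes j h1 h2 (h3 rfl).1

lemma not_mem_zpowers {x y : G} (hx : 3 ≤ orderOf x) (hxy : y * x = x⁻¹ * y) :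
    y ∉ Subgroup.zpowers x := by
  rintro ⟨k, rfl⟩
  simp only at hxy
  rw [← zpow_add_one, ← zpow_neg_one, ← zpow_add] at hxy
  have h1 : x ^ (2 : ℤ) = 1 := by
    have : x ^ ((k + 1) - (-1 + k)) = 1 := by rw [zpow_sub, hxy, mul_inv_cancel]
    rwa [show (k + 1) - (-1 + k) = (2 : ℤ) by ring] at this
  have h2 : x ^ 2 = 1 := by exact_mod_cast h1
  have := Nat.le_of_dvd (by norm_num) (orderOf_dvd_of_pow_eq_one h2)
  omega

lemma rot_conj (hinv : ∀ i, ρ i ^ 2 = 1) : ρ 2 * (ρ 1 * ρ 2) = (ρ 1 * ρ 2)⁻¹ * ρ 2 := by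
  rw [ba_inv (hinv 1) (hinv 2), mul_assoc]

lemma exists_a (F : Type) [Field F] (hP : HasLengths p q h r ρ) (hp : p ≠ 0)
    (hs : lenSum p q h r ≤ 1 / 2) :
    ∃ a ∈ inv F (Subgroup.zpowers (ρ 2)),
      (∀ τ ∈ tok p q h r, cyc (ρ 0) (ρ 0 * dl ρ τ) (ex p h r τ) a = 0) ∧
      a ∉ inv F (Subgroup.closure {ρ 1, ρ 2}) ⊔ inv F (Subgroup.closure {ρ 0, ρ 2}) := by
  classical
  have hinv := hP.stringC.invol
  have hcomm := hP.stringC.comm
  obtain ⟨hq3, hp3, htok⟩ := bounds hP hp hs
  have hfin := Fintype.ofFinite G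
  obtain ⟨W', hW1, hW2, hW3⟩ := finrank_steps (inv F (Subgroup.zpowers (ρ 2)))
    (fun τ => anti F (ρ 0 * dl ρ τ) (rf ρ τ))
    (fun τ => cyc (ρ 0) (ρ 0 * dl ρ τ) (ex p h r τ)) (tok p q h r) (by
      intro τ hτ a ha
      refine cyc_anti ?_ (hinv 0) (hinv 2) hcomm ?_ (rf_conj hinv hcomm τ) ha
      · rw [← tok_order hP hτ]; exact pow_orderOf_eq_one _
      · unfold rf
        split_ifs
        · left; rfl
        · right; rfl)
  by_contra hcon
  push Not at hcon
  have hT : W' ≤ inv F (Subgroup.closure {ρ 1, ρ 2}) ⊔ inv F (Subgroup.closure {ρ 0, ρ 2}) :=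
    fun a ha => hcon a (hW1 ha) (fun τ hτ => hW2 τ hτ a ha)
  -- the dimensions
  have ρ2ord : orderOf (ρ 2) = 2 := orderOf_eq_prime (hinv 2) (hP.stringC.ne_one 2)
  have e1 := finrank_inv (F := F) (Subgroup.zpowers (ρ 2))
  rw [Nat.card_zpowers, ρ2ord] at e1
  have e2 := finrank_inv (F := F) (Subgroup.closure {ρ 1, ρ 2})
  have e3 := finrank_inv (F := F) (Subgroup.closure {ρ 0, ρ 2})
  have c2 : 2 * q ≤ Nat.card (Subgroup.closure {ρ 1, ρ 2}) := by
    rw [← hP.deg]
    apply card_ge (τ := ρ 2)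
    · exact Subgroup.mul_mem _ (Subgroup.subset_closure (by simp))
        (Subgroup.subset_closure (by simp))
    · exact Subgroup.subset_closure (by simp)
    · apply not_mem_zpowers (by rw [hP.deg]; exact hq3) (rot_conj hinv)
  have c3 : 4 ≤ Nat.card (Subgroup.closure {ρ 0, ρ 2}) := by
    have h02 : ρ 0 ∉ Subgroup.zpowers (ρ 2) := by
      intro hmem
      have h1 := hP.stringC.inter {0} {2}
      have h2 : ({0} ∩ {2} : Set (Fin 3)) = ∅ := by
        ext i; fin_cases i <;> simp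
      rw [h2, Set.image_empty, Subgroup.closure_empty, Set.image_singleton,
        Set.image_singleton, ← Subgroup.zpowers_eq_closure, ← Subgroup.zpowers_eq_closure] at h1
      have h3 : ρ 0 ∈ (⊥ : Subgroup G) := by
        rw [← h1]; exact ⟨Subgroup.mem_zpowers _, hmem⟩
      exact hP.stringC.ne_one 0 (Subgroup.mem_bot.1 h3)
    have := card_ge (H := Subgroup.closure {ρ 0, ρ 2}) (w := ρ 2) (τ := ρ 0)
      (Subgroup.subset_closure (by simp)) (Subgroup.subset_closure (by simp)) h02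
    rw [ρ2ord] at this
    exact this
  have e4 := Submodule.finrank_sup_add_finrank_inf_eq (inv F (Subgroup.closure {ρ 1, ρ 2}))
    (inv F (Subgroup.closure {ρ 0, ρ 2}))
  have e5 : 1 ≤ finrank F (inv F (Subgroup.closure {ρ 1, ρ 2}) ⊓
      inv F (Subgroup.closure {ρ 0, ρ 2}) : Submodule F (G → F)) := by
    rw [Nat.one_le_iff_ne_zero]
    intro h0
    rw [Submodule.finrank_eq_zero] at h0
    have h1 : (fun _ => 1 : G → F) ∈ (inv F (Subgroup.closure {ρ 1, ρ 2}) ⊓
      inv F (Subgroup.closure {ρ 0, ρ 2}) : Submodule F (G → F)) :=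
      ⟨fun _ _ _ => rfl, fun _ _ _ => rfl⟩
    rw [h0, Submodule.mem_bot] at h1
    have := congrFun h1 1
    simp at this
  have e6 := Submodule.finrank_mono hT
  have e7 : ∀ τ ∈ tok p q h r, finrank F (anti F (ρ 0 * dl ρ τ) (rf ρ τ)) *
      (2 * ex p h r τ) ≤ Nat.card G := by
    intro τ hτ
    have h1 := finrank_anti (F := F) (w := ρ 0 * dl ρ τ) (τ := rf ρ τ)
      (not_mem_zpowers (by rw [tok_order hP hτ]; exact htok τ hτ) (rf_conj hinv hcomm τ))
    rwa [tok_order hP hτ] at h1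
  -- to the rationals
  set N : ℚ := (Nat.card G : ℚ) with hN
  have hNpos : 0 < N := by
    rw [hN]; exact_mod_cast Nat.card_pos
  have hq0 : (0 : ℚ) < q := by
    have : 0 < q := by omega
    exact_mod_cast this
  have f1 : (finrank F (inv F (Subgroup.zpowers (ρ 2))) : ℚ) = N / 2 := by
    rw [eq_div_iff (by norm_num), hN]; exact_mod_cast e1
  have f2 : (finrank F (inv F (Subgroup.closure {ρ 1, ρ 2})) : ℚ) ≤ N / 2 * (1 / q) := by
    rw [div_mul_div_comm, mul_one, le_div_iff₀ (by positivity), hN]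
    calc (finrank F (inv F (Subgroup.closure {ρ 1, ρ 2})) : ℚ) * (2 * q)
        ≤ (finrank F (inv F (Subgroup.closure {ρ 1, ρ 2})) : ℚ) *
          (Nat.card (Subgroup.closure {ρ 1, ρ 2}) : ℚ) := by
          apply mul_le_mul_of_nonneg_left _ (by positivity)
          exact_mod_cast c2
      _ = (Nat.card G : ℚ) := by exact_mod_cast e2
  have f3 : (finrank F (inv F (Subgroup.closure {ρ 0, ρ 2})) : ℚ) ≤ N / 4 := by
    rw [le_div_iff₀ (by norm_num), hN]
    calc (finrank F (inv F (Subgroup.closure {ρ 0, ρ 2})) : ℚ) * 4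
        ≤ (finrank F (inv F (Subgroup.closure {ρ 0, ρ 2})) : ℚ) *
          (Nat.card (Subgroup.closure {ρ 0, ρ 2}) : ℚ) := by
          apply mul_le_mul_of_nonneg_left _ (by positivity)
          exact_mod_cast c3
      _ = (Nat.card G : ℚ) := by exact_mod_cast e3
  have f7 : ∀ τ ∈ tok p q h r, (finrank F (anti F (ρ 0 * dl ρ τ) (rf ρ τ)) : ℚ) ≤
      N / 2 * (1 / ex p h r τ) := by
    intro τ hτ
    have h3 := htok τ hτ
    have h4 : (0 : ℚ) < ex p h r τ := by
      have : 0 < ex p h r τ := by omega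
      exact_mod_cast this
    rw [div_mul_div_comm, mul_one, le_div_iff₀ (by positivity), hN]
    exact_mod_cast e7 τ hτ
  have f8 : ((∑ τ ∈ tok p q h r, finrank F (anti F (ρ 0 * dl ρ τ) (rf ρ τ)) : ℕ) : ℚ) ≤
      N / 2 * ∑ τ ∈ tok p q h r, (1 / (ex p h r τ : ℚ)) := by
    push_cast
    rw [Finset.mul_sum]
    exact Finset.sum_le_sum f7
  have f9 : (finrank F (inv F (Subgroup.zpowers (ρ 2))) : ℚ) ≤
      (finrank F (inv F (Subgroup.closure {ρ 1, ρ 2})) : ℚ) +
      (finrank F (inv F (Subgroup.closure {ρ 0, ρ 2})) : ℚ) - 1 +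
      ((∑ τ ∈ tok p q h r, finrank F (anti F (ρ 0 * dl ρ τ) (rf ρ τ)) : ℕ) : ℚ) := by
    have : finrank F (inv F (Subgroup.zpowers (ρ 2))) + 1 ≤
      finrank F (inv F (Subgroup.closure {ρ 1, ρ 2})) +
      finrank F (inv F (Subgroup.closure {ρ 0, ρ 2})) +
      ∑ τ ∈ tok p q h r, finrank F (anti F (ρ 0 * dl ρ τ) (rf ρ τ)) := by omega
    have h2 : ((finrank F (inv F (Subgroup.zpowers (ρ 2))) + 1 : ℕ) : ℚ) ≤
      ((finrank F (inv F (Subgroup.closure {ρ 1, ρ 2})) +
      finrank F (inv F (Subgroup.closure {ρ 0, ρ 2})) +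
      ∑ τ ∈ tok p q h r, finrank F (anti F (ρ 0 * dl ρ τ) (rf ρ τ)) : ℕ) : ℚ) := by
      exact_mod_cast this
    rw [Nat.cast_add, Nat.cast_add, Nat.cast_add, Nat.cast_one] at h2
    linarith
  have f10 := (sum_tok (p := p) (q := q) (h := h) (r := r)).trans hs
  have f11 : N / 2 * (1 / q + ∑ τ ∈ tok p q h r, (1 / (ex p h r τ : ℚ))) ≤ N / 2 * (1 / 2) :=
    mul_le_mul_of_nonneg_left f10 (by positivity)
  rw [mul_add] at f11
  rw [f1] at f9
  linarith

/-- the generators of the cover -/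
def rh {F : Type} [Field F] (ρ : Fin 3 → G) (a : G → F) : Fin 3 → WR G F :=
  ![WR.tw (ρ 0) a, WR.emb (ρ 1), WR.emb (ρ 2)]

lemma rh_g {F : Type} [Field F] (a : G → F) (i : Fin 3) : (rh ρ a i).g = ρ i := by
  fin_cases i <;> rfl

lemma dl_rh {F : Type} [Field F] (a : G → F) (τ : ℕ × Bool) :
    dl (rh ρ a) τ = WR.emb (dl ρ τ) := by
  have h1 : rh ρ a 1 = WR.emb (ρ 1) := rfl
  have h2 : rh ρ a 2 = WR.emb (ρ 2) := rfl
  unfold dl
  rw [h1, h2]
  split_ifs <;> simp only [map_mul, map_pow]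

lemma rh_rel {F : Type} [Field F] (hP : HasLengths p q h r ρ) (hp : p ≠ 0)
    (hs : lenSum p q h r ≤ 1 / 2) {a : G → F} (ha : a ∈ inv F (Subgroup.zpowers (ρ 2)))
    (hc : ∀ τ ∈ tok p q h r, cyc (ρ 0) (ρ 0 * dl ρ τ) (ex p h r τ) a = 0) :
    ∀ w ∈ relators p q h r, FreeGroup.lift (rh ρ a) w = 1 := by
  have hinv := hP.stringC.invol
  have hcomm := hP.stringC.comm
  obtain ⟨hq3, hp3, htok⟩ := bounds hP hp hs
  have hinv' : ∀ i, rh ρ a i ^ 2 = 1 := by
    intro i
    fin_cases i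
    · exact WR.tw_sq (hinv 0) a
    · change WR.emb (ρ 1) ^ 2 = 1
      rw [← map_pow, hinv, map_one]
    · change WR.emb (ρ 2) ^ 2 = 1
      rw [← map_pow, hinv, map_one]
  have ha2 : ∀ x, a (x * ρ 2) = a x := fun x => ha (ρ 2) (Subgroup.mem_zpowers (ρ 2)) x
  have hcomm' : rh ρ a 0 * rh ρ a 2 = rh ρ a 2 * rh ρ a 0 := by
    apply WR.ext
    · funext x
      change a (x * ρ 0) - a x + 0 = 0 + (a (x * ρ 2 * ρ 0) - a (x * ρ 2))
      rw [mul_assoc, ← hcomm, ← mul_assoc, ha2, ha2]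
      ring
    · exact hcomm
  have hrot : (rh ρ a 1 * rh ρ a 2) ^ q = 1 := by
    change (WR.emb (ρ 1) * WR.emb (ρ 2)) ^ q = 1
    rw [← map_mul, ← map_pow, ← hP.deg, pow_orderOf_eq_one, map_one]
  have key : ∀ τ ∈ tok p q h r, (rh ρ a 0 * dl (rh ρ a) τ) ^ ex p h r τ = 1 := by
    intro τ hτ
    rw [dl_rh]
    apply WR.ext
    · funext x
      have h1 := congrFun (hc τ hτ) x
      rw [cyc_apply] at h1
      change ((WR.tw (ρ 0) a * WR.emb (dl ρ τ)) ^ ex p h r τ).s x = 0
      rw [WR.tw_pow_s]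
      exact h1
    · rw [WR.pow_g]
      change (ρ 0 * dl ρ τ) ^ ex p h r τ = 1
      rw [← tok_order hP hτ, pow_orderOf_eq_one]
  have htrue : ∀ j, (j, true) ∈ tok p q h r → holeOf (rh ρ a) j ^ hol p h j = 1 := by
    intro j hj
    have := key _ hj
    rw [← holeOf_eq] at this
    simpa [ex] using this
  have hfalse : ∀ j, (j, false) ∈ tok p q h r → zigzagOf (rh ρ a) j ^ r j = 1 := by
    intro j hj
    have := key _ hj
    rw [← zigzagOf_eq] at this
    simpa [ex] using this
  have hstr : ∀ j, 1 ≤ j → 2 * j = q → hol p h j ≠ 0 → r j ≠ 0 →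
      (hol p h j ≤ r j → hol p h j ∣ r j ∧ Even (r j)) ∧ (r j < hol p h j →
        hol p h j = 2 * r j) := by
    intro j h1 h2 h3 h4
    obtain ⟨e1, e2⟩ := straight_eq hinv hcomm h1 (by rw [h2, ← hP.deg, pow_orderOf_eq_one])
    exact straight_orders e1 e2 (hinv 2) (hP.stringC.ne_one 2) (hP.holes j h1 h2.le h3)
      (hP.zigzags j h1 h2.le h4) h3 h4
  apply lift_one _ (by omega) hinv' hcomm' hrot
  · intro j h1 h2
    by_cases h3 : hol p h j = 0
    · rw [h3, pow_zero]
    by_cases h4 : 2 * j = q → r j = 0 ∨ hol p h j ≤ r j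
    · apply htrue
      rw [mem_tok]
      exact ⟨⟨h1, h2⟩, fun _ => ⟨h3, h4⟩, fun h => by simp at h⟩
    · push Not at h4
      obtain ⟨h5, h6, h7⟩ := h4
      have h8 := hfalse j (by
        rw [mem_tok]
        exact ⟨⟨h1, h2⟩, fun h => by simp at h, fun _ => ⟨h6, fun _ => Or.inr h7⟩⟩)
      have h9 := (hstr j h1 h5 h3 h6).2 h7
      obtain ⟨e1, e2⟩ := straight_eq hinv' hcomm' h1 (by rw [h5, hrot])
      rw [e1, e2.mul_pow, h9, pow_mul (rh ρ a 2), hinv', one_pow, mul_one, mul_comm, pow_mul, h8,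
        one_pow]
  · intro j h1 h2
    by_cases h3 : r j = 0
    · rw [h3, pow_zero]
    by_cases h4 : 2 * j = q → hol p h j = 0 ∨ r j < hol p h j
    · apply hfalse
      rw [mem_tok]
      exact ⟨⟨h1, h2⟩, fun h => by simp at h, fun _ => ⟨h3, h4⟩⟩
    · push Not at h4
      obtain ⟨h5, h6, h7⟩ := h4
      have h8 := htrue j (by
        rw [mem_tok]
        exact ⟨⟨h1, h2⟩, fun _ => ⟨h6, fun _ => Or.inr h7⟩, fun h => by simp at h⟩)
      obtain ⟨⟨c, hc'⟩, ⟨d, hd⟩⟩ := (hstr j h1 h5 h6 h3).1 h7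
      obtain ⟨e1, e2⟩ := straight_eq hinv' hcomm' h1 (by rw [h5, hrot])
      have h10 : holeOf (rh ρ a) j ^ r j = 1 := by rw [hc', pow_mul, h8, one_pow]
      rw [e1, e2.mul_pow, hd, ← two_mul, pow_mul (rh ρ a 2), hinv', one_pow, mul_one] at h10
      rw [hd, ← two_mul]
      exact h10

/-- A finite cover of order at least `N` with the same lengths. -/
theorem cover (hP : HasLengths p q h r ρ) (hp : p ≠ 0) (hs : lenSum p q h r ≤ 1 / 2) (N : ℕ) :
    ∃ (Q : Type) (_ : Group Q) (φ : Gam p q h r →* Q) (π : Q →* G),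
      Finite Q ∧ Function.Surjective φ ∧ N ≤ Nat.card Q ∧
      HasLengths p q h r (fun i => φ (rho p q h r i)) ∧ ∀ i, π (φ (rho p q h r i)) = ρ i := by
  classical
  obtain ⟨hq3, hp3, htok⟩ := bounds hP hp hs
  obtain ⟨l, hl, hlp⟩ := Nat.exists_infinite_primes (max N (Nat.card G + 1))
  have hfact : Fact l.Prime := ⟨hlp⟩
  have hfinG := Fintype.ofFinite G
  obtain ⟨a, ha, hc, hn⟩ := exists_a (ZMod l) hP hp hs
  have hrel := rh_rel hP hp hs ha hc
  let Ψ : Gam p q h r →* WR G (ZMod l) := PresentedGroup.toGroup hrel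
  have hΨ : ∀ i, Ψ (rho p q h r i) = rh ρ a i := fun i => PresentedGroup.toGroup.of _
  have hfinW : Finite (WR G (ZMod l)) := by
    apply Finite.of_injective (fun x : WR G (ZMod l) => (x.s, x.g))
    intro x y hxy
    exact WR.ext (Prod.mk.inj hxy).1 (Prod.mk.inj hxy).2
  let π : Ψ.range →* G := WR.pr.comp Ψ.range.subtype
  have hπ : ∀ i, π (Ψ.rangeRestrict (rho p q h r i)) = ρ i := by
    intro i
    change (Ψ (rho p q h r i)).g = ρ i
    rw [hΨ, rh_g]
  refine ⟨Ψ.range, inferInstance, Ψ.rangeRestrict, π, inferInstance,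
    MonoidHom.rangeRestrict_surjective _, ?_, ?_, hπ⟩
  · -- the order of the cover
    have hex : ∃ e : Ψ.range, π e = 1 ∧ e ≠ 1 := by
      by_contra hcon
      push Not at hcon
      have hinj : Function.Injective π := by
        rw [injective_iff_map_eq_one]; exact hcon
      have hsurj : Function.Surjective π := by
        rw [← MonoidHom.range_eq_top, eq_top_iff, ← hP.stringC.gen, Subgroup.closure_le]
        rintro _ ⟨i, rfl⟩
        exact ⟨_, hπ i⟩
      choose σ hσ using hsurj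
      have hσm : ∀ x y, σ (x * y) = σ x * σ y := by
        intro x y
        apply hinj
        rw [hσ, map_mul, hσ, hσ]
      have hσρ : ∀ i, σ (ρ i) = Ψ.rangeRestrict (rho p q h r i) := by
        intro i
        apply hinj
        rw [hσ, hπ]
      set c : ZMod l := (Fintype.card G : ZMod l) with hcdef
      have hc0 : c ≠ 0 := by
        rw [hcdef, Ne, ZMod.natCast_eq_zero_iff]
        intro hd
        have h1 := Nat.le_of_dvd Fintype.card_pos hd
        have h2 := le_trans (le_max_right N (Nat.card G + 1)) hl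
        rw [Nat.card_eq_fintype_card] at h2
        omega
      set w0 : G → ZMod l := fun x => c⁻¹ * ∑ g : G, (σ g).1.s x with hw0
      have hcoc : ∀ g x, (σ g).1.s x = w0 x - w0 (x * g) := by
        intro g x
        have h1 : ∀ g', (σ (g * g')).1.s x = (σ g).1.s x + (σ g').1.s (x * g) := by
          intro g'
          rw [hσm]
          have h2 : ((σ g * σ g' : Ψ.range) : WR G (ZMod l)).s x =
            (σ g).1.s x + (σ g').1.s (x * (σ g).1.g) := rfl
          rw [h2]
          have h3 : (σ g).1.g = g := hσ g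
          rw [h3]
        have h2 : ∑ g' : G, (σ (g * g')).1.s x = ∑ g' : G, (σ g').1.s x :=
          Equiv.sum_comp (Equiv.mulLeft g) (fun g' => (σ g').1.s x)
        simp_rw [h1] at h2
        rw [Finset.sum_add_distrib, Finset.sum_const, Finset.card_univ, nsmul_eq_mul] at h2
        have h3 : (σ g).1.s x = c⁻¹ * (c * (σ g).1.s x) := by
          rw [← mul_assoc, inv_mul_cancel₀ hc0, one_mul]
        rw [h3, hw0]
        simp only
        rw [← mul_sub]
        congr 1
        rw [← h2]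
        ring
      apply hn
      have h0 : ∀ x, w0 (x * ρ 1) = w0 x ∧ w0 (x * ρ 2) = w0 x := by
        intro x
        constructor
        · have h1 := hcoc (ρ 1) x
          rw [hσρ] at h1
          have h2 : (Ψ (rho p q h r 1)).s x = w0 x - w0 (x * ρ 1) := h1
          rw [hΨ] at h2
          have h3 : (rh ρ a 1).s x = 0 := rfl
          rw [h3] at h2
          exact (sub_eq_zero.1 h2.symm).symm
        · have h1 := hcoc (ρ 2) x
          rw [hσρ] at h1
          have h2 : (Ψ (rho p q h r 2)).s x = w0 x - w0 (x * ρ 2) := h1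
          rw [hΨ] at h2
          have h3 : (rh ρ a 2).s x = 0 := rfl
          rw [h3] at h2
          exact (sub_eq_zero.1 h2.symm).symm
      have h1 : -w0 ∈ inv (ZMod l) (Subgroup.closure {ρ 1, ρ 2}) := by
        apply inv_closure
        rintro g (rfl | hg) x
        · simp only [Pi.neg_apply, (h0 x).1]
        · rw [Set.mem_singleton_iff] at hg
          subst hg
          simp only [Pi.neg_apply, (h0 x).2]
      have h2 : a + w0 ∈ inv (ZMod l) (Subgroup.closure {ρ 0, ρ 2}) := by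
        apply inv_closure
        rintro g (rfl | hg) x
        · have h3 := hcoc (ρ 0) x
          rw [hσρ] at h3
          have h4 : (Ψ (rho p q h r 0)).s x = w0 x - w0 (x * ρ 0) := h3
          rw [hΨ] at h4
          have h5 : (rh ρ a 0).s x = a (x * ρ 0) - a x := rfl
          rw [h5] at h4
          simp only [Pi.add_apply]
          linear_combination h4
        · rw [Set.mem_singleton_iff] at hg
          subst hg
          simp only [Pi.add_apply, (h0 x).2]
          rw [ha (ρ 2) (Subgroup.mem_zpowers _) x]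
      have h3 : a = -w0 + (a + w0) := by ring
      rw [h3]
      exact Submodule.add_mem_sup h1 h2
    obtain ⟨e, he1, he2⟩ := hex
    have hord : orderOf e = l := by
      apply orderOf_eq_prime _ he2
      apply Subtype.ext
      apply WR.ext
      · funext x
        change (e.1 ^ l).s x = 0
        rw [WR.pow_s]
        have h1 : e.1.g = 1 := he1
        simp only [h1, one_pow, mul_one, Finset.sum_const, Finset.card_range, nsmul_eq_mul,
          CharP.cast_eq_zero, zero_mul]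
      · change (e.1 ^ l).g = 1
        rw [WR.pow_g]
        have h1 : e.1.g = 1 := he1
        rw [h1, one_pow]
    have h1 : l ∣ Nat.card Ψ.range := hord.symm.dvd.trans (orderOf_dvd_natCard e)
    have h2 := Nat.le_of_dvd Nat.card_pos h1
    exact (le_trans (le_max_left N (Nat.card G + 1)) hl).trans h2
  · apply between _ (MonoidHom.rangeRestrict_surjective _) π _ hp3 hq3
    have e : (fun i => π (Ψ.rangeRestrict (rho p q h r i))) = ρ := by
      funext i; exact hπ i
    rw [e]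
    exact hP

end main

end Pool.Agent.Helper477_holes.Twin
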